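import Mathlib

/-!
Definitions for the coarse planarity dichotomy: fat minors, asymptotic minors, planar graphs,
quasi-isometric graphs and amenable graphs.
-/

namespace Pool.Agent.MP_77f003_co.H49

/-- `H` is a `K`-fat minor of `G`: connected subgraphs `B v` and paths `p e`, the path of an edge
joining the subgraphs of its two endpoints, all at distance at least `K` from each other except a
path and the subgraph of one of its endpoints. -/
def FatMinor {W V : Type} (H : SimpleGraph W) (G : SimpleGraph V) (K : ℕ) : Prop :=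
  ∃ (B : W → G.Subgraph) (a b : H.edgeSet → V) (p : ∀ e, G.Walk (a e) (b e)),
    (∀ v, (B v).Connected) ∧ (∀ e, (p e).IsPath) ∧
    (∀ e : H.edgeSet, ∃ u v, (e : Sym2 W) = s(u, v) ∧ a e ∈ (B u).verts ∧ b e ∈ (B v).verts) ∧
    (∀ u v, u ≠ v → ∀ x ∈ (B u).verts, ∀ y ∈ (B v).verts, (K : ℕ∞) ≤ G.edist x y) ∧
    (∀ e f, e ≠ f → ∀ x ∈ (p e).support, ∀ y ∈ (p f).support, (K : ℕ∞) ≤ G.edist x y) ∧
    (∀ (e : H.edgeSet) (v : W), v ∉ (e : Sym2 W) →
      ∀ x ∈ (p e).support, ∀ y ∈ (B v).verts, (K : ℕ∞) ≤ G.edist x y)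

/-- `H` is an asymptotic minor of `G`: a `K`-fat minor for every `K > 0`. -/
def AsymptoticMinor {W V : Type} (H : SimpleGraph W) (G : SimpleGraph V) : Prop :=
  ∀ K : ℕ, 0 < K → FatMinor H G K

/-- `P` has a drawing in the plane without crossings: distinct points for the vertices and a simple
arc for each edge between the points of its endpoints, whose interior contains no vertex point
and no point of another arc. -/
def Planar {W : Type} (P : SimpleGraph W) : Prop :=
  ∃ (pos : W → ℝ × ℝ) (arc : P.edgeSet → C(unitInterval, ℝ × ℝ)),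
    Function.Injective pos ∧ (∀ e, Function.Injective (arc e)) ∧
    (∀ e : P.edgeSet, ∃ u v, (e : Sym2 W) = s(u, v) ∧ arc e 0 = pos u ∧ arc e 1 = pos v) ∧
    (∀ e t, t ≠ 0 → t ≠ 1 → (∀ w, arc e t ≠ pos w) ∧ ∀ f, f ≠ e → ∀ s, arc e t ≠ arc f s)

/-- The vertex sets of `G` and `P` with their graph distances are quasi-isometric (used for
connected graphs). -/
def QuasiIsometric {V W : Type} (G : SimpleGraph V) (P : SimpleGraph W) : Prop :=
  ∃ (f : V → W) (A B : ℝ), 1 ≤ A ∧ 0 ≤ B ∧
    (∀ x y, (G.dist x y : ℝ) / A - B ≤ P.dist (f x) (f y) ∧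
      (P.dist (f x) (f y) : ℝ) ≤ A * G.dist x y + B) ∧
    ∀ w, ∃ x, (P.dist w (f x) : ℝ) ≤ B

/-- `G` is amenable: there are finite nonempty vertex sets `F` whose outer vertex boundary is an
arbitrarily small fraction of `F`. -/
def Amenable {V : Type} (G : SimpleGraph V) : Prop :=
  ∀ ε : ℝ, 0 < ε → ∃ F : Finset V, F.Nonempty ∧
    (({y | y ∉ F ∧ ∃ x ∈ F, G.Adj x y} : Set V).ncard : ℝ) ≤ ε * F.card

end Pool.Agent.MP_77f003_co.H49
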