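import Pool.Agent.MP_77f003_co.H51.RL

/-!
A rotating group with a fixed point far out has orbits that are connected at a bounded scale.
-/

namespace Pool.Agent.MP_77f003_co.H49

namespace FinP

open SimpleGraph Filter Set MulAction

variable {V : Type} {G : SimpleGraph V} [Fact G.Connected] {κ N s : ℕ} {Y C C' : Set V}
  {R : ZMod N → ℕ → V} {pos : V → ZMod N} {lev : V → ℕ} {u u' : V} {A A' : ℤ}

theorem mid (o y : V) (s : ℕ) : ∃ p, G.dist o p ≤ s ∧ G.dist p y ≤ G.dist o y - s := by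
  obtain ⟨q, q0, q1, q2⟩ := exists_geo (G := G) o y
  rcases le_total s (G.dist o y) with h | h
  · exact ⟨q s, by simpa [q0] using dist_geo_le q2 s.zero_le h,
      by simpa [q1] using dist_geo_le q2 h le_rfl⟩
  · exact ⟨y, h, by simp⟩

/-- The points of a leg. -/
def Leg (G : SimpleGraph V) (κ s : ℕ) (Y : Set V) (lev : V → ℕ) (C : Set V) (u y : V) : Prop :=
  ∃ j, s + j ≤ lev y ∧ (∃ p ∈ C, G.dist p y ≤ j) ∧ G.dist y u ≤ 12 * κ + 3 ∧
    dp G Y y ≤ 11 * κ + 2 - G.dist y u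

/-- The points of an upper part. -/
def Upp (G : SimpleGraph V) (κ : ℕ) (Y : Set V) (pos : V → ZMod N) (A : ℤ) (y : V) : Prop :=
  10 * κ + 2 ≤ dp G Y y ∧ ∃ e : ℤ, |e - A| ≤ 13 ∧ pos y = e

/-- The points of a strand. -/
def Ty (G : SimpleGraph V) (κ s : ℕ) (Y : Set V) (lev : V → ℕ) (pos : V → ZMod N) (C : Set V)
    (u : V) (A : ℤ) : Set V := {y | y ∈ C ∨ Leg G κ s Y lev C u y ∨ Upp G κ Y pos A y}

theorem far_low (hl : ∀ y y', lev y ≤ lev y' + G.dist y' y) (hC : ∀ y ∈ C, lev y ≤ s ∧ y ∈ Y)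
    (hF : Far G (2 * κ + 2) C C') : Far G κ C (Ty G κ s Y lev pos C' u' A') := by
  rintro x hx y (hy | ⟨j, h1, ⟨p, hp, h2⟩, -⟩ | ⟨h1, -⟩)
  · have := hF x hx y hy
    omega
  · have := hF x hx p hp
    have := hl y x
    have := (hC x hx).1
    have := tri (G := G) x y p
    have := dcomm (G := G) y p
    omega
  · have := dp_le (G := G) (hC x hx).2 y
    omega

theorem far_upp (h : PS G κ Y R pos) (hN : 3 ≤ N) (hu : ∃ e : ℤ, |e - A'| ≤ 13 ∧ pos u' = e)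
    (hA : ∀ e e' : ℤ, |e - A| ≤ 14 → |e' - A'| ≤ 14 → (e : ZMod N) ≠ e') {x y : V}
    (hx : Upp G κ Y pos A x) (hy : Leg G κ s Y lev C' u' y ∨ Upp G κ Y pos A' y) :
    κ ≤ G.dist x y := by
  by_contra c
  obtain ⟨h1, e, h2, h3⟩ := hx
  have key : ∀ v, G.dist x v ≤ 8 * κ → ¬ ∃ e : ℤ, |e - A'| ≤ 13 ∧ pos v = e := by
    rintro v hv ⟨e', k1, k2⟩
    obtain ⟨d, d1, d2⟩ := h.near hN h1 hv
    refine hA (e + d) e' ?_ (by omega) (by rw [← k2, d2, h3]; simp)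
    rw [abs_le] at *
    omega
  rcases hy with ⟨j, -, -, -, k⟩ | ⟨-, k⟩
  · have := dp_tri (G := G) h.ne y x
    have := tri (G := G) x y u'
    have := dcomm (G := G) y x
    exact key u' (by omega) hu
  · exact key y (by omega) k

theorem far_ty (h : PS G κ Y R pos) (hN : 3 ≤ N) (hl : ∀ y y', lev y ≤ lev y' + G.dist y' y)
    (hC : ∀ y ∈ C, lev y ≤ s ∧ y ∈ Y) (hC' : ∀ y ∈ C', lev y ≤ s ∧ y ∈ Y)
    (hF : Far G (2 * κ + 2) C C') (hu : ∃ e : ℤ, |e - A| ≤ 13 ∧ pos u = e)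
    (hu' : ∃ e : ℤ, |e - A'| ≤ 13 ∧ pos u' = e) (hd : 25 * κ + 6 < G.dist u u')
    (hA : ∀ e e' : ℤ, |e - A| ≤ 14 → |e' - A'| ≤ 14 → (e : ZMod N) ≠ e') :
    Far G κ (Ty G κ s Y lev pos C u A) (Ty G κ s Y lev pos C' u' A') := by
  intro x hx y hy
  rcases id hx with k | k | k
  · exact far_low hl hC hF x k y hy
  all_goals rcases hy with k' | k'
  · exact (far_low hl hC' hF.symm).symm x hx y k'
  · rcases k' with ⟨-, -, -, k', -⟩ | k'
    · obtain ⟨-, -, -, k, -⟩ := k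
      have := tri (G := G) u x u'
      have := tri (G := G) x y u'
      have := dcomm (G := G) u x
      omega
    · exact dcomm (G := G) y x ▸
        far_upp h hN hu (fun e e' a b => (hA e' e b a).symm) k' (Or.inl k)
  · exact (far_low hl hC' hF.symm).symm x hx y k'
  · exact far_upp h hN hu' hA k k'

theorem up [G.LocallyFinite] (h : PS G κ Y R pos) (hN : 3 ≤ N) {b : ZMod N} {k : ℕ}
    (l : Lk G {v | 11 * κ + 2 ≤ dp G Y v} u (R b k)) {e : ℤ} (he : |e - A| ≤ 12)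
    (hu : pos u = e) : ∃ (B : ℤ) (j : ℕ) (E : Set V), E.Finite ∧ |B - A| ≤ 13 ∧
      Lk G E u (R B j) ∧ ∀ y ∈ E ∪ R B '' Ici j, Upp G κ Y pos A y := by
  obtain ⟨p, hp⟩ := l
  obtain ⟨v, μ, h1, ⟨j, h2⟩, h3, h4⟩ := h.first hN p (fun z hz => by
    have : 11 * κ + 2 ≤ dp G Y z := hp z hz
    omega) ⟨b, k, by simp⟩
  have hv : pos v = ((e + dw pos μ : ℤ) : ZMod N) := by simp [dw_cast, ← hu]
  have hB : |e + dw pos μ - A| ≤ 13 := by
    rw [abs_le] at *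
    omega
  have dv : 11 * κ + 2 ≤ dp G Y v := hp v (h1 v μ.end_mem_support)
  have near : ∀ y, G.dist v y ≤ κ → 10 * κ + 2 ≤ dp G Y y := fun y hy => by
    have := dp_tri (G := G) h.ne y v
    have := dcomm (G := G) y v
    omega
  rw [hv] at h2
  refine ⟨_, j, {z | z ∈ μ.support} ∪ 
    {z | G.dist v z ≤ κ ∧ G.dist z (R (e + dw pos μ : ℤ) j) ≤ κ},
    (List.finite_toSet _).union ((finite_ball v κ).subset fun _ k => k.1), hB,
    Lk.trans ⟨μ, fun z hz => Or.inl hz⟩ (Lk.geo fun z hz => Or.inr ⟨by omega, by omega⟩), ?_⟩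
  rintro y ((hy | hy) | ⟨m, hm, rfl⟩)
  · have : 11 * κ + 2 ≤ dp G Y y := hp y (h1 y hy)
    refine ⟨by omega, ?_⟩
    rcases h4 y hy with rfl | k
    exacts [⟨_, hB, hv⟩, ⟨e, by omega, k.1.trans hu⟩]
  · have := near y hy.1
    exact ⟨this, _, hB, h.on _ j y (by omega) hy.2⟩
  · have := h.toPB.up (by omega) (near _ h2) hm
    exact ⟨this, _, hB, h.on _ m _ (by omega) (by simp)⟩

/-- The neighbourhood of an orbit. -/
def Nb (G : SimpleGraph V) (W : Subgroup (G ≃g G)) (x : V) (t : ℕ) : Set V :=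
  {v | ∃ w ∈ W, G.dist (w x) v ≤ t}

variable {W : Subgroup (G ≃g G)} {x : V} {t : ℕ} {w : G ≃g G}

omit [Fact G.Connected] in
theorem Nb.mono {t' : ℕ} (h : t ≤ t') : Nb G W x t ⊆ Nb G W x t' :=
  fun _ ⟨w, hw, k⟩ => ⟨w, hw, k.trans h⟩

theorem lk_nb (hw : w ∈ W) {v : V} (h : G.dist (w x) v ≤ t) : Lk G (Nb G W x t) (w x) v :=
  Lk.geo fun _ k => ⟨w, hw, by omega⟩

theorem conn_nb (h : ∀ w ∈ W, Lk G (Nb G W x t) x (w x)) : Conn G (Nb G W x t) := by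
  rintro a ⟨w, hw, k⟩ b ⟨w', hw', k'⟩
  exact (((lk_nb hw k).symm.trans (h w hw).symm).trans (h w' hw')).trans (lk_nb hw' k')

theorem stab_nb (hw : w ∈ W) : w ∈ (stab (Nb G W x t) : Subgroup (G ≃g G)) := fun v =>
  ⟨fun ⟨g, hg, k⟩ => ⟨w⁻¹ * g, W.mul_mem (W.inv_mem hw) hg, by
    rwa [← dist_iso w, show w ((w⁻¹ * g) x) = g x from w.apply_symm_apply _]⟩,
    fun ⟨g, hg, k⟩ => ⟨w * g, W.mul_mem hw hg, (dist_iso w (g x) v).trans_le k⟩⟩

theorem dp_nb (hw : w ∈ W) (v : V) : dp G (Nb G W x t) v ≤ G.dist (w x) v - t :=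
  let ⟨_, h1, h2⟩ := mid (G := G) (w x) v t
  (dp_le (Y := Nb G W x t) ⟨w, hw, h1⟩ v).trans h2

theorem ne_nb : (Nb G W x t).Nonempty := ⟨x, 1, W.one_mem, by simp⟩

theorem lev_ex (v : V) : ∃ w ∈ W, G.dist (w x) v = dp G (Nb G W x 0) v := by
  obtain ⟨y, ⟨w, hw, k⟩, e⟩ := dp_ex (G := G) (ne_nb (W := W) (x := x) (t := 0)) v
  exact ⟨w, hw, eq_of_dist (Nat.le_zero.1 k) ▸ e⟩

theorem lev_eq {v : V} (h : 0 < dp G (Nb G W x t) v) :
    dp G (Nb G W x 0) v = t + dp G (Nb G W x t) v := by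
  obtain ⟨w, hw, e⟩ := lev_ex (W := W) (x := x) v
  obtain ⟨y, ⟨g, hg, k⟩, e'⟩ := dp_ex (G := G) (ne_nb (W := W) (x := x) (t := t)) v
  have := dp_nb (x := x) (t := t) hw v
  have := dp_nb (x := x) (t := 0) hg v
  have := tri (G := G) (g x) y v
  omega

theorem finite_nb [G.LocallyFinite] (hW : FinOrb W) : (Nb G W x t).Finite :=
  ((hW x).biUnion fun y _ => finite_ball (G := G) y t).subset fun _ ⟨w, hw, k⟩ =>
    mem_biUnion (mem_orbit x (⟨w, hw⟩ : W)) k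

theorem strand [G.LocallyFinite] {Y : Set V} (hY : Y = Nb G W x (s + κ + 1)) (h : PS G κ Y R pos)
    (hN : 3 ≤ N) (hW : FinOrb W) {z : V} (hz : ∀ w ∈ W, w z = z)
    (hl : ∀ a, Lk G {v | 11 * κ + 2 ≤ dp G Y v} z (R a (11 * κ + 2)))
    (hp : ∀ w ∈ W, ∀ a, ∃ e : ℤ, |e| ≤ 12 ∧ pos (w (R a (11 * κ + 2))) = a + e) (hw : w ∈ W)
    (A : ℤ) : ∃ (u : V) (B : ℤ) (j : ℕ) (E : Set V), E.Finite ∧ |B - A| ≤ 13 ∧
      (∃ e : ℤ, |e - A| ≤ 13 ∧ pos u = e) ∧ Lk G E (w x) (R B j) ∧ E ∪ R B '' Ici j ⊆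
        Ty G κ s Y (dp G (Nb G W x 0)) pos {v | Lk G (Nb G W x s) (w x) v} u A := by
  have d1 := h.low A (11 * κ + 2) (by omega)
  obtain ⟨g, hg, d2⟩ := lev_ex (W := W) (x := x) (R A (11 * κ + 2))
  have hg' := W.mul_mem hw (W.inv_mem hg)
  have st : w * g⁻¹ ∈ (stab Y : Subgroup (G ≃g G)) := hY ▸ stab_nb hg'
  obtain ⟨e, e1, e2⟩ := hp _ hg' A
  obtain ⟨u, hu⟩ : ∃ u, u = (w * g⁻¹) (R A (11 * κ + 2)) := ⟨_, rfl⟩
  have d3 : dp G Y u = 11 * κ + 2 := by rw [hu, dp_map st, d1]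
  have d4 : G.dist (w x) u = s + κ + 1 + (11 * κ + 2) := by
    rw [hu, show w x = (w * g⁻¹) (g x) by simp, dist_iso, d2,
      lev_eq (t := s + κ + 1) (by rw [← hY, d1]; omega), ← hY, d1]
  have d5 : dp G (Nb G W x 0) u = s + κ + 1 + (11 * κ + 2) := by
    rw [← d3, hY]
    exact lev_eq (by rw [← hY, d3]; omega)
  have l : Lk G {v | 11 * κ + 2 ≤ dp G Y v} u (R 0 (11 * κ + 2)) := by
    refine Lk.trans ?_ (hl 0)
    have := ((hl A).symm.map (w * g⁻¹)).mono (T := {v | 11 * κ + 2 ≤ dp G Y v}) (by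
      rintro _ ⟨v, hv, rfl⟩
      rwa [mem_ofPred_eq, dp_map st])
    rwa [hz _ hg', ← hu] at this
  have pu : pos u = ((A + e : ℤ) : ZMod N) := by rw [hu, e2]; simp
  obtain ⟨B, j, E, k1, k2, k3, k4⟩ := up (A := A) h hN l (by simpa using e1) pu
  refine ⟨u, B, j, {y | G.dist (w x) y + G.dist y u ≤ G.dist (w x) u} ∪ E,
    ((finite_ball (w x) (G.dist (w x) u)).subset fun _ k =>
      (Nat.le_add_right _ _).trans k).union k1, k2,
    ⟨_, by simpa using e1.trans (by norm_num), pu⟩,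
    (Lk.geo fun _ k => Or.inl k).trans (k3.mono subset_union_right), ?_⟩
  rintro y ((hy | hy) | hy)
  · rcases le_total (G.dist (w x) y) s with c | c
    · exact Or.inl (lk_nb hw c)
    · have hy' : G.dist (w x) y + G.dist y u ≤ _ := hy
      obtain ⟨p, p1, p2⟩ := mid (G := G) (w x) y s
      have := dp_tri (G := G) (ne_nb (W := W) (x := x) (t := 0)) y u
      have := dp_nb (x := x) (t := s + κ + 1) hw y
      exact Or.inr (Or.inl ⟨G.dist (w x) y - s, by omega, ⟨p, lk_nb hw p1, p2⟩, by omega, by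
        rw [hY]; omega⟩)
  · exact Or.inr (Or.inr (k4 y (Or.inl hy)))
  · exact Or.inr (Or.inr (k4 y (Or.inr hy)))

theorem pick [G.LocallyFinite] {β r : ℕ} (hβ : ∀ v, (ball G v r).card ≤ β) (a c : V) (f : ℕ → V)
    (hf : InjOn f (Icc 1 (2 * β + 1))) :
    ∃ i, 1 ≤ i ∧ i ≤ 2 * β + 1 ∧ r < G.dist a (f i) ∧ r < G.dist c (f i) := by
  classical
  by_contra k
  have := Finset.card_le_card_of_injOn (s := Finset.Icc 1 (2 * β + 1))
    (t := ball G a r ∪ ball G c r) f (fun i hi => by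
      have hi' := Finset.mem_Icc.1 hi
      simp only [Finset.coe_union, mem_union, Finset.mem_coe, mem_ball]
      by_contra c
      exact k ⟨i, hi'.1, hi'.2, by omega, by omega⟩) (by simpa using hf)
  have := Finset.card_union_le (ball G a r) (ball G c r)
  have := hβ a
  have := hβ c
  simp only [Nat.card_Icc] at *
  omega

theorem cross [G.LocallyFinite] {β : ℕ} (hβ : ∀ v, (ball G v (25 * κ + 6)).card ≤ β)
    (hN : N = 60 * (2 * β + 2)) {Y : Set V} (hY : Y = Nb G W x (s + κ + 1)) (h : PS G κ Y R pos)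
    (hW : FinOrb W) {z : V} (hz : ∀ w ∈ W, w z = z)
    (hl : ∀ a, Lk G {v | 11 * κ + 2 ≤ dp G Y v} z (R a (11 * κ + 2)))
    (hp : ∀ w ∈ W, ∀ a, ∃ e : ℤ, |e| ≤ 12 ∧ pos (w (R a (11 * κ + 2))) = a + e) (hw : w ∈ W) :
    Lk G (Nb G W x (s + κ)) x (w x) := by
  by_contra c
  have N3 : 3 ≤ N := by omega
  choose u B j E k1 k2 k3 k4 k5 using strand hY h N3 hW hz hl hp W.one_mem
  choose u' B' j' E' k1' k2' k3' k4' k5' using strand hY h N3 hW hz hl hp hw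
  have sep : ∀ A A' : ℤ, A + 30 ≤ A' → A' + 30 ≤ A + N → ∀ e e' : ℤ, |e - A| ≤ 14 →
      |e' - A'| ≤ 14 → (e : ZMod N) ≠ e' := fun A A' a b e e' c d => by
    rw [abs_le] at c d
    exact RL.cast_ne (by omega) (by omega)
  have inj : ∀ n : ℤ, InjOn (fun i : ℕ => u' (n + 30 * i)) (Icc 1 (2 * β + 1)) := by
    intro n a ha b hb e
    obtain ⟨e1, a1, a2⟩ := k3' (n + 30 * a)
    obtain ⟨e2, b1, b2⟩ := k3' (n + 30 * b)
    have e' : (e1 : ZMod N) = e2 := by rw [← a2, ← b2]; exact congrArg pos e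
    obtain ⟨-, ha⟩ := ha
    obtain ⟨-, hb⟩ := hb
    rcases lt_trichotomy a b with k | k | k
    · exact absurd e' (sep (n + 30 * a) (n + 30 * b) (by omega) (by omega) _ _ (by omega) (by omega))
    · exact k
    · exact absurd e'.symm
        (sep (n + 30 * b) (n + 30 * a) (by omega) (by omega) _ _ (by omega) (by omega))
  obtain ⟨M, hM⟩ : ∃ M : ℤ, M = 30 * (2 * β + 2) := ⟨_, rfl⟩
  obtain ⟨b, b1, b2, b3, b4⟩ := pick hβ (u 0) (u M) _ (inj 0)
  obtain ⟨d, d1, d2, d3, d4⟩ := pick hβ (u 0) (u M) _ (inj M)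
  have low : ∀ o, ∀ y ∈ {v | Lk G (Nb G W x s) o v}, dp G (Nb G W x 0) y ≤ s ∧ y ∈ Y := by
    intro o y hy
    obtain ⟨g, hg, k⟩ := Lk.right hy
    exact ⟨(dp_nb hg y).trans k, hY ▸ ⟨g, hg, by omega⟩⟩
  have hF : Far G (2 * κ + 2) {v | Lk G (Nb G W x s) ((1 : G ≃g G) x) v}
      {v | Lk G (Nb G W x s) (w x) v} := fun p hp q hq => by
    by_contra k
    obtain ⟨g, hg, p1⟩ := Lk.right hp
    obtain ⟨g', hg', q1⟩ := Lk.right hq
    refine c (((Lk.mono hp (Nb.mono (by omega))).trans (Lk.geo fun v hv => ?_)).trans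
      (Lk.mono hq (Nb.mono (by omega))).symm)
    have := tri (G := G) (g x) p v
    have := tri (G := G) (g' x) q v
    have := dcomm (G := G) q v
    rcases le_total (G.dist p v) κ with e | e
    · exact ⟨g, hg, by omega⟩
    · rcases e.eq_or_lt with e | e
      exacts [⟨g, hg, by omega⟩, ⟨g', hg', by omega⟩]
  have F := fun A A' => far_ty (u := u A) (u' := u' A') h N3 (fun y y' => dp_tri ne_nb y' y)
    (low _) (low _) hF (k3 A) (k3' A')
  have F1 := F _ _ b3 (sep _ _ (by omega) (by omega))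
  have F2 := F _ _ d3 (sep _ _ (by omega) (by omega))
  have F3 := F _ _ b4 fun e e' a b => (sep _ _ (by omega) (by omega) e' e b a).symm
  have F4 := F _ _ d4 (sep _ _ (by omega) (by omega))
  have a1 := abs_le.1 (k2 0)
  have a2 := abs_le.1 (k2' (0 + 30 * b))
  have a3 := abs_le.1 (k2 M)
  have a4 := abs_le.1 (k2' (M + 30 * d))
  refine h.nx (B 0) (B' (0 + 30 * b)) (B M) (B' (M + 30 * d)) (by omega) (by omega) (by omega)
    (by omega) ⟨_, _, _, _, _, _, (k1 0).union (k1 M), (k1' _).union (k1' _),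
      ((k4 0).symm.mono subset_union_left).trans ((k4 M).mono subset_union_right),
      ((k4' _).symm.mono subset_union_left).trans ((k4' _).mono subset_union_right),
      ((F1.union' F2).union (F3.union' F4)).mono ?_ ?_⟩
  · rintro y (((k | k) | k) | k)
    exacts [Or.inl (k5 _ (Or.inl k)), Or.inr (k5 _ (Or.inl k)), Or.inl (k5 _ (Or.inr k)),
      Or.inr (k5 _ (Or.inr k))]
  · rintro y (((k | k) | k) | k)
    exacts [Or.inl (k5' _ (Or.inl k)), Or.inr (k5' _ (Or.inl k)), Or.inl (k5' _ (Or.inr k)),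
      Or.inr (k5' _ (Or.inr k))]

end FinP

open SimpleGraph Filter Set MulAction FinP

theorem finSpec' (hP : PosSpec) (hF : FootSpec) (hR : RLSpec) (hM : MDSpec) : FinSpec := by
  intro Δ κ hκ
  refine ⟨60 * (2 * (Δ + 1) ^ (25 * κ + 6) + 2), by omega, ?_⟩
  intro _ V G _ _ ω R x hΔ hω hO
  obtain ⟨T, hT⟩ := (finite_range fun a => G.dist x (R a 0)).bddAbove
  refine ⟨T + κ, fun W D z hW hw hz => conn_nb ?_⟩
  have top : ∀ t, D ≤ t → ∀ w ∈ W, Lk G (Nb G W x t) x (w x) := fun t ht w k =>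
    lk_nb W.one_mem ((hw w k).2.1.trans ht)
  rcases le_total D (T + κ) with c | c
  · exact top _ c
  refine Nat.decreasingInduction (motive := fun t _ => T + κ ≤ t → ∀ w ∈ W, Lk G (Nb G W x t) x (w x))
    (fun t ht ih k => ?_) (fun _ => top D le_rfl) c le_rfl
  obtain ⟨s, rfl⟩ : ∃ s, t = s + κ := ⟨t - κ, by omega⟩
  obtain ⟨Y, hY⟩ : ∃ Y, Y = Nb G W x (s + κ + 1) := ⟨_, rfl⟩
  have fin : Y.Finite := hY ▸ finite_nb hW
  have ne : Y.Nonempty := hY ▸ ne_nb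
  obtain ⟨R', h1, h2⟩ := hF G (12 * κ + 2) (12 * κ + 2) Y R fin
    (fun a => ⟨hO.rf.lr a, hY ▸ ⟨1, W.one_mem, (hT ⟨a, rfl⟩).trans (by omega)⟩⟩)
    fun a b e => (hO.rf.far a b e).le (by omega)
  have hB : PB G κ Y R' := ⟨fin, ne, hY ▸ conn_nb (ih (by omega)), fun a => (h1 a).1, h2,
    fun a b c d e1 e2 e3 e4 l => hO.nx a b c d e1 e2 e3 e4 (l.te4 (h1 _).1 (h1 _).1 (h1 _).1
      (h1 _).1 (h1 _).2.1 (h1 _).2.1 (h1 _).2.1 (h1 _).2.1),
    fun a => (h1 a).2.2.1, fun a => (h1 a).2.2.2⟩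
  obtain ⟨pos, hS⟩ := hP G κ _ Y R' hκ (by omega) hB
  have out : ∀ v, 2 * D + (12 * κ + 2) < G.dist x v → 11 * κ + 2 ≤ dp G Y v := fun v hv => by
    obtain ⟨y, hy, e⟩ := dp_ex (G := G) ne v
    obtain ⟨g, hg, e'⟩ := hY ▸ hy
    have := (hw g hg).2.1
    have := tri (G := G) x (g x) y
    have := tri (G := G) x y v
    omega
  have hl : ∀ a, Lk G {v | 11 * κ + 2 ≤ dp G Y v} z (R' a (11 * κ + 2)) := fun a => by
    obtain ⟨n, ⟨n1, n2⟩, n3⟩ := ((hz.and ((((h1 a).2.1.se (h1 a).1).trans (hO.rf.se a) (h1 a).1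
      (hO.rf.lr a) hω).ev (h1 a).1 hω x (2 * D + (12 * κ + 2) + 1))).and
        (eventually_ge_atTop (11 * κ + 2))).exists
    exact ((n1.mono out).trans ((n2 n n le_rfl le_rfl).symm.mono out)).trans
      ((h1 a).1.lk fun m hm _ => hB.up (by omega) (hB.low a (11 * κ + 2) (by omega)).ge
        (by omega))
  refine fun w k => cross (fun v => card_ball_le hΔ v _) rfl hY hS hW (fun w k => (hw w k).1) hl
    (hR G κ _ Y R' pos W z hκ (by omega) hS hW (fun g hg => ⟨hY ▸ stab_nb hg, (hw g hg).1, ?_⟩) hl) k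
  obtain ⟨c, hc⟩ := (hw g hg).2.2
  exact ⟨c, ((hM G _).1 _ _ _ (((MD.refl (fun a => (h1 a).1) h2).te fun a => (h1 a).2.1).map g)
    hc).te fun a => (h1 _).2.1.symm⟩

end Pool.Agent.MP_77f003_co.H49
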