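import Pool.Agent.MP_77f003_co.H49.Full0
import Pool.Agent.MP_77f003_co.H49.Fin
import Pool.Agent.MP_77f003_co.H88.Gad
import Pool.Agent.MP_77f003_co.H56.Ord

/-!
An inaccessible vertex-transitive graph has all fat cliques.
-/

namespace Pool.Agent.MP_77f003_co.H49

variable {V : Type} {G : SimpleGraph V} [Fact G.Connected] [G.LocallyFinite]

theorem fatCl_of_not_acc (ht : VT G) (hn : ¬ Acc G) : ∀ K h, FatCl G K h :=
  fun K k => fatCl_of_h (hSpec_of gadSpec ordSpec epsSpec finSpec') ht hn K k

end Pool.Agent.MP_77f003_co.H49
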