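import Pool.Agent.MP_77f003_co.H49.Tame

/-!
Gluing tame drawings along a rooted tree gives a planar graph.
-/

namespace Pool.Agent.MP_77f003_co.H49

open SimpleGraph

theorem glue {I : Type} (X : I → Type) (Q : ∀ i, SimpleGraph (X i)) (L : ∀ i, Set (X i))
    (hT : ∀ i, Tame (Q i) (L i)) (d : I → ℕ) (par : I → I) (q : ∀ i, X i) (s : ∀ i, X (par i))
    (h0 : ∀ i j, d i = 0 → d j = 0 → i = j) (h1 : ∀ i n, d i = n + 1 → d (par i) = n)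
    (hq : ∀ i, q i ∈ L i) (hs : ∀ i, s i ∈ L (par i)) (hsq : ∀ i, s i ≠ q (par i))
    (hinj : ∀ i j, (⟨par i, s i⟩ : Σ i, X i) = ⟨par j, s j⟩ → i = j) :
    ∃ (T : Type) (P : SimpleGraph T) (ν : (Σ i, X i) → T), Planar P ∧ Function.Surjective ν ∧
      (∀ i x y, (Q i).Adj x y → P.Adj (ν ⟨i, x⟩) (ν ⟨i, y⟩)) ∧
      (∀ u v, P.Adj u v → ∃ i x y, (Q i).Adj x y ∧ u = ν ⟨i, x⟩ ∧ v = ν ⟨i, y⟩) ∧
      (∀ i, d i ≠ 0 → ν ⟨i, q i⟩ = ν ⟨par i, s i⟩) ∧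
      ∀ a b, ν a = ν b → a = b ∨ ∃ i, (a = ⟨i, q i⟩ ∧ b = ⟨par i, s i⟩) ∨
        (b = ⟨i, q i⟩ ∧ a = ⟨par i, s i⟩) := by
  choose pos arc c t1 t2 t3 using hT
  let U : I → Set ℂ := fun i => {z | ‖pos i (q i) - c i (q i)‖ ≤ ‖z - c i (q i)‖}
  let σ : I → ℂ → ℂ := fun i z => c _ (s i) +
    (pos _ (s i) - c _ (s i)) * (pos i (q i) - c i (q i)) / (z - c i (q i))
  have u0 : ∀ i, pos i (q i) - c i (q i) ≠ 0 := fun i => sub_ne_zero.2 (t2 i _ (hq i)).1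
  have u1 : ∀ i, ∀ z ∈ U i, z - c i (q i) ≠ 0 := fun i z hz =>
    norm_pos_iff.1 ((norm_pos_iff.2 (u0 i)).trans_le hz)
  have u2 : ∀ i, Ink (Q i) (pos i) (arc i) ⊆ U i := fun i z hz => by
    by_contra e
    have e' : ‖z - c i (q i)‖ < ‖pos i (q i) - c i (q i)‖ := not_le.1 e
    rw [(t2 i _ (hq i)).2 z hz e'.le] at e'
    exact lt_irrefl _ e'
  have σ1 : ∀ i, ∀ z ∈ U i, ‖σ i z - c _ (s i)‖ ≤ ‖pos _ (s i) - c _ (s i)‖ := fun i z hz => by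
    simp only [σ, add_sub_cancel_left, norm_div, norm_mul]
    rw [div_le_iff₀ (norm_pos_iff.2 (u1 i z hz))]
    exact mul_le_mul_of_nonneg_left hz (norm_nonneg _)
  have σ2 : ∀ i, ∀ z ∈ U i, σ i z ∈ U (par i) := fun i z hz => by
    by_contra e
    exact hsq i (t3 _ _ (hs i) _ (hq _) _ (σ1 i z hz) (not_le.1 e).le)
  have σ3 : ∀ i, ∀ a ∈ U i, ∀ b ∈ U i, σ i a = σ i b → a = b := fun i a ha b hb e => by
    have := add_left_cancel e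
    rw [div_eq_div_iff (u1 i a ha) (u1 i b hb)] at this
    exact (sub_left_injective (mul_left_cancel₀ (mul_ne_zero
      (sub_ne_zero.2 (t2 _ _ (hs i)).1) (u0 i)) this)).symm
  have σ4 : ∀ i, σ i (pos i (q i)) = pos _ (s i) := fun i => by
    simp only [σ]
    rw [mul_div_cancel_right₀ _ (u0 i), add_sub_cancel]
  have σ5 : ∀ i, ContinuousOn (σ i) (U i) := fun i =>
    continuousOn_const.add (continuousOn_const.div (by fun_prop) (u1 i))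
  let Ψ : ℕ → I → ℂ → ℂ := fun n => Nat.rec (fun _ z => z) (fun _ f i z => f (par i) (σ i z)) n
  obtain ⟨Φ, Φ0, Φ1⟩ : ∃ Φ : I → ℂ → ℂ, (∀ i z, d i = 0 → Φ i z = z) ∧
      ∀ i z, d i ≠ 0 → Φ i z = Φ (par i) (σ i z) := by
    refine ⟨fun i => Ψ (d i) i, fun i z h => by simp only [h]; rfl, fun i z h => ?_⟩
    obtain ⟨n, hn⟩ := Nat.exists_eq_succ_of_ne_zero h
    simp only [h1 i n hn, hn]
    rfl
  have Φ2 : ∀ n i, d i = n → ContinuousOn (Φ i) (U i) := by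
    intro n
    induction n with
    | zero => exact fun i h => continuousOn_id.congr fun z _ => Φ0 i z h
    | succ n ih =>
      exact fun i h => ((ih _ (h1 i n h)).comp (σ5 i) (σ2 i)).congr fun z _ => Φ1 i z (by omega)
  have DJ : ∀ a b : Σ i, X i, a.1 = b.1 → a.2 ∈ L a.1 → b.2 ∈ L b.1 → ∀ z,
      ‖z - c _ a.2‖ ≤ ‖pos _ a.2 - c _ a.2‖ → ‖z - c _ b.2‖ ≤ ‖pos _ b.2 - c _ b.2‖ → a = b := by
    rintro ⟨i, x⟩ ⟨j, y⟩ (rfl : i = j) k1 k2 z k3 k4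
    rw [t3 i x k1 y k2 z k3 k4]
  have E : ∀ n i j, d i = n → d j = n → ∀ a ∈ U i, ∀ b ∈ U j, Φ i a = Φ j b → i = j ∧ a = b := by
    intro n
    induction n with
    | zero => exact fun i j k1 k2 a _ b _ e => ⟨h0 i j k1 k2, by rwa [Φ0 i a k1, Φ0 j b k2] at e⟩
    | succ n ih =>
      intro i j k1 k2 a ha b hb e
      rw [Φ1 i a (by omega), Φ1 j b (by omega)] at e
      obtain ⟨e1, e2⟩ := ih _ _ (h1 i n k1) (h1 j n k2) _ (σ2 i a ha) _ (σ2 j b hb) e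
      obtain rfl := hinj i j (DJ ⟨_, s i⟩ ⟨_, s j⟩ e1 (hs i) (hs j) _ (σ1 i a ha) (e2 ▸ σ1 j b hb))
      exact ⟨rfl, σ3 i a ha b hb e2⟩
  have F : ∀ k i j, d i = d j + k + 1 → ∀ a ∈ U i, ∀ b ∈ Ink (Q j) (pos j) (arc j),
      Φ i a = Φ j b → j = par i ∧ a = pos i (q i) ∧ b = pos _ (s i) := by
    intro k
    induction k with
    | zero =>
      intro i j k1 a ha b hb e
      rw [Φ1 i a (by omega)] at e
      obtain ⟨rfl, e2⟩ := E _ _ _ (h1 i _ k1) rfl _ (σ2 i a ha) _ (u2 j hb) e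
      have e3 := (t2 _ _ (hs i)).2 b hb (e2 ▸ σ1 i a ha)
      exact ⟨rfl, σ3 i a ha _ (u2 i (Or.inl ⟨_, rfl⟩)) (by rw [e2, e3, σ4]), e3⟩
    | succ k ih =>
      intro i j k1 a ha b hb e
      rw [Φ1 i a (by omega)] at e
      obtain ⟨-, e2, -⟩ := ih _ j (h1 i _ k1) _ (σ2 i a ha) b hb e
      exact absurd (t3 _ _ (hs i) _ (hq _) _ (σ1 i a ha) (by rw [e2])) (hsq i)
  have C : ∀ i j, ∀ a ∈ Ink (Q i) (pos i) (arc i), ∀ b ∈ Ink (Q j) (pos j) (arc j),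
      Φ i a = Φ j b → (i = j ∧ a = b) ∨ (j = par i ∧ a = pos i (q i) ∧ b = pos _ (s i)) ∨
        (i = par j ∧ b = pos j (q j) ∧ a = pos _ (s j)) := by
    intro i j a ha b hb e
    rcases lt_trichotomy (d i) (d j) with k | k | k
    · exact Or.inr (Or.inr (F (d j - d i - 1) j i (by omega) b (u2 j hb) a ha e.symm))
    · exact Or.inl (E _ i j k rfl a (u2 i ha) b (u2 j hb) e)
    · exact Or.inr (Or.inl (F (d i - d j - 1) i j (by omega) a (u2 i ha) b hb e))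
  have i1 : ∀ i w, pos i w ∈ Ink (Q i) (pos i) (arc i) := fun i w => Or.inl ⟨w, rfl⟩
  have i2 : ∀ {i u v} t, (Q i).Adj u v → arc i u v t ∈ Ink (Q i) (pos i) (arc i) :=
    fun t h => Or.inr ⟨_, _, t, h, rfl⟩
  let ν : (Σ i, X i) → Set.range fun a : Σ i, X i => Φ a.1 (pos a.1 a.2) := fun a => ⟨_, a, rfl⟩
  let P : SimpleGraph (Set.range fun a : Σ i, X i => Φ a.1 (pos a.1 a.2)) :=
    { Adj := fun u v => u ≠ v ∧ ∃ i x y, (Q i).Adj x y ∧ u = ν ⟨i, x⟩ ∧ v = ν ⟨i, y⟩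
      symm := ⟨fun u v ⟨h, i, x, y, k1, k2, k3⟩ => ⟨h.symm, i, y, x, k1.symm, k3, k2⟩⟩
      loopless := ⟨fun u h => h.1 rfl⟩ }
  have hA : ∀ u v, ∃ A : C(unitInterval, ℂ), P.Adj u v → ∃ i x y, (Q i).Adj x y ∧
      u = ν ⟨i, x⟩ ∧ v = ν ⟨i, y⟩ ∧ ∀ t, A t = Φ i (arc i x y t) := fun u v => by
    by_cases h : P.Adj u v
    · obtain ⟨-, i, x, y, k1, k2, k3⟩ := h
      exact ⟨⟨fun t => Φ i (arc i x y t), (Φ2 _ i rfl).comp_continuous (arc i x y).continuous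
        fun t => u2 i (i2 t k1)⟩, fun _ => ⟨i, x, y, k1, k2, k3, fun _ => rfl⟩⟩
    · exact ⟨0, fun h' => absurd h' h⟩
  choose A hA using hA
  refine ⟨_, P, ν, Draw.planar (pos := Subtype.val) (arc := A) ⟨Subtype.val_injective,
    fun u v h => ?_⟩, by rintro ⟨_, a, rfl⟩; exact ⟨a, rfl⟩, fun i x y h => ⟨fun e => h.ne
      ((t1 i).1 (E _ i i rfl rfl _ (u2 i (i1 i x)) _ (u2 i (i1 i y)) (congrArg Subtype.val e)).2),
      i, x, y, h, rfl, rfl⟩, fun u v h => h.2, fun i h => Subtype.ext ?_, ?_⟩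
  · obtain ⟨i, x, y, k1, rfl, rfl, k2⟩ := hA u v h
    obtain ⟨d1, d2, d3⟩ := (t1 i).2 x y k1
    have key : ∀ t, t ≠ 0 → t ≠ 1 → ∀ j, ∀ b ∈ Ink (Q j) (pos j) (arc j),
        Φ i (arc i x y t) = Φ j b → i = j ∧ arc i x y t = b := fun t a0 a1 j b hb e => by
      rcases C i j _ (i2 t k1) b hb e with k | ⟨-, k, -⟩ | ⟨rfl, -, k⟩
      exacts [k, absurd k ((d3 t a0 a1).1 _), absurd k ((d3 t a0 a1).1 _)]
    refine ⟨fun t t' e => d1 (E _ i i rfl rfl _ (u2 i (i2 t k1)) _ (u2 i (i2 t' k1))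
      (by rwa [k2, k2] at e)).2, ?_, fun t a0 a1 => ⟨?_, fun u' v' h' t' e => ?_⟩⟩
    · simp only [k2]
      exact d2.imp (fun k => ⟨by rw [k.1], by rw [k.2]⟩) fun k => ⟨by rw [k.1], by rw [k.2]⟩
    · rintro ⟨_, ⟨j, w⟩, rfl⟩ e
      obtain ⟨rfl, k⟩ := key t a0 a1 j _ (i1 j w) ((k2 t).symm.trans e)
      exact (d3 t a0 a1).1 w k
    · obtain ⟨j, x', y', l1, rfl, rfl, l2⟩ := hA u' v' h'
      obtain ⟨rfl, k⟩ := key t a0 a1 j _ (i2 t' l1) ((k2 t).symm.trans (e.trans (l2 t')))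
      exact congrArg (Sym2.map fun w => ν ⟨i, w⟩) ((d3 t a0 a1).2 x' y' l1 t' k)
  · exact (Φ1 i _ h).trans (by rw [σ4])
  · rintro ⟨i, x⟩ ⟨j, y⟩ e
    rcases C i j _ (i1 i x) _ (i1 j y) (congrArg Subtype.val e) with
      ⟨rfl, k⟩ | ⟨rfl, k, k'⟩ | ⟨rfl, k, k'⟩
    · exact Or.inl (by rw [(t1 i).1 k])
    · exact Or.inr ⟨i, Or.inl ⟨by rw [(t1 _).1 k], by rw [(t1 _).1 k']⟩⟩
    · exact Or.inr ⟨j, Or.inr ⟨by rw [(t1 _).1 k], by rw [(t1 _).1 k']⟩⟩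

end Pool.Agent.MP_77f003_co.H49
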