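import Pool.Agent.MP_77f003_co.H49.Pieces
import Pool.Agent.MP_77f003_co.H49.Glue

/-!
The dichotomy for accessible vertex-transitive graphs.
-/

namespace Pool.Agent.MP_77f003_co.H49

open SimpleGraph Filter

variable {V : Type} {G : SimpleGraph V} {N : Set (Set V)} {m : ℕ} [Fact G.Connected]
  [G.LocallyFinite]

theorem CutSys.parent (c : CutSys G N m) (o : V) (i : {O // IsNode N O}) :
    ∃ (j : {O // IsNode N O}) (z : V), z ∈ Bag G i ∧ z ∈ Bag G j ∧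
      (∀ n, (i.1 \ H49.nodeAt N o).ncard = n + 1 → (j.1 \ H49.nodeAt N o).ncard = n) ∧
      ∀ B, Minimal (· ∈ i.1) B → o ∉ B → j.1 = nflip i B ∧ Ep G B z := by
  rcases (i.1 \ H49.nodeAt N o).eq_empty_or_nonempty with e | e
  · obtain ⟨z, hz⟩ := c.bag_ne i.2
    exact ⟨i, z, hz, hz, fun n h => by simp [e] at h, fun B h1 h2 =>
      absurd (Set.sdiff_eq_empty.1 e h1.1).2 h2⟩
  · obtain ⟨B, b1, b2⟩ := i.2.exists_min (c.nodeAt o) (i.2.fin_diff o) e
    obtain ⟨z, hz⟩ := c.exists_ep (i.2.sub b2.1)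
    obtain ⟨f1, f2⟩ := c.flip i.2 b2
    refine ⟨⟨_, f1⟩, z, c.ep_bag i.2 b2 hz, c.ep_bag f1 f2 hz.compl, fun n h => ?_,
      fun B' h1 h2 => ?_⟩
    · rw [flip_diff (c.nodeAt o) (i.2.sub b2.1) b1.2, Set.ncard_sdiff_singleton_of_mem b1, h]
      rfl
    · obtain rfl := c.min_eq i.2 b2 h1 (fun e => b1.2 ⟨i.2.sub b2.1, e⟩) h2
      exact ⟨rfl, hz⟩

theorem CutSys.planar (c : CutSys G N m) (ht : VT G) {K h : ℕ} (hno : ¬ FatCl G K h) :
    ∃ (W : Type) (P : SimpleGraph W), P.Connected ∧ Planar P ∧ QuasiIsometric G P := by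
  obtain ⟨o⟩ := (Fact.out : G.Connected).nonempty
  obtain ⟨k, C, hP⟩ := c.pieces ht hno
  choose X Q L f l p1 p2 p3 p4 p5 p6 p7 using fun i : {O // IsNode N O} => hP i.1 i.2
  choose par z z1 z2 z3 z4 using c.parent o
  have := countable_vert G
  have : Countable {O // IsNode N O} := Set.countable_coe_iff.2
    ((Set.countable_iUnion fun x => (c.fin_nodes x).countable).mono fun O (hO : IsNode N O) =>
      Set.mem_iUnion.2 ((c.bag_ne hO).imp fun _ h => And.intro hO h))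
  obtain ⟨enc, henc⟩ := exists_injective_nat {O // IsNode N O}
  have r0 : ∀ i : {O // IsNode N O}, (i.1 \ H49.nodeAt N o).ncard = 0 → i.1 = H49.nodeAt N o :=
    fun i h => i.2.eq (c.nodeAt o)
      (Set.sdiff_eq_empty.1 ((Set.ncard_eq_zero (i.2.fin_diff o)).1 h))
  have r1 : ∀ i j x y a b, (⟨i, l i x a⟩ : Σ i, X i) = ⟨j, l j y b⟩ → a = b := by
    intro i j x y a b e
    obtain ⟨rfl, e'⟩ := Sigma.mk.inj_iff.1 e
    exact p7 i x y a b (eq_of_heq e')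
  obtain ⟨T, P, ν, g1, g2, g3, g4, g5, g6⟩ := glue X Q L p1
    (fun i => (i.1 \ H49.nodeAt N o).ncard) par (fun i => l i (z i) 0)
    (fun i => l (par i) (z i) (enc i + 1))
    (fun i j h1 h2 => Subtype.ext ((r0 i h1).trans (r0 j h2).symm)) z3 (fun i => p6 _ _ _)
    (fun i => p6 _ _ _) (fun i e => by simpa using p7 _ _ _ _ _ e)
    fun i j e => henc (by simpa using r1 _ _ _ _ _ _ e)
  have near : ∀ a b, ν a = ν b → G.dist (f a.1 a.2) (f b.1 b.2) ≤ 2 * k := by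
    have key : ∀ i, G.dist (f i (l i (z i) 0)) (f _ (l (par i) (z i) (enc i + 1))) ≤ 2 * k := by
      intro i
      have e1 := p5 i _ (z1 i) 0
      have e2 := p5 _ _ (z2 i) (enc i + 1)
      have e3 := tri (G := G) (f i (l i (z i) 0)) (z i) (f _ (l (par i) (z i) (enc i + 1)))
      rw [dcomm] at e1
      omega
    intro a b e
    rcases g6 a b e with rfl | ⟨i, ⟨rfl, rfl⟩ | ⟨rfl, rfl⟩⟩
    exacts [by simp, key i, by rw [dcomm]; exact key i]
  have wk : ∀ {i n x y}, Wk (Q i) n x y → Wk P n (ν ⟨i, x⟩) (ν ⟨i, y⟩) := by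
    rintro i n x y ⟨p, hp⟩
    exact ⟨p.map (⟨fun x => ν ⟨i, x⟩, fun h => g3 i _ _ h⟩ : Q i →g P), by simpa using hp⟩
  have junc : ∀ (i : {O // IsNode N O}) B (hB : Minimal (· ∈ i.1) B), ∃ w a b, Ep G B w ∧
      G.dist w (f i a) ≤ k ∧ G.dist w (f ⟨_, (c.flip i.2 hB).1⟩ b) ≤ k ∧
      ν ⟨i, a⟩ = ν ⟨⟨_, (c.flip i.2 hB).1⟩, b⟩ := by
    have key : ∀ (i j : {O // IsNode N O}) B, Minimal (· ∈ i.1) B → o ∉ B → j.1 = nflip i B →
        ∃ w a b, Ep G B w ∧ G.dist w (f i a) ≤ k ∧ G.dist w (f j b) ≤ k ∧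
          ν ⟨i, a⟩ = ν ⟨j, b⟩ := by
      intro i j B h1 h2 h3
      obtain ⟨e1, e2⟩ := z4 i B h1 h2
      obtain rfl : j = par i := Subtype.ext (h3.trans e1.symm)
      exact ⟨_, _, _, e2, p5 _ _ (z1 i) _, p5 _ _ (z2 i) _, g5 i fun e => h2 (r0 i e ▸ h1.1).2⟩
    intro i B hB
    by_cases ho : o ∈ B
    · obtain ⟨w, a, b, e1, e2, e3, e4⟩ := key ⟨_, (c.flip i.2 hB).1⟩ i Bᶜ (c.flip i.2 hB).2
        (fun e => e ho) (flip_flip i.2 hB.1).symm
      exact ⟨w, b, a, by simpa using e1.compl, e3, e2, e4.symm⟩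
    · exact key i _ B hB ho rfl
  have move : ∀ x R (j : {O // IsNode N O}) b, G.dist x (f j b) ≤ R + m + k → ∀ n
      (i : {O // IsNode N O}), (i.1 \ j.1).ncard = n →
      (∀ B ∈ i.1 \ j.1, ∃ w, Ep G B w ∧ G.dist x w ≤ R) → ∀ a, G.dist x (f i a) ≤ R + m + k →
      Wk P ((n + 1) * C (2 * (R + m + k))) (ν ⟨i, a⟩) (ν ⟨j, b⟩) := by
    intro x R j b hb n
    have two : ∀ {i a a'}, G.dist x (f i a) ≤ R + m + k → G.dist x (f i a') ≤ R + m + k →
        Wk P (C (2 * (R + m + k))) (ν ⟨i, a⟩) (ν ⟨i, a'⟩) := fun {i a a'} h1 h2 =>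
      wk (p4 i _ a a' (by
        have := tri (G := G) (f i a) x (f i a')
        rw [dcomm] at h1
        omega))
    have fin : ∀ {i : {O // IsNode N O}}, (∀ B ∈ i.1 \ j.1, ∃ w, Ep G B w ∧ G.dist x w ≤ R) →
        (i.1 \ j.1).Finite := fun {i} h => (c.fin_near x R).subset fun B hB =>
      ⟨i.2.sub hB.1, h B hB⟩
    induction n with
    | zero =>
      intro i h1 h2 a ha
      obtain rfl : i = j :=
        Subtype.ext (i.2.eq j.2 (Set.sdiff_eq_empty.1 ((Set.ncard_eq_zero (fin h2)).1 h1)))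
      simpa using two ha hb
    | succ n ih =>
      intro i h1 h2 a ha
      obtain ⟨B, b1, b2⟩ := i.2.exists_min j.2 (fin h2) (Set.nonempty_of_ncard_ne_zero (by omega))
      obtain ⟨w, a', b', e1, e2, e3, e4⟩ := junc i B b2
      obtain ⟨w', e5, e6⟩ := h2 B b1
      have e7 := c.diam B (i.2.sub b2.1) _ _ e5 e1
      have e8 := tri (G := G) x w' w
      have e9 := flip_diff (O := i.1) j.2 (i.2.sub b2.1) b1.2
      refine ((two ha ((tri x w _).trans (by omega))).trans (e4 ▸ ih ⟨_, (c.flip i.2 b2).1⟩ ?_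
        (fun B' hB' => h2 B' (e9 ▸ hB').1) b' ((tri x w _).trans (by omega)))).mono
        (le_of_eq (by ring))
      rw [e9, Set.ncard_sdiff_singleton_of_mem b1, h1]
      rfl
  choose rep hrep using g2
  obtain ⟨n, hn⟩ := c.cnt ht (2 * (3 * k) + 1 + 3)
  refine (qi_of_walks (G := G) (P := P) (fun u => f (rep u).1 (rep u).2) (3 * k) (5 * k)
    ((n + 1) * C (2 * (2 * (3 * k) + 1 + 3 + m + k))) (fun u v h => ?_) (fun u v h => ?_)
    fun x => ?_).elim fun h1 h2 => ⟨T, P, h1, g1, h2⟩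
  · obtain ⟨i, x, y, e, rfl, rfl⟩ := g4 u v h
    have e1 := near _ _ (hrep (ν ⟨i, x⟩))
    have e2 := near _ _ (hrep (ν ⟨i, y⟩)).symm
    have e3 := p2 i x y e
    exact (tri _ (f i x) _).trans ((Nat.add_le_add e1 ((tri _ (f i y) _).trans
      (Nat.add_le_add e3 e2))).trans (by omega))
  · rw [← hrep u, ← hrep v]
    generalize rep u = a at h ⊢
    generalize rep v = b at h ⊢
    have key : ∀ B ∈ a.1.1 \ b.1.1, ∃ w, Ep G B w ∧
        G.dist (f a.1 a.2) w ≤ 2 * (3 * k) + 1 + 3 := by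
      intro B hB
      obtain ⟨u, u1, u2⟩ := p3 a.1 a.2 B hB.1
      obtain ⟨v, v1, v2⟩ := p3 b.1 b.2 _ ((b.1.2.tot B (a.1.2.sub hB.1)).resolve_left hB.2)
      obtain ⟨p, e1, e2, -⟩ := cross_geo (G := G) u1 v1
      have e3 := tri (G := G) (f a.1 a.2) u p.1
      have e4 := tri (G := G) u (f a.1 a.2) v
      have e5 := tri (G := G) (f a.1 a.2) (f b.1 b.2) v
      rw [dcomm u (f a.1 a.2)] at e4
      exact ⟨_, cb.ep e1, by omega⟩
    exact (move _ _ b.1 b.2 (by omega) _ a.1 rfl key a.2 (by simp)).mono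
      (Nat.mul_le_mul_right _ (Nat.succ_le_succ ((Set.ncard_le_ncard
        (fun B hB => And.intro (a.1.2.sub hB.1) (key B hB)) (c.fin_near _ _)).trans (hn _))))
  · have e1 := near _ _ (hrep (ν ⟨⟨_, c.nodeAt x⟩, l _ x 0⟩)).symm
    exact ⟨_, (tri _ _ _).trans ((Nat.add_le_add (p5 ⟨_, c.nodeAt x⟩ x (mem_bag_nodeAt x) 0)
      e1).trans (by omega))⟩

theorem planar_of_accessible (ht : VT G) {k : ℕ} (hk : ∀ s ∈ G.end, ∀ t ∈ G.end, s ≠ t →
    ∃ X : Finset V, X.card ≤ k ∧ s (Opposite.op X) ≠ t (Opposite.op X)) {K h : ℕ}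
    (hno : ¬ FatCl G K h) :
    ∃ (W : Type) (P : SimpleGraph W), P.Connected ∧ Planar P ∧ QuasiIsometric G P := by
  obtain ⟨N, m, c⟩ := exists_cutSys ht hk
  exact c.planar ht hno

end Pool.Agent.MP_77f003_co.H49
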