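import Pool.Agent.MP_77f003_co.H49.Defs

/-!
Basic metric facts on connected locally finite graphs, linkage inside a set, fat cliques and the
passage from coarse equivalences to quasi-isometries.
-/

namespace Pool.Agent.MP_77f003_co.H49

open SimpleGraph

variable {V : Type} {G : SimpleGraph V}

theorem tri [hc : Fact G.Connected] (x y z : V) : G.dist x z ≤ G.dist x y + G.dist y z :=
  hc.out.dist_triangle

theorem dcomm (x y : V) : G.dist x y = G.dist y x := SimpleGraph.dist_comm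

theorem dist_adj {x y : V} (h : G.Adj x y) : G.dist x y = 1 := dist_eq_one_iff_adj.2 h

theorem eq_of_dist [hc : Fact G.Connected] {x y : V} (h : G.dist x y = 0) : x = y :=
  hc.out.dist_eq_zero_iff.1 h

theorem dist_add_le_length {x y z : V} [Fact G.Connected] (p : G.Walk x y) (hz : z ∈ p.support) :
    G.dist x z + G.dist z y ≤ p.length := by
  induction p with
  | nil => simp at hz; simp [hz]
  | @cons a b c h q ih =>
    rw [Walk.support_cons, List.mem_cons] at hz
    rcases hz with rfl | hz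
    · simpa using dist_le (Walk.cons h q)
    · have := ih hz
      have h1 := tri (G := G) a b z
      rw [dist_adj h] at h1
      simp only [Walk.length_cons]
      omega

theorem exists_step [hc : Fact G.Connected] {x y : V} {k : ℕ} (h : G.dist x y = k + 1) :
    ∃ z, G.Adj x z ∧ G.dist z y = k := by
  obtain ⟨p, hp⟩ := hc.out.exists_walk_length_eq_dist x y
  cases p with
  | nil => simp at h
  | @cons _ b _ hab q =>
    refine ⟨b, hab, ?_⟩
    have h1 := dist_le q
    have h2 := tri (G := G) x b y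
    rw [dist_adj hab] at h2
    simp only [Walk.length_cons] at hp
    omega

/-- A geodesic as a sequence. -/
theorem exists_geo [Fact G.Connected] (x y : V) :
    ∃ g : ℕ → V, g 0 = x ∧ g (G.dist x y) = y ∧ (∀ i, i < G.dist x y → G.Adj (g i) (g (i + 1))) := by
  generalize hk : G.dist x y = k
  induction k generalizing x with
  | zero => exact ⟨fun _ => x, rfl, eq_of_dist hk, fun i hi => absurd hi (Nat.not_lt_zero _)⟩
  | succ k ih =>
    obtain ⟨z, hz, hz'⟩ := exists_step hk
    obtain ⟨g, h0, h1, h2⟩ := ih z hz'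
    refine ⟨fun i => Nat.casesOn i x g, rfl, h1, fun i hi => ?_⟩
    cases i with
    | zero => simpa [h0] using hz
    | succ i => exact h2 i (by omega)

theorem dist_seq_le [Fact G.Connected] {g : ℕ → V} {n : ℕ} {c : ℕ}
    (h : ∀ i, i < n → G.dist (g i) (g (i + 1)) ≤ c) (i k : ℕ) (hik : i + k ≤ n) :
    G.dist (g i) (g (i + k)) ≤ c * k := by
  induction k with
  | zero => simp
  | succ k ih =>
    have h1 := ih (by omega)
    have h2 := h (i + k) (by omega)
    have h3 := tri (G := G) (g i) (g (i + k)) (g (i + k + 1))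
    rw [← add_assoc, mul_add, mul_one]
    omega

theorem dist_geo_le [Fact G.Connected] {g : ℕ → V} {n : ℕ}
    (h : ∀ i, i < n → G.Adj (g i) (g (i + 1))) {i j : ℕ} (hij : i ≤ j) (hj : j ≤ n) :
    G.dist (g i) (g j) ≤ j - i := by
  have := dist_seq_le (G := G) (c := 1) (fun i hi => (dist_adj (h i hi)).le) i (j - i) (by omega)
  rw [Nat.add_sub_cancel' hij, one_mul] at this
  exact this

theorem finite_ball [Fact G.Connected] [G.LocallyFinite] (x : V) (r : ℕ) :
    {y | G.dist x y ≤ r}.Finite := by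
  induction r with
  | zero =>
    refine (Set.finite_singleton x).subset fun y hy => ?_
    exact (eq_of_dist (Nat.le_zero.1 hy)).symm
  | succ r ih =>
    refine (ih.union (ih.biUnion fun z _ => (G.neighborSet z).toFinite)).subset fun y hy => ?_
    by_cases h : G.dist x y ≤ r
    · exact Or.inl h
    · have h1 : G.dist y x = r + 1 := by
        rw [dcomm]
        have : G.dist x y ≤ r + 1 := hy
        omega
      obtain ⟨z, hz, hz'⟩ := exists_step h1
      refine Or.inr (Set.mem_biUnion (x := z) ?_ hz.symm)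
      show G.dist x z ≤ r
      rw [dcomm, hz']

/-- The ball of radius `r` as a finite set. -/
noncomputable def ball (G : SimpleGraph V) [Fact G.Connected] [G.LocallyFinite] (x : V) (r : ℕ) :
    Finset V := (finite_ball (G := G) x r).toFinset

theorem mem_ball [Fact G.Connected] [G.LocallyFinite] {x y : V} {r : ℕ} :
    y ∈ ball G x r ↔ G.dist x y ≤ r := by simp [ball]

theorem ball_mono [Fact G.Connected] [G.LocallyFinite] (x : V) {r s : ℕ} (h : r ≤ s) :
    ball G x r ⊆ ball G x s := fun _ hy => mem_ball.2 ((mem_ball.1 hy).trans h)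

theorem self_mem_ball [Fact G.Connected] [G.LocallyFinite] (x : V) (r : ℕ) : x ∈ ball G x r :=
  mem_ball.2 (by simp)

theorem dist_iso {V' : Type} {G' : SimpleGraph V'} [hc : Fact G.Connected] (φ : G ≃g G')
    (x y : V) : G'.dist (φ x) (φ y) = G.dist x y := by
  apply le_antisymm
  · obtain ⟨p, hp⟩ := hc.out.exists_walk_length_eq_dist x y
    have := dist_le (p.map φ.toHom)
    rw [Walk.length_map, hp] at this
    exact this
  · have hr : G'.Reachable (φ x) (φ y) := (hc.out.preconnected x y).map φ.toHom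
    obtain ⟨p, hp⟩ := hr.exists_walk_length_eq_dist
    have := dist_le (p.map φ.symm.toHom)
    rw [Walk.length_map, hp] at this
    simpa using this

/-- `x` and `y` are joined by a walk inside `S`. -/
def Lk (G : SimpleGraph V) (S : Set V) (x y : V) : Prop :=
  ∃ p : G.Walk x y, ∀ z ∈ p.support, z ∈ S

theorem Lk.refl {S : Set V} {x : V} (h : x ∈ S) : Lk G S x x := ⟨Walk.nil, by simpa using h⟩

theorem Lk.symm {S : Set V} {x y : V} (h : Lk G S x y) : Lk G S y x := by
  obtain ⟨p, hp⟩ := h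
  exact ⟨p.reverse, by simpa using hp⟩

theorem Lk.trans {S : Set V} {x y z : V} (h : Lk G S x y) (h' : Lk G S y z) : Lk G S x z := by
  obtain ⟨p, hp⟩ := h
  obtain ⟨q, hq⟩ := h'
  refine ⟨p.append q, fun w hw => ?_⟩
  rw [Walk.mem_support_append_iff] at hw
  exact hw.elim (hp w) (hq w)

theorem Lk.mono {S T : Set V} {x y : V} (h : Lk G S x y) (hST : S ⊆ T) : Lk G T x y := by
  obtain ⟨p, hp⟩ := h
  exact ⟨p, fun z hz => hST (hp z hz)⟩

theorem Lk.left {S : Set V} {x y : V} (h : Lk G S x y) : x ∈ S := by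
  obtain ⟨p, hp⟩ := h
  exact hp _ p.start_mem_support

theorem Lk.right {S : Set V} {x y : V} (h : Lk G S x y) : y ∈ S := h.symm.left

theorem Lk.adj {S : Set V} {x y : V} (h : G.Adj x y) (hx : x ∈ S) (hy : y ∈ S) : Lk G S x y :=
  ⟨Walk.cons h Walk.nil, by simp [hx, hy]⟩

theorem Lk.geo [hc : Fact G.Connected] {S : Set V} {x y : V}
    (h : ∀ z, G.dist x z + G.dist z y ≤ G.dist x y → z ∈ S) : Lk G S x y := by
  obtain ⟨p, hp⟩ := hc.out.exists_walk_length_eq_dist x y
  exact ⟨p, fun z hz => h z (hp ▸ dist_add_le_length p hz)⟩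

theorem Lk.seq {S : Set V} {g : ℕ → V} {n : ℕ} (h0 : g 0 ∈ S)
    (h : ∀ i, i < n → Lk G S (g i) (g (i + 1))) : Lk G S (g 0) (g n) := by
  induction n with
  | zero => exact Lk.refl h0
  | succ n ih => exact (ih fun i hi => h i (by omega)).trans (h n (by omega))

/-- Two sets are at distance at least `K`. -/
def Far (G : SimpleGraph V) (K : ℕ) (S T : Set V) : Prop := ∀ x ∈ S, ∀ y ∈ T, K ≤ G.dist x y

/-- A `K`-fat model of the complete graph on `h` vertices. -/
def FatCl (G : SimpleGraph V) (K h : ℕ) : Prop :=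
  ∃ (I : Finset ℕ) (B : ℕ → Set V) (E : ℕ → ℕ → Set V), h ≤ I.card ∧
    (∀ i ∈ I, (B i).Nonempty ∧ ∀ x ∈ B i, ∀ y ∈ B i, Lk G (B i) x y) ∧
    (∀ i ∈ I, ∀ j ∈ I, i < j → ∃ x ∈ B i, ∃ y ∈ B j, Lk G (E i j) x y) ∧
    (∀ i ∈ I, ∀ j ∈ I, i ≠ j → Far G K (B i) (B j)) ∧
    (∀ i ∈ I, ∀ j ∈ I, ∀ k ∈ I, ∀ l ∈ I, i < j → k < l → (i ≠ k ∨ j ≠ l) →
      Far G K (E i j) (E k l)) ∧
    (∀ i ∈ I, ∀ j ∈ I, ∀ k ∈ I, i < j → k ≠ i → k ≠ j → Far G K (E i j) (B k))

theorem fatMinor_of_fatCl [hc : Fact G.Connected] {W : Type} [Finite W] (H : SimpleGraph W)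
    {K : ℕ} (h : FatCl G K (Nat.card W)) : FatMinor H G K := by
  classical
  obtain ⟨I, B, E, hI, hB, hE, h1, h2, h3⟩ := h
  have := Fintype.ofFinite W
  obtain ⟨ι, hι⟩ : ∃ ι : W ↪ ℕ, ∀ w, ι w ∈ I := by
    obtain ⟨ι, hι⟩ := Function.Embedding.exists_of_card_le_finset (α := W) (s := I)
      (by rwa [Nat.card_eq_fintype_card] at hI)
    exact ⟨ι, fun w => hι ⟨w, rfl⟩⟩
  have hed : ∀ x y : V, K ≤ G.dist x y → (K : ℕ∞) ≤ G.edist x y := fun x y hxy => by
    rw [← (hc.out.preconnected x y).coe_dist_eq_edist]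
    exact_mod_cast hxy
  have he : ∀ e : H.edgeSet, ∃ u v, (e : Sym2 W) = s(u, v) ∧ ι u < ι v := by
    rintro ⟨e, he⟩
    induction e using Sym2.ind with
    | _ u v =>
      have hne : ι u ≠ ι v := fun h => (H.ne_of_adj he) (ι.injective h)
      rcases lt_or_gt_of_ne hne with h | h
      · exact ⟨u, v, rfl, h⟩
      · exact ⟨v, u, Sym2.eq_swap, h⟩
  choose u v huv hlt using he
  have hp : ∀ e : H.edgeSet, ∃ a ∈ B (ι (u e)), ∃ b ∈ B (ι (v e)), ∃ p : G.Walk a b,
      p.IsPath ∧ ∀ z ∈ p.support, z ∈ E (ι (u e)) (ι (v e)) := by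
    intro e
    obtain ⟨a, ha, b, hb, p, hp⟩ := hE _ (hι _) _ (hι _) (hlt e)
    exact ⟨a, ha, b, hb, p.bypass, p.bypass_isPath,
      fun z hz => hp z (p.support_bypass_subset_support hz)⟩
  choose a ha b hb p hp1 hp2 using hp
  refine ⟨fun w => (⊤ : G.Subgraph).induce (B (ι w)), a, b, p, fun w => ?_, hp1,
    fun e => ⟨u e, v e, huv e, ha e, hb e⟩, fun w w' hw x hx y hy => ?_,
    fun e f hef x hx y hy => ?_, fun e w hw x hx y hy => ?_⟩
  · rw [Subgraph.connected_iff_forall_exists_walk_subgraph]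
    refine ⟨(hB _ (hι w)).1, fun {x y} hx hy => ?_⟩
    obtain ⟨q, hq⟩ := (hB _ (hι w)).2 x hx y hy
    exact ⟨q, q.toSubgraph_le_induce_support.trans (Subgraph.induce_mono_right hq)⟩
  · exact hed _ _ (h1 _ (hι _) _ (hι _) (fun h => hw (ι.injective h)) x hx y hy)
  · refine hed _ _ (h2 _ (hι _) _ (hι _) _ (hι _) _ (hι _) (hlt e) (hlt f) ?_ x (hp2 e x hx) y
      (hp2 f y hy))
    by_contra hcon
    push Not at hcon
    apply hef
    apply Subtype.ext
    rw [huv e, huv f, ι.injective hcon.1, ι.injective hcon.2]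
  · rw [huv e, Sym2.mem_iff] at hw
    push Not at hw
    exact hed _ _ (h3 _ (hι _) _ (hι _) _ (hι w) (hlt e) (fun h => hw.1 (ι.injective h))
      (fun h => hw.2 (ι.injective h)) x (hp2 e x hx) y hy)

/-- A coarse equivalence between connected graphs gives a quasi-isometry. -/
theorem qi_of_coarse [Fact G.Connected] {A : Type} {P : SimpleGraph A} [Fact P.Connected]
    (f : A → V) (c : ℕ) (h1 : ∀ v w, P.Adj v w → G.dist (f v) (f w) ≤ c)
    (h2 : ∀ R, ∃ C, ∀ v w, G.dist (f v) (f w) ≤ R → P.dist v w ≤ C)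
    (h3 : ∀ x, ∃ v, G.dist x (f v) ≤ c) : QuasiIsometric G P := by
  choose g hg using h3
  obtain ⟨C, hC⟩ := h2 (2 * c + 1)
  have hup : ∀ v w, G.dist (f v) (f w) ≤ c * P.dist v w := by
    intro v w
    obtain ⟨q, q0, q1, q2⟩ := exists_geo (G := P) v w
    have := dist_seq_le (G := G) (g := fun i => f (q i)) (fun i hi => h1 _ _ (q2 i hi)) 0
      (P.dist v w) (by omega)
    simpa [q0, q1] using this
  have hlo : ∀ x y, P.dist (g x) (g y) ≤ C * G.dist x y := by
    intro x y
    obtain ⟨q, q0, q1, q2⟩ := exists_geo (G := G) x y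
    have := dist_seq_le (G := P) (g := fun i => g (q i)) (c := C) (n := G.dist x y)
      (fun i hi => hC _ _ (by
        have e1 := hg (q i)
        have e2 := hg (q (i + 1))
        have e3 := dist_adj (q2 i hi)
        have e4 := tri (G := G) (f (g (q i))) (q i) (f (g (q (i + 1))))
        have e5 := tri (G := G) (q i) (q (i + 1)) (f (g (q (i + 1))))
        rw [dcomm] at e1
        omega)) 0 (G.dist x y) (by omega)
    simpa [q0, q1] using this
  refine ⟨g, c + C + 1, 2 * c + C, by norm_cast; omega, by positivity, fun x y => ⟨?_, ?_⟩,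
    fun w => ⟨f w, ?_⟩⟩
  · have e1 := hg x
    have e2 := hg y
    have e3 := hup (g x) (g y)
    have e4 := tri (G := G) x (f (g x)) y
    have e5 := tri (G := G) (f (g x)) (f (g y)) y
    rw [dcomm] at e2
    have e6 : (G.dist x y : ℝ) ≤ c * P.dist (g x) (g y) + 2 * c := by
      norm_cast
      omega
    rw [sub_le_iff_le_add, div_le_iff₀ (by positivity)]
    have : (0 : ℝ) ≤ P.dist (g x) (g y) := by positivity
    have : (0 : ℝ) ≤ c := by positivity
    have : (0 : ℝ) ≤ C := by positivity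
    nlinarith [mul_nonneg ‹(0 : ℝ) ≤ c› ‹(0 : ℝ) ≤ c›, mul_nonneg ‹(0 : ℝ) ≤ c› ‹(0 : ℝ) ≤ C›,
      mul_nonneg ‹(0 : ℝ) ≤ C› ‹(0 : ℝ) ≤ C›,
      mul_nonneg ‹(0 : ℝ) ≤ C› ‹(0 : ℝ) ≤ P.dist (g x) (g y)›]
  · have e1 : (P.dist (g x) (g y) : ℝ) ≤ C * G.dist x y := by exact_mod_cast hlo x y
    have : (0 : ℝ) ≤ G.dist x y := by positivity
    have : (0 : ℝ) ≤ c := by positivity
    have : (0 : ℝ) ≤ C := by positivity
    nlinarith [mul_nonneg ‹(0 : ℝ) ≤ c› ‹(0 : ℝ) ≤ G.dist x y›]
  · have e1 := hg (f w)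
    have e2 := hC w (g (f w)) (by omega)
    have : (P.dist w (g (f w)) : ℝ) ≤ C := by exact_mod_cast e2
    have : (0 : ℝ) ≤ c := by positivity
    linarith

end Pool.Agent.MP_77f003_co.H49
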