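import Pool.Agent.MP_77f003_co.H49.USpec

/-!
The stabiliser of the union of a chain of cuts, and the fat clique from large orbits.
-/

namespace Pool.Agent.MP_77f003_co.H49

open SimpleGraph Filter MulAction

variable {V : Type} {G : SimpleGraph V}

theorem stab_of_maps {φ : G ≃g G} (hφ : ∀ w, (Set.range fun n : ℕ => (φ ^ n) w).Finite) {A : Set V}
    (h : ∀ x ∈ A, φ x ∈ A) : φ ∈ (stab A : Subgroup (G ≃g G)) := by
  refine fun x => ⟨fun hx => ?_, h x⟩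
  have k : ∀ n, (φ ^ (n + 1)) x ∈ A := fun n => by
    induction n with
    | zero => simpa using hx
    | succ n ih => rw [pow_succ']; exact h _ ih
  obtain ⟨a, b, hab, e⟩ : ∃ a b : ℕ, a < b ∧ (φ ^ a) x = (φ ^ b) x := by
    have := (hφ x).to_subtype
    obtain ⟨a, b, hab, e⟩ := Finite.exists_ne_map_eq_of_infinite
      fun n : ℕ => (⟨(φ ^ n) x, n, rfl⟩ : Set.range fun n : ℕ => (φ ^ n) x)
    rcases hab.lt_or_gt with h | h
    exacts [⟨a, b, h, congrArg Subtype.val e⟩, ⟨b, a, h, (congrArg Subtype.val e).symm⟩]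
  obtain ⟨c, rfl⟩ := Nat.exists_eq_add_of_lt hab
  rw [add_assoc, pow_add] at e
  exact (φ ^ a).injective e ▸ k c

theorem stab_compl {φ : G ≃g G} {A : Set V} (h : φ ∈ (stab Aᶜ : Subgroup (G ≃g G))) :
    φ ∈ (stab A : Subgroup (G ≃g G)) := fun x => not_iff_not.1 (h x)

theorem NFam.comp {N : Set (Set V)} (h : NFam G N) {B C : Set V} (hB : B ∈ N) (hC : C ∈ N) {x y : V}
    (h1 : x ∈ B) (h2 : x ∈ C) (h3 : y ∉ B) (h4 : y ∉ C) : B ⊆ C ∨ C ⊆ B := by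
  rcases h.nest B hB C hC with e | e | e | e
  exacts [Or.inl e, absurd h2 (e h1), absurd (e h3) h4, Or.inr (Set.compl_subset_compl.1 e)]

theorem FinOrb.mono {W W' : Subgroup (G ≃g G)} (h : FinOrb W) (h' : W' ≤ W) : FinOrb W' :=
  fun x => (h x).subset (by rintro _ ⟨φ, rfl⟩; exact ⟨⟨φ.1, h' φ.2⟩, rfl⟩)

theorem FinOrb.ell {W : Subgroup (G ≃g G)} (h : FinOrb W) : Ell W :=
  fun φ hφ x => (h x).subset (by rintro _ ⟨n, rfl⟩; exact ⟨⟨φ ^ n, W.pow_mem hφ n⟩, rfl⟩)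

theorem big_of_large {W : Subgroup (G ≃g G)} (hW : FinOrb W) {ρ T c : ℕ}
    (hc : ∀ y : V, (orbit (Cl G W ρ {y}) y).ncard ≤ c) (hL : Large W (T * c + 1)) :
    Big G W ρ T := by
  intro y
  by_contra hn
  simp only [Many, not_or, not_le] at hn
  have hle : Cl G W ρ {y} ≤ W := (Subgroup.closure_le _).2 fun w hw => hw.1
  have : Finite (W ⧸ (Cl G W ρ {y}).subgroupOf W) := Nat.finite_of_card_ne_zero hn.1
  have := ((hW.mono hle) y).to_subtype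
  have e1 : Nat.card (orbit W y) ≤
      Nat.card ((W ⧸ (Cl G W ρ {y}).subgroupOf W) × orbit (Cl G W ρ {y}) y) := by
    refine Nat.card_le_card_of_surjective (fun p => ⟨p.1.out.1 p.2.1, ?_⟩) ?_
    · obtain ⟨q, _, ψ, rfl⟩ := p
      exact ⟨q.out * ⟨ψ.1, hle ψ.2⟩, rfl⟩
    · rintro ⟨_, w, rfl⟩
      obtain ⟨k, hk⟩ := QuotientGroup.mk_out_eq_mul ((Cl G W ρ {y}).subgroupOf W) w
      refine ⟨(QuotientGroup.mk w, ⟨_, ⟨_, (k⁻¹).2⟩, rfl⟩), Subtype.ext ?_⟩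
      simp only [hk]
      change ((w * k : W) * (k⁻¹ : W)) • y = w • y
      rw [mul_inv_cancel_right]
  rw [Nat.card_prod] at e1
  have e2 := hL y
  have e3 : Nat.card (W ⧸ (Cl G W ρ {y}).subgroupOf W) < T := hn.2
  have e4 := Nat.mul_le_mul e3.le (hc y)
  simp only [Nat.card_coe_set_eq] at e1
  omega

variable [Fact G.Connected] [G.LocallyFinite]

theorem finOrb_of {W : Subgroup (G ≃g G)} {x : V} (h : (orbit W x).Finite) : FinOrb W :=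
  fun y => (h.biUnion fun z _ => finite_ball (G := G) z (G.dist x y)).subset (by
    rintro _ ⟨φ, rfl⟩
    exact Set.mem_biUnion (mem_orbit x φ) (dist_iso φ.1 x y).le)

theorem finOrb_stab {A : Set V} (h : (cb G 1 A).Finite) {u v : V} (huv : G.Adj u v) (hu : u ∈ A)
    (hv : v ∉ A) : FinOrb (stab A : Subgroup (G ≃g G)) :=
  finOrb_of (x := u) ((h.image Prod.fst).subset (by
    rintro _ ⟨φ, rfl⟩
    exact ⟨(φ.1 u, φ.1 v), ⟨(φ.2 u).2 hu, fun h => hv ((φ.2 v).1 h),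
      (dist_adj (φ.1.map_adj_iff.2 huv)).le⟩, rfl⟩))

theorem NFam.pair {N : Set (Set V)} (h : NFam G N) {B : Set V} (hB : B ∈ N) {u v : V} (hu : u ∈ B)
    (hv : v ∉ B) {φ : G ≃g G} (h1 : φ u = u) (h2 : φ v = v) :
    φ ∈ (stab B : Subgroup (G ≃g G)) := by
  have e := (finOrb_of (W := stabilizer (G ≃g G) u) (x := u) ((Set.finite_singleton u).subset (by
    rintro _ ⟨ψ, rfl⟩; exact ψ.2))).ell φ h1
  rcases h.comp hB (h.inv B hB φ) hu (by simpa [h1]) hv (by simpa [h2]) with k | k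
  exacts [stab_of_maps e k, stab_compl (stab_of_maps e fun x hx h => hx (k h))]

variable {N : Set (Set V)} {u v : V} {A : ℕ → Set V}

omit [Fact G.Connected] [G.LocallyFinite] in
theorem Lim.fin (h : Lim G N u v A) {B : Set V} (hB : B ∈ N) : (cb G 1 B).Finite := by
  obtain ⟨α, β, -, -, e, -⟩ := (h.eff B hB).1
  exact e.1

omit [Fact G.Connected] [G.LocallyFinite] in
theorem Lim.notMem (h : Lim G N u v A) : v ∉ ⋃ j, A j := fun e => by
  obtain ⟨j, hj⟩ := Set.mem_iUnion.1 e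
  exact (h.mem j).2.2 hj

theorem Lim.finOrb (h : Lim G N u v A) (j : ℕ) : FinOrb (stab (A j) : Subgroup (G ≃g G)) :=
  finOrb_stab (h.fin (h.mem j).1) h.adj (h.mem j).2.1 (h.mem j).2.2

theorem Lim.ev (h : Lim G N u v A) {φ : G ≃g G} (hφ : φ ∈ (stab (⋃ j, A j) : Subgroup (G ≃g G))) :
    ∀ᶠ j in atTop, φ ∈ (stab (A j) : Subgroup (G ≃g G)) := by
  have key : ∀ ψ ∈ (stab (⋃ j, A j) : Subgroup (G ≃g G)), ∀ j, A j ⊆ ψ ⁻¹' A j →
      ψ ∈ (stab (A j) : Subgroup (G ≃g G)) := by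
    intro ψ hψ j hj
    let f : ℕ → Set V := fun n => (ψ ^ n) ⁻¹' A j
    have e : ∀ n, f (n + 1) = (ψ ^ n) ⁻¹' (ψ ⁻¹' A j) := fun n => by
      simp only [f, pow_succ']
      rfl
    have hm : Monotone f := monotone_nat_of_le_succ fun n => by
      rw [e]
      exact Set.preimage_mono hj
    have hf : (Set.range f).Finite := by
      refine (finite_tight (G := G) (cb G 1 (A j)).ncard u v ∅).subset ?_
      rintro _ ⟨n, rfl⟩
      exact ⟨(h.eff _ (h.mem j).1).2.pre _, hm n.zero_le (by simpa [f] using (h.mem j).2.1),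
        fun hv => h.notMem ((Subgroup.pow_mem _ hψ n v).1 (Set.mem_iUnion.2 ⟨j, hv⟩)), by simp,
        (cb_pre' _ 1 _).2 (h.fin (h.mem j).1), by simp [f, (cb_pre' _ 1 _).1]⟩
    obtain ⟨n, hn⟩ : ∃ n, f (n + 1) ⊆ f n := by
      by_contra hc
      push Not at hc
      exact Set.infinite_range_of_injective (strictMono_nat_of_lt_succ fun n =>
        lt_of_le_not_ge (hm n.le_succ) (hc n)).injective hf
    rw [e] at hn
    exact fun x => ⟨fun hx => (Set.preimage_subset_preimage_iff (by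
      rw [(ψ ^ n).surjective.range_eq]; simp)).1 hn hx, fun hx => hj hx⟩
  obtain ⟨i, hi⟩ := Set.mem_iUnion.1 ((hφ u).2 (Set.mem_iUnion.2 ⟨0, (h.mem 0).2.1⟩))
  filter_upwards [eventually_ge_atTop i] with j hj
  rcases h.fam.comp (h.mem j).1 (h.fam.inv _ (h.mem j).1 φ) (h.mem j).2.1 (h.mono.monotone hj hi)
    (h.mem j).2.2 (fun hv => h.notMem ((hφ v).1 (Set.mem_iUnion.2 ⟨j, hv⟩))) with k | k
  · exact key φ hφ j k
  · exact inv_mem_iff.1 (key φ⁻¹ (inv_mem hφ) j fun x hx => k (by simpa using hx))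

theorem Lim.ell (h : Lim G N u v A) : Ell (stab (⋃ j, A j) : Subgroup (G ≃g G)) := fun φ hφ =>
  let ⟨j, hj⟩ := (h.ev hφ).exists
  (h.finOrb j).ell φ hj

theorem Lim.pair (h : Lim G N u v A) {φ : G ≃g G} (h1 : φ u = u) (h2 : φ v = v) (j : ℕ) :
    φ ∈ (stab (⋃ j, A j) ⊓ stab (A j) : Subgroup (G ≃g G)) := by
  have := fun j => h.fam.pair (h.mem j).1 (h.mem j).2.1 (h.mem j).2.2 h1 h2
  exact ⟨fun x => by simp only [Set.mem_iUnion, fun j => this j x], this j⟩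

theorem Lim.disj (h : Lim G N u v A) (j : ℕ) : ∀ φ ∈ (stab (⋃ j, A j) : Subgroup (G ≃g G)),
    φ ∈ (stab (A j) : Subgroup (G ≃g G)) ∨ Disjoint (φ '' A j) (A j) := by
  intro φ hφ
  rcases h.fam.nest _ (h.mem j).1 _ (h.fam.inv _ (h.mem j).1 φ) with k | k | k | k
  · exact Or.inl (stab_of_maps (h.ell φ hφ) k)
  · exact Or.inr (Set.disjoint_left.2 (by rintro _ ⟨x, hx, rfl⟩; exact k hx))
  · exact absurd ((hφ v).1 (Set.mem_iUnion.2 ⟨j, k (h.mem j).2.2⟩)) h.notMem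
  · exact Or.inl (stab_compl (stab_of_maps (h.ell φ hφ) k))

theorem Lim.le (h : Lim G N u v A) (j : ℕ) (F : Finset (G ≃g G))
    (hF : ∀ φ ∈ F, φ ∈ (stab (⋃ j, A j) : Subgroup (G ≃g G))) :
    ∃ Q : Subgroup (G ≃g G), FinOrb Q ∧ Q ≤ stab (⋃ j, A j) ∧ stab (⋃ j, A j) ⊓ stab (A j) ≤ Q ∧
      ∀ φ ∈ F, φ ∈ Q := by
  have key : ∀ p ∈ cb G 1 (A j), ∀ᶠ i in atTop, ∀ φ ∈ (stab (⋃ j, A j) : Subgroup (G ≃g G)),
      (φ u, φ v) = p → φ ∈ (stab (A i) : Subgroup (G ≃g G)) := by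
    intro p _
    by_cases hp : ∃ ψ ∈ (stab (⋃ j, A j) : Subgroup (G ≃g G)), (ψ u, ψ v) = p
    · obtain ⟨ψ, e1, rfl⟩ := hp
      filter_upwards [h.ev e1] with i hi φ _ e
      simp only [Prod.mk.injEq] at e
      simpa using mul_mem hi (h.pair (φ := ψ⁻¹ * φ) (by simp [e.1]) (by simp [e.2]) i).2
    · exact Eventually.of_forall fun i φ e1 e2 => absurd ⟨φ, e1, e2⟩ hp
  obtain ⟨i, e1, e2⟩ := (((h.fin (h.mem j).1).eventually_all.2 key).and
    (F.eventually_all.2 fun φ hφ => h.ev (hF φ hφ))).exists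
  exact ⟨stab (⋃ j, A j) ⊓ stab (A i), (h.finOrb i).mono inf_le_right, inf_le_left,
    fun φ hφ => ⟨hφ.1, e1 _ ⟨(hφ.2 u).2 (h.mem j).2.1, fun e => (h.mem j).2.2 ((hφ.2 v).1 e),
      (dist_adj (φ.map_adj_iff.2 h.adj)).le⟩ φ hφ.1 rfl⟩, fun φ hφ => ⟨hF φ hφ, e2 φ hφ⟩⟩

theorem Lim.inf (h : Lim G N u v A) (hP : ¬ FinOrb (stab (⋃ j, A j) : Subgroup (G ≃g G))) (j : ℕ) :
    {B | ∃ φ ∈ (stab (⋃ j, A j) : Subgroup (G ≃g G)), B = φ '' A j}.Infinite := by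
  refine fun hf => hP (finOrb_of (x := u) ((hf.biUnion (t := fun B => Prod.fst '' cb G 1 B)
    ?_).subset ?_))
  · rintro _ ⟨φ, -, rfl⟩
    exact (h.fin (φ.toEquiv.image_eq_preimage_symm (A j) ▸ h.fam.inv _ (h.mem j).1 φ.symm)).image _
  · rintro _ ⟨φ, rfl⟩
    exact Set.mem_biUnion (x := φ.1 '' A j) ⟨φ, φ.2, rfl⟩ ⟨(φ.1 u, φ.1 v), ⟨⟨u, (h.mem j).2.1, rfl⟩,
      by simpa using (h.mem j).2.2, (dist_adj (φ.1.map_adj_iff.2 h.adj)).le⟩, rfl⟩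

theorem Lim.large (h : Lim G N u v A) (hL : LargeSpec) (ht : VT G) (hU : UM G)
    (hP : ¬ FinOrb (stab (⋃ j, A j) : Subgroup (G ≃g G))) (n : ℕ) :
    ∃ j, Large (stab (⋃ j, A j) ⊓ stab (A j) : Subgroup (G ≃g G)) n := by
  obtain ⟨t, t1, t2⟩ := Set.Infinite.exists_subset_card_eq (fun e => hP (finOrb_of (x := u) e))
    (G.degree u * n)
  obtain ⟨j, hj⟩ := (t.eventually_all.2 fun x hx => show ∀ᶠ j in atTop,
    x ∈ orbit (stab (⋃ j, A j) ⊓ stab (A j) : Subgroup (G ≃g G)) u by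
      obtain ⟨φ, rfl⟩ := t1 hx
      exact (h.ev φ.2).mono fun j hj => ⟨⟨φ.1, φ.2, hj⟩, rfl⟩).exists
  have hf := (h.finOrb j).mono (inf_le_right (a := stab (⋃ j, A j)))
  refine ⟨j, fun y => Nat.le_of_mul_le_mul_left ?_ ((G.degree_pos_iff_exists_adj u).2 ⟨v, h.adj⟩)⟩
  have := Set.ncard_le_ncard (show (t : Set V) ⊆ _ from hj) (hf u)
  rw [Set.ncard_coe_finset, t2] at this
  exact this.trans (hL G _ u v ht hU h.adj hf (fun φ h1 h2 => h.pair h1 h2 j) y)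

omit [Fact G.Connected] [G.LocallyFinite] in
theorem Legs.mono {W : Subgroup (G ≃g G)} {f : V → ℕ} {n R R' : ℕ} {Z : ℕ → Set V}
    {lam : ℕ → ℕ → V} (h : Legs G W f n R Z lam) (h' : R' ≤ R) : Legs G W f n R' Z lam :=
  { h with zfar := fun i hi j hj e x hx y hy => h'.trans (h.zfar i hi j hj e x hx y hy) }

theorem Lim.fatCl (h : Lim G N u v A) (h1 : HubSpec) (h2 : ClusterSpec) (h3 : LegSpec)
    (h4 : KillSpec) (h5 : TeethSpec) (h6 : SurvSpec) (ht : VT G)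
    (hP : ¬ FinOrb (stab (⋃ j, A j) : Subgroup (G ≃g G)))
    (hL : ∀ n, ∃ j, Large (stab (⋃ j, A j) ⊓ stab (A j) : Subgroup (G ≃g G)) n) (K k : ℕ) :
    FatCl G K k := by
  by_contra hno
  obtain ⟨n1, D1, e5⟩ := h5 K k
  obtain ⟨n2, D2, ρ2, T2, e6⟩ := h6 K k
  obtain ⟨R, ρ1, T1, e5⟩ := e5 (D1 + D2) (by omega) ((D1 + D2) * 10 ^ ((n1 + n2) * 2 ^ (n1 + n2)))
  obtain ⟨c1, k1⟩ := h2 G K k ρ1 ht hno
  obtain ⟨c2, k2⟩ := h2 G K k ρ2 ht hno
  obtain ⟨n', e1⟩ := h1 (G.degree u) K k ((n1 + n2) * 2 ^ (n1 + n2)) (R + D2)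
    (T1 * c1 + 1 + (T2 * c2 + 1))
  obtain ⟨j, hj⟩ := hL n'
  obtain ⟨W, Q, Z, g, w1, w2, w3, w4, w5, w6, w7, w8, w9⟩ := (e1 G _ (A j)
    (fun x => (degree_eq ht x u).le) (h.eff _ (h.mem j).1).1 (h.disj j) (h.le j) (h.inf hP j)
    hj).resolve_left hno
  obtain ⟨f, lam, hl⟩ := h3 G _ Q W Z g _ _ h.ell hP w1 w2 w3 w5 w6 w7 w8 w9
  have hW := w3.mono w1
  let S : ℕ → ℕ → ℕ → Set ℕ := fun i j t => {d | ∃ w ∈ W, G.dist (lam i t) (w (lam j t)) = d}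
  have s1 : ∀ {i j t D}, D < sInf (S i j t) → ∀ w ∈ W, D < G.dist (lam i t) (w (lam j t)) :=
    fun h w hw => h.trans_le (Nat.sInf_le ⟨w, hw, rfl⟩)
  have s2 : ∀ i j t, S i j t ⊆ S j i t := by
    rintro i j t _ ⟨w, hw, rfl⟩
    exact ⟨w⁻¹, inv_mem hw, by rw [dcomm, ← dist_iso w]; simp⟩
  rcases h4 (n1 + n2) (D1 + D2) (fun i j t => sInf (S i j t))
    (fun i j t => by rw [(s2 i j t).antisymm (s2 j i t)]) with ⟨I, i1, i2, i3⟩ |
    ⟨i, i1, J, τ, r, i2, i3, i4, i5⟩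
  · exact hno (e6 G W f _ _ lam (big_of_large hW (fun y => k2 W y hW) fun y => by
      have := w4 y; omega) (hl.mono (by omega)) I i1 (by omega)
      fun i hi j hj e t => s1 ((Nat.le_add_left _ _).trans_lt (i3 i hi j hj e t)))
  · refine hno (e5 G W f _ _ lam (big_of_large hW (fun y => k1 W y hW) fun y => by
      have := w4 y; omega) (hl.mono (by omega)) i i1 J τ r i2 (by omega) (fun j hj => ?_)
      fun j hj l hl e => ⟨fun t a b => s1 ((i5 j hj l hl e).1 t a b),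
        fun a => s1 ((i5 j hj l hl e).2 a)⟩)
    obtain ⟨a1, a2, a3, a4, a5⟩ := i4 j hj
    obtain ⟨w, b1, b2⟩ := Nat.sInf_mem (s := S i j (τ j)) ⟨_, 1, one_mem _, rfl⟩
    exact ⟨a1, a2, a3, ⟨w, b1, b2.trans_le a4⟩, fun t ht => s1 (a5 t ht)⟩

end Pool.Agent.MP_77f003_co.H49
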