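import Pool.Agent.MP_77f003_co.H49.Ends

/-!
Finite edge cuts: tight cuts, minimum cuts between proper sequences and their nestedness.
-/

namespace Pool.Agent.MP_77f003_co.H49

open SimpleGraph Filter

variable {V : Type} {G : SimpleGraph V}

/-- The pairs leaving `A` at distance at most `M`. -/
def cb (G : SimpleGraph V) (M : ℕ) (A : Set V) : Set (V × V) :=
  {p | p.1 ∈ A ∧ p.2 ∉ A ∧ G.dist p.1 p.2 ≤ M}

/-- A point next to both sides of `A`. -/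
def Ep (G : SimpleGraph V) (A : Set V) (a : V) : Prop :=
  (∃ y ∈ A, G.dist a y ≤ 1) ∧ ∃ y ∉ A, G.dist a y ≤ 1

/-- A proper sequence with bounded steps. -/
def QR (G : SimpleGraph V) (α : ℕ → V) : Prop :=
  (∃ r, ∀ n, G.dist (α n) (α (n + 1)) ≤ r) ∧ ∀ x t, ∀ᶠ n in atTop, t ≤ G.dist x (α n)

/-- A finite cut separating two sequences. -/
def Sp (G : SimpleGraph V) (α β : ℕ → V) (A : Set V) : Prop :=
  (cb G 1 A).Finite ∧ (∀ᶠ n in atTop, α n ∈ A) ∧ ∀ᶠ n in atTop, β n ∉ A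

/-- A lexicographically smallest cut separating two sequences. -/
def MinC (G : SimpleGraph V) (M : ℕ) (α β : ℕ → V) (A : Set V) : Prop :=
  Sp G α β A ∧ ∀ B, Sp G α β B → (cb G 1 A).ncard < (cb G 1 B).ncard ∨
    (cb G 1 A).ncard = (cb G 1 B).ncard ∧ (cb G M A).ncard ≤ (cb G M B).ncard

/-- Both sides are connected. -/
def Tight (G : SimpleGraph V) (A : Set V) : Prop :=
  (∀ x ∈ A, ∀ y ∈ A, Lk G A x y) ∧ ∀ x ∉ A, ∀ y ∉ A, Lk G Aᶜ x y

theorem Lk.cross {S A : Set V} {x y : V} (h : Lk G S x y) (hx : x ∈ A) (hy : y ∉ A) :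
    ∃ p ∈ cb G 1 A, p.2 ∈ S ∧ Lk G (S ∩ A) x p.1 := by
  obtain ⟨p, hp⟩ := h
  induction p with
  | nil => exact absurd hx hy
  | @cons a b c hab q ih =>
    have ha : a ∈ S ∩ A := ⟨hp a (by simp), hx⟩
    by_cases hb : b ∈ A
    · obtain ⟨p, p1, p2, p3⟩ := ih hb hy fun z hz => hp z (by simp [hz])
      exact ⟨p, p1, p2, (Lk.adj hab ha p3.left).trans p3⟩
    · exact ⟨(a, b), ⟨hx, hb, (dist_adj hab).le⟩, hp b (by simp), Lk.refl ha⟩

theorem cb_compl (M : ℕ) (A : Set V) : cb G M Aᶜ = Prod.swap '' cb G M A := by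
  ext ⟨x, y⟩
  simp only [cb, Set.mem_ofPred_eq, Set.mem_compl_iff, not_not, Set.mem_image, Prod.exists,
    Prod.swap_prod_mk, Prod.mk.injEq]
  exact ⟨fun h => ⟨y, x, ⟨h.2.1, h.1, by rw [dcomm]; exact h.2.2⟩, rfl, rfl⟩, by
    rintro ⟨a, b, h, rfl, rfl⟩
    exact ⟨h.2.1, h.1, by rw [dcomm]; exact h.2.2⟩⟩

theorem ncard_cb_compl (M : ℕ) (A : Set V) : (cb G M Aᶜ).ncard = (cb G M A).ncard := by
  rw [cb_compl, Set.ncard_image_of_injective _ Prod.swap_injective]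

theorem Sp.compl {α β : ℕ → V} {A : Set V} (h : Sp G α β A) : Sp G β α Aᶜ :=
  ⟨cb_compl 1 A ▸ h.1.image _, h.2.2, h.2.1.mono fun _ h h' => h' h⟩

theorem MinC.compl {M : ℕ} {α β : ℕ → V} {A : Set V} (h : MinC G M α β A) : MinC G M β α Aᶜ :=
  ⟨h.1.compl, fun B hB => by simpa only [ncard_cb_compl] using h.2 _ hB.compl⟩

theorem Ep.compl {A : Set V} {a : V} (h : Ep G A a) : Ep G Aᶜ a :=
  ⟨h.2, h.1.imp fun _ h => ⟨fun h' => h' h.1, h.2⟩⟩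

theorem cb_inter_union (M : ℕ) (A B : Set V) :
    cb G M (A ∩ B) ∪ cb G M (A ∪ B) ⊆ cb G M A ∪ cb G M B := by
  rintro p (⟨h1, h2, h3⟩ | ⟨h1, h2, h3⟩)
  · by_cases h : p.2 ∈ A
    exacts [Or.inr ⟨h1.2, fun h' => h2 ⟨h, h'⟩, h3⟩, Or.inl ⟨h1.1, h, h3⟩]
  · exact h1.imp (fun h => ⟨h, fun h' => h2 (Or.inl h'), h3⟩)
      fun h => ⟨h, fun h' => h2 (Or.inr h'), h3⟩

theorem submod {M : ℕ} {A B : Set V} (hA : (cb G M A).Finite) (hB : (cb G M B).Finite) :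
    (cb G M (A ∩ B)).ncard + (cb G M (A ∪ B)).ncard ≤ (cb G M A).ncard + (cb G M B).ncard ∧
    ((∃ x ∈ A, ∃ y ∈ B, x ∉ B ∧ y ∉ A ∧ G.dist x y ≤ M) →
      (cb G M (A ∩ B)).ncard + (cb G M (A ∪ B)).ncard < (cb G M A).ncard + (cb G M B).ncard) := by
  have e0 := cb_inter_union (G := G) M A B
  have e1 := (hA.union hB).subset e0
  rw [← Set.ncard_union_add_ncard_inter _ _ hA hB, ← Set.ncard_union_add_ncard_inter _ _
    (e1.subset Set.subset_union_left) (e1.subset Set.subset_union_right)]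
  have e2 : (cb G M (A ∩ B) ∩ cb G M (A ∪ B)).ncard ≤ (cb G M A ∩ cb G M B).ncard :=
    Set.ncard_le_ncard (fun p ⟨h1, h2⟩ => ⟨⟨h1.1.1, fun h => h2.2.1 (Or.inl h), h1.2.2⟩,
      ⟨h1.1.2, fun h => h2.2.1 (Or.inr h), h1.2.2⟩⟩) (hA.inter_of_left _)
  refine ⟨Nat.add_le_add (Set.ncard_le_ncard e0 (hA.union hB)) e2, ?_⟩
  rintro ⟨x, x1, y, y1, x2, y2, h⟩
  refine Nat.add_lt_add_of_lt_of_le (Set.ncard_lt_ncard ⟨e0, fun h' => ?_⟩ (hA.union hB)) e2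
  rcases h' (show (x, y) ∈ _ from Or.inl ⟨x1, y2, h⟩) with h | h
  exacts [x2 h.1.2, h.2.1 (Or.inr y1)]

theorem finite_tight (j : ℕ) (x y : V) (F : Finset (V × V)) :
    {A | Tight G A ∧ x ∈ A ∧ y ∉ A ∧ ↑F ⊆ cb G 1 A ∧ (cb G 1 A).Finite ∧
      (cb G 1 A).ncard ≤ F.card + j}.Finite := by
  classical
  induction j using Nat.strong_induction_on generalizing F with
  | _ j ih =>
  have hl : ∀ {S : Set V} {a b}, Lk G S a b → (∀ p ∈ F, p.1 ∉ S ∨ p.2 ∉ S) →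
      Relation.ReflTransGen (fun a b => G.Adj a b ∧ (a, b) ∉ F) a b := by
    rintro S a b ⟨p, hp⟩ hS
    induction p with
    | nil => rfl
    | @cons a b c hab q ih =>
      exact .head ⟨hab, fun h => (hS _ h).elim (fun h => h (hp a (by simp)))
        fun h => h (hp b (by simp))⟩ (ih fun z hz => hp z (by simp [hz]))
  by_cases h : Relation.ReflTransGen (fun a b => G.Adj a b ∧ (a, b) ∉ F) x y
  · have : ∃ D : Finset (V × V), (∀ d ∈ D, d ∉ F) ∧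
        ∀ A, x ∈ A → y ∉ A → ∃ d ∈ D, d ∈ cb G 1 A := by
      clear ih
      induction h with
      | refl => exact ⟨∅, by simp, fun A h h' => absurd h h'⟩
      | @tail b c _ hbc ih =>
        obtain ⟨D, d1, d2⟩ := ih
        refine ⟨insert (b, c) D, by simpa [hbc.2] using d1, fun A h h' => ?_⟩
        by_cases hb : b ∈ A
        · exact ⟨(b, c), by simp, hb, h', (dist_adj hbc.1).le⟩
        · exact (d2 A h hb).imp fun d hd => ⟨by simp [hd.1], hd.2⟩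
    obtain ⟨D, d1, d2⟩ := this
    have key : ∀ d ∈ D, {A | Tight G A ∧ x ∈ A ∧ y ∉ A ∧ ↑(insert d F) ⊆ cb G 1 A ∧
        (cb G 1 A).Finite ∧ (cb G 1 A).ncard ≤ F.card + j}.Finite := by
      intro d hd
      rcases j with _ | j
      · refine Set.finite_empty.subset fun A ⟨_, _, _, h1, h2, h3⟩ => ?_
        have := Set.ncard_le_ncard h1 h2
        rw [Set.ncard_coe_finset, Finset.card_insert_of_notMem (d1 d hd)] at this
        omega
      · have := ih j (by omega) (insert d F)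
        rwa [Finset.card_insert_of_notMem (d1 d hd), add_assoc, add_comm 1] at this
    refine (D.finite_toSet.biUnion key).subset fun A ⟨h1, h2, h3, h4, h5⟩ => ?_
    obtain ⟨d, e1, e2⟩ := d2 A h2 h3
    exact Set.mem_biUnion e1 ⟨h1, h2, h3, by
      rw [Finset.coe_insert]; exact Set.insert_subset e2 h4, h5⟩
  · refine (Set.finite_singleton
      {z | Relation.ReflTransGen (fun a b => G.Adj a b ∧ (a, b) ∉ F) x z}).subset
      fun A ⟨h1, h2, h3, h4, _⟩ => Set.ext fun z => ⟨fun hz => ?_, fun hz => ?_⟩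
    · exact hl (h1.1 x h2 z hz) fun p hp => Or.inr (h4 hp).2.1
    · by_contra hz'
      exact h (hz.trans (hl (h1.2 z hz' y h3) fun p hp => Or.inl fun h => h (h4 hp).1))

theorem exists_minC (M : ℕ) {α β : ℕ → V} {B : Set V} (h : Sp G α β B) :
    ∃ A, MinC G M α β A := by
  obtain ⟨A, h1, h2⟩ := (InvImage.wf (fun A : Set V => toLex ((cb G 1 A).ncard, (cb G M A).ncard))
    wellFounded_lt).has_min {A | Sp G α β A} ⟨B, h⟩
  exact ⟨A, h1, fun B hB => Prod.Lex.toLex_le_toLex.1 (not_lt.1 (h2 B hB))⟩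

variable [Fact G.Connected]

theorem cross_geo {A : Set V} {x y : V} (hx : x ∈ A) (hy : y ∉ A) :
    ∃ p ∈ cb G 1 A, G.dist x p.1 ≤ G.dist x y ∧ G.dist p.1 y ≤ G.dist x y := by
  obtain ⟨p, p1, -, p3⟩ := (Lk.geo (G := G) (S := {z | G.dist x z + G.dist z y ≤ G.dist x y})
    fun z hz => hz).cross hx hy
  have : G.dist x p.1 + G.dist p.1 y ≤ G.dist x y := p3.right.1
  exact ⟨p, p1, by omega, by omega⟩

theorem cb.ep {A : Set V} {p : V × V} (h : p ∈ cb G 1 A) : Ep G A p.1 :=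
  ⟨⟨_, h.1, by simp⟩, _, h.2.1, h.2.2⟩

theorem Ep.near {A : Set V} {a : V} (h : Ep G A a) : ∃ p ∈ cb G 1 A, G.dist a p.1 ≤ 1 := by
  obtain ⟨⟨y, y1, y2⟩, z, z1, z2⟩ := h
  by_cases ha : a ∈ A
  · exact ⟨(a, z), ⟨ha, z1, z2⟩, by simp⟩
  · exact ⟨(y, a), ⟨y1, ha, by rwa [dcomm]⟩, y2⟩

theorem QR.dich {α : ℕ → V} (h : QR G α) {A : Set V} (hA : (cb G 1 A).Finite) :
    (∀ᶠ n in atTop, α n ∈ A) ∨ ∀ᶠ n in atTop, α n ∉ A := by
  obtain ⟨⟨r, hr⟩, h⟩ := h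
  obtain ⟨N, hN⟩ := eventually_atTop.1 ((hA.eventually_all).2 fun p _ => h p.1 (r + 1))
  have key : ∀ n, N ≤ n → (α n ∈ A ↔ α N ∈ A) := by
    intro n hn
    induction n, hn using Nat.le_induction with
    | base => rfl
    | succ n hn ih =>
      rw [← ih]
      have := hr n
      constructor <;> intro h1 <;> by_contra h2 <;> obtain ⟨p, p1, p2, p3⟩ := cross_geo (G := G) h1 h2
      · have := hN n hn p p1
        rw [dcomm (α (n + 1)) (α n)] at p3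
        omega
      · have := hN n hn p p1
        rw [dcomm] at p2
        omega
  by_cases h0 : α N ∈ A
  · exact Or.inl (eventually_atTop.2 ⟨N, fun n hn => (key n hn).2 h0⟩)
  · exact Or.inr (eventually_atTop.2 ⟨N, fun n hn h => h0 ((key n hn).1 h)⟩)

theorem cb_pre (φ : G ≃g G) (M : ℕ) (A : Set V) :
    cb G M (φ ⁻¹' A) = Prod.map φ φ ⁻¹' cb G M A := by
  ext p
  simp [cb, dist_iso]

theorem cb_pre' (φ : G ≃g G) (M : ℕ) (A : Set V) :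
    (cb G M (φ ⁻¹' A)).ncard = (cb G M A).ncard ∧
      ((cb G M A).Finite → (cb G M (φ ⁻¹' A)).Finite) := by
  have h : Function.Bijective (Prod.map φ φ) := φ.bijective.prodMap φ.bijective
  rw [cb_pre]
  exact ⟨Set.ncard_preimage_of_injective_subset_range h.1 (by rw [h.2.range_eq]; simp),
    fun h' => h'.preimage h.1.injOn⟩

theorem QR.map {α : ℕ → V} (h : QR G α) (φ : G ≃g G) : QR G fun n => φ (α n) :=
  ⟨h.1.imp fun r hr n => by rw [dist_iso]; exact hr n, fun x t => (h.2 (φ.symm x) t).mono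
    fun n hn => by rwa [← dist_iso φ, RelIso.apply_symm_apply] at hn⟩

theorem MinC.pre {M : ℕ} {α β : ℕ → V} {A : Set V} (h : MinC G M α β A) (φ : G ≃g G) :
    MinC G M (fun n => φ.symm (α n)) (fun n => φ.symm (β n)) (φ ⁻¹' A) := by
  refine ⟨⟨(cb_pre' φ 1 A).2 h.1.1, by simpa using h.1.2.1, by simpa using h.1.2.2⟩, fun B hB => ?_⟩
  have := h.2 (φ.symm ⁻¹' B) ⟨(cb_pre' φ.symm 1 B).2 hB.1, hB.2.1, hB.2.2⟩
  simpa only [(cb_pre' _ _ _).1] using this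

omit [Fact G.Connected] in
theorem Tight.pre {A : Set V} (h : Tight G A) (φ : G ≃g G) : Tight G (φ ⁻¹' A) := by
  have key : ∀ {S : Set V} {x y}, Lk G S (φ x) (φ y) → Lk G (φ ⁻¹' S) x y := fun h => by
    have := h.map φ.symm
    simp only [RelIso.symm_apply_apply] at this
    exact this.mono (by rintro _ ⟨z, hz, rfl⟩; simpa using hz)
  exact ⟨fun x hx y hy => key (h.1 _ hx _ hy), fun x hx y hy => key (h.2 _ hx _ hy)⟩

variable [G.LocallyFinite]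

theorem finite_cb {A : Set V} (h : (cb G 1 A).Finite) (M : ℕ) : (cb G M A).Finite := by
  refine (h.biUnion fun p _ => (finite_ball (G := G) p.1 M).prod (finite_ball (G := G) p.1 M)).subset
    fun q ⟨h1, h2, h3⟩ => ?_
  obtain ⟨p, p1, p2, p3⟩ := cross_geo (G := G) h1 h2
  rw [dcomm] at p2
  exact Set.mem_biUnion p1 ⟨p2.trans h3, p3.trans h3⟩

theorem QR.lk {α : ℕ → V} (h : QR G α) {X : Set V} (hX : X.Finite) :
    ∃ N, ∀ n, N ≤ n → Lk G Xᶜ (α N) (α n) := by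
  obtain ⟨⟨r, hr⟩, h⟩ := h
  obtain ⟨N, hN⟩ := eventually_atTop.1 ((hX.eventually_all).2 fun x _ => h x (r + 1))
  refine ⟨N, fun n hn => ?_⟩
  induction n, hn using Nat.le_induction with
  | base => exact Lk.refl fun hx => by simpa using hN N le_rfl _ hx
  | succ n hn ih =>
    refine ih.trans (Lk.ball fun z hz hx => ?_)
    have := hN n hn z hx
    have := hr n
    rw [dcomm] at hz
    omega

theorem MinC.conn {M : ℕ} {α β : ℕ → V} {A : Set V} (h : MinC G M α β A) (hα : QR G α) :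
    ∀ x ∈ A, ∀ y ∈ A, Lk G A x y := by
  obtain ⟨N, hN⟩ := hα.lk (h.1.1.image Prod.snd)
  obtain ⟨n, n1, n2⟩ := (h.1.2.1.and (eventually_ge_atTop N)).exists
  obtain ⟨b, hb⟩ := h.1.2.2.exists
  have hsub : cb G 1 {z | Lk G A (α n) z} ⊆ cb G 1 A := fun p ⟨p1, p2, p3⟩ =>
    ⟨p1.right, fun h => p2 (p1.trans (Lk.near p3 p1.right h)), p3⟩
  have hsp : Sp G α β {z | Lk G A (α n) z} := by
    refine ⟨h.1.1.subset hsub, ?_, h.1.2.2.mono fun _ h h' => h h'.right⟩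
    filter_upwards [eventually_ge_atTop N] with k hk
    by_contra hc
    obtain ⟨p, p1, p2, -⟩ := ((hN n n2).symm.trans (hN k hk)).cross
      (A := {z | Lk G A (α n) z}) (Lk.refl n1) hc
    exact p2 ⟨p, hsub p1, rfl⟩
  have heq := Set.eq_of_subset_of_ncard_le hsub (by have := h.2 _ hsp; omega) h.1.1
  have key : ∀ x ∈ A, Lk G A (α n) x := fun x hx => by
    obtain ⟨p, p1, -, p3⟩ := (Lk.ball (G := G) (S := Set.univ) fun _ _ => trivial).cross hx hb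
    rw [← heq] at p1
    exact p1.1.trans (p3.mono Set.inter_subset_right).symm
  exact fun x hx y hy => (key x hx).symm.trans (key y hy)

theorem exists_diam (ht : VT G) (k : ℕ) : ∃ m, ∀ A, Tight G A → (cb G 1 A).Finite →
    (cb G 1 A).ncard ≤ k → ∀ p ∈ cb G 1 A, ∀ q ∈ cb G 1 A, G.dist p.1 q.1 ≤ m := by
  obtain ⟨o⟩ := (Fact.out : G.Connected).nonempty
  have h1 := (finite_ball (G := G) o 1).biUnion fun y _ => (finite_tight (G := G) k o y ∅).biUnion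
    fun A hA => hA.2.2.2.2.1
  obtain ⟨m, hm⟩ := (h1.image fun q => G.dist o q.1).bddAbove
  refine ⟨m, fun A a1 a2 a3 p hp q hq => ?_⟩
  obtain ⟨φ, hφ⟩ := ht o p.1
  have := hm ⟨(φ.symm q.1, φ.symm q.2), Set.mem_biUnion (x := φ.symm p.2) (by
    have := hp.2.2
    rwa [← dist_iso φ.symm, ← hφ, RelIso.symm_apply_apply] at this)
    (Set.mem_biUnion (x := φ ⁻¹' A) ⟨a1.pre φ, by simpa [hφ] using hp.1, by simpa using hp.2.1,
      by simp, (cb_pre' φ 1 A).2 a2, by simpa [(cb_pre' φ 1 A).1] using a3⟩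
      (by rw [cb_pre]; simpa using hq)), rfl⟩
  simp only at this
  rwa [← dist_iso φ, hφ, RelIso.apply_symm_apply] at this

theorem MinC.nested {M : ℕ} {α β α' β' : ℕ → V} {A B : Set V} (hA : MinC G M α β A)
    (hB : MinC G M α' β' B) (hα : QR G α) (hβ : QR G β) (hα' : QR G α') (hβ' : QR G β')
    (hd : ∀ p ∈ cb G 1 A, ∀ q ∈ cb G 1 A, G.dist p.1 q.1 + 1 ≤ M) :
    A ⊆ B ∨ A ⊆ Bᶜ ∨ Aᶜ ⊆ B ∨ Aᶜ ⊆ Bᶜ := by
  by_contra hc
  simp only [not_or, Set.not_subset, Set.mem_compl_iff, not_not] at hc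
  obtain ⟨⟨a, a1, a2⟩, ⟨b, b1, b2⟩, ⟨c, c1, c2⟩, d, d1, d2⟩ := hc
  obtain ⟨p, p1, p2, p3⟩ := (hB.conn hα' b b2 d d2).cross b1 d1
  obtain ⟨q, q1, q2, q3⟩ := (hB.compl.conn hβ' a a2 c c2).cross a1 c1
  have e1 : G.dist q.1 p.2 ≤ M := by
    have := hd q q1 p p1
    have := tri (G := G) q.1 p.1 p.2
    have := p1.2.2
    omega
  have e2 : G.dist p.1 q.2 ≤ M := by
    have := hd p p1 q q1
    have := tri (G := G) p.1 q.1 q.2
    have := q1.2.2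
    omega
  have f : ∀ {C D : Set V}, (cb G 1 C).Finite → (cb G 1 D).Finite →
      (cb G 1 (C ∩ D)).Finite ∧ (cb G 1 (C ∪ D)).Finite := fun h1 h2 =>
    Set.finite_union.1 ((h1.union h2).subset (cb_inter_union 1 _ _))
  have U1 : ∀ {α β α' β' : ℕ → V} {A B : Set V}, MinC G M α β A → MinC G M α' β' B →
      (∃ x ∈ A, ∃ y ∈ B, x ∉ B ∧ y ∉ A ∧ G.dist x y ≤ M) → (∀ᶠ n in atTop, α n ∈ B) →
      (∀ᶠ n in atTop, β' n ∉ A) → False := by
    intro α β α' β' A B hA hB h h1 h2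
    have k1 := hA.2 (A ∩ B) ⟨(f hA.1.1 hB.1.1).1, hA.1.2.1.and h1,
      hA.1.2.2.mono fun _ h h' => h h'.1⟩
    have k2 := hB.2 (A ∪ B) ⟨(f hA.1.1 hB.1.1).2, hB.1.2.1.mono fun _ h => Or.inr h,
      (h2.and hB.1.2.2).mono fun _ h h' => h'.elim h.1 h.2⟩
    have k3 := (submod hA.1.1 hB.1.1).1
    have k4 := (submod (finite_cb hA.1.1 M) (finite_cb hB.1.1 M)).2 h
    omega
  have U2 : ∀ {α β : ℕ → V} {A B : Set V}, MinC G M α β A → (cb G 1 B).Finite →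
      (∃ x ∈ A, ∃ y ∈ B, x ∉ B ∧ y ∉ A ∧ G.dist x y ≤ M) → (∀ᶠ n in atTop, α n ∈ B) →
      (∀ᶠ n in atTop, β n ∉ B) → (cb G 1 A).ncard < (cb G 1 B).ncard ∨
        (cb G 1 A).ncard = (cb G 1 B).ncard ∧ (cb G M A).ncard < (cb G M B).ncard := by
    intro α β A B hA hB h h1 h2
    have k1 := hA.2 (A ∩ B) ⟨(f hA.1.1 hB).1, hA.1.2.1.and h1,
      hA.1.2.2.mono fun _ h h' => h h'.1⟩
    have k2 := hA.2 (A ∪ B) ⟨(f hA.1.1 hB).2, hA.1.2.1.mono fun _ h => Or.inl h,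
      (hA.1.2.2.and h2).mono fun _ h h' => h'.elim h.1 h.2⟩
    have k3 := (submod hA.1.1 hB).1
    have k4 := (submod (finite_cb hA.1.1 M) (finite_cb hB M)).2 h
    omega
  have c1 : ∃ x ∈ A, ∃ y ∈ B, x ∉ B ∧ y ∉ A ∧ G.dist x y ≤ M :=
    ⟨_, q1.1, _, p2, q3.right.1, p1.2.1, e1⟩
  have c2 : ∃ x ∈ B, ∃ y ∈ A, x ∉ A ∧ y ∉ B ∧ G.dist x y ≤ M :=
    ⟨_, p2, _, q1.1, p1.2.1, q3.right.1, by rwa [dcomm]⟩
  have c3 : ∃ x ∈ A, ∃ y ∈ Bᶜ, x ∉ Bᶜ ∧ y ∉ A ∧ G.dist x y ≤ M :=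
    ⟨_, p1.1, _, q2, fun h => h p3.right.1, q1.2.1, e2⟩
  have c4 : ∃ x ∈ B, ∃ y ∈ Aᶜ, x ∉ Aᶜ ∧ y ∉ B ∧ G.dist x y ≤ M :=
    ⟨_, p3.right.1, _, q1.2.1, fun h => h p1.1, q2, e2⟩
  have nn : ∀ {γ : ℕ → V} {C : Set V}, (∀ᶠ n in atTop, γ n ∈ C) → ∀ᶠ n in atTop, γ n ∉ Cᶜ :=
    fun h => h.mono fun _ h h' => h' h
  rcases hα.dich hB.1.1 with k1 | k1
  · have k2 := (hβ'.dich hA.1.1).resolve_right (U1 hA hB c1 k1)
    have k3 := (hβ.dich hB.1.1).resolve_left fun h => U1 hB.compl hA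
      (by obtain ⟨x, x1, y, y1, x2, y2, h⟩ := c3; exact ⟨y, y1, x, x1, y2, x2, by rwa [dcomm]⟩)
      k2 (nn h)
    have k4 := (hα'.dich hA.1.1).resolve_left fun h => U1 hB hA c2 h k3
    have l1 := U2 hA hB.1.1 c1 k1 k3
    have l2 := U2 hB hA.compl.1.1 c4 k4 (nn k2)
    simp only [ncard_cb_compl] at l2
    omega
  · have k2 := (hα'.dich hA.1.1).resolve_right (U1 hA hB.compl c3 k1)
    have k3 := (hβ.dich hB.1.1).resolve_right (U1 hB hA c2 k2)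
    have k4 := (hβ'.dich hA.1.1).resolve_left fun h => U1 hB.compl hA
      (by obtain ⟨x, x1, y, y1, x2, y2, h⟩ := c3; exact ⟨y, y1, x, x1, y2, x2, by rwa [dcomm]⟩)
      h (nn k3)
    have l1 := U2 hA hB.compl.1.1 c3 k1 (nn k3)
    have l2 := U2 hB hA.1.1 c2 k2 k4
    simp only [ncard_cb_compl] at l1
    omega

theorem QR.end {α : ℕ → V} (h : QR G α) : ∃ s ∈ G.end, ∀ X : Finset V,
    ∀ᶠ n in atTop, ∃ hn : α n ∉ (X : Set V), s (Opposite.op X) = G.componentComplMk hn := by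
  choose N hN using fun X : Finset V => h.lk X.finite_toSet
  refine ⟨fun X => G.componentComplMk (hN X.unop _ le_rfl).left, fun {X Y} f => ?_,
    fun X => eventually_atTop.2 ⟨N X, fun n hn => ⟨(hN X n hn).right, mk_eq_of_lk (hN X n hn)⟩⟩⟩
  have hf : Y.unop ⊆ X.unop := CategoryTheory.le_of_op_hom f
  exact mk_eq_of_lk (X := (Y.unop : Set V)) (((hN X.unop _ (le_max_left _ (N Y.unop))).mono
    (Set.compl_subset_compl.2 (Finset.coe_subset.2 hf))).trans (hN Y.unop _ (le_max_right _ _)).symm)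

/-- An invariant nested system of cuts of bounded width separating all ends. -/
structure CutSys (G : SimpleGraph V) (N : Set (Set V)) (m : ℕ) : Prop where
  compl : ∀ A ∈ N, Aᶜ ∈ N
  nest : ∀ A ∈ N, ∀ B ∈ N, A ⊆ B ∨ A ⊆ Bᶜ ∨ Aᶜ ⊆ B ∨ Aᶜ ⊆ Bᶜ
  inv : ∀ A ∈ N, ∀ φ : G ≃g G, φ ⁻¹' A ∈ N
  ne : ∀ A ∈ N, A.Nonempty
  fin : ∀ x y, {A | A ∈ N ∧ x ∈ A ∧ y ∉ A}.Finite
  diam : ∀ A ∈ N, ∀ a b, Ep G A a → Ep G A b → G.dist a b ≤ m
  sep : ∀ α β, QR G α → QR G β → (∀ X : Finset V, ∃ a b, Lk G (X : Set V)ᶜ (α a) (β b)) ∨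
    ∃ A ∈ N, (∀ᶠ n in atTop, α n ∈ A) ∧ ∀ᶠ n in atTop, β n ∉ A

theorem exists_cutSys (ht : VT G) {k : ℕ} (hk : ∀ s ∈ G.end, ∀ t ∈ G.end, s ≠ t →
    ∃ X : Finset V, X.card ≤ k ∧ s (Opposite.op X) ≠ t (Opposite.op X)) :
    ∃ N m, CutSys G N m := by
  classical
  obtain ⟨o⟩ := (Fact.out : G.Connected).nonempty
  set k' := k * (G.degree o + 1) ^ 1 with hk'
  obtain ⟨m, hm⟩ := exists_diam ht k'
  have ti : ∀ {α β A}, QR G α → QR G β → MinC G (m + 1) α β A → Tight G A :=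
    fun h1 h2 h => ⟨h.conn h1, h.compl.conn h2⟩
  refine ⟨{A | (cb G 1 A).ncard ≤ k' ∧ ∃ α β, QR G α ∧ QR G β ∧ MinC G (m + 1) α β A}, m + 2,
    ?_, ?_, ?_, ?_, fun x y => ?_, ?_, fun α β hα hβ => ?_⟩
  · rintro A ⟨h, α, β, h1, h2, h3⟩
    exact ⟨by rwa [ncard_cb_compl], β, α, h2, h1, h3.compl⟩
  · rintro A ⟨h, α, β, h1, h2, h3⟩ B ⟨-, α', β', h4, h5, h6⟩
    exact h3.nested h6 h1 h2 h4 h5 fun p hp q hq =>
      Nat.succ_le_succ (hm A (ti h1 h2 h3) h3.1.1 h p hp q hq)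
  · rintro A ⟨h, α, β, h1, h2, h3⟩ φ
    exact ⟨by rwa [(cb_pre' _ _ _).1], _, _, h1.map φ.symm, h2.map φ.symm, h3.pre φ⟩
  · rintro A ⟨-, α, β, -, -, h3⟩
    exact ⟨_, h3.1.2.1.exists.choose_spec⟩
  · refine (finite_tight (G := G) k' x y ∅).subset ?_
    rintro A ⟨⟨h, α, β, h1, h2, h3⟩, h4, h5⟩
    exact ⟨ti h1 h2 h3, h4, h5, by simp, h3.1.1, by simpa using h⟩
  · rintro A ⟨h, α, β, h1, h2, h3⟩ a b ha hb
    obtain ⟨p, p1, p2⟩ := ha.near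
    obtain ⟨q, q1, q2⟩ := hb.near
    have e1 := hm A (ti h1 h2 h3) h3.1.1 h p p1 q q1
    have e2 := tri (G := G) a p.1 b
    have e3 := tri (G := G) p.1 q.1 b
    rw [dcomm] at q2
    omega
  obtain ⟨s, s1, s2⟩ := hα.end
  obtain ⟨t, t1, t2⟩ := hβ.end
  by_cases hst : s = t
  · refine Or.inl fun X => ?_
    obtain ⟨n, ⟨_, e1⟩, _, e2⟩ := ((s2 X).and (t2 X)).exists
    exact ⟨n, n, lk_of_mk_eq (e1.symm.trans (hst ▸ e2))⟩
  obtain ⟨X, x1, x2⟩ := hk s s1 t t1 hst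
  let C : G.ComponentCompl X := s (Opposite.op X)
  have hsub : cb G 1 (C : Set V) ⊆
      ↑(X.biUnion fun x => (ball G x 1).image fun y => (y, x)) := by
    rintro ⟨y, x⟩ ⟨⟨h1, h2⟩, h3, h4⟩
    have hx : x ∈ X := by
      by_contra hx
      exact h3 ⟨hx, (mk_eq_of_lk (Lk.near (S := (X : Set V)ᶜ) h4 h1 hx)).symm.trans h2⟩
    simp only [Finset.coe_biUnion, Finset.coe_image, Set.mem_iUnion]
    exact ⟨x, hx, y, mem_ball.2 (by rwa [dcomm]), rfl⟩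
  have hsp : Sp G α β (C : Set V) :=
    ⟨(Finset.finite_toSet _).subset hsub, (s2 X).mono fun n ⟨h1, h2⟩ => ⟨h1, h2.symm⟩,
      (t2 X).mono fun n ⟨_, h2⟩ ⟨_, h4⟩ => x2 (h4.symm.trans h2.symm)⟩
  obtain ⟨A, hA⟩ := exists_minC (m + 1) hsp
  refine Or.inr ⟨A, ⟨?_, α, β, hα, hβ, hA⟩, hA.1.2⟩
  have e1 := hA.2 _ hsp
  have e2 := Set.ncard_le_ncard hsub (Finset.finite_toSet _)
  rw [Set.ncard_coe_finset] at e2
  have e3 := e2.trans (Finset.card_biUnion_le_card_mul X _ ((G.degree o + 1) ^ 1) fun x _ =>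
    Finset.card_image_le.trans (card_ball_le (fun v => (degree_eq ht v o).le) x 1))
  have e4 := Nat.mul_le_mul_right ((G.degree o + 1) ^ 1) x1
  omega

end Pool.Agent.MP_77f003_co.H49
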