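import Pool.Agent.MP_77f003_co.H49.Basic

/-!
Graphs drawn on a half-infinite cylinder with vertical and horizontal edges are planar.
-/

namespace Pool.Agent.MP_77f003_co.H49

open SimpleGraph

/-- The covering map from the strip to the punctured plane. -/
noncomputable def cyl (p : ℝ × ℝ) : ℝ × ℝ :=
  Complex.equivRealProdCLM (Complex.exp (p.2 + p.1 * (2 * Real.pi * Complex.I)))

theorem cyl_cont : Continuous cyl := by
  unfold cyl
  fun_prop

theorem cyl_eq {a b a' b' : ℝ} : cyl (a, b) = cyl (a', b') ↔ b = b' ∧ ∃ k : ℤ, a = a' + k := by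
  unfold cyl
  rw [Complex.equivRealProdCLM.injective.eq_iff, Complex.exp_eq_exp_iff_exists_int]
  constructor
  · rintro ⟨k, hk⟩
    have e1 := congrArg Complex.re hk
    have e2 := congrArg Complex.im hk
    simp at e1 e2
    refine ⟨e1, k, mul_right_cancel₀ (b := 2 * Real.pi) (by positivity) ?_⟩
    linarith
  · rintro ⟨rfl, k, rfl⟩
    exact ⟨k, by push_cast; ring⟩

/-- A horizontal edge between cyclically consecutive points of a level. -/
def Hor {W β : Type} (x : W → ℝ) (y : W → β) (u v : W) (k : ℤ) : Prop :=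
  y u = y v ∧ x u < x v + k ∧ x v + k < x u + 1 ∧
    ∀ w (j : ℤ), y w = y u → ¬ (x u < x w + j ∧ x w + j < x v + k)

theorem planar_cyl {W : Type} (P : SimpleGraph W) (x : W → ℝ) (y : W → ℕ)
    (hinj : ∀ u v (k : ℤ), x u = x v + k → y u = y v → u = v)
    (hE : ∀ u v, P.Adj u v → ((x u = x v ∧ y v = y u + 1) ∨ ∃ k, Hor x y u v k) ∨
      ((x v = x u ∧ y u = y v + 1) ∨ ∃ k, Hor x y v u k)) : Planar P := by
  have he : ∀ e : P.edgeSet, ∃ (u v : W) (k : ℤ), (e : Sym2 W) = s(u, v) ∧
      ((k = 0 ∧ x u = x v ∧ y v = y u + 1) ∨ Hor x y u v k) := by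
    rintro ⟨e, he⟩
    induction e using Sym2.ind with
    | _ u v =>
      rcases hE u v he with (h | ⟨k, h⟩) | (h | ⟨k, h⟩)
      exacts [⟨u, v, 0, rfl, Or.inl ⟨rfl, h⟩⟩, ⟨u, v, k, rfl, Or.inr h⟩,
        ⟨v, u, 0, Sym2.eq_swap, Or.inl ⟨rfl, h⟩⟩, ⟨v, u, k, Sym2.eq_swap, Or.inr h⟩]
  choose u v k h1 h2 using he
  have hint : ∀ (a b : ℕ) (t s : ℝ), 0 < t → t < 1 → 0 ≤ s → s ≤ 1 → (a : ℝ) + t = b + s →
      a = b := by
    intro a b t s t0 t1 s0 s1 h
    have e2 : a < b + 1 := by exact_mod_cast (by linarith : (a : ℝ) < b + 1)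
    have e3 : b < a + 1 := by exact_mod_cast (by linarith : (b : ℝ) < a + 1)
    omega
  have hint0 : ∀ (a b : ℕ) (t : ℝ), 0 < t → t < 1 → (a : ℝ) + t ≠ b := by
    intro a b t t0 t1 h
    have := hint a b t 0 t0 t1 le_rfl zero_le_one (by linarith)
    subst this
    linarith
  refine ⟨fun w => cyl (x w, y w), fun e => ⟨fun t => cyl (x (u e) + t * (x (v e) + k e - x (u e)),
    y (u e) + t * (y (v e) - y (u e))), cyl_cont.comp (by fun_prop)⟩, fun w w' h => ?_,
    fun e t s h => ?_, fun e => ⟨_, _, h1 e, by simp, ?_⟩,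
    fun e t t0 t1 => ?_⟩
  · obtain ⟨e1, j, e2⟩ := cyl_eq.1 h
    exact hinj _ _ j e2 (by exact_mod_cast e1)
  · obtain ⟨e1, j, e2⟩ := cyl_eq.1 h
    apply Subtype.ext
    rcases h2 e with ⟨-, -, e3⟩ | ⟨-, e3, e4, -⟩
    · rw [e3] at e1
      push_cast at e1
      linarith
    · have a1 := t.2.1
      have a2 := t.2.2
      have a3 := s.2.1
      have a4 := s.2.2
      have b1 : (j : ℝ) < 1 := by nlinarith
      have b2 : (-1 : ℝ) < j := by nlinarith
      have b3 : j < 1 := by exact_mod_cast b1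
      have b4 : -1 < j := by exact_mod_cast b2
      obtain rfl : j = 0 := by omega
      refine mul_right_cancel₀ (b := x (v e) + k e - x (u e)) (by linarith) ?_
      push_cast at e2
      linarith
  · exact cyl_eq.2 ⟨by simp, k e, by simp⟩
  have a1 : (0 : ℝ) < t := unitInterval.pos_iff_ne_zero.2 t0
  have a2 : (t : ℝ) < 1 := unitInterval.lt_one_iff_ne_one.2 t1
  have hw : ∀ w, cyl (x (u e) + t * (x (v e) + k e - x (u e)),
      y (u e) + t * (y (v e) - y (u e))) ≠ cyl (x w, y w) := by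
    intro w h
    obtain ⟨e1, j, e2⟩ := cyl_eq.1 h
    rcases h2 e with ⟨-, -, e3⟩ | ⟨e3, e4, e5, e6⟩
    · rw [e3] at e1
      push_cast at e1
      exact hint0 (y (u e)) (y w) t a1 a2 (by linarith)
    · rw [← e3, sub_self, mul_zero, add_zero] at e1
      exact e6 w j (by exact_mod_cast e1.symm) ⟨by nlinarith, by nlinarith⟩
  refine ⟨hw, fun f hf s h => hf (Subtype.ext ?_)⟩
  simp only [ContinuousMap.coe_mk] at h
  by_cases s0 : s = 0
  · exact absurd (by simpa [s0] using h) (hw (u f))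
  by_cases s1 : s = 1
  · exact absurd (h.trans (cyl_eq.2 ⟨by simp [s1], k f, by simp [s1]⟩)) (hw (v f))
  have a3 : (0 : ℝ) < s := unitInterval.pos_iff_ne_zero.2 s0
  have a4 : (s : ℝ) < 1 := unitInterval.lt_one_iff_ne_one.2 s1
  obtain ⟨e1, j, e2⟩ := cyl_eq.1 h
  rw [h1 e, h1 f]
  rcases h2 e with ⟨b1, b2, b3⟩ | ⟨b1, b2, b3, b4⟩ <;>
    rcases h2 f with ⟨c1, c2, c3⟩ | ⟨c1, c2, c3, c4⟩
  · rw [b3, c3] at e1
    rw [b1, c1, ← b2, ← c2] at e2
    push_cast at e1 e2
    have d1 := hint (y (u e)) (y (u f)) t s a1 a2 a3.le a4.le (by linarith)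
    have d2 := hinj (u e) (u f) j (by linarith) d1
    rw [d2, hinj (v e) (v f) 0 (by rw [← b2, ← c2, d2]; simp) (by omega)]
  · rw [b3, ← c1] at e1
    push_cast at e1
    exact absurd (by linarith) (hint0 (y (u e)) (y (u f)) t a1 a2)
  · rw [c3, ← b1] at e1
    push_cast at e1
    exact absurd (by linarith) (hint0 (y (u f)) (y (u e)) s a3 a4)
  · rw [← b1, ← c1, sub_self, sub_self, mul_zero, mul_zero, add_zero, add_zero] at e1
    have d0 : y (u e) = y (u f) := by exact_mod_cast e1
    have p1 : x (u e) < x (u e) + t * (x (v e) + k e - x (u e)) := by nlinarith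
    have p2 : x (u e) + t * (x (v e) + k e - x (u e)) < x (v e) + k e := by nlinarith
    have p3 : x (u f) < x (u f) + s * (x (v f) + k f - x (u f)) := by nlinarith
    have p4 : x (u f) + s * (x (v f) + k f - x (u f)) < x (v f) + k f := by nlinarith
    have d1 : x (u e) = x (u f) + j := by
      rcases lt_trichotomy (x (u e)) (x (u f) + j) with h | h | h
      · exact absurd ⟨h, by linarith⟩ (b4 (u f) j d0.symm)
      · exact h
      · exact absurd ⟨by push_cast; linarith, by push_cast; linarith⟩ (c4 (u e) (-j) d0)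
    have d2 : x (v e) = x (v f) + (k f + j - k e : ℤ) := by
      rcases lt_trichotomy (x (v e) + k e) (x (v f) + k f + j) with h | h | h
      · exact absurd ⟨by push_cast; linarith, by push_cast; linarith⟩
          (c4 (v e) (k e - j) (by omega))
      · push_cast
        linarith
      · exact absurd ⟨by push_cast; linarith, by push_cast; linarith⟩
          (b4 (v f) (k f + j) (by omega))
    rw [hinj _ _ _ d1 d0, hinj _ _ _ d2 (by omega)]

/-- There is a walk of length at most `n`. -/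
def Wk {W : Type} (P : SimpleGraph W) (n : ℕ) (u v : W) : Prop := ∃ p : P.Walk u v, p.length ≤ n

theorem Wk.refl {W : Type} {P : SimpleGraph W} (n : ℕ) (u : W) : Wk P n u u := ⟨Walk.nil, by simp⟩

theorem Wk.symm {W : Type} {P : SimpleGraph W} {n : ℕ} {u v : W} (h : Wk P n u v) : Wk P n v u := by
  obtain ⟨p, hp⟩ := h
  exact ⟨p.reverse, by simpa using hp⟩

theorem Wk.trans {W : Type} {P : SimpleGraph W} {n m : ℕ} {u v w : W} (h : Wk P n u v)
    (h' : Wk P m v w) : Wk P (n + m) u w := by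
  obtain ⟨p, hp⟩ := h
  obtain ⟨q, hq⟩ := h'
  exact ⟨p.append q, by rw [Walk.length_append]; omega⟩

theorem Wk.mono {W : Type} {P : SimpleGraph W} {n m : ℕ} {u v : W} (h : Wk P n u v) (h' : n ≤ m) :
    Wk P m u v := by
  obtain ⟨p, hp⟩ := h
  exact ⟨p, hp.trans h'⟩

theorem Wk.adj {W : Type} {P : SimpleGraph W} {u v : W} (h : P.Adj u v) : Wk P 1 u v :=
  ⟨h.toWalk, by simp⟩

theorem wk_hor {W : Type} {P : SimpleGraph W} {x : W → ℝ} {y : W → ℕ} {N : Set W}
    (hP : ∀ u ∈ N, ∀ v ∈ N, ∀ k, Hor x y u v k → Wk P 1 u v) (n : ℕ) :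
    ∀ (T : Finset (W × ℤ)) (u v : W) (i j : ℤ), T.card = n → u ∈ N → v ∈ N → y u = y v →
      x u + i < x v + j → x v + j < x u + i + 1 →
      (∀ w (l : ℤ), y w = y u → x u + i < x w + l → x w + l < x v + j → (w, l) ∈ T ∧ w ∈ N) →
      Wk P (n + 1) u v := by
  classical
  induction n using Nat.strong_induction_on with
  | _ n ih =>
    intro T u v i j hT hu hv h1 h2 h3 h4
    by_cases h : ∃ w, ∃ l : ℤ, y w = y u ∧ x u + i < x w + l ∧ x w + l < x v + j
    · obtain ⟨w, l, e1, e2, e3⟩ := h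
      obtain ⟨e4, e5⟩ := h4 w l e1 e2 e3
      have c1 : (T.filter fun p => x p.1 + p.2 < x w + l).card +
          (T.filter fun p => x w + l < x p.1 + p.2).card + 1 ≤ T.card := by
        rw [← Finset.card_union_of_disjoint (Finset.disjoint_filter.2 fun p _ h => not_lt.2 h.le),
          ← Finset.card_insert_of_notMem (a := (w, l)) (by simp)]
        refine Finset.card_le_card (Finset.insert_subset e4 ?_)
        exact Finset.union_subset (Finset.filter_subset _ _) (Finset.filter_subset _ _)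
      refine ((ih _ (by omega) (T.filter fun p => x p.1 + p.2 < x w + l) u w i l rfl hu e5 e1.symm
        e2 (by linarith) fun z m k1 k2 k3 => ?_).trans
        (ih _ (by omega) (T.filter fun p => x w + l < x p.1 + p.2) w v l j rfl e5 hv (e1.trans h1)
          e3 (by linarith) fun z m k1 k2 k3 => ?_)).mono (by omega)
      · have := h4 z m k1 k2 (by linarith)
        exact ⟨Finset.mem_filter.2 ⟨this.1, k3⟩, this.2⟩
      · have := h4 z m (k1.trans e1) (by linarith) k3
        exact ⟨Finset.mem_filter.2 ⟨this.1, k2⟩, this.2⟩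
    · refine (hP u hu v hv (j - i) ⟨h1, by push_cast; linarith, by push_cast; linarith,
        fun w l e1 e2 => h ⟨w, l + i, e1, ?_, ?_⟩⟩).mono (by omega)
      · push_cast
        linarith [e2.1]
      · have := e2.2
        push_cast at this ⊢
        linarith

theorem qi_of_walks {V : Type} {G : SimpleGraph V} [Fact G.Connected] {A : Type}
    {P : SimpleGraph A} (f : A → V) (c c' C : ℕ) (h1 : ∀ v w, P.Adj v w → G.dist (f v) (f w) ≤ c')
    (h2 : ∀ v w, G.dist (f v) (f w) ≤ 2 * c + 1 → Wk P C v w)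
    (h3 : ∀ x, ∃ v, G.dist x (f v) ≤ c) : P.Connected ∧ QuasiIsometric G P := by
  have key : ∀ R v w, G.dist (f v) (f w) ≤ R + c → Wk P (C * (R + 1)) v w := by
    intro R
    induction R with
    | zero => exact fun v w h => (h2 v w (by omega)).mono (by omega)
    | succ R ih =>
      intro v w h
      by_cases h0 : G.dist (f v) (f w) ≤ R + c
      · exact (ih v w h0).mono (by nlinarith)
      obtain ⟨q, q0, q1, q2⟩ := exists_geo (G := G) (f v) (f w)
      obtain ⟨u, hu⟩ := h3 (q (c + 1))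
      have e1 := dist_geo_le q2 (Nat.zero_le (c + 1)) (by omega)
      have e2 := dist_geo_le q2 (show c + 1 ≤ _ by omega) le_rfl
      rw [q0] at e1
      rw [q1] at e2
      have e3 := tri (G := G) (f v) (q (c + 1)) (f u)
      have e4 := tri (G := G) (f u) (q (c + 1)) (f w)
      rw [dcomm (f u) (q (c + 1))] at e4
      exact ((h2 v u (by omega)).trans (ih u w (by omega))).mono (by nlinarith)
  obtain ⟨o⟩ := (Fact.out : G.Connected).nonempty
  have : Nonempty A := ⟨(h3 o).choose⟩
  have hc : P.Connected := ⟨fun v w => ⟨(key (G.dist (f v) (f w)) v w (by omega)).choose⟩⟩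
  have : Fact P.Connected := ⟨hc⟩
  refine ⟨hc, qi_of_coarse f (c + c') (fun v w h => (h1 v w h).trans (by omega))
    (fun R => ⟨C * (R + 1), fun v w h => ?_⟩) fun x => (h3 x).imp fun v h => by omega⟩
  obtain ⟨p, hp⟩ := key R v w (by omega)
  exact (dist_le p).trans hp

end Pool.Agent.MP_77f003_co.H49
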