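import Pool.Agent.MP_77f003_co.H49.Basic

/-!
Invariant geodesic flows, mass transport on amenable vertex-transitive graphs, the isoperimetric
inequality of Coulhon and Saloff-Coste and the Poincare inequality.
-/

namespace Pool.Agent.MP_77f003_co.H49

open SimpleGraph

variable {V : Type} {G : SimpleGraph V} [DecidableEq V] [G.LocallyFinite]

/-- The automorphism group is transitive on vertices. -/
def VT (G : SimpleGraph V) : Prop := ∀ u v, ∃ φ : G ≃g G, φ u = v

omit [DecidableEq V] in
theorem map_ball [Fact G.Connected] (φ : G ≃g G) (x : V) (r : ℕ) :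
    (ball G x r).map φ.toEquiv.toEmbedding = ball G (φ x) r := by
  ext y
  rw [Finset.mem_map_equiv, mem_ball, mem_ball, ← dist_iso φ]
  exact iff_of_eq (congrArg (fun w => G.dist (φ x) w ≤ r) (φ.toEquiv.apply_symm_apply y))

omit [DecidableEq V] in
theorem map_nbr (φ : G ≃g G) (x : V) :
    (G.neighborFinset x).map φ.toEquiv.toEmbedding = G.neighborFinset (φ x) := by
  ext y
  rw [Finset.mem_map_equiv, mem_neighborFinset, mem_neighborFinset, ← φ.map_adj_iff]
  exact iff_of_eq (congrArg (fun w => G.Adj (φ x) w) (φ.toEquiv.apply_symm_apply y))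

omit [DecidableEq V] in
theorem card_ball_eq [Fact G.Connected] (ht : VT G) (x y : V) (r : ℕ) :
    (ball G x r).card = (ball G y r).card := by
  obtain ⟨φ, rfl⟩ := ht x y
  rw [← map_ball, Finset.card_map]

omit [DecidableEq V] in
theorem degree_eq (ht : VT G) (x y : V) : G.degree x = G.degree y := by
  obtain ⟨φ, rfl⟩ := ht x y
  rw [← card_neighborFinset_eq_degree, ← card_neighborFinset_eq_degree, ← map_nbr,
    Finset.card_map]

/-- The outer vertex boundary. -/
def obd (G : SimpleGraph V) [G.LocallyFinite] (F : Finset V) : Finset V :=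
  F.biUnion (fun x => G.neighborFinset x) \ F

theorem mem_obd {F : Finset V} {y : V} : y ∈ obd G F ↔ y ∉ F ∧ ∃ x ∈ F, G.Adj x y := by
  simp [obd, and_comm]

theorem Amenable.obd (ha : Amenable G) {ε : ℝ} (hε : 0 < ε) :
    ∃ F : Finset V, F.Nonempty ∧ ((obd G F).card : ℝ) ≤ ε * F.card := by
  obtain ⟨F, hF, h⟩ := ha ε hε
  refine ⟨F, hF, ?_⟩
  have : ({y | y ∉ F ∧ ∃ x ∈ F, G.Adj x y} : Set V) = H49.obd G F := by
    ext y
    simp [mem_obd]
  rwa [this, Set.ncard_coe_finset] at h

theorem exists_obd [Fact G.Connected] {F : Finset V} {z x : V} (hz : z ∈ F) (hx : x ∉ F) :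
    ∃ b ∈ obd G F, G.dist b x ≤ G.dist z x := by
  generalize hk : G.dist z x = k
  induction k generalizing z with
  | zero => exact absurd (eq_of_dist hk ▸ hz) hx
  | succ k ih =>
    obtain ⟨z', h1, h2⟩ := exists_step hk
    by_cases h : z' ∈ F
    · obtain ⟨b, hb, hb'⟩ := ih h h2
      exact ⟨b, hb, by omega⟩
    · exact ⟨z', mem_obd.2 ⟨h, z, hz, h1⟩, by omega⟩

/-- Mass transport on an amenable vertex-transitive graph. -/
theorem mtp [Fact G.Connected] (ht : VT G) (ha : Amenable G) {f : V → V → ℝ} {r : ℕ} {M : ℝ}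
    (h0 : ∀ x z, 0 ≤ f x z) (hinv : ∀ (φ : G ≃g G) x z, f (φ x) (φ z) = f x z)
    (hsupp : ∀ x z, f x z ≠ 0 → G.dist x z ≤ r) (hM : ∀ x (T : Finset V), ∑ z ∈ T, f x z ≤ M)
    (z : V) (T : Finset V) : ∑ x ∈ T, f x z ≤ M := by
  have hM0 : 0 ≤ M := by simpa using hM z ∅
  have hle : ∀ (w : V) (T : Finset V), ∑ x ∈ T, f x w ≤ ∑ x ∈ ball G w r, f x w := by
    intro w T
    rw [← Finset.sum_filter_ne_zero T]
    refine Finset.sum_le_sum_of_subset_of_nonneg (fun x hx => mem_ball.2 ?_) fun x _ _ => h0 _ _
    rw [dcomm]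
    exact hsupp _ _ (Finset.mem_filter.1 hx).2
  have hconst : ∀ w, ∑ x ∈ ball G w r, f x w = ∑ x ∈ ball G z r, f x z := by
    intro w
    obtain ⟨φ, rfl⟩ := ht z w
    rw [← map_ball, Finset.sum_map]
    exact Finset.sum_congr rfl fun x _ => hinv φ x z
  refine (hle z T).trans (le_of_forall_pos_le_add fun δ hδ => ?_)
  set β : ℝ := ((ball G z r).card : ℝ) with hβ
  have hβ0 : 0 ≤ β := by positivity
  obtain ⟨F, hF, hFε⟩ := ha.obd (ε := δ / (β * M + 1)) (by positivity)
  set N := F ∪ (obd G F).biUnion fun b => ball G b r with hN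
  have hNc : (N.card : ℝ) ≤ F.card + (obd G F).card * β := by
    have e1 := Finset.card_union_le F ((obd G F).biUnion fun b => ball G b r)
    have e2 := Finset.card_biUnion_le_card_mul (obd G F) (fun b => ball G b r) (ball G z r).card
      fun b _ => (card_ball_eq ht _ _ _).le
    rw [hβ]
    exact_mod_cast e1.trans (by omega)
  have h1 : F.card * ∑ x ∈ ball G z r, f x z ≤ N.card * M := by
    calc F.card * ∑ x ∈ ball G z r, f x z = ∑ w ∈ F, ∑ x ∈ ball G w r, f x w := by
          simp [hconst]
      _ ≤ ∑ w ∈ F, ∑ x ∈ N, f x w := by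
          refine Finset.sum_le_sum fun w hw => ?_
          refine Finset.sum_le_sum_of_subset_of_nonneg (fun x hx => ?_) fun x _ _ => h0 _ _
          by_cases hxF : x ∈ F
          · exact Finset.mem_union_left _ hxF
          · obtain ⟨b, hb, hb'⟩ := exists_obd (G := G) hw hxF
            exact Finset.mem_union_right _ (Finset.mem_biUnion.2
              ⟨b, hb, mem_ball.2 (hb'.trans (mem_ball.1 hx))⟩)
      _ = ∑ x ∈ N, ∑ w ∈ F, f x w := Finset.sum_comm
      _ ≤ ∑ _x ∈ N, M := Finset.sum_le_sum fun x _ => hM x F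
      _ = N.card * M := by simp
  have hFpos : (0 : ℝ) < F.card := by exact_mod_cast hF.card_pos
  have h2 : (obd G F).card * β * M ≤ δ * F.card := by
    calc (obd G F).card * β * M = (obd G F).card * (β * M) := by ring
      _ ≤ δ / (β * M + 1) * F.card * (β * M + 1) := by gcongr; linarith
      _ = δ * F.card := by field_simp
  refine le_of_mul_le_mul_left ?_ hFpos
  nlinarith [mul_le_mul_of_nonneg_right hNc hM0]

/-- The neighbours of `x` that are closer to `y`. -/
noncomputable def closer (G : SimpleGraph V) [G.LocallyFinite] (x y : V) : Finset V :=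
  (G.neighborFinset x).filter fun x' => G.dist x' y + 1 = G.dist x y

/-- The expected number of visits to `z` of the random geodesic from `x` to `y`. -/
noncomputable def flow (G : SimpleGraph V) [G.LocallyFinite] : ℕ → V → V → V → ℝ
  | 0, _, _, _ => 0
  | k + 1, x, y, z =>
    (if x = z then 1 else 0) + (∑ x' ∈ closer G x y, flow G k x' y z) / (closer G x y).card

theorem flow_nonneg (k : ℕ) (x y z : V) : 0 ≤ flow G k x y z := by
  induction k generalizing x with
  | zero => simp [flow]
  | succ k ih =>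
    have : 0 ≤ ∑ x' ∈ closer G x y, flow G k x' y z := Finset.sum_nonneg fun x' _ => ih x'
    unfold flow
    positivity

theorem flow_supp [Fact G.Connected] (k : ℕ) (x y z : V) (h : flow G k x y z ≠ 0) :
    G.dist x z ≤ k := by
  induction k generalizing x with
  | zero => simp [flow] at h
  | succ k ih =>
    by_cases hxz : x = z
    · simp [hxz]
    · simp only [flow, hxz, if_false, zero_add, ne_eq, div_eq_zero_iff, not_or] at h
      obtain ⟨x', hx', h'⟩ := Finset.exists_ne_zero_of_sum_ne_zero h.1
      have e1 := ih x' h'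
      have e2 := tri (G := G) x x' z
      rw [dist_adj ((mem_neighborFinset _ _ _).1 (Finset.mem_filter.1 hx').1)] at e2
      omega

theorem flow_mass (k : ℕ) (x y : V) (T : Finset V) : ∑ z ∈ T, flow G k x y z ≤ k := by
  induction k generalizing x with
  | zero => simp [flow]
  | succ k ih =>
    simp only [flow, Finset.sum_add_distrib, ← Finset.sum_div]
    have e1 : ∑ z ∈ T, (if x = z then (1 : ℝ) else 0) ≤ 1 := by
      rw [Finset.sum_ite_eq]
      split_ifs <;> norm_num
    have e2 : (∑ z ∈ T, ∑ x' ∈ closer G x y, flow G k x' y z) / (closer G x y).card ≤ k := by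
      rw [Finset.sum_comm]
      refine div_le_of_le_mul₀ (by positivity) (by positivity) ?_
      simpa [mul_comm] using Finset.sum_le_sum (s := closer G x y) fun x' _ => ih x'
    push_cast
    linarith

theorem flow_path [Fact G.Connected] {u g : V → ℝ} (hug : ∀ a b, G.Adj a b → u a - u b ≤ g a)
    {T : Finset V} {k : ℕ} {x y : V} (hk : G.dist x y = k)
    (hT : ∀ z, G.dist x z ≤ k → z ∉ T → g z = 0) :
    u x - u y ≤ ∑ z ∈ T, flow G k x y z * g z := by
  induction k generalizing x with
  | zero => simp [flow, eq_of_dist hk]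
  | succ k ih =>
    obtain ⟨w, hw, hw'⟩ := exists_step hk
    have hne : (closer G x y).Nonempty :=
      ⟨w, Finset.mem_filter.2 ⟨(mem_neighborFinset _ _ _).2 hw, by omega⟩⟩
    have hpos : (0 : ℝ) < (closer G x y).card := by exact_mod_cast hne.card_pos
    have e1 : ∑ z ∈ T, (if x = z then (1 : ℝ) else 0) * g z = g x := by
      simp only [ite_mul, one_mul, zero_mul, Finset.sum_ite_eq]
      split_ifs with h
      · rfl
      · exact (hT x (by simp) h).symm
    simp only [flow, add_mul, Finset.sum_add_distrib, e1, div_mul_eq_mul_div, ← Finset.sum_div,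
      Finset.sum_mul]
    rw [Finset.sum_comm, ← sub_le_iff_le_add', le_div_iff₀ hpos]
    have := Finset.card_nsmul_le_sum (closer G x y)
      (fun x' => ∑ z ∈ T, flow G k x' y z * g z) (u x - u y - g x) fun x' hx' => by
        obtain ⟨h1, h2⟩ := Finset.mem_filter.1 hx'
        have h1 := (mem_neighborFinset _ _ _).1 h1
        have e2 := ih (x := x') (by omega) fun z hz => hT z (by
          have := tri (G := G) x x' z
          rw [dist_adj h1] at this
          omega)
        linarith [hug x x' h1]
    simpa [mul_comm] using this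

theorem flow_iso [Fact G.Connected] (φ : G ≃g G) (k : ℕ) (x y z : V) :
    flow G k (φ x) (φ y) (φ z) = flow G k x y z := by
  induction k generalizing x with
  | zero => simp [flow]
  | succ k ih =>
    have hc : closer G (φ x) (φ y) = (closer G x y).map φ.toEquiv.toEmbedding := by
      unfold closer
      rw [← map_nbr, Finset.filter_map]
      congr 1
      refine Finset.filter_congr fun x' _ => ?_
      simp [dist_iso φ]
    simp only [flow, hc, Finset.card_map, Finset.sum_map, EmbeddingLike.apply_eq_iff_eq]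
    congr 2
    exact Finset.sum_congr rfl fun x' _ => ih x'

theorem load_le [Fact G.Connected] (ht : VT G) (ha : Amenable G) (o : V) (r : ℕ) (z : V)
    (T : Finset V) : ∑ x ∈ T, ∑ y ∈ ball G x r, flow G (G.dist x y) x y z ≤
      r * (ball G o r).card := by
  refine mtp ht ha (r := r) (f := fun x z => ∑ y ∈ ball G x r, flow G (G.dist x y) x y z)
    (fun x z => Finset.sum_nonneg fun y _ => flow_nonneg _ _ _ _) (fun φ x z => ?_)
    (fun x z h => ?_) (fun x T => ?_) z T
  · rw [← map_ball, Finset.sum_map]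
    refine Finset.sum_congr rfl fun y _ => ?_
    simp [dist_iso φ, flow_iso φ]
  · obtain ⟨y, hy, h'⟩ := Finset.exists_ne_zero_of_sum_ne_zero h
    exact (flow_supp _ _ _ _ h').trans (mem_ball.1 hy)
  · rw [Finset.sum_comm, ← card_ball_eq ht x o]
    have := Finset.sum_le_card_nsmul (ball G x r)
      (fun y => ∑ z ∈ T, flow G (G.dist x y) x y z) (r : ℝ) fun y hy =>
        (flow_mass _ _ _ _).trans (by exact_mod_cast mem_ball.1 hy)
    simpa [mul_comm] using this

/-- The size of the edge boundary. -/
def eb (G : SimpleGraph V) [G.LocallyFinite] (F : Finset V) : ℕ :=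
  ∑ x ∈ F, (G.neighborFinset x \ F).card

/-- The isoperimetric inequality of Coulhon and Saloff-Coste. -/
theorem csc [Fact G.Connected] (ht : VT G) (ha : Amenable G) (o : V) (r : ℕ) (Y : Finset V)
    (hY : 2 * Y.card ≤ (ball G o r).card) : (Y.card : ℝ) ≤ 2 * r * eb G Y := by
  set D := Y.filter fun x => (G.neighborFinset x \ Y).Nonempty with hD
  have hDc : D.card ≤ eb G Y := by
    rw [Finset.card_eq_sum_ones]
    refine le_trans (Finset.sum_le_sum fun x hx => ?_)
      (Finset.sum_le_sum_of_subset (Finset.filter_subset _ _))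
    exact (Finset.mem_filter.1 hx).2.card_pos
  set β : ℝ := ((ball G o r).card : ℝ) with hβ
  have hβ0 : 0 < β := by
    rw [hβ]
    exact_mod_cast Finset.card_pos.2 ⟨o, self_mem_ball o r⟩
  have h1 : ∀ x ∈ Y, β / 2 ≤ ∑ y ∈ ball G x r, ∑ z ∈ D, flow G (G.dist x y) x y z := by
    intro x hx
    have e1 : ((ball G x r \ Y).card : ℝ) ≥ β / 2 := by
      have e2 := Finset.le_card_sdiff Y (ball G x r)
      rw [card_ball_eq ht x o] at e2
      have : (ball G o r).card ≤ 2 * (ball G x r \ Y).card := by omega
      have : β ≤ 2 * ((ball G x r \ Y).card : ℝ) := by rw [hβ]; exact_mod_cast this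
      linarith
    refine e1.le.trans (le_trans ?_ (Finset.sum_le_sum_of_subset_of_nonneg
      (Finset.sdiff_subset (t := Y)) fun y _ _ => Finset.sum_nonneg fun z _ => flow_nonneg _ _ _ _))
    rw [Finset.card_eq_sum_ones, Nat.cast_sum]
    refine Finset.sum_le_sum fun y hy => ?_
    have := flow_path (G := G) (u := fun a => if a ∈ Y then 1 else 0)
      (g := fun a => if a ∈ D then 1 else 0) (T := D) (x := x) (y := y) (fun a b hab => by
        by_cases h1 : a ∈ Y
        · by_cases h2 : b ∈ Y
          · simp only [h1, h2, if_true, sub_self]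
            positivity
          · have : a ∈ D := Finset.mem_filter.2 ⟨h1, b, by simp [hab, h2]⟩
            simp [h1, h2, this]
        · have : a ∉ D := fun h => h1 (Finset.mem_filter.1 h).1
          simp only [h1, this, if_false, zero_sub, Left.neg_nonpos_iff]
          positivity) rfl (fun z _ hz => by simp [hz])
    simp only [hx, (Finset.mem_sdiff.1 hy).2, if_true, if_false, sub_zero] at this
    refine le_trans (by simpa using this) (le_of_eq (Finset.sum_congr rfl fun z hz => ?_))
    simp [hz]
  have h2 : Y.card * (β / 2) ≤ D.card * (r * β) := by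
    calc Y.card * (β / 2) ≤ ∑ x ∈ Y, ∑ y ∈ ball G x r, ∑ z ∈ D, flow G (G.dist x y) x y z := by
          simpa using Finset.card_nsmul_le_sum Y _ _ h1
      _ = ∑ z ∈ D, ∑ x ∈ Y, ∑ y ∈ ball G x r, flow G (G.dist x y) x y z := by
          rw [Finset.sum_comm (s := D)]
          exact Finset.sum_congr rfl fun x _ => Finset.sum_comm
      _ ≤ D.card * (r * β) := by
          simpa using Finset.sum_le_card_nsmul D _ _ fun z _ => load_le ht ha o r z Y
  have h3 : (D.card : ℝ) ≤ eb G Y := by exact_mod_cast hDc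
  refine le_of_mul_le_mul_right ?_ hβ0
  nlinarith [mul_le_mul_of_nonneg_right h3 (show 0 ≤ r * β by positivity)]

/-- The Poincare inequality on balls. -/
theorem poincare [Fact G.Connected] (ht : VT G) (ha : Amenable G) (o : V) {u g : V → ℝ}
    (hug : ∀ a b, G.Adj a b → |u a - u b| ≤ g a) (c : V) (ρ : ℕ) :
    ∑ x ∈ ball G c ρ, ∑ y ∈ ball G c ρ, (u x - u y) ^ 2 ≤
      (2 * ρ) * ((2 * ρ) * (ball G o (2 * ρ)).card) * ∑ z ∈ ball G c (3 * ρ), g z ^ 2 := by
  have h1 : ∀ x ∈ ball G c ρ, ∀ y ∈ ball G c ρ, (u x - u y) ^ 2 ≤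
      (2 * ρ) * ∑ z ∈ ball G c (3 * ρ), flow G (G.dist x y) x y z * g z ^ 2 := by
    intro x hx y hy
    have hx := mem_ball.1 hx
    have hy := mem_ball.1 hy
    have hxy : G.dist x y ≤ 2 * ρ := by
      have := tri (G := G) x c y
      rw [dcomm] at hx
      omega
    have hT : ∀ z, G.dist x z ≤ G.dist x y → z ∉ ball G c (3 * ρ) → g z = 0 := by
      intro z hz hz'
      have := tri (G := G) c x z
      exact absurd (mem_ball.2 (by omega)) hz'
    have e1 := flow_path (fun a b h => (le_abs_self _).trans (hug a b h)) rfl hT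
    have e2 := flow_path (u := fun a => -u a)
      (fun a b h => by linarith [(neg_le_abs _).trans (hug a b h)]) rfl hT
    have e3 : (u x - u y) ^ 2 ≤
        (∑ z ∈ ball G c (3 * ρ), flow G (G.dist x y) x y z * g z) ^ 2 :=
      sq_le_sq' (by linarith) e1
    have e4 := Finset.sum_sq_le_sum_mul_sum_of_sq_le_mul (ball G c (3 * ρ))
      (r := fun z => flow G (G.dist x y) x y z * g z) (f := fun z => flow G (G.dist x y) x y z)
      (g := fun z => flow G (G.dist x y) x y z * g z ^ 2) (fun z _ => flow_nonneg _ _ _ _)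
      (fun z _ => mul_nonneg (flow_nonneg _ _ _ _) (sq_nonneg _)) (fun z _ => le_of_eq (by ring))
    refine e3.trans (e4.trans (mul_le_mul_of_nonneg_right ((flow_mass _ _ _ _).trans ?_)
      (Finset.sum_nonneg fun z _ => mul_nonneg (flow_nonneg _ _ _ _) (sq_nonneg _))))
    exact_mod_cast hxy
  calc _ ≤ ∑ x ∈ ball G c ρ, ∑ y ∈ ball G x (2 * ρ),
        (2 * ρ) * ∑ z ∈ ball G c (3 * ρ), flow G (G.dist x y) x y z * g z ^ 2 := by
        refine Finset.sum_le_sum fun x hx => (Finset.sum_le_sum (h1 x hx)).trans ?_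
        refine Finset.sum_le_sum_of_subset_of_nonneg (fun y hy => mem_ball.2 ?_) fun y _ _ =>
          mul_nonneg (by positivity)
            (Finset.sum_nonneg fun z _ => mul_nonneg (flow_nonneg _ _ _ _) (sq_nonneg _))
        have := tri (G := G) x c y
        have hx := mem_ball.1 hx
        have hy := mem_ball.1 hy
        rw [dcomm] at hx
        omega
    _ = (2 * ρ) * ∑ z ∈ ball G c (3 * ρ),
        (∑ x ∈ ball G c ρ, ∑ y ∈ ball G x (2 * ρ), flow G (G.dist x y) x y z) * g z ^ 2 := by
        simp only [← Finset.mul_sum, Finset.sum_mul]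
        congr 1
        rw [Finset.sum_comm (s := ball G c (3 * ρ))]
        exact Finset.sum_congr rfl fun x _ => Finset.sum_comm
    _ ≤ (2 * ρ) * ∑ z ∈ ball G c (3 * ρ), ((2 * ρ) * (ball G o (2 * ρ)).card) * g z ^ 2 := by
        gcongr with z _
        exact_mod_cast load_le ht ha o (2 * ρ) z _
    _ = _ := by rw [← Finset.mul_sum]; ring

end Pool.Agent.MP_77f003_co.H49
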