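import Pool.Agent.MP_77f003_co.H49.Sep
import Pool.Agent.MP_77f003_co.H49.Flow

/-!
An amenable vertex-transitive graph without a fat clique minor has polynomial growth.
-/

namespace Pool.Agent.MP_77f003_co.H49

open SimpleGraph

variable {V : Type} {G : SimpleGraph V} [DecidableEq V] [G.LocallyFinite]

theorem double_count {Δ : ℕ} (hΔ : ∀ x, G.degree x ≤ Δ) (U S : Finset V) :
    ∑ x ∈ U, (G.neighborFinset x ∩ S).card ≤ Δ * S.card := by
  classical
  have e1 : ∀ x, (G.neighborFinset x ∩ S).card = ∑ s ∈ S, if G.Adj x s then 1 else 0 := by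
    intro x
    rw [← Finset.card_filter]
    congr 1
    ext s
    simp [and_comm]
  simp only [e1]
  rw [Finset.sum_comm, mul_comm]
  refine Finset.sum_le_card_nsmul _ _ _ fun s _ => ?_
  rw [← Finset.card_filter]
  refine le_trans (Finset.card_le_card (t := G.neighborFinset s) fun x hx => ?_) (hΔ s)
  exact (mem_neighborFinset _ _ _).2 (Finset.mem_filter.1 hx).2.symm

theorem eb_le_obd {Δ : ℕ} (hΔ : ∀ x, G.degree x ≤ Δ) (F : Finset V) :
    eb G F ≤ Δ * (obd G F).card := by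
  refine le_trans (Finset.sum_le_sum fun x hx => Finset.card_le_card fun y hy => ?_)
    (double_count hΔ F (obd G F))
  obtain ⟨h1, h2⟩ := Finset.mem_sdiff.1 hy
  exact Finset.mem_inter.2 ⟨h1, mem_obd.2 ⟨h2, x, hx, (mem_neighborFinset _ _ _).1 h1⟩⟩

theorem eb_le_card {Δ : ℕ} (hΔ : ∀ x, G.degree x ≤ Δ) (F : Finset V) : eb G F ≤ F.card * Δ :=
  Finset.sum_le_card_nsmul _ _ _ fun x _ => (Finset.card_le_card Finset.sdiff_subset).trans (hΔ x)

theorem eb_split {Δ : ℕ} (hΔ : ∀ x, G.degree x ≤ Δ) {F R L : Finset V} (hR : R ⊆ F) (hL : L ⊆ F)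
    (hd : Disjoint R L) (hn : ∀ x ∈ R, ∀ y ∈ L, ¬ G.Adj x y) :
    eb G R + eb G L ≤ eb G F + Δ * (F \ (R ∪ L)).card := by
  have key : ∀ A B : Finset V, (∀ x ∈ A, ∀ y ∈ B, ¬ G.Adj x y) → (∀ y ∈ R ∪ L, y ∈ A ∨ y ∈ B) →
      eb G A ≤ ∑ x ∈ A, ((G.neighborFinset x \ F).card +
        (G.neighborFinset x ∩ (F \ (R ∪ L))).card) := by
    intro A B hAB hcov
    refine Finset.sum_le_sum fun x hx => le_trans (Finset.card_le_card fun y hy => ?_)
      (Finset.card_union_le _ _)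
    obtain ⟨h1, h2⟩ := Finset.mem_sdiff.1 hy
    by_cases hyF : y ∈ F
    · refine Finset.mem_union_right _ (Finset.mem_inter.2 ⟨h1, Finset.mem_sdiff.2 ⟨hyF, ?_⟩⟩)
      intro h
      exact (hcov y h).elim h2 fun h' => hAB x hx y h' ((mem_neighborFinset _ _ _).1 h1)
    · exact Finset.mem_union_left _ (Finset.mem_sdiff.2 ⟨h1, hyF⟩)
  have e1 := key R L hn fun y hy => Finset.mem_union.1 hy
  have e2 := key L R (fun x hx y hy h => hn y hy x hx h.symm)
    fun y hy => (Finset.mem_union.1 hy).symm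
  have e3 := Finset.sum_union (f := fun x => (G.neighborFinset x \ F).card +
    (G.neighborFinset x ∩ (F \ (R ∪ L))).card) hd
  rw [Finset.sum_add_distrib (s := R ∪ L)] at e3
  have e4 := double_count hΔ (R ∪ L) (F \ (R ∪ L))
  have e5 : ∑ x ∈ R ∪ L, (G.neighborFinset x \ F).card ≤ eb G F :=
    Finset.sum_le_sum_of_subset (Finset.union_subset hR hL)
  omega

/-- There is a nonempty set of at most `n` vertices with boundary ratio at most `ρ`. -/
def Good (G : SimpleGraph V) [G.LocallyFinite] (n : ℕ) (ρ : ℝ) : Prop :=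
  ∃ F : Finset V, F.Nonempty ∧ F.card ≤ n ∧ (eb G F : ℝ) ≤ ρ * F.card

theorem Good.mono {n m : ℕ} {ρ σ : ℝ} (h : Good G n ρ) (hn : n ≤ m) (hρ : ρ ≤ σ) : Good G m σ := by
  obtain ⟨F, h1, h2, h3⟩ := h
  exact ⟨F, h1, h2.trans hn, h3.trans (by gcongr)⟩

theorem good_step {Δ c l : ℕ} (hΔ : ∀ x, G.degree x ≤ Δ) (hl : 16 ≤ l) (hc : 4 * c ≤ l)
    (hsep : ∀ F : Finset V, F.card ≤ l ^ 4 → ∃ R L : Finset V, R ⊆ F ∧ L ⊆ F ∧
      Disjoint R L ∧ (∀ x ∈ R, ∀ y ∈ L, ¬ G.Adj x y) ∧ 3 * R.card ≤ 2 * F.card ∧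
      3 * L.card ≤ 2 * F.card ∧ l * (F \ (R ∪ L)).card ≤ c * F.card + c * l ^ 3)
    {F : Finset V} {ρ : ℝ} (hF : F.card ≤ l ^ 4) (hF' : l ^ 4 < 16 * F.card)
    (hρ : (eb G F : ℝ) ≤ ρ * F.card) :
    ∃ F' : Finset V, F'.Nonempty ∧ 3 * F'.card ≤ 2 * F.card ∧
      (eb G F' : ℝ) ≤ (ρ + 8 * Δ * c / l) * F'.card := by
  obtain ⟨R, L, hR, hL, hd, hn, h1, h2, h3⟩ := hsep F hF
  set s := (F \ (R ∪ L)).card with hs
  have e0 : s + (R.card + L.card) = F.card := by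
    rw [hs, ← Finset.card_union_of_disjoint hd]
    exact Finset.card_sdiff_add_card_eq_card (Finset.union_subset hR hL)
  have e1 : l ^ 3 ≤ F.card := by
    have : 16 * l ^ 3 ≤ l ^ 4 := by rw [pow_succ' l 3]; gcongr
    omega
  have e2 : l * s ≤ 2 * c * F.card := by
    have := Nat.mul_le_mul_left c e1
    linarith
  have e3 : 2 * s ≤ F.card := by
    have : l * (2 * s) ≤ l * F.card := by
      have := Nat.mul_le_mul_right F.card hc
      linarith
    exact Nat.le_of_mul_le_mul_left this (by omega)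
  have hn0 : 0 < F.card := lt_of_lt_of_le (by positivity) e1
  have hl0 : (0 : ℝ) < l := by positivity
  have hn0' : (0 : ℝ) < F.card := by positivity
  set η : ℝ := 8 * Δ * c / l with hη
  have key : (eb G R : ℝ) + eb G L ≤ (ρ + η) * (R.card + L.card) := by
    have f1 : (eb G R : ℝ) + eb G L ≤ eb G F + Δ * s := by exact_mod_cast eb_split hΔ hR hL hd hn
    have f2 : (eb G F : ℝ) ≤ F.card * Δ := by exact_mod_cast eb_le_card hΔ F
    have f3 : (s : ℝ) + (R.card + L.card) = F.card := by exact_mod_cast e0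
    have f4 : (l : ℝ) * s ≤ 2 * c * F.card := by exact_mod_cast e2
    have f5 : 2 * (s : ℝ) ≤ F.card := by exact_mod_cast e3
    set τ : ℝ := eb G F / F.card with hτ
    have g1 : (eb G F : ℝ) = τ * F.card := by rw [hτ]; field_simp
    have g2 : τ ≤ ρ := by rw [hτ, div_le_iff₀ hn0']; exact hρ
    have g3 : τ ≤ Δ := by rw [hτ, div_le_iff₀ hn0']; linarith
    have g4 : 4 * Δ * (s : ℝ) ≤ η * F.card := by
      rw [hη, div_mul_eq_mul_div, le_div_iff₀ hl0]
      nlinarith [mul_le_mul_of_nonneg_left f4 (show (0 : ℝ) ≤ Δ by positivity)]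
    have g5 : 0 ≤ η := by positivity
    have g6 : (0 : ℝ) ≤ s := Nat.cast_nonneg _
    have g7 : (R.card + L.card : ℝ) = F.card - s := by linarith
    rw [g7]
    nlinarith [mul_le_mul_of_nonneg_right g2 (show (0 : ℝ) ≤ F.card - s by linarith),
      mul_le_mul_of_nonneg_right g3 g6, mul_le_mul_of_nonneg_left f5 g5]
  by_cases hR' : R.Nonempty ∧ (eb G R : ℝ) ≤ (ρ + η) * R.card
  · exact ⟨R, hR'.1, h1, hR'.2⟩
  have hR'' : (ρ + η) * R.card ≤ eb G R := by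
    rcases R.eq_empty_or_nonempty with rfl | h
    · simp
    · exact le_of_lt (not_le.1 fun h' => hR' ⟨h, h'⟩)
  refine ⟨L, ?_, h2, by linarith⟩
  rcases L.eq_empty_or_nonempty with rfl | h
  · refine absurd ⟨Finset.card_pos.1 ?_, by simpa [eb] using key⟩ hR'
    rw [Finset.card_empty] at e0
    omega
  · exact h

theorem good_step7 {Δ c i : ℕ} (hΔ : ∀ x, G.degree x ≤ Δ) (hl : 16 ≤ 2 ^ (i + 1))
    (hc : 4 * c ≤ 2 ^ (i + 1))
    (hsep : ∀ F : Finset V, F.card ≤ (2 ^ (i + 1)) ^ 4 → ∃ R L : Finset V, R ⊆ F ∧ L ⊆ F ∧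
      Disjoint R L ∧ (∀ x ∈ R, ∀ y ∈ L, ¬ G.Adj x y) ∧ 3 * R.card ≤ 2 * F.card ∧
      3 * L.card ≤ 2 * F.card ∧
      2 ^ (i + 1) * (F \ (R ∪ L)).card ≤ c * F.card + c * (2 ^ (i + 1)) ^ 3)
    {ρ : ℝ} (h : Good G (16 ^ (i + 1)) ρ) : Good G (16 ^ i) (ρ + 56 * Δ * c / 2 ^ (i + 1)) := by
  have e0 : (2 ^ (i + 1)) ^ 4 = 16 * 16 ^ i := by
    rw [← pow_mul, mul_comm (i + 1), pow_mul, pow_succ']
    norm_num
  have hη : (0 : ℝ) ≤ 8 * Δ * c / ((2 ^ (i + 1) : ℕ) : ℝ) := by positivity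
  have key : ∀ k : ℕ, ∃ F : Finset V, F.Nonempty ∧ F.card ≤ 16 * 16 ^ i ∧
      (3 ^ k * F.card ≤ 2 ^ k * (16 * 16 ^ i) ∨ F.card ≤ 16 ^ i) ∧
      (eb G F : ℝ) ≤ (ρ + k * (8 * Δ * c / ((2 ^ (i + 1) : ℕ) : ℝ))) * F.card := by
    intro k
    induction k with
    | zero =>
      obtain ⟨F, h1, h2, h3⟩ := h
      rw [pow_succ'] at h2
      exact ⟨F, h1, h2, Or.inl (by simpa using h2), by simpa using h3⟩
    | succ k ih =>
      obtain ⟨F, h1, h2, h3, h4⟩ := ih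
      by_cases h5 : F.card ≤ 16 ^ i
      · refine ⟨F, h1, h2, Or.inr h5, h4.trans ?_⟩
        gcongr
        omega
      · obtain ⟨F', g1, g2, g3⟩ := good_step hΔ hl hc hsep (F := F) (by omega) (by omega) h4
        refine ⟨F', g1, by omega, Or.inl ?_, g3.trans (le_of_eq ?_)⟩
        · have h3 := h3.resolve_right h5
          calc 3 ^ (k + 1) * F'.card = 3 ^ k * (3 * F'.card) := by ring
            _ ≤ 3 ^ k * (2 * F.card) := Nat.mul_le_mul_left _ g2
            _ = 2 * (3 ^ k * F.card) := by ring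
            _ ≤ 2 * (2 ^ k * (16 * 16 ^ i)) := Nat.mul_le_mul_left _ h3
            _ = _ := by ring
        · push_cast
          ring
  obtain ⟨F, h1, -, h3, h4⟩ := key 7
  refine ⟨F, h1, by omega, h4.trans (le_of_eq ?_)⟩
  push_cast
  ring

theorem poly_growth [Fact G.Connected] (ht : VT G) (ha : Amenable G) {K h : ℕ}
    (hno : ¬ FatCl G K h) (o : V) : ∃ C : ℕ, ∀ r, (ball G o r).card ≤ C * (r + 1) ^ 4 := by
  obtain ⟨c, hc⟩ := sep (fun r => (ball G o r).card) (fun x r => (card_ball_eq ht x o r).le) hno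
  set Δ := G.degree o with hΔ'
  have hΔ : ∀ x, G.degree x ≤ Δ := fun x => (degree_eq ht x o).le
  set i₀ := 4 * c + 4 with hi₀
  have hpow : ∀ i, i₀ ≤ i → 16 ≤ 2 ^ (i + 1) ∧ 4 * c ≤ 2 ^ (i + 1) := by
    intro i hi
    have e1 : 2 ^ 4 ≤ 2 ^ (i + 1) := Nat.pow_le_pow_right (by norm_num) (by omega)
    have e2 : i + 1 < 2 ^ (i + 1) := Nat.lt_two_pow_self
    omega
  have hdesc : ∀ n i, i₀ ≤ i → ∀ ρ : ℝ, Good G (16 ^ (i + n)) ρ →
      Good G (16 ^ i) (ρ + 56 * Δ * c / 2 ^ i) := by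
    intro n
    induction n with
    | zero => exact fun i _ ρ h => h.mono le_rfl (le_add_of_nonneg_right (by positivity))
    | succ n ih =>
      intro i hi ρ h
      have h1 := ih (i + 1) (by omega) ρ (by rwa [add_assoc, add_comm 1])
      refine (good_step7 hΔ (hpow i hi).1 (hpow i hi).2 (hc _ (hpow i hi).1) h1).mono le_rfl
        (le_of_eq ?_)
      rw [pow_succ]
      ring
  set C₁ := 56 * Δ * c + Δ with hC₁
  have hgood : ∀ i, i₀ ≤ i → Good G (16 ^ i) (C₁ / 2 ^ i) := by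
    intro i hi
    obtain ⟨F, hF, hF'⟩ := ha.obd (ε := 1 / 2 ^ i) (by positivity)
    have h1 : Good G (16 ^ (i + F.card)) (Δ / 2 ^ i) := by
      refine ⟨F, hF, ?_, ?_⟩
      · exact (Nat.lt_pow_self (by norm_num : 1 < 16)).le.trans
          (Nat.pow_le_pow_right (by norm_num) (by omega))
      · have : (eb G F : ℝ) ≤ Δ * (obd G F).card := by exact_mod_cast eb_le_obd hΔ F
        calc _ ≤ _ := this
          _ ≤ (Δ : ℝ) * (1 / 2 ^ i * F.card) := by gcongr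
          _ = _ := by ring
    refine (hdesc _ i hi _ h1).mono le_rfl (le_of_eq ?_)
    rw [hC₁]
    push_cast
    ring
  refine ⟨2 * 16 ^ (i₀ + 1) * (2 * C₁ + 1) ^ 4, fun r => ?_⟩
  set j := Nat.log 2 (2 * r * C₁ + 1) + 1 with hj
  have e1 : 2 * r * C₁ + 1 < 2 ^ j := Nat.lt_pow_succ_log_self (by norm_num) _
  have e2 : 2 ^ j ≤ 2 * (2 * r * C₁ + 1) := by
    rw [hj, pow_succ']
    exact Nat.mul_le_mul_left _ (Nat.pow_log_le_self 2 (by omega))
  have e3 : (ball G o r).card ≤ 2 * 16 ^ (i₀ + j) := by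
    by_contra hcon
    obtain ⟨Y, h1, h2, h3⟩ := hgood (i₀ + j) (by omega)
    have h4 := csc ht ha o r Y (by omega)
    have hY : (0 : ℝ) < Y.card := by exact_mod_cast h1.card_pos
    have h5 : (2 * r * C₁ : ℝ) < 2 ^ (i₀ + j) := by
      have : 2 ^ j ≤ 2 ^ (i₀ + j) := Nat.pow_le_pow_right (by norm_num) (by omega)
      exact_mod_cast (by omega : 2 * r * C₁ < 2 ^ (i₀ + j))
    have h6 : (Y.card : ℝ) ≤ (2 * r * C₁ / 2 ^ (i₀ + j)) * Y.card := by
      calc _ ≤ _ := h4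
        _ ≤ 2 * (r : ℝ) * (C₁ / 2 ^ (i₀ + j) * Y.card) := by gcongr
        _ = _ := by ring
    have h7 : (2 * r * C₁ / 2 ^ (i₀ + j) : ℝ) < 1 := by
      rw [div_lt_one (by positivity)]
      exact h5
    nlinarith
  calc _ ≤ 2 * 16 ^ (i₀ + j) := e3
    _ = 2 * 16 ^ i₀ * (2 ^ j) ^ 4 := by
        rw [pow_add, ← pow_mul, mul_comm j, pow_mul]
        norm_num [mul_assoc]
    _ ≤ 2 * 16 ^ i₀ * (2 * ((2 * C₁ + 1) * (r + 1))) ^ 4 := by
        gcongr
        nlinarith [Nat.zero_le C₁, Nat.zero_le r]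
    _ = _ := by ring

end Pool.Agent.MP_77f003_co.H49
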