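import Pool.Agent.MP_77f003_co.H49.Two
import Pool.Agent.MP_77f003_co.H49.Growth

/-!
The dichotomy for amenable vertex-transitive graphs.
-/

namespace Pool.Agent.MP_77f003_co.H49

open SimpleGraph

variable {V : Type} {G : SimpleGraph V} [Fact G.Connected]

theorem qi_point [Finite V] (o : V) : QuasiIsometric G pointG := by
  obtain ⟨C, hC⟩ := (Set.finite_range fun y => G.dist y o).bddAbove
  have : Fact pointG.Connected := ⟨point_connected⟩
  exact qi_of_coarse (fun _ => o) C (fun _ _ _ => by simp) (fun _ => ⟨0, fun _ _ _ => by simp⟩)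
    fun x => ⟨(), hC ⟨x, rfl⟩⟩

theorem exists_fib {Γ : Type} [Group Γ] [MulAction Γ V] (h : Acts Γ G) (o : V)
    (htr : ∀ x y : V, ∃ γ : Γ, γ • x = y) (H : Subgroup Γ) [H.FiniteIndex]
    (χ : H →* Multiplicative ℤ) (h1 : ∃ g, χ g ≠ 1) (h2 : ∀ g : H, (g : Γ) • o = o → χ g = 1) :
    ∃ (χ' : H → ℤ) (t : H) (c : ℕ), Fib G o χ' t c := by
  obtain ⟨⟨_, t, rfl⟩, ht⟩ := IsCyclic.exists_generator (α := χ.range)
  have hdiv : ∀ g, ∃ a : ℤ, (χ g).toAdd = a * (χ t).toAdd := fun g => by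
    obtain ⟨a, ha⟩ := ht ⟨χ g, g, rfl⟩
    refine ⟨a, ?_⟩
    have : χ t ^ a = χ g := congrArg Subtype.val ha
    rw [← this, toAdd_zpow, zsmul_eq_mul, Int.cast_id]
  have hm : (χ t).toAdd ≠ 0 := by
    obtain ⟨g, hg⟩ := h1
    obtain ⟨a, ha⟩ := hdiv g
    intro h0
    rw [h0, mul_zero] at ha
    exact hg ha
  obtain ⟨C, hC⟩ := (Set.finite_range fun q : Γ ⧸ H => len G o q.out).bddAbove
  refine ⟨fun g => (χ g).toAdd / (χ t).toAdd, t, C, fun γ => h γ, fun x => ?_, fun g g' => ?_,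
    Int.ediv_self hm, fun g hg => by simp [h2 g hg]⟩
  · obtain ⟨γ, rfl⟩ := htr o x
    obtain ⟨u, hu⟩ := QuotientGroup.mk_out_eq_mul H γ⁻¹
    refine ⟨u, (h.dist_eq_len o γ u).trans_le (hC ⟨QuotientGroup.mk γ⁻¹, ?_⟩)⟩
    simp only [hu]
  · obtain ⟨a, ha⟩ := hdiv g
    obtain ⟨a', ha'⟩ := hdiv g'
    simp only [map_mul, toAdd_mul, ha, ha', ← add_mul, Int.mul_ediv_cancel _ hm]

variable [G.LocallyFinite]

theorem exists_fg (ht : VT G) (o : V) :
    ∃ Γ : Subgroup (G ≃g G), Group.FG Γ ∧ ∀ x y : V, ∃ γ : Γ, γ • x = y := by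
  choose φ hφ using ht o
  have : Finite (φ '' G.neighborSet o) := ((G.neighborSet o).toFinite.image φ).to_subtype
  refine ⟨Subgroup.closure (φ '' G.neighborSet o), inferInstance, ?_⟩
  have key : ∀ k x, G.dist x o = k →
      ∃ γ : Subgroup.closure (φ '' G.neighborSet o), γ • o = x := by
    intro k
    induction k with
    | zero => exact fun x hx => ⟨1, by rw [one_smul, eq_of_dist hx]⟩
    | succ k ih =>
      intro x hx
      obtain ⟨z, hz, hz'⟩ := exists_step hx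
      obtain ⟨γ, rfl⟩ := ih z hz'
      have e1 : G.Adj o (γ⁻¹ • x) := by
        have : G.Adj (γ⁻¹ • γ • o) (γ⁻¹ • x) := (γ⁻¹).1.map_adj_iff.2 hz.symm
        rwa [inv_smul_smul] at this
      refine ⟨γ * ⟨φ (γ⁻¹ • x), Subgroup.subset_closure ⟨_, e1, rfl⟩⟩, ?_⟩
      rw [mul_smul]
      show γ • φ (γ⁻¹ • x) o = x
      rw [hφ, smul_inv_smul]
  intro x y
  obtain ⟨γ, rfl⟩ := key _ x rfl
  obtain ⟨γ', rfl⟩ := key _ y rfl
  exact ⟨γ' * γ⁻¹, by rw [mul_smul, inv_smul_smul]⟩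

theorem planar_of_not_fatCl (ht : VT G) (ha : Amenable G) {K h : ℕ} (hno : ¬ FatCl G K h) :
    QuasiIsometric G pointG ∨ QuasiIsometric G lineG ∨ QuasiIsometric G grid := by
  classical
  obtain ⟨o⟩ := (Fact.out : G.Connected).nonempty
  rcases finite_or_infinite V with hV | hV
  · exact Or.inl (qi_point o)
  right
  obtain ⟨C, hC⟩ := poly_growth ht ha hno o
  obtain ⟨Γ, hfg, htr⟩ := exists_fg ht o
  have hact : Acts Γ G := fun γ x y hxy => γ.1.map_adj_iff.2 hxy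
  obtain ⟨H, hH, χ, h1, h2⟩ := exists_hom hact htr ha o hC
  obtain ⟨χ', t, c, F⟩ := exists_fib hact o htr H χ h1 h2
  obtain ⟨D, hD⟩ := F.milnor hC
  have : Fact (F.LG D).Connected := ⟨F.LG_conn hD⟩
  rcases finite_or_infinite (MulAction.orbit F.N o) with hL | hL
  · exact Or.inl F.qi_line
  rcases line_or_star (F.LG_vt D) F.base with ⟨l, hl, R, hR⟩ | hs
  · exact Or.inr (F.qi_grid hl hR)
  · exact absurd (F.fatCl hs K h) hno

end Pool.Agent.MP_77f003_co.H49
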