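import Pool.Agent.MP_77f003_co.H49.OneEnd
import Pool.Agent.MP_77f003_co.H49.Main

/-!
The dichotomy for vertex-transitive graphs with finitely many ends.
-/

namespace Pool.Agent.MP_77f003_co.H49

open SimpleGraph Filter

variable {V : Type} {G : SimpleGraph V}

theorem mk_eq_of_lk {X : Set V} {x y : V} (h : Lk G Xᶜ x y) :
    G.componentComplMk h.left = G.componentComplMk h.right := by
  obtain ⟨p, hp⟩ := h
  induction p with
  | nil => rfl
  | @cons a b c hab q ih =>
    exact (G.componentComplMk_eq_of_adj _ (hp b (by simp)) hab).trans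
      (ih fun z hz => hp z (by simp [hz]))

theorem lk_of_mk_eq {X : Set V} {x y : V} {hx : x ∉ X} {hy : y ∉ X}
    (h : G.componentComplMk hx = G.componentComplMk hy) : Lk G Xᶜ x y := by
  obtain ⟨p⟩ := ConnectedComponent.exact h
  refine ⟨p.map (Embedding.induce Xᶜ).toHom, fun z hz => ?_⟩
  obtain ⟨w, -, rfl⟩ := List.mem_map.1 ((Walk.support_map _ p).subst (motive := (z ∈ ·)) hz)
  exact w.2

variable [Fact G.Connected]

theorem IsR.end {w : ℕ → V} (h : IsR G w) : ∃ s ∈ G.end, ∀ X : Finset V,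
    ∃ n, ∃ hn : w n ∉ (X : Set V), s (Opposite.op X) = G.componentComplMk hn := by
  have : ∀ X : Finset V, ∃ N, ∀ n, N ≤ n → w n ∉ (X : Set V) := fun X => by
    have := (eventually_all_finset X).2 fun x _ => h.proper x 1
    obtain ⟨N, hN⟩ := eventually_atTop.1 this
    exact ⟨N, fun n hn hx => by simpa using hN n hn _ hx⟩
  choose N hN using this
  refine ⟨fun X => G.componentComplMk (hN X.unop _ le_rfl), fun {X Y} f => ?_,
    fun X => ⟨_, _, rfl⟩⟩
  have hf : Y.unop ⊆ X.unop := CategoryTheory.le_of_op_hom f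
  have h1 := mk_eq_of_lk (X := (Y.unop : Set V)) (h.lk (i := N X.unop) (j := N Y.unop)
    fun k k1 _ => by
      rcases le_total (N X.unop) (N Y.unop) with e | e
      · exact fun hk => hN _ k (by omega) (hf hk)
      · exact hN _ k (by omega))
  exact h1

variable [G.LocallyFinite]

theorem adjI_of_finite_ends (hna : ¬ Amenable G) (ht : VT G) (he : G.end.Finite) (o : V)
    (α β : ℕ → V) (hα : IsR G α) (hβ : IsR G β) : AdjI G o ∅ α β := by
  classical
  by_contra hcon
  obtain ⟨t, h1, h2⟩ := ((not_adjI hcon).and (eventually_ge_atTop 1)).exists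
  have := infinite_of_not_amenable hna
  rcases line_or_star ht o with ⟨l, hl, R, hR⟩ | hs
  · obtain ⟨r, hr⟩ := exists_whisker (fun v => (degree_eq ht v o).le) hna 5 R
    obtain ⟨w, -, hw⟩ := hr o _ (thin_param (a := 1) l id Set.univ Function.injective_id
      (fun i _ j _ => by rw [hl]; simp) o)
    obtain ⟨i, hi⟩ := hR w
    exact absurd (hw _ ⟨i, trivial, rfl⟩) (not_lt.2 hi)
  obtain ⟨tip, S, s1, s2⟩ := hs (2 * t)
  have hmap : ∀ (φ : G ≃g G) {w}, IsR G w → IsR G fun n => φ (w n) := fun φ w ⟨a, e1, e2⟩ =>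
    ⟨a, fun n => by rw [dist_iso]; exact e1 n, fun i j h => by rw [dist_iso]; exact e2 i j h⟩
  have key : ∀ u, ∃ γ, IsR G γ ∧ ∀ v, v ≠ u → ∀ m,
      ¬ Lk G {z | t ≤ G.dist (tip u) z} (tip v) (γ m) := by
    intro u
    obtain ⟨φ, hφ⟩ := ht o (tip u)
    have hl : ∀ v, v ≠ u → Lk G {z | t ≤ G.dist (tip u) z} (tip (u + 1)) (tip v) := fun v hv =>
      (s1 _ _).mono fun z hz => by
        have := s2 _ _ u (by omega) hv.symm z hz
        show t ≤ _
        omega
    by_contra hc
    push Not at hc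
    obtain ⟨v, v1, m, v2⟩ := hc _ (hmap φ hα)
    obtain ⟨v', v3, n, v4⟩ := hc _ (hmap φ hβ)
    have := ((v2.symm.trans (hl v v1).symm).trans ((hl v' v3).trans v4)).map φ.symm
    simp only [RelIso.symm_apply_apply] at this
    refine h1 m n (this.mono ?_)
    rintro _ ⟨z, hz, rfl⟩
    refine ⟨?_, by simp⟩
    rw [← dist_iso φ, hφ]
    simpa using hz
  choose γ g1 g2 using key
  choose s e1 e2 using fun u => (g1 u).end
  refine Set.infinite_of_injective_forall_mem (f := s) (fun u v huv => ?_) e1 he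
  by_contra hne
  obtain ⟨m, hm, e3⟩ := e2 u (ball G (tip u) (t - 1) ∪ ball G (tip v) (t - 1))
  obtain ⟨n, hn, e4⟩ := e2 v (ball G (tip u) (t - 1) ∪ ball G (tip v) (t - 1))
  have l := lk_of_mk_eq (e3.symm.trans (huv ▸ e4))
  have hd : ∀ {a b}, a ≠ b → 2 * t ≤ G.dist (tip a) (tip b) := fun h =>
    s2 _ _ _ h h _ (s1 _ _).left
  have hin : ∀ {a b x w}, a ≠ b → G.dist (tip a) x ≤ t - 1 → G.Adj x w → t ≤ G.dist (tip b) w →
      Lk G {z | t ≤ G.dist (tip b) z} (tip a) w := by
    intro a b x w hab k1 k2 k3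
    have hb : ∀ z, G.dist (tip a) z ≤ t - 1 → z ∈ {z | t ≤ G.dist (tip b) z} := fun z hz => by
      have e5 := hd hab
      have e6 := tri (G := G) (tip a) z (tip b)
      rw [dcomm z] at e6
      show t ≤ _
      omega
    exact (Lk.ball fun z hz => hb z (hz.trans k1)).trans (Lk.adj k2 (hb x k1) k3)
  have hsub : ∀ z ∈ (((ball G (tip u) (t - 1) ∪ ball G (tip v) (t - 1) : Finset V) : Set V)ᶜ),
      t ≤ G.dist (tip u) z ∧ t ≤ G.dist (tip v) z := fun z hz => by
    simp only [Finset.coe_union, Set.compl_union, Set.mem_inter_iff, Set.mem_compl_iff,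
      Finset.mem_coe, mem_ball] at hz
    omega
  obtain ⟨w, ⟨x, hx, hxw⟩, l1⟩ := (Lk.ball (G := G) (S := Set.univ) (x := tip v) (y := γ v n)
    fun _ _ => trivial).exit (T := (ball G (tip u) (t - 1) ∪ ball G (tip v) (t - 1) : Finset V))
    (by simp [self_mem_ball]) hn
  rw [← Set.compl_eq_univ_sdiff] at l1
  rcases Finset.mem_union.1 hx with hx | hx
  · exact g2 v u hne n ((hin hne (mem_ball.1 hx) hxw (hsub _ l1.left).2).trans
      (l1.mono fun z hz => (hsub z hz).2))
  · exact g2 u v (Ne.symm hne) m ((hin (Ne.symm hne) (mem_ball.1 hx) hxw (hsub _ l1.left).1).trans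
      ((l1.trans l.symm).mono fun z hz => (hsub z hz).1))

theorem planar_of_finite_ends (ht : VT G) (he : G.end.Finite) {K h : ℕ} (hno : ¬ FatCl G K h) :
    ∃ (W : Type) (P : SimpleGraph W), P.Connected ∧ Planar P ∧ QuasiIsometric G P := by
  by_cases ha : Amenable G
  · rcases planar_of_not_fatCl ht ha hno with h | h | h
    · exact ⟨_, _, point_connected, point_planar, h⟩
    · exact ⟨_, _, line_connected, line_planar, h⟩
    · exact ⟨_, _, grid_connected, grid_planar, h⟩
  · obtain ⟨o⟩ := (Fact.out : G.Connected).nonempty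
    have hOE := adjI_of_finite_ends ha ht he o
    exact planar_of_not_switch ha ht (fun hS => hno (fatCl_of_switch ha ht hS hOE h)) hOE

end Pool.Agent.MP_77f003_co.H49
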