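import Pool.Agent.MP_77f003_co.H49.Flow

/-!
In a non-amenable graph of bounded degree a ray can escape from every thin set.
-/

namespace Pool.Agent.MP_77f003_co.H49

open SimpleGraph
open scoped ENNReal

variable {V : Type} {G : SimpleGraph V}

/-- The set meets the balls around `x` in linearly many points. -/
def Thin (G : SimpleGraph V) (A : ℕ) (x : V) (S : Set V) : Prop :=
  ∀ (m : ℕ) (F : Finset V), (∀ y ∈ F, y ∈ S ∧ G.dist x y ≤ m) → F.card ≤ A * (m + 1)

theorem Thin.mono {A B : ℕ} {x : V} {S T : Set V} (h : Thin G A x S) (hT : T ⊆ S) (hA : A ≤ B) :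
    Thin G B x T := fun m F hF =>
  (h m F fun y hy => ⟨hT (hF y hy).1, (hF y hy).2⟩).trans (Nat.mul_le_mul_right _ hA)

theorem Thin.union {A B : ℕ} {x : V} {S T : Set V} (h : Thin G A x S) (h' : Thin G B x T) :
    Thin G (A + B) x (S ∪ T) := by
  classical
  intro m F hF
  have h1 := h m (F.filter (· ∈ S)) fun y hy =>
    ⟨(Finset.mem_filter.1 hy).2, (hF y (Finset.mem_filter.1 hy).1).2⟩
  have h2 := h' m (F.filter (¬ · ∈ S)) fun y hy =>
    ⟨(hF y (Finset.mem_filter.1 hy).1).1.resolve_left (Finset.mem_filter.1 hy).2,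
      (hF y (Finset.mem_filter.1 hy).1).2⟩
  have h3 := Finset.card_filter_add_card_filter_not (s := F) (· ∈ S)
  rw [add_mul]
  omega

theorem thin_empty (x : V) : Thin G 0 x ∅ := fun m F hF => by
  rw [Finset.eq_empty_of_forall_notMem fun y hy => (hF y hy).1]
  simp

theorem thin_biUnion {ι : Type} [DecidableEq ι] (I : Finset ι) {A : ℕ} {x : V} {S : ι → Set V}
    (h : ∀ i ∈ I, Thin G A x (S i)) : Thin G (I.card * A) x (⋃ i ∈ I, S i) := by
  induction I using Finset.induction_on with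
  | empty => simpa using thin_empty x
  | insert a I ha ih =>
    rw [Finset.set_biUnion_insert, Finset.card_insert_of_notMem ha, add_comm, add_mul, one_mul]
    exact (h a (by simp)).union (ih fun i hi => h i (by simp [hi]))

theorem thin_card (x : V) (Z : Finset V) : Thin G Z.card x Z := fun m F hF =>
  (Finset.card_le_card fun y hy => (hF y hy).1).trans (Nat.le_mul_of_pos_right _ (by omega))

theorem thin_far {x : V} {Z : Finset V} (h : ∀ z ∈ Z, Z.card ≤ G.dist x z) : Thin G 1 x Z := by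
  intro m F hF
  rcases F.eq_empty_or_nonempty with rfl | ⟨y, hy⟩
  · simp
  have h1 : F.card ≤ Z.card := Finset.card_le_card fun y hy => (hF y hy).1
  have h2 := h y (hF y hy).1
  have h3 := (hF y hy).2
  omega

theorem thin_param [Fact G.Connected] {ι : Type} (g : ι → V) (c : ι → ℤ) (I : Set ι) {a : ℕ}
    (hc : Function.Injective c)
    (h : ∀ i ∈ I, ∀ j ∈ I, (c i - c j).natAbs ≤ a * (G.dist (g i) (g j) + 1)) (x : V) :
    Thin G (4 * a + 1) x (g '' I) := by
  intro m F hF
  rcases F.eq_empty_or_nonempty with rfl | ⟨y, hy⟩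
  · simp
  obtain ⟨⟨i0, hi0, rfl⟩, hy2⟩ := hF y hy
  have : ∀ z, ∃ i, z ∈ F → i ∈ I ∧ g i = z := fun z => by
    by_cases hz : z ∈ F
    · obtain ⟨i, h1, h2⟩ := (hF z hz).1
      exact ⟨i, fun _ => ⟨h1, h2⟩⟩
    · exact ⟨i0, fun h => absurd h hz⟩
  choose τ hτ using this
  have h1 := Finset.card_le_card_of_injOn (s := F)
    (t := Finset.Icc (c i0 - (a * (2 * m + 1) : ℕ)) (c i0 + (a * (2 * m + 1) : ℕ)))
    (fun z => c (τ z)) (fun z hz => by
      have e1 := h _ (hτ z hz).1 _ hi0
      rw [(hτ z hz).2] at e1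
      have e2 := tri (G := G) z x (g i0)
      have e3 := (hF z hz).2
      rw [dcomm] at e3
      have e4 : a * (G.dist z (g i0) + 1) ≤ a * (2 * m + 1) := Nat.mul_le_mul_left _ (by omega)
      simp only [Finset.coe_Icc, Set.mem_Icc]
      omega)
    (fun z hz w hw hzw => by rw [← (hτ z hz).2, ← (hτ w hw).2, hc hzw])
  rw [Int.card_Icc] at h1
  have h2 : 2 * (a * (2 * m + 1)) + 1 ≤ (4 * a + 1) * (m + 1) := by nlinarith
  omega

theorem Thin.map [Fact G.Connected] {A : ℕ} {x : V} {S : Set V} (h : Thin G A x S) (φ : G ≃g G) :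
    Thin G A (φ x) (φ '' S) := by
  intro m F hF
  have := h m (F.map φ.symm.toEquiv.toEmbedding) fun y hy => by
    obtain ⟨z, hz, rfl⟩ := Finset.mem_map.1 hy
    obtain ⟨⟨w, hw, rfl⟩, h2⟩ := hF z hz
    rw [dist_iso] at h2
    simpa using ⟨hw, h2⟩
  rwa [Finset.card_map] at this

/-- A lazy quasi-geodesic ray. -/
def Ray (G : SimpleGraph V) (a : ℕ) (w : ℕ → V) : Prop :=
  (∀ n, G.dist (w n) (w (n + 1)) ≤ 1) ∧
    ∀ i j, i ≤ j → j ≤ i + a * (G.dist (w i) (w j) + 1)

theorem Ray.mono {a b : ℕ} {w : ℕ → V} (h : Ray G a w) (hab : a ≤ b) : Ray G b w :=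
  ⟨h.1, fun i j hij => (h.2 i j hij).trans
    (Nat.add_le_add_left (Nat.mul_le_mul_right _ hab) _)⟩

theorem Ray.thin [Fact G.Connected] {a : ℕ} {w : ℕ → V} (h : Ray G a w) (x : V) :
    Thin G (4 * a + 1) x (Set.range w) := by
  rw [← Set.image_univ]
  refine thin_param w (fun n => (n : ℤ)) _ Nat.cast_injective (fun i _ j _ => ?_) x
  rcases le_total i j with hij | hij
  · have := h.2 i j hij
    omega
  · have := h.2 j i hij
    rw [dcomm] at this
    omega

theorem exists_lazy [Fact G.Connected] (x y : V) {r : ℕ} (h : G.dist x y ≤ r) :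
    ∃ g : ℕ → V, g 0 = x ∧ g r = y ∧ ∀ i, G.dist (g i) (g (i + 1)) ≤ 1 := by
  obtain ⟨q, q0, q1, q2⟩ := exists_geo (G := G) x y
  refine ⟨fun i => q (min i (G.dist x y)), by simpa using q0, by simpa [h] using q1, fun i => ?_⟩
  beta_reduce
  rcases lt_or_ge i (G.dist x y) with h1 | h1
  · rw [min_eq_left h1.le, min_eq_left h1]
    exact (dist_adj (q2 i h1)).le
  · rw [min_eq_right h1, min_eq_right (by omega)]
    simp

theorem dist_lazy [Fact G.Connected] {g : ℕ → V} (h : ∀ i, G.dist (g i) (g (i + 1)) ≤ 1)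
    {i j : ℕ} (hij : i ≤ j) : G.dist (g i) (g j) ≤ j - i := by
  have := dist_seq_le (G := G) (c := 1) (n := j) (fun i _ => h i) i (j - i) (by omega)
  rwa [Nat.add_sub_cancel' hij, one_mul] at this

variable [Fact G.Connected] [G.LocallyFinite]

theorem card_ball_le {Δ : ℕ} (hΔ : ∀ v, G.degree v ≤ Δ) (x : V) (m : ℕ) :
    (ball G x m).card ≤ (Δ + 1) ^ m := by
  classical
  induction m with
  | zero =>
    rw [pow_zero, Finset.card_le_one]
    intro a ha b hb
    rw [← eq_of_dist (Nat.le_zero.1 (mem_ball.1 ha)), ← eq_of_dist (Nat.le_zero.1 (mem_ball.1 hb))]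
  | succ m ih =>
    have h1 : ball G x (m + 1) ⊆ (ball G x m).biUnion fun z => insert z (G.neighborFinset z) := by
      intro y hy
      rw [mem_ball] at hy
      rw [Finset.mem_biUnion]
      by_cases h : G.dist x y ≤ m
      · exact ⟨y, mem_ball.2 h, by simp⟩
      · obtain ⟨z, hz, hz'⟩ := exists_step (G := G) (x := y) (y := x) (k := m)
          (by rw [dcomm]; omega)
        exact ⟨z, mem_ball.2 (by rw [dcomm, hz']), by simp [hz.symm]⟩
    refine (Finset.card_le_card h1).trans (Finset.card_biUnion_le.trans ?_)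
    refine (Finset.sum_le_card_nsmul _ _ (Δ + 1) fun z _ => ?_).trans ?_
    · refine (Finset.card_insert_le _ _).trans ?_
      rw [card_neighborFinset_eq_degree]
      exact Nat.add_le_add_right (hΔ z) 1
    · rw [smul_eq_mul, pow_succ]
      exact Nat.mul_le_mul_right _ ih

theorem expand [DecidableEq V] (hna : ¬ Amenable G) (b : ℕ) :
    ∃ r, 1 ≤ r ∧ ∀ F : Finset V, b * F.card ≤ (F.biUnion fun x => ball G x r).card := by
  unfold Amenable at hna
  push Not at hna
  obtain ⟨ε, hε, h⟩ := hna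
  have key : ∀ (r : ℕ) (F : Finset V),
      (1 + ε) ^ r * F.card ≤ ((F.biUnion fun x => ball G x r).card : ℝ) := by
    intro r F
    induction r with
    | zero =>
      rw [pow_zero, one_mul]
      exact Nat.cast_le.2 (Finset.card_le_card fun x hx =>
        Finset.mem_biUnion.2 ⟨x, hx, self_mem_ball _ _⟩)
    | succ r ih =>
      set S := F.biUnion fun x => ball G x r with hS
      have h1 : ε * S.card ≤ (obd G S).card := by
        rcases S.eq_empty_or_nonempty with h0 | h0
        · simp [h0]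
        · have h2 := h S h0
          have : ({y | y ∉ S ∧ ∃ x ∈ S, G.Adj x y} : Set V) = obd G S := by
            ext y
            simp [mem_obd]
          rw [this, Set.ncard_coe_finset] at h2
          exact h2.le
      have h2 : S ∪ obd G S ⊆ F.biUnion fun x => ball G x (r + 1) := by
        intro y hy
        rcases Finset.mem_union.1 hy with hy | hy
        · obtain ⟨x, hx, hy⟩ := Finset.mem_biUnion.1 hy
          exact Finset.mem_biUnion.2 ⟨x, hx, ball_mono _ (by omega) hy⟩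
        · obtain ⟨-, z, hz, hzy⟩ := mem_obd.1 hy
          obtain ⟨x, hx, hz⟩ := Finset.mem_biUnion.1 hz
          refine Finset.mem_biUnion.2 ⟨x, hx, mem_ball.2 ?_⟩
          have e1 := mem_ball.1 hz
          have e2 := tri (G := G) x z y
          rw [dist_adj hzy] at e2
          omega
      have h3 := Finset.card_le_card h2
      rw [Finset.card_union_of_disjoint (Finset.disjoint_left.2 fun y hy hy' =>
        (mem_obd.1 hy').1 hy)] at h3
      have h4 : (S.card : ℝ) + (obd G S).card ≤ (F.biUnion fun x => ball G x (r + 1)).card := by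
        exact_mod_cast h3
      rw [pow_succ]
      nlinarith
  obtain ⟨r, hr⟩ := pow_unbounded_of_one_lt (b : ℝ) (show 1 < 1 + ε by linarith)
  refine ⟨r + 1, by omega, fun F => ?_⟩
  have h1 := key (r + 1) F
  have h2 : (1 + ε) ^ r ≤ (1 + ε) ^ (r + 1) := pow_le_pow_right₀ (by linarith) (by omega)
  have h3 : (b : ℝ) * F.card ≤ (1 + ε) ^ (r + 1) * F.card := by gcongr; linarith
  exact_mod_cast h3.trans h1

theorem big_ball (hna : ¬ Amenable G) (c t : ℕ) :
    ∃ R, ∀ x, c * (R + t + 1) < (ball G x R).card := by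
  classical
  obtain ⟨r, hr, h⟩ := expand hna 2
  have key : ∀ x k, 2 ^ k ≤ (ball G x (r * k)).card := by
    intro x k
    induction k with
    | zero => exact Finset.card_pos.2 ⟨x, self_mem_ball _ _⟩
    | succ k ih =>
      have h1 := h (ball G x (r * k))
      have h2 : ((ball G x (r * k)).biUnion fun y => ball G y r) ⊆ ball G x (r * (k + 1)) := by
        intro z hz
        obtain ⟨y, hy, hz⟩ := Finset.mem_biUnion.1 hz
        rw [mem_ball] at hy hz ⊢
        have := tri (G := G) x y z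
        rw [mul_add]
        omega
      have h3 := Finset.card_le_card h2
      rw [pow_succ]
      omega
  have h2 := (tendsto_pow_const_div_const_pow_of_one_lt 1 (show (1 : ℝ) < 2 by norm_num)).eventually
    (gt_mem_nhds (show (0 : ℝ) < 1 / (c * (r + t + 1) + 1) by positivity))
  obtain ⟨k, hk, hk1⟩ := (h2.and (Filter.eventually_ge_atTop 1)).exists
  refine ⟨r * k, fun x => lt_of_lt_of_le ?_ (key x k)⟩
  rw [pow_one, div_lt_div_iff₀ (by positivity) (by positivity), one_mul] at hk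
  have h3 : k * (c * (r + t + 1) + 1) < 2 ^ k := by exact_mod_cast hk
  have h4 : c * (r * k + t + 1) ≤ c * (k * (r + t + 1)) := Nat.mul_le_mul_left _ (by nlinarith)
  nlinarith

theorem card_near {Δ : ℕ} (hΔ : ∀ v, G.degree v ≤ Δ) {A : ℕ} {x : V} {S : Set V}
    (hS : Thin G A x S) {m s : ℕ} (F : Finset V)
    (hF : ∀ y ∈ F, G.dist x y ≤ m ∧ ∃ z ∈ S, G.dist y z ≤ s) :
    F.card ≤ A * (m + s + 1) * (Δ + 1) ^ s := by
  classical
  have h1 : F ⊆ ((ball G x (m + s)).filter (· ∈ S)).biUnion fun z => ball G z s := by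
    intro y hy
    obtain ⟨e1, z, hz, e2⟩ := hF y hy
    have e3 := tri (G := G) x y z
    exact Finset.mem_biUnion.2 ⟨z, Finset.mem_filter.2 ⟨mem_ball.2 (by omega), hz⟩,
      mem_ball.2 (by rwa [dcomm])⟩
  refine (Finset.card_le_card h1).trans (Finset.card_biUnion_le.trans ?_)
  refine (Finset.sum_le_card_nsmul _ _ _ fun z _ => card_ball_le hΔ z s).trans ?_
  exact Nat.mul_le_mul_right _ (hS _ _ fun y hy =>
    ⟨(Finset.mem_filter.1 hy).2, mem_ball.1 (Finset.mem_filter.1 hy).1⟩)

/-- Near every point there is a point far from a given thin set. -/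
theorem exists_whisker {Δ : ℕ} (hΔ : ∀ v, G.degree v ≤ Δ) (hna : ¬ Amenable G) (A t : ℕ) :
    ∃ R, ∀ x S, Thin G A x S → ∃ w, G.dist x w ≤ R ∧ ∀ z ∈ S, t < G.dist w z := by
  obtain ⟨R, hR⟩ := big_ball hna (A * (Δ + 1) ^ t) t
  refine ⟨R, fun x S hS => ?_⟩
  by_contra hcon
  push Not at hcon
  have h1 := card_near hΔ hS (ball G x R) fun y hy => ⟨mem_ball.1 hy, hcon y (mem_ball.1 hy)⟩
  have h2 := hR x
  nlinarith

open Classical in
/-- The potential of a time dependent bad set. -/
noncomputable def pot (G : SimpleGraph V) [Fact G.Connected] [G.LocallyFinite] (p : V → V)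
    (r c : ℕ) (B : ℕ → Set V) (x : V) : ℝ≥0∞ :=
  ∑' u, (((ball G x (r * u)).filter fun v => p^[u] v = x ∧ v ∈ B u).card : ℝ≥0∞) / (c : ℝ≥0∞) ^ u

theorem pot_union (p : V → V) (r c : ℕ) (B B' : ℕ → Set V) (x : V) :
    pot G p r c (fun u => B u ∪ B' u) x ≤ pot G p r c B x + pot G p r c B' x := by
  classical
  unfold pot
  rw [← ENNReal.tsum_add]
  refine ENNReal.tsum_le_tsum fun u => ?_
  rw [← ENNReal.add_div]
  gcongr
  norm_cast
  refine le_trans (Finset.card_le_card ?_) (Finset.card_union_le _ _)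
  intro v hv
  simp only [Finset.mem_filter, Set.mem_union, Finset.mem_union] at hv ⊢
  tauto

theorem pot_lt {p : V → V} {r c : ℕ} {B : ℕ → Set V} {x : V} (h : pot G p r c B x < 1) :
    x ∉ B 0 := by
  classical
  intro hx
  refine absurd (le_trans ?_ (ENNReal.le_tsum 0)) (not_le.2 h)
  simp only [pow_zero, div_one, Nat.one_le_cast]
  exact Finset.card_pos.2 ⟨x, Finset.mem_filter.2 ⟨self_mem_ball _ _, rfl, hx⟩⟩

theorem pot_step {p : V → V} {r c : ℕ} (hc : 1 ≤ c) {f : V × Fin (2 * c) → V}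
    (hf : Function.Injective f) (hp : ∀ x i, p (f (x, i)) = x)
    (hr : ∀ x i, G.dist x (f (x, i)) ≤ r) (B : ℕ → Set V) (x : V) :
    ∃ i, pot G p r c (fun u => B (u + 1)) (f (x, i)) ≤ pot G p r c B x / 2 := by
  classical
  have hc0 : (c : ℝ≥0∞) ≠ 0 := by simp; omega
  have h1 : ∑ i, pot G p r c (fun u => B (u + 1)) (f (x, i)) ≤ c * pot G p r c B x := by
    unfold pot
    conv_rhs => rw [tsum_eq_zero_add' ENNReal.summable]
    rw [← Summable.tsum_finsetSum fun _ _ => ENNReal.summable, mul_add, ← ENNReal.tsum_mul_left]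
    refine le_add_left (ENNReal.tsum_le_tsum fun u => ?_)
    rw [pow_succ', ← mul_div_assoc, ENNReal.mul_div_mul_left _ _ hc0 (by simp)]
    simp only [div_eq_mul_inv, ← Finset.sum_mul]
    gcongr
    norm_cast
    rw [← Finset.card_biUnion]
    · refine Finset.card_le_card fun v hv => ?_
      simp only [Finset.mem_biUnion, Finset.mem_univ, true_and, Finset.mem_filter, mem_ball] at hv ⊢
      obtain ⟨i, e1, e2, e3⟩ := hv
      have e4 := tri (G := G) x (f (x, i)) v
      have e5 := hr x i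
      refine ⟨by rw [mul_add]; omega, ?_, e3⟩
      rw [Function.iterate_succ_apply', e2, hp]
    · intro i _ j _ hij
      refine Finset.disjoint_left.2 fun v h1 h2 => hij ?_
      have := hf ((Finset.mem_filter.1 h1).2.1.symm.trans (Finset.mem_filter.1 h2).2.1)
      exact (Prod.mk.inj this).2
  have : Nonempty (Fin (2 * c)) := ⟨⟨0, by omega⟩⟩
  obtain ⟨i, -, hi⟩ := Finset.exists_min_image Finset.univ
    (fun i => pot G p r c (fun u => B (u + 1)) (f (x, i))) Finset.univ_nonempty
  refine ⟨i, ?_⟩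
  have h2 := (Finset.card_nsmul_le_sum _ _ _ hi).trans h1
  rw [Finset.card_univ, Fintype.card_fin, nsmul_eq_mul, Nat.cast_mul, mul_comm (_ : ℝ≥0∞) c,
    mul_assoc, ENNReal.mul_le_mul_iff_right hc0 (by simp)] at h2
  rw [ENNReal.le_div_iff_mul_le (by simp) (by simp), mul_comm]
  exact_mod_cast h2

theorem pot_self {Δ : ℕ} (hΔ : ∀ v, G.degree v ≤ Δ) (p : V → V) (r : ℕ) (x y : V) :
    pot G p r (2 * (Δ + 1)) (fun u => {v | G.dist y v + 3 ≤ u}) x ≤ 1 / 4 := by
  classical
  have h1 : ∀ u : ℕ, (((ball G x (r * u)).filter fun v => p^[u] v = x ∧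
      v ∈ {v | G.dist y v + 3 ≤ u}).card : ℝ≥0∞) / ((2 * (Δ + 1) : ℕ) : ℝ≥0∞) ^ u ≤
      if u < 3 then 0 else 2⁻¹ ^ u := by
    intro u
    split_ifs with h
    · rw [Finset.filter_false_of_mem (fun v _ hv => by have := hv.2; simp at this; omega)]
      simp
    · have h2 : ((ball G x (r * u)).filter fun v => p^[u] v = x ∧
          v ∈ {v | G.dist y v + 3 ≤ u}).card ≤ (Δ + 1) ^ u := by
        refine le_trans (Finset.card_le_card fun v hv => mem_ball.2 ?_) (card_ball_le hΔ y u)
        have := (Finset.mem_filter.1 hv).2.2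
        simp at this
        omega
      rw [ENNReal.div_le_iff (by simp) (ENNReal.pow_ne_top (ENNReal.natCast_ne_top _)), Nat.cast_mul, mul_pow, ← mul_assoc, ← mul_pow,
        Nat.cast_ofNat, ENNReal.inv_mul_cancel (by simp) (by simp), one_pow, one_mul]
      exact_mod_cast h2
  unfold pot
  refine le_trans (ENNReal.tsum_le_tsum fun u => le_of_eq ?_)
    (le_trans (ENNReal.tsum_le_tsum h1) ?_)
  · congr
  rw [← Summable.sum_add_tsum_nat_add' (k := 3) ENNReal.summable]
  simp only [Finset.sum_range_succ, Finset.range_zero, Finset.sum_empty]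
  simp only [show ∀ i, ¬ (i + 3 < 3) from fun i => by omega, if_false, pow_add,
    ENNReal.tsum_mul_right, ENNReal.tsum_geometric, ENNReal.one_sub_inv_two, inv_inv]
  norm_num
  rw [pow_succ', ← mul_assoc, ENNReal.mul_inv_cancel (by simp) (by simp), one_mul,
    ← ENNReal.inv_pow]
  norm_num

theorem pot_thin {Δ : ℕ} (hΔ : ∀ v, G.degree v ≤ Δ) (p : V → V) (r A s : ℕ) :
    ∃ t, ∀ x S, Thin G A x S → (∀ z ∈ S, t ≤ G.dist x z) →
      pot G p r (2 * (Δ + 1)) (fun u => {v | ∃ z ∈ S, G.dist v z ≤ s + u}) x ≤ 1 / 2 := by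
  classical
  let f : ℕ → NNReal := fun u => (A * (r + s + 2) * (Δ + 1) ^ s : ℕ) * ((u + 1) * 2⁻¹ ^ u)
  have hf : Summable f := by
    rw [← NNReal.summable_coe]
    simp only [f, NNReal.coe_mul, NNReal.coe_add, NNReal.coe_pow, NNReal.coe_inv, add_mul]
    refine Summable.mul_left _ (Summable.add ?_ ?_)
    · simpa using summable_pow_mul_geometric_of_norm_lt_one 1 (r := (2⁻¹ : ℝ)) (by norm_num)
    · simpa using summable_geometric_of_lt_one (r := (2⁻¹ : ℝ)) (by norm_num) (by norm_num)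
  have h1 := ENNReal.tendsto_sum_nat_add (fun u => (f u : ℝ≥0∞))
    (ENNReal.tsum_coe_ne_top_iff_summable.2 hf)
  obtain ⟨N, hN⟩ := (h1.eventually (gt_mem_nhds (show (0 : ℝ≥0∞) < 1 / 2 by simp))).exists
  refine ⟨(r + 1) * N + s, fun x S hS ht => ?_⟩
  unfold pot
  rw [← Summable.sum_add_tsum_nat_add' (k := N) ENNReal.summable, Finset.sum_eq_zero, zero_add]
  · refine le_trans (ENNReal.tsum_le_tsum fun u => ?_) hN.le
    generalize u + N = u
    have h2 := card_near hΔ hS (m := r * u) (s := s + u) ((ball G x (r * u)).filter fun v =>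
      p^[u] v = x ∧ v ∈ {v | ∃ z ∈ S, G.dist v z ≤ s + u}) fun y hy =>
        ⟨mem_ball.1 (Finset.mem_filter.1 hy).1, (Finset.mem_filter.1 hy).2.2⟩
    have h3 : A * (r * u + (s + u) + 1) * (Δ + 1) ^ (s + u) ≤
        A * (r + s + 2) * (Δ + 1) ^ s * ((u + 1) * (Δ + 1) ^ u) := by
      have : r * u + (s + u) + 1 ≤ (r + s + 2) * (u + 1) := by nlinarith
      calc _ ≤ A * ((r + s + 2) * (u + 1)) * (Δ + 1) ^ (s + u) := by gcongr
        _ = _ := by ring
    rw [ENNReal.div_le_iff (by simp) (ENNReal.pow_ne_top (ENNReal.natCast_ne_top _))]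
    refine le_trans (Nat.cast_le.2 (h2.trans h3)) (le_of_eq ?_)
    have h4 : (2⁻¹ : ℝ≥0∞) ^ u * 2 ^ u = 1 := by
      rw [← mul_pow, ENNReal.inv_mul_cancel (by simp) (by simp), one_pow]
    simp only [f]
    push_cast
    rw [mul_pow]
    calc _ = (A * (r + s + 2) * (Δ + 1) ^ s : ℝ≥0∞) * ((u + 1) * (Δ + 1) ^ u) *
          ((2⁻¹ : ℝ≥0∞) ^ u * 2 ^ u) := by rw [h4, mul_one]
      _ = _ := by ring
  · intro u hu
    rw [Finset.filter_false_of_mem]
    · simp
    · rintro v hv ⟨-, z, hz, e1⟩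
      have e2 := mem_ball.1 hv
      have e3 := ht z hz
      have e4 := tri (G := G) x v z
      have e5 := Finset.mem_range.1 hu
      nlinarith

/-- The escape lemma. -/
theorem escape {Δ : ℕ} (hΔ : ∀ v, G.degree v ≤ Δ) (hna : ¬ Amenable G) :
    ∃ a, 1 ≤ a ∧ ∀ A s, ∃ t, ∀ x S, Thin G A x S → (∀ z ∈ S, t ≤ G.dist x z) →
      ∃ w, Ray G a w ∧ w 0 = x ∧ ∀ n, ∀ z ∈ S, s + n / a ≤ G.dist (w n) z := by
  classical
  obtain ⟨r, hr1, hr⟩ := expand hna (2 * (2 * (Δ + 1)))
  obtain ⟨f, hf, hfr⟩ := (Finset.all_card_le_biUnion_card_iff_exists_injective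
    (fun q : V × Fin (2 * (2 * (Δ + 1))) => ball G q.1 r)).1 fun s => by
      have h1 := hr (s.image Prod.fst)
      rw [Finset.image_biUnion] at h1
      refine le_trans ?_ h1
      have : s ⊆ s.image Prod.fst ×ˢ Finset.univ := fun q hq =>
        Finset.mem_product.2 ⟨Finset.mem_image_of_mem _ hq, Finset.mem_univ _⟩
      simpa [mul_comm] using Finset.card_le_card this
  obtain ⟨o⟩ := (Fact.out : G.Connected).nonempty
  have : Nonempty (V × Fin (2 * (2 * (Δ + 1)))) := ⟨(o, ⟨0, by omega⟩)⟩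
  let p : V → V := fun v => (Function.invFun f v).1
  have hp : ∀ x i, p (f (x, i)) = x := fun x i =>
    congrArg Prod.fst (Function.leftInverse_invFun hf (x, i))
  refine ⟨r * (2 * r + 3), by nlinarith, fun A s => ?_⟩
  obtain ⟨t, ht⟩ := pot_thin hΔ p r A (s + r)
  refine ⟨t, fun x S hS hx => ?_⟩
  have hstep : ∀ q : V × (ℕ → Set V), ∃ q' : V × (ℕ → Set V), G.dist q.1 q'.1 ≤ r ∧
      (∀ u, q'.2 u = q.2 (u + 1) ∪ {v | G.dist q.1 v + 3 ≤ u + 1}) ∧
      (pot G p r (2 * (Δ + 1)) q.2 q.1 ≤ 1 / 2 → pot G p r (2 * (Δ + 1)) q'.2 q'.1 ≤ 1 / 2) := by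
    rintro ⟨y, B⟩
    obtain ⟨i, hi⟩ := pot_step (G := G) (c := 2 * (Δ + 1)) (by omega) hf hp
      (fun x i => mem_ball.1 (hfr (x, i))) (fun u => B u ∪ {v | G.dist y v + 3 ≤ u}) y
    refine ⟨(f (y, i), fun u => B (u + 1) ∪ {v | G.dist y v + 3 ≤ u + 1}),
      mem_ball.1 (hfr (y, i)), fun _ => rfl, fun h => hi.trans ?_⟩
    refine ENNReal.div_le_div_right (((pot_union _ _ _ _ _ _).trans
      (add_le_add h (pot_self hΔ p r y y))).trans ?_) _
    calc (1 / 2 + 1 / 4 : ℝ≥0∞) ≤ 1 / 2 + 1 / 2 := by gcongr; norm_num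
      _ = 1 := ENNReal.add_halves 1
  choose nx h1 h2 h3 using hstep
  let q : ℕ → V × (ℕ → Set V) := fun k =>
    nx^[k] (x, fun u => {v | ∃ z ∈ S, G.dist v z ≤ s + r + u})
  have hq : ∀ k, q (k + 1) = nx (q k) := fun k => Function.iterate_succ_apply' _ _ _
  have hgood : ∀ k, (q k).1 ∉ (q k).2 0 := by
    have : ∀ k, pot G p r (2 * (Δ + 1)) (q k).2 (q k).1 ≤ 1 / 2 := by
      intro k
      induction k with
      | zero => exact ht x S hS hx
      | succ k ih => rw [hq]; exact h3 _ ih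
    exact fun k => pot_lt ((this k).trans_lt (by simp))
  have hsub : ∀ j k u, (q j).2 (k + u) ⊆ (q (j + k)).2 u := by
    intro j k
    induction k with
    | zero => simp
    | succ k ih =>
      intro u
      rw [← add_assoc, hq, h2]
      exact (show (q j).2 (k + 1 + u) ⊆ _ by
        rw [add_assoc, add_comm 1 u]; exact ih _).trans Set.subset_union_left
  have hfar : ∀ k, ∀ z ∈ S, s + r + k < G.dist (q k).1 z := by
    intro k z hz
    by_contra hcon
    have := hsub 0 k 0
    rw [zero_add] at this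
    exact hgood k (this ⟨z, hz, not_lt.1 hcon⟩)
  have hself : ∀ j k, j ≤ k → k ≤ j + G.dist (q j).1 (q k).1 + 2 := by
    intro j k hjk
    rcases hjk.eq_or_lt with rfl | hjk
    · omega
    obtain ⟨m, rfl⟩ := Nat.exists_eq_add_of_lt hjk
    by_contra hcon
    have := hsub (j + 1) m 0
    rw [show j + 1 + m = j + m + 1 by omega, hq j, h2] at this
    refine hgood _ (this (Or.inr ?_))
    show _ + 3 ≤ _
    omega
  choose g g0 g1 g2 using fun k => exists_lazy (G := G) (q k).1 (q (k + 1)).1 (r := r)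
    (by rw [hq]; exact h1 _)
  have hnear : ∀ n, G.dist (q (n / r)).1 (g (n / r) (n % r)) ≤ r := fun n => by
    have e1 := dist_lazy (g2 (n / r)) (Nat.zero_le (n % r))
    have e2 := Nat.mod_lt n hr1
    rw [g0] at e1
    omega
  refine ⟨fun n => g (n / r) (n % r), ⟨fun n => ?_, fun i j hij => ?_⟩, by simp [g0, q],
    fun n z hz => ?_⟩
  · have e1 := Nat.mod_lt n hr1
    have e2 := Nat.div_add_mod n r
    rcases Nat.lt_or_ge (n % r + 1) r with h | h
    · obtain ⟨e3, e4⟩ := (Nat.div_mod_unique (a := n + 1) (b := r) (c := n % r + 1)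
        (d := n / r) hr1).2 ⟨by omega, h⟩
      simp only [e3, e4]
      exact g2 _ _
    · obtain ⟨e3, e4⟩ := (Nat.div_mod_unique (a := n + 1) (b := r) (c := 0)
        (d := n / r + 1) hr1).2 ⟨by rw [mul_add]; omega, hr1⟩
      simp only [e3, e4, g0]
      rw [← g1, show r = n % r + 1 by omega]
      simpa [show n % r + 1 = r by omega] using g2 (n / r) (n % r)
  · have e1 := hself _ _ (Nat.div_le_div_right (c := r) hij)
    have e2 := hnear i
    have e3 := hnear j
    have e4 := tri (G := G) (q (i / r)).1 (g (i / r) (i % r)) (q (j / r)).1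
    have e5 := tri (G := G) (g (i / r) (i % r)) (g (j / r) (j % r)) (q (j / r)).1
    rw [dcomm] at e3
    have e6 := Nat.div_add_mod i r
    have e7 := Nat.div_add_mod j r
    have e8 := Nat.mod_lt j hr1
    simp only
    generalize G.dist (g (i / r) (i % r)) (g (j / r) (j % r)) = d at *
    have e9 : r * (j / r) ≤ r * (i / r + d + 2 * r + 2) := Nat.mul_le_mul_left _ (by omega)
    have e10 : r * d ≤ r * (2 * r + 3) * d := by
      rw [mul_assoc]; exact Nat.mul_le_mul_left _ (Nat.le_mul_of_pos_left _ (by omega))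
    have e11 : r * (i / r + d + 2 * r + 2) + r = r * (i / r) + r * d + r * (2 * r + 3) := by ring
    rw [mul_add _ d, mul_one]
    omega
  · have e1 := hfar (n / r) z hz
    have e2 := hnear n
    have e3 := tri (G := G) (q (n / r)).1 (g (n / r) (n % r)) z
    have e4 : n / (r * (2 * r + 3)) ≤ n / r := Nat.div_le_div_left (by nlinarith) hr1
    simp only
    omega

end Pool.Agent.MP_77f003_co.H49
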