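import Pool.Agent.MP_77f003_co.H49.Harm

/-!
An infinite vertex-transitive graph stays within bounded distance of a geodesic line or contains
arbitrarily fat stars.
-/

namespace Pool.Agent.MP_77f003_co.H49

open SimpleGraph Filter

variable {V : Type} {G : SimpleGraph V} [G.LocallyFinite] [Fact G.Connected]

/-- A geodesic line. -/
def IsLine (G : SimpleGraph V) (l : ℤ → V) : Prop := ∀ i j, G.dist (l i) (l j) = (i - j).natAbs

theorem limit_line (o : V) (l : ℕ → ℤ → V) (h0 : ∀ M, l M 0 = o)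
    (h : ∀ (M : ℕ) (i j : ℤ), i.natAbs ≤ M → j.natAbs ≤ M →
      G.dist (l M i) (l M j) = (i - j).natAbs) :
    ∃ L : ℤ → V, IsLine G L ∧ ∀ i, ∀ᶠ M in hyperfilter ℕ, l M i = L i := by
  have hev : ∀ n : ℕ, ∀ᶠ M in hyperfilter ℕ, n ≤ M := fun n =>
    Nat.hyperfilter_le_atTop (eventually_ge_atTop n)
  have key : ∀ i : ℤ, ∃ y, ∀ᶠ M in hyperfilter ℕ, l M i = y := by
    intro i
    obtain ⟨y, -, hy⟩ := (Ultrafilter.eventually_exists_mem_iff (f := hyperfilter ℕ)
      (P := fun y M => l M i = y) (finite_ball (G := G) o i.natAbs)).1 (by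
        filter_upwards [hev i.natAbs] with M hM
        refine ⟨_, ?_, rfl⟩
        have := h M 0 i (by simp) hM
        rw [h0] at this
        simp [this])
    exact ⟨y, hy⟩
  choose L hL using key
  refine ⟨L, fun i j => ?_, hL⟩
  obtain ⟨M, h1, h2, h3, h4⟩ :=
    ((hL i).and ((hL j).and ((hev i.natAbs).and (hev j.natAbs)))).exists
  rw [← h1, ← h2, h M i j h3 h4]

theorem exists_line [Infinite V] (ht : VT G) (o : V) : ∃ L : ℤ → V, IsLine G L := by
  have key : ∀ M : ℕ, ∃ l : ℤ → V, l 0 = o ∧ ∀ i j : ℤ, i.natAbs ≤ M → j.natAbs ≤ M →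
      G.dist (l i) (l j) = (i - j).natAbs := by
    intro M
    obtain ⟨w, hw⟩ := exists_dist_eq (G := G) o (2 * M)
    obtain ⟨q, q0, q1, q2⟩ := exists_geo (G := G) o w
    rw [hw] at q1 q2
    have hq : ∀ a b, a ≤ b → b ≤ 2 * M → G.dist (q a) (q b) = b - a := by
      intro a b hab hb
      have e1 := dist_geo_le q2 hab hb
      have e2 := dist_geo_le q2 (Nat.zero_le a) (hab.trans hb)
      have e3 := dist_geo_le q2 hb le_rfl
      have e4 := tri (G := G) o (q a) w
      have e5 := tri (G := G) (q a) (q b) w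
      rw [q0] at e2
      rw [q1] at e3
      omega
    obtain ⟨φ, hφ⟩ := ht (q M) o
    refine ⟨fun i => φ (q (M + i).toNat), by simpa using hφ, fun i j hi hj => ?_⟩
    rw [dist_iso]
    rcases le_total i j with h | h
    · rw [hq _ _ (by omega) (by omega)]
      omega
    · rw [dcomm, hq _ _ (by omega) (by omega)]
      omega
  choose l h0 h using key
  obtain ⟨L, hL, -⟩ := limit_line o l h0 h
  exact ⟨L, hL⟩

omit [G.LocallyFinite] [Fact G.Connected] in
theorem IsLine.lk {l : ℤ → V} (h : IsLine G l) (a b : ℤ) : Lk G (Set.range l) (l a) (l b) := by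
  wlog hab : a ≤ b generalizing a b
  · exact (this b a (by omega)).symm
  have := Lk.seq (G := G) (S := Set.range l) (g := fun m : ℕ => l (a + m)) (n := (b - a).toNat)
    ⟨_, rfl⟩ fun i _ => Lk.adj (dist_eq_one_iff_adj.1 (by rw [h]; omega)) ⟨_, rfl⟩ ⟨_, rfl⟩
  simp only [Nat.cast_zero, add_zero] at this
  rwa [show a + ((b - a).toNat : ℤ) = b by omega] at this

theorem line_or_star [Infinite V] (ht : VT G) (o : V) :
    (∃ l : ℤ → V, IsLine G l ∧ ∃ R, ∀ x, ∃ i, G.dist x (l i) ≤ R) ∨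
    ∀ R, ∃ (tip : ℕ → V) (S : ℕ → ℕ → Set V), (∀ u v, Lk G (S u v) (tip u) (tip v)) ∧
      ∀ u v w, w ≠ u → w ≠ v → ∀ x ∈ S u v, R ≤ G.dist (tip w) x := by
  by_cases hA : ∀ R, ∃ M, ∀ l : ℤ → V, IsLine G l →
      ∃ y, G.dist (l 0) y ≤ M ∧ ∀ i, R < G.dist y (l i)
  · refine Or.inr fun R => ?_
    obtain ⟨M, hM⟩ := hA R
    obtain ⟨l, hl⟩ := exists_line ht o
    have key : ∀ j : ℕ, ∃ y, G.dist (l (4 * M * j)) y ≤ M ∧ ∀ i, R < G.dist y (l i) := by
      intro j
      obtain ⟨y, h1, h2⟩ := hM (fun i => l (4 * M * j + i)) fun a b => by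
        rw [hl]
        congr 1
        ring
      refine ⟨y, by simpa using h1, fun i => ?_⟩
      simpa using h2 (i - 4 * M * j)
    choose tip h1 h2 using key
    have hfar : ∀ u w : ℕ, w ≠ u → ∀ x, G.dist (l (4 * M * u)) x ≤ M → R ≤ G.dist (tip w) x := by
      intro u w hwu x hx
      have e1 := h1 w
      have e2 := h2 w (4 * M * w)
      have e3 := hl (4 * M * w) (4 * M * u)
      have e4 := tri (G := G) (l (4 * M * w)) (tip w) (l (4 * M * u))
      have e5 := tri (G := G) (tip w) x (l (4 * M * u))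
      rw [dcomm] at e2 hx
      rw [← mul_sub, Int.natAbs_mul] at e3
      have e6 : 4 * M * 1 ≤ (4 * M : ℤ).natAbs * ((w : ℤ) - u).natAbs :=
        Nat.mul_le_mul (by omega) (by omega)
      omega
    have hlk : ∀ u : ℕ, Lk G {x | G.dist (l (4 * M * u)) x ≤ M} (l (4 * M * u)) (tip u) :=
      fun u => Lk.geo fun z hz => by
        have := h1 u
        show G.dist _ z ≤ M
        omega
    refine ⟨tip, fun u v => {x | G.dist (l (4 * M * u)) x ≤ M} ∪ Set.range l ∪
      {x | G.dist (l (4 * M * v)) x ≤ M}, fun u v => ?_, ?_⟩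
    · exact (((hlk u).symm.mono fun _ h => Or.inl (Or.inl h)).trans
        ((hl.lk _ _).mono fun _ h => Or.inl (Or.inr h))).trans ((hlk v).mono fun _ h => Or.inr h)
    · rintro u v w hu hv x ((hx | ⟨i, rfl⟩) | hx)
      · exact hfar u w hu x hx
      · exact (h2 w i).le
      · exact hfar v w hv x hx
  · push Not at hA
    obtain ⟨R, hR⟩ := hA
    have key : ∀ M : ℕ, ∃ l : ℤ → V, l 0 = o ∧ IsLine G l ∧
        ∀ y, G.dist o y ≤ M → ∃ i, G.dist y (l i) ≤ R := by
      intro M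
      obtain ⟨l, hl, h⟩ := hR M
      obtain ⟨φ, hφ⟩ := ht (l 0) o
      refine ⟨fun i => φ (l i), hφ, fun i j => by rw [dist_iso, hl], fun y hy => ?_⟩
      obtain ⟨y, rfl⟩ := φ.surjective y
      rw [← hφ, dist_iso] at hy
      simpa only [dist_iso] using h y hy
    choose l h0 h1 h2 using key
    obtain ⟨L, hL, hL'⟩ := limit_line o l h0 fun M i j _ _ => h1 M i j
    refine Or.inl ⟨L, hL, R, fun y => ?_⟩
    obtain ⟨i, -, hi⟩ := (Ultrafilter.eventually_exists_mem_iff (f := hyperfilter ℕ)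
      (P := fun i M => G.dist y (l M i) ≤ R)
      (Set.finite_Icc (-(G.dist o y + R : ℕ) : ℤ) (G.dist o y + R : ℕ))).1 (by
        filter_upwards [Nat.hyperfilter_le_atTop (eventually_ge_atTop (G.dist o y))] with M hM
        obtain ⟨i, hi⟩ := h2 M y hM
        refine ⟨i, ?_, hi⟩
        have e1 := h1 M 0 i
        have e2 := tri (G := G) o y (l M i)
        rw [h0] at e1
        constructor <;> omega)
    obtain ⟨M, e1, e2⟩ := (hi.and (hL' i)).exists
    exact ⟨i, e2 ▸ e1⟩

end Pool.Agent.MP_77f003_co.H49
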