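import Pool.Agent.MP_77f003_co.H49.Rep
import Pool.Agent.MP_77f003_co.H49.Line

/-!
Graphs that fibre over `ℤ`: the fibre is coarsely connected under polynomial growth, and a fibre
with fat stars gives all fat cliques.
-/

namespace Pool.Agent.MP_77f003_co.H49

open SimpleGraph Filter Topology

variable {V : Type} {G : SimpleGraph V} {Γ : Type} [Group Γ] [MulAction Γ V]

/-- A cobounded action together with a homomorphism onto `ℤ` that kills the stabiliser of `o`. -/
structure Fib (G : SimpleGraph V) (o : V) (χ : Γ → ℤ) (t : Γ) (c : ℕ) : Prop where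
  acts : Acts Γ G
  cob : ∀ x, ∃ γ : Γ, G.dist x (γ • o) ≤ c
  add : ∀ g h, χ (g * h) = χ g + χ h
  one : χ t = 1
  stab : ∀ g, g • o = o → χ g = 0

/-- The displacement of the base point. -/
noncomputable def len (G : SimpleGraph V) (o : V) (g : Γ) : ℕ := G.dist o (g • o)

variable [Fact G.Connected] {o : V} {χ : Γ → ℤ} {t : Γ} {c : ℕ}

theorem Acts.dist_eq_len (h : Acts Γ G) (o : V) (g g' : Γ) :
    G.dist (g • o) (g' • o) = len G o (g⁻¹ * g') := by
  rw [len, ← h.dist g o, smul_smul, mul_inv_cancel_left]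

theorem Acts.len_mul (h : Acts Γ G) (o : V) (g g' : Γ) :
    len G o (g * g') ≤ len G o g + len G o g' := by
  have := tri (G := G) o (g • o) (g • g' • o)
  rwa [h.dist, smul_smul] at this

theorem Acts.len_inv (h : Acts Γ G) (o : V) (g : Γ) : len G o g⁻¹ = len G o g := by
  rw [len, ← h.dist g, smul_inv_smul, dcomm, len]

theorem Acts.len_pow (h : Acts Γ G) (o : V) (g : Γ) (n : ℕ) : len G o (g ^ n) ≤ n * len G o g := by
  induction n with
  | zero => simp [len]
  | succ n ih =>
    have := h.len_mul o (g ^ n) g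
    rw [pow_succ, add_mul]
    omega

theorem Acts.len_zpow (h : Acts Γ G) (o : V) (g : Γ) (n : ℤ) :
    len G o (g ^ n) ≤ n.natAbs * len G o g := by
  rcases Int.natAbs_eq n with e | e
  · rw [e, zpow_natCast]
    exact h.len_pow o g _
  · rw [e, zpow_neg, zpow_natCast, h.len_inv, Int.natAbs_neg]
    exact h.len_pow o g _

omit [Fact G.Connected] in
theorem Fib.chi_one (H : Fib G o χ t c) : χ 1 = 0 := H.stab 1 (one_smul _ _)

omit [Fact G.Connected] in
theorem Fib.chi_inv (H : Fib G o χ t c) (g : Γ) : χ g⁻¹ = -χ g := by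
  have := H.add g g⁻¹
  rw [mul_inv_cancel, H.chi_one] at this
  omega

omit [Fact G.Connected] in
theorem Fib.chi_zpow (H : Fib G o χ t c) (g : Γ) (n : ℤ) : χ (g ^ n) = n * χ g := by
  induction n using Int.induction_on with
  | zero => simp [H.chi_one]
  | succ n ih => rw [zpow_add_one, H.add, ih]; ring
  | pred n ih => rw [zpow_sub_one, H.add, ih, H.chi_inv]; ring

omit [Fact G.Connected] in
theorem Fib.chi_pow (H : Fib G o χ t c) (g : Γ) (n : ℕ) : χ (g ^ n) = n * χ g := by
  rw [← zpow_natCast, H.chi_zpow]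

theorem Fib.gen_ind (H : Fib G o χ t c) {P : ℕ → Γ → Prop} (h0 : P 0 1)
    (hs : ∀ k g s, len G o s ≤ 2 * c + 1 → P k g → P (k + 1) (g * s)) (γ : Γ) :
    P (len G o γ + 1) γ := by
  have key : ∀ k x (γ : Γ), G.dist x o = k → G.dist x (γ • o) ≤ c → P (k + 1) γ := by
    intro k
    induction k with
    | zero =>
      intro x γ hx hγ
      obtain rfl := eq_of_dist hx
      simpa using hs 0 1 γ (by unfold len; omega) h0
    | succ k ih =>
      intro x γ hx hγ
      obtain ⟨z, hz, hz'⟩ := exists_step hx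
      obtain ⟨γ', hγ'⟩ := H.cob z
      have := hs _ γ' (γ'⁻¹ * γ) (by
        rw [← H.acts.dist_eq_len]
        have e1 := tri (G := G) (γ' • o) z (γ • o)
        have e2 := tri (G := G) z x (γ • o)
        rw [dist_adj hz.symm] at e2
        rw [dcomm] at hγ'
        omega) (ih z γ' hz' hγ')
      simpa using this
  exact key _ (γ • o) γ (dcomm _ _) (by simp)

variable [G.LocallyFinite]

theorem bdd_on_ball (o : V) {p : Γ → Prop} (f : Γ → ℕ)
    (hf : ∀ g h, p g → p h → g • o = h • o → f g = f h) (r : ℕ) :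
    ∃ C, ∀ g, p g → len G o g ≤ r → f g ≤ C := by
  classical
  refine ⟨(ball G o r).sup fun x => if h : ∃ g, p g ∧ g • o = x then f h.choose else 0,
    fun g hg hr => le_trans (le_of_eq ?_) (Finset.le_sup (mem_ball.2 hr))⟩
  have h : ∃ g', p g' ∧ g' • o = g • o := ⟨g, hg, rfl⟩
  simp only [h, dif_pos]
  exact hf _ _ hg h.choose_spec.1 h.choose_spec.2.symm

theorem Fib.chi_bdd (H : Fib G o χ t c) (r : ℕ) : ∃ C, ∀ g, len G o g ≤ r → (χ g).natAbs ≤ C := by
  obtain ⟨C, hC⟩ := bdd_on_ball (G := G) o (p := fun _ => True) (fun g => (χ g).natAbs)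
    (fun g h _ _ e => by
      have := H.stab (g⁻¹ * h) (by rw [mul_smul, ← e, inv_smul_smul])
      rw [H.add, H.chi_inv] at this
      congr 1
      omega) r
  exact ⟨C, fun g => hC g trivial⟩

theorem Fib.chi_lip (H : Fib G o χ t c) :
    ∃ Λ, ∀ g h : Γ, (χ g - χ h).natAbs ≤ Λ * (G.dist (g • o) (h • o) + 1) := by
  obtain ⟨Λ, hΛ⟩ := H.chi_bdd (2 * c + 1)
  refine ⟨Λ, fun g h => ?_⟩
  have := H.gen_ind (P := fun k g => (χ g).natAbs ≤ Λ * k) (by simp [H.chi_one])
    (fun k g s hs hg => by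
      have := hΛ s hs
      rw [H.add, mul_add]
      omega) (g⁻¹ * h)
  rw [H.add, H.chi_inv, ← H.acts.dist_eq_len] at this
  omega

theorem exists_pow_lt (C d : ℕ) : ∃ m, 1 ≤ m ∧ C * m ^ d < 2 ^ m := by
  have h := (tendsto_pow_const_div_const_pow_of_one_lt d (r := 2) (by norm_num)).const_mul (C : ℝ)
  rw [mul_zero] at h
  obtain ⟨m, h1, h2⟩ := ((eventually_ge_atTop 1).and (h.eventually (gt_mem_nhds one_pos))).exists
  refine ⟨m, h1, ?_⟩
  rw [← mul_div_assoc, div_lt_one (by positivity)] at h2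
  exact_mod_cast h2

/-- The words used in Milnor's lemma. -/
def word (s T : Γ) : List Bool → Γ
  | [] => 1
  | b :: l => (if b then s else 1) * T * word s T l

theorem Fib.milnor_half (H : Fib G o χ t c) {C d : ℕ}
    (hC : ∀ r, (ball G o r).card ≤ C * (r + 1) ^ d) (T : Γ) (c' : ℕ) :
    ∃ D, ∀ (j : ℕ) (s : Γ), χ s = 0 → len G o s ≤ c' →
      (T ^ j)⁻¹ * s * T ^ j ∈ Subgroup.closure {g | χ g = 0 ∧ len G o g ≤ D} := by
  classical
  set cl : ℕ → ℕ → Subgroup Γ := fun a b => Subgroup.closure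
    {g | ∃ k, a ≤ k ∧ k ≤ b ∧ ∃ s, χ s = 0 ∧ len G o s ≤ c' ∧ g = T ^ k * s * (T ^ k)⁻¹} with hcl
  have mono : ∀ a b a' b', a' ≤ a → b ≤ b' → cl a b ≤ cl a' b' := fun a b a' b' h1 h2 =>
    Subgroup.closure_mono fun g ⟨k, e1, e2, e3⟩ => ⟨k, by omega, by omega, e3⟩
  have base : ∀ b s, χ s = 0 → len G o s ≤ c' → s ∈ cl 0 b := fun b s h1 h2 =>
    Subgroup.subset_closure ⟨0, le_rfl, by omega, s, h1, h2, by simp⟩
  have conj : ∀ a b, ∀ g ∈ cl a b, T * g * T⁻¹ ∈ cl (a + 1) (b + 1) := by
    intro a b g hg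
    have : cl a b ≤ (cl (a + 1) (b + 1)).comap (MulAut.conj T).toMonoidHom := by
      rw [hcl, Subgroup.closure_le]
      rintro _ ⟨k, e1, e2, s, e3, e4, rfl⟩
      refine Subgroup.subset_closure ⟨k + 1, by omega, by omega, s, e3, e4, ?_⟩
      simp only [MulEquiv.toMonoidHom_eq_coe, MonoidHom.coe_coe, MulAut.conj_apply, pow_succ']
      group
    exact this hg
  obtain ⟨m, hm1, hm⟩ := exists_pow_lt (C * (c' + len G o T + 1) ^ d) d
  have key : ∀ s, χ s = 0 → len G o s ≤ c' → s ∈ cl 1 m := by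
    intro s hs hs'
    have hb : ∀ (b : Bool) n, (if b then s else 1) ∈ cl 0 n := fun b n => by
      cases b
      · exact Subgroup.one_mem _
      · exact base n s hs hs'
    have hlen : ∀ l, len G o (word s T l) ≤ l.length * (c' + len G o T) := by
      intro l
      induction l with
      | nil => simp [word, len]
      | cons b l ih =>
        have e1 := H.acts.len_mul o ((if b then s else 1) * T) (word s T l)
        have e2 := H.acts.len_mul o (if b then s else 1) T
        have e3 : len G o (if b then s else 1) ≤ c' := by cases b <;> simp [len] at hs' ⊢; exact hs'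
        rw [word, List.length_cons, add_mul]
        omega
    have hA : ∀ l l' : List Bool, l.length = l'.length → ∀ σ : Γ, σ • o = o →
        word s T l' * σ * (word s T l)⁻¹ ∈ cl 0 l.length := by
      intro l
      induction l with
      | nil =>
        intro l' hl σ hσ
        obtain rfl := List.length_eq_zero_iff.1 hl.symm
        simpa [word] using base 0 σ (H.stab σ hσ) (by simp [len, hσ])
      | cons b l ih =>
        intro l' hl σ hσ
        obtain _ | ⟨b', l'⟩ := l'
        · simp at hl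
        have e1 := mono _ _ 0 _ (by omega) le_rfl (conj _ _ _ (ih l' (by simpa using hl) σ hσ))
        have e2 := Subgroup.mul_mem _ (Subgroup.mul_mem _ (hb b' _) e1) (Subgroup.inv_mem _ (hb b _))
        have e3 : word s T (b' :: l') * σ * (word s T (b :: l))⁻¹ = (if b' then s else 1) *
            (T * (word s T l' * σ * (word s T l)⁻¹) * T⁻¹) * (if b then s else 1)⁻¹ := by
          simp only [word]
          group
        rw [e3]
        exact e2
    have hB' : ∀ l l' : List Bool, l.length = l'.length →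
        word s T (true :: l) • o = word s T (false :: l') • o → s ∈ cl 1 (l.length + 1) := by
      intro l l' hl h
      have e1 := conj _ _ _ (hA l l' hl ((word s T (false :: l'))⁻¹ * word s T (true :: l))
        (by rw [mul_smul, h, inv_smul_smul]))
      convert e1 using 1
      simp only [word, if_true, Bool.false_eq_true, if_false]
      group
    have hB : ∀ l l' : List Bool, l.length = l'.length → l ≠ l' →
        word s T l • o = word s T l' • o → s ∈ cl 1 l.length := by
      intro l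
      induction l with
      | nil => exact fun l' hl hne => absurd (List.length_eq_zero_iff.1 hl.symm).symm hne
      | cons b l ih =>
        intro l' hl hne h
        obtain _ | ⟨b', l'⟩ := l'
        · simp at hl
        have hl' : l.length = l'.length := by simpa using hl
        by_cases hbb : b = b'
        · subst hbb
          refine mono _ _ _ _ le_rfl (by simp) (ih l' hl' (by simpa using hne) ?_)
          simpa only [word, mul_smul, smul_left_cancel_iff] using h
        · cases b <;> cases b'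
          · exact absurd rfl hbb
          · rw [List.length_cons, hl']
            exact hB' l' l hl'.symm h.symm
          · exact hB' l l' hl' h
          · exact absurd rfl hbb
    obtain ⟨f, -, f', -, hne, he⟩ := Finset.exists_ne_map_eq_of_card_lt_of_maps_to
      (s := (Finset.univ : Finset (Fin m → Bool))) (t := ball G o (m * (c' + len G o T)))
      (f := fun f => word s T (List.ofFn f) • o) (by
        refine lt_of_le_of_lt ((hC _).trans ?_) (by simpa using hm)
        rw [mul_assoc, ← mul_pow]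
        gcongr
        nlinarith) fun f _ => mem_ball.2 (by
          have := hlen (List.ofFn f)
          rw [List.length_ofFn] at this
          exact this)
    simpa using hB _ _ (by simp) (fun h => hne (List.ofFn_injective h)) he
  have back : ∀ g ∈ cl 1 m, T⁻¹ * g * T ∈ cl 1 m := by
    intro g hg
    have : cl 1 m ≤ (cl 1 m).comap (MulAut.conj T⁻¹).toMonoidHom := by
      rw [hcl, Subgroup.closure_le]
      rintro _ ⟨k, e1, e2, s, e3, e4, rfl⟩
      obtain ⟨k, rfl⟩ : ∃ k', k = k' + 1 := ⟨k - 1, by omega⟩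
      have e5 : T ^ k * s * (T ^ k)⁻¹ ∈ cl 1 m := by
        rcases Nat.eq_zero_or_pos k with rfl | hk
        · simpa using key s e3 e4
        · exact Subgroup.subset_closure ⟨k, hk, by omega, s, e3, e4, rfl⟩
      show MulAut.conj T⁻¹ _ ∈ cl 1 m
      convert e5 using 1
      simp only [MulAut.conj_apply, pow_succ']
      group
    simpa using this hg
  refine ⟨c' + 2 * (m * len G o T), fun j s hs hs' => ?_⟩
  have e1 : (T ^ j)⁻¹ * s * T ^ j ∈ cl 1 m := by
    induction j with
    | zero => simpa using key s hs hs'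
    | succ j ih =>
      convert back _ ih using 1
      rw [pow_succ]
      group
  refine Subgroup.closure_mono ?_ e1
  rintro _ ⟨k, -, e2, s, e3, e4, rfl⟩
  refine ⟨by rw [H.add, H.add, H.chi_inv, e3]; ring, ?_⟩
  have f1 := H.acts.len_mul o (T ^ k * s) (T ^ k)⁻¹
  have f2 := H.acts.len_mul o (T ^ k) s
  have f3 := (H.acts.len_pow o T k).trans (Nat.mul_le_mul_right _ e2)
  rw [H.acts.len_inv] at f1
  omega

theorem Fib.milnor (H : Fib G o χ t c) {C d : ℕ}
    (hC : ∀ r, (ball G o r).card ≤ C * (r + 1) ^ d) :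
    ∃ D, ∀ n, χ n = 0 → n ∈ Subgroup.closure {g | χ g = 0 ∧ len G o g ≤ D} := by
  obtain ⟨Λ, hΛ⟩ := H.chi_bdd (2 * c + 1)
  obtain ⟨D₁, h₁⟩ := H.milnor_half hC t (2 * c + 1 + Λ * len G o t)
  obtain ⟨D₂, h₂⟩ := H.milnor_half hC t⁻¹ (2 * c + 1 + Λ * len G o t)
  refine ⟨max D₁ D₂, fun n hn => ?_⟩
  have key : ∀ (k : ℤ) (s : Γ), χ s = 0 → len G o s ≤ 2 * c + 1 + Λ * len G o t →
      t ^ k * s * (t ^ k)⁻¹ ∈ Subgroup.closure {g | χ g = 0 ∧ len G o g ≤ max D₁ D₂} := by
    intro k s hs hs'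
    rcases Int.natAbs_eq k with e | e
    · have := h₂ k.natAbs s hs hs'
      rw [inv_pow, inv_inv, ← zpow_natCast, ← e] at this
      refine Subgroup.closure_mono ?_ this
      exact fun g hg => ⟨hg.1, hg.2.trans (le_max_right _ _)⟩
    · have := h₁ k.natAbs s hs hs'
      rw [e, zpow_neg, zpow_natCast, inv_inv]
      refine Subgroup.closure_mono ?_ this
      exact fun g hg => ⟨hg.1, hg.2.trans (le_max_left _ _)⟩
  have := H.gen_ind (P := fun _ g => g * (t ^ χ g)⁻¹ ∈
      Subgroup.closure {g | χ g = 0 ∧ len G o g ≤ max D₁ D₂}) (by simp [H.chi_one])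
    (fun _ g s hs hg => by
      have e1 := key (χ g) (s * (t ^ χ s)⁻¹) (by rw [H.add, H.chi_inv, H.chi_zpow, H.one]; ring) (by
        have f1 := H.acts.len_mul o s (t ^ χ s)⁻¹
        have f2 := (H.acts.len_zpow o t (χ s)).trans (Nat.mul_le_mul_right _ (hΛ s hs))
        rw [H.acts.len_inv] at f1
        omega)
      convert Subgroup.mul_mem _ hg e1 using 1
      rw [H.add]
      group) n
  simpa [hn] using this

/-- The kernel. -/
def Fib.N (H : Fib G o χ t c) : Subgroup Γ where
  carrier := {g | χ g = 0}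
  mul_mem' := fun {a b} (ha : χ a = 0) (hb : χ b = 0) => show χ (a * b) = 0 by rw [H.add, ha, hb]; rfl
  one_mem' := H.chi_one
  inv_mem' := fun {a} (ha : χ a = 0) => show χ a⁻¹ = 0 by rw [H.chi_inv, ha]; rfl

/-- The graph on the fibre. -/
def Fib.LG (H : Fib G o χ t c) (D : ℕ) : SimpleGraph (MulAction.orbit H.N o) where
  Adj x y := x ≠ y ∧ G.dist x y ≤ D
  symm := ⟨fun x y h => ⟨h.1.symm, by rw [dcomm]; exact h.2⟩⟩
  loopless := ⟨fun x h => h.1 rfl⟩

noncomputable instance Fib.LG_lf (H : Fib G o χ t c) (D : ℕ) : (H.LG D).LocallyFinite := fun x =>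
  (((finite_ball (G := G) x D).preimage Subtype.val_injective.injOn).subset
    fun _ hy => hy.2).fintype

/-- The base point of the fibre. -/
def Fib.base (H : Fib G o χ t c) : MulAction.orbit H.N o := ⟨o, MulAction.mem_orbit_self o⟩

theorem Fib.LG_acts (H : Fib G o χ t c) (D : ℕ) : Acts H.N (H.LG D) := fun n x y h =>
  ⟨fun e => h.1 (MulAction.injective n e), (H.acts.dist (n : Γ) x y).trans_le h.2⟩

theorem Fib.LG_conn (H : Fib G o χ t c) {D : ℕ}
    (hD : ∀ n, χ n = 0 → n ∈ Subgroup.closure {g | χ g = 0 ∧ len G o g ≤ D}) :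
    (H.LG D).Connected := by
  have key : ∀ g ∈ Subgroup.closure {g | χ g = 0 ∧ len G o g ≤ D},
      ∃ hg : g ∈ H.N, (H.LG D).Reachable H.base ((⟨g, hg⟩ : H.N) • H.base) := by
    intro g hg
    induction hg using Subgroup.closure_induction with
    | mem x hx =>
      refine ⟨hx.1, ?_⟩
      by_cases h : H.base = (⟨x, hx.1⟩ : H.N) • H.base
      · rw [← h]
      · exact Adj.reachable ⟨h, hx.2⟩
    | one => exact ⟨H.N.one_mem, by rw [show (⟨1, _⟩ : H.N) = 1 from rfl, one_smul]⟩
    | mul x y _ _ hx hy =>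
      obtain ⟨hx, hx'⟩ := hx
      obtain ⟨hy, hy'⟩ := hy
      refine ⟨H.N.mul_mem hx hy, hx'.trans ?_⟩
      rw [show (⟨x * y, _⟩ : H.N) = ⟨x, hx⟩ * ⟨y, hy⟩ from rfl, mul_smul]
      exact hy'.map ((H.LG_acts D).iso ⟨x, hx⟩).toHom
    | inv x _ hx =>
      obtain ⟨hx, hx'⟩ := hx
      refine ⟨H.N.inv_mem hx, ?_⟩
      have : (H.LG D).Reachable ((⟨x, hx⟩ : H.N)⁻¹ • H.base)
          ((⟨x, hx⟩ : H.N)⁻¹ • (⟨x, hx⟩ : H.N) • H.base) :=
        hx'.map ((H.LG_acts D).iso (⟨x, hx⟩ : H.N)⁻¹).toHom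
      rw [inv_smul_smul] at this
      exact this.symm
  have key2 : ∀ x, (H.LG D).Reachable H.base x := by
    intro x
    obtain ⟨n, rfl⟩ := MulAction.exists_smul_eq H.N H.base x
    exact (key n (hD n n.2)).2
  have : Nonempty (MulAction.orbit H.N o) := ⟨H.base⟩
  exact ⟨fun x y => (key2 x).symm.trans (key2 y)⟩

theorem Fib.LG_vt (H : Fib G o χ t c) (D : ℕ) : VT (H.LG D) := fun x y => by
  obtain ⟨n, hn⟩ := MulAction.exists_smul_eq H.N x y
  exact ⟨(H.LG_acts D).iso n, hn⟩

theorem Fib.dist_le (H : Fib G o χ t c) {D : ℕ} [Fact (H.LG D).Connected]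
    (x y : MulAction.orbit H.N o) : G.dist x y ≤ D * (H.LG D).dist x y := by
  obtain ⟨q, q0, q1, q2⟩ := exists_geo (G := H.LG D) x y
  have := dist_seq_le (G := G) (g := fun i => (q i : V)) (fun i hi => (q2 i hi).2) 0
    ((H.LG D).dist x y) (by omega)
  simpa [q0, q1] using this

theorem Fib.proper (H : Fib G o χ t c) {D : ℕ} [Fact (H.LG D).Connected] (r : ℕ) :
    ∃ C, ∀ x y : MulAction.orbit H.N o, G.dist x y ≤ r → (H.LG D).dist x y ≤ C := by
  have hf : {y : MulAction.orbit H.N o | G.dist o y ≤ r}.Finite :=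
    (finite_ball (G := G) o r).preimage Subtype.val_injective.injOn
  obtain ⟨C, hC⟩ := (hf.image fun y => (H.LG D).dist H.base y).bddAbove
  refine ⟨C, fun x y hxy => ?_⟩
  obtain ⟨n, rfl⟩ := MulAction.exists_smul_eq H.N H.base x
  obtain ⟨y, rfl⟩ := MulAction.surjective n y
  rw [(H.LG_acts D).dist]
  exact hC ⟨y, (H.acts.dist (n : Γ) o y).symm.trans_le hxy, rfl⟩

theorem Fib.fatCl (H : Fib G o χ t c) {D : ℕ} [Fact (H.LG D).Connected]
    (hstar : ∀ R, ∃ (tip : ℕ → MulAction.orbit H.N o) (S : ℕ → ℕ → Set (MulAction.orbit H.N o)),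
      (∀ u v, Lk (H.LG D) (S u v) (tip u) (tip v)) ∧
      ∀ u v w, w ≠ u → w ≠ v → ∀ x ∈ S u v, R ≤ (H.LG D).dist (tip w) x) (K h : ℕ) :
    FatCl G K h := by
  obtain ⟨Λ, hΛ⟩ := H.chi_lip
  set σ := Λ * (K + 2 * D + 1) + 1 with hσ
  set τ := len G o t with hτ
  set T := σ * (h * h) * τ with hT
  obtain ⟨D', hD'⟩ := H.proper (D := D) (D + 2 * T)
  set W := T + D * D' + D with hW
  obtain ⟨R, hR⟩ := H.proper (D := D) (K + 2 * (W + τ))
  obtain ⟨tip, S, hS1, hS2⟩ := hstar (R + 1)
  have hn : ∀ x : MulAction.orbit H.N o, ∃ n : Γ, χ n = 0 ∧ n • o = x := fun x => by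
    obtain ⟨n, hn⟩ := x.2
    exact ⟨n, n.2, hn⟩
  choose n hn0 hn using hn
  have hP : ∀ (x : MulAction.orbit H.N o) (z : ℕ), z ≤ σ * (h * h) →
      G.dist x ((n x * t ^ z) • o) ≤ T := by
    intro x z hz
    rw [← hn x, mul_smul, H.acts.dist]
    exact (H.acts.len_pow o t z).trans (Nat.mul_le_mul_right _ hz)
  have hfar : ∀ (x y : MulAction.orbit H.N o) (a b : V), R + 1 ≤ (H.LG D).dist x y →
      G.dist x a ≤ W + τ → G.dist y b ≤ W + τ → K ≤ G.dist a b := by
    intro x y a b h1 h2 h3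
    by_contra hcon
    have e1 := tri (G := G) x a y
    have e2 := tri (G := G) a b y
    rw [dcomm] at h3
    have := hR x y (by omega)
    omega
  set E : ℕ → Set (MulAction.orbit H.N o) → Set V := fun z S =>
    {y | (∃ g : Γ, χ g = z ∧ G.dist (g • o) y ≤ D) ∧ ∃ x ∈ S, G.dist x y ≤ W} with hE
  have hχP : ∀ x (z : ℕ), χ (n x * t ^ z) = z := fun x z => by
    rw [H.add, hn0, H.chi_pow, H.one]; ring
  have hlink : ∀ z, z ≤ σ * (h * h) → ∀ (S : Set (MulAction.orbit H.N o)) x y,
      Lk (H.LG D) S x y → Lk G (E z S) ((n x * t ^ z) • o) ((n y * t ^ z) • o) := by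
    rintro z hz S x y ⟨p, hp⟩
    induction p with
    | nil =>
      exact Lk.refl ⟨⟨_, hχP _ z, by rw [SimpleGraph.dist_self]; exact Nat.zero_le _⟩, _,
        hp _ (by simp), (hP _ z hz).trans (by omega)⟩
    | @cons x x' y hxx p ih =>
      refine Lk.trans ?_ (ih fun w hw => hp w (by simp [hw]))
      have hx : x ∈ S := hp _ (by simp)
      have hm : ∀ w, (t ^ z)⁻¹ * (n w * t ^ z) ∈ H.N := fun w =>
        show χ _ = 0 by rw [H.add, H.chi_inv, hχP, H.chi_pow, H.one]; ring
      have hc : ∀ w, (t ^ z) • (((⟨_, hm w⟩ : H.N) • H.base : MulAction.orbit H.N o) : V) =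
          (n w * t ^ z) • o := fun w => by
        show (t ^ z) • ((t ^ z)⁻¹ * (n w * t ^ z)) • o = _
        rw [smul_smul, mul_inv_cancel_left]
      have e1 := hD' ((⟨_, hm x⟩ : H.N) • H.base) ((⟨_, hm x'⟩ : H.N) • H.base) (by
        rw [← H.acts.dist (t ^ z), hc, hc]
        have f1 := hP x z hz
        have f2 := hP x' z hz
        have f3 := hxx.2
        have f4 := tri (G := G) ((n x * t ^ z) • o) x ((n x' * t ^ z) • o)
        have f5 := tri (G := G) x x' ((n x' * t ^ z) • o)
        rw [dcomm] at f1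
        omega)
      obtain ⟨q, q0, q1, q2⟩ := exists_geo (G := H.LG D) ((⟨_, hm x⟩ : H.N) • H.base)
        ((⟨_, hm x'⟩ : H.N) • H.base)
      have hq : ∀ i, i ≤ (H.LG D).dist ((⟨_, hm x⟩ : H.N) • H.base) ((⟨_, hm x'⟩ : H.N) • H.base) →
          ∀ w, G.dist ((t ^ z) • (q i : V)) w ≤ D → w ∈ E z S := by
        intro i hi w hw
        refine ⟨⟨t ^ z * n (q i), by rw [H.add, hn0, H.chi_pow, H.one]; ring,
          by rwa [mul_smul, hn]⟩, x, hx, ?_⟩
        have f1 := hP x z hz
        have f2 := (H.dist_le (D := D) (q 0) (q i)).trans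
          (Nat.mul_le_mul_left D ((dist_geo_le q2 (Nat.zero_le i) hi).trans
            (show i - 0 ≤ D' by omega)))
        rw [← H.acts.dist (t ^ z), q0, hc] at f2
        have f4 := tri (G := G) x ((n x * t ^ z) • o) w
        have f5 := tri (G := G) ((n x * t ^ z) • o) ((t ^ z) • (q i : V)) w
        omega
      have := Lk.seq (G := G) (g := fun i => (t ^ z) • (q i : V)) (hq 0 (Nat.zero_le _) _ (by simp))
        fun i hi => Lk.geo fun w hw => hq i hi.le w (by
          rw [H.acts.dist] at hw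
          have := (q2 i hi).2
          omega)
      simpa only [q0, q1, hc] using this
  set B : ℕ → Set V := fun v =>
    {y | ∃ z, z ≤ σ * (h * h) ∧ G.dist ((n (tip v) * t ^ z) • o) y ≤ τ} with hB
  have hBt : ∀ v, ∀ y ∈ B v, G.dist (tip v) y ≤ W + τ := by
    rintro v y ⟨z, hz, hy⟩
    have f1 := hP (tip v) z hz
    have f2 := tri (G := G) (tip v) ((n (tip v) * t ^ z) • o) y
    omega
  have hz : ∀ i ∈ Finset.range h, ∀ j ∈ Finset.range h, σ * (i * h + j) ≤ σ * (h * h) := by
    intro i hi j hj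
    rw [Finset.mem_range] at hi hj
    exact Nat.mul_le_mul_left _ (by nlinarith)
  refine ⟨Finset.range h, B, fun i j => E (σ * (i * h + j)) (S i j), by simp, fun v _ => ?_,
    fun i hi j hj _ => ⟨_, ⟨_, hz i hi j hj, by simp⟩, _, ⟨_, hz i hi j hj, by simp⟩,
      hlink _ (hz i hi j hj) _ _ _ (hS1 i j)⟩,
    fun i _ j _ hij x hx y hy => hfar _ _ _ _ (hS2 j j i hij hij _ (hS1 j j).left) (hBt i x hx)
      (hBt j y hy), ?_, ?_⟩
  · refine ⟨⟨(n (tip v) * t ^ 0) • o, 0, Nat.zero_le _, by simp⟩, ?_⟩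
    have key : ∀ y ∈ B v, Lk G (B v) ((n (tip v) * t ^ 0) • o) y := by
      rintro y ⟨z, hz, hy⟩
      refine (Lk.seq (S := B v) (g := fun i => (n (tip v) * t ^ i) • o) (n := z)
        ⟨0, Nat.zero_le _, by simp⟩ fun i hi => Lk.geo fun w hw => ⟨i, by omega, ?_⟩).trans
        (Lk.geo fun w hw => ⟨z, hz, by omega⟩)
      have : G.dist ((n (tip v) * t ^ i) • o) ((n (tip v) * t ^ (i + 1)) • o) = τ := by
        rw [H.acts.dist_eq_len, hτ, pow_succ]
        congr 1
        group
      omega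
    exact fun x hx y hy => (key x hx).symm.trans (key y hy)
  · rintro i hi j hj k hk l hl - - hne x ⟨⟨g, hg, hx⟩, -⟩ y ⟨⟨g', hg', hy⟩, -⟩
    rw [Finset.mem_range] at hi hj hk hl
    have e1 : i * h + j ≠ k * h + l := by
      intro e
      have f1 : (i * h + j) % h = (k * h + l) % h := by rw [e]
      rw [Nat.mul_add_mod_self_right, Nat.mul_add_mod_self_right, Nat.mod_eq_of_lt hj,
        Nat.mod_eq_of_lt hl] at f1
      subst f1
      have f2 : i = k := Nat.eq_of_mul_eq_mul_right (by omega : 0 < h) (by omega)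
      tauto
    have e2 := hΛ g g'
    rw [hg, hg', Nat.cast_mul σ, Nat.cast_mul σ, ← mul_sub, Int.natAbs_mul,
      Int.natAbs_natCast] at e2
    have e3 : σ * 1 ≤ σ * (((i * h + j : ℕ) : ℤ) - ((k * h + l : ℕ) : ℤ)).natAbs :=
      Nat.mul_le_mul_left _ (by omega)
    by_contra hcon
    have e4 := tri (G := G) (g • o) x (g' • o)
    have e5 := tri (G := G) x y (g' • o)
    rw [dcomm] at hy
    have e6 : Λ * (G.dist (g • o) (g' • o) + 1) ≤ Λ * (K + 2 * D + 1) :=
      Nat.mul_le_mul_left _ (by omega)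
    omega
  · rintro i _ j _ k _ - hki hkj x ⟨-, x', hx', hx⟩ y hy
    rw [dcomm]
    exact hfar _ _ _ _ (hS2 i j k hki hkj x' hx') (hBt k y hy) (by omega)

end Pool.Agent.MP_77f003_co.H49
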