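import Pool.Agent.MP_77f003_co.H49.Join
import Pool.Agent.MP_77f003_co.H51.HFin
import Pool.Agent.MP_77f003_co.H51.Z
import Pool.Agent.MP_77f003_co.H51.RL
import Pool.Agent.MP_77f003_co.H4.LTS
import Pool.Agent.MP_77f003_co.H4.R
import Pool.Agent.MP_77f003_co.H84.UP
import Pool.Agent.MP_77f003_co.H54.Board
import Pool.Agent.MP_77f003_co.H93.Pym
import Pool.Agent.MP_77f003_co.H30.USE
import Pool.Agent.MP_77f003_co.H78.Om
import Pool.Agent.MP_77f003_co.H76.MD

namespace Pool.Agent.MP_77f003_co.H49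

open SimpleGraph MulAction

theorem hSpec_of (gadSpec : LTSpec → UPSpec → USESpec → GadSpec)
    (ordSpec : MDSpec → ReachSpec → OrdSpec)
    (epsSpec : PosSpec → FootSpec → ZSpec → MDSpec → EpsSpec)
    (finSpec : PosSpec → FootSpec → RLSpec → MDSpec → FinSpec) : HSpec := by
  have up : UPSpec := upSpec pymSpec reachSpec moveSpec (slideSpec moveSpec)
  have md : MDSpec := mdSpec up
  have gad : GadSpec := gadSpec ltSpec up (useSpec pymSpec reachSpec)
  intro V
  exact hSpec ltSpec (omSpec omegaSpec)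
    (rSpec gad (divSpec md) up reachSpec moveSpec edgeSpec (slideSpec moveSpec))
    (ordSpec md reachSpec) (epsSpec posSpec footSpec zSpec md)
    (finSpec posSpec footSpec (rlSpec zSpec) md)
    (clusterSpec willisSpec (ellSpec omegaSpec))

variable {V : Type} {G : SimpleGraph V} [Fact G.Connected] [G.LocallyFinite]

theorem fatCl_of_h (hH : HSpec) (ht : VT G) (hn : ¬ Acc G) (K k : ℕ) : FatCl G K k := by
  obtain ⟨N, u, v, A, h, hP⟩ := exists_lim ht hn
  by_cases hL : ∀ n, ∃ j, Large (stab (⋃ j, A j) ⊓ stab (A j) : Subgroup (G ≃g G)) n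
  · exact h.fatCl' ht hP hL K k
  · push Not at hL
    exact hH G ht N u v A h hP hL K k

end Pool.Agent.MP_77f003_co.H49
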