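import Pool.Agent.MP_77f003_co.H49.Basic

/-!
The square grid, the line and the point are connected planar graphs.
-/

namespace Pool.Agent.MP_77f003_co.H49

open SimpleGraph

/-- The square grid. -/
def grid : SimpleGraph (ℤ × ℤ) where
  Adj v w := (v.1 - w.1).natAbs + (v.2 - w.2).natAbs = 1
  symm := ⟨fun v w h => by omega⟩
  loopless := ⟨fun v h => by simp at h⟩

/-- The line. -/
def lineG : SimpleGraph ℤ := grid.comap fun a => (a, 0)

/-- The point. -/
def pointG : SimpleGraph Unit := grid.comap fun _ => (0, 0)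

theorem walk_of_step {A : Type} {P : SimpleGraph A} (ν : A → A → ℕ)
    (h0 : ∀ v w, ν v w = 0 → v = w)
    (h1 : ∀ v w n, ν v w = n + 1 → ∃ z, P.Adj v z ∧ ν z w = n) (v w : A) :
    ∃ p : P.Walk v w, p.length = ν v w := by
  generalize hn : ν v w = n
  induction n generalizing v with
  | zero =>
    obtain rfl := h0 v w hn
    exact ⟨Walk.nil, rfl⟩
  | succ n ih =>
    obtain ⟨z, hz, hz'⟩ := h1 v w n hn
    obtain ⟨p, hp⟩ := ih z hz'
    exact ⟨Walk.cons hz p, by simp [hp]⟩

theorem grid_walk (v w : ℤ × ℤ) :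
    ∃ p : grid.Walk v w, p.length = (v.1 - w.1).natAbs + (v.2 - w.2).natAbs := by
  refine walk_of_step (fun v w => (v.1 - w.1).natAbs + (v.2 - w.2).natAbs)
    (fun v w h => Prod.ext (by omega) (by omega)) (fun v w n h => ?_) v w
  rcases lt_trichotomy v.1 w.1 with h1 | h1 | h1
  · exact ⟨(v.1 + 1, v.2), by simp [grid], by simp only; omega⟩
  · rcases lt_or_ge v.2 w.2 with h2 | h2
    · exact ⟨(v.1, v.2 + 1), by simp [grid], by simp only; omega⟩
    · exact ⟨(v.1, v.2 - 1), by simp [grid], by simp only; omega⟩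
  · exact ⟨(v.1 - 1, v.2), by simp [grid], by simp only; omega⟩

theorem line_walk (v w : ℤ) : ∃ p : lineG.Walk v w, p.length = (v - w).natAbs := by
  refine walk_of_step (fun v w => (v - w).natAbs) (fun v w h => by omega) (fun v w n h => ?_) v w
  rcases lt_or_ge v w with h1 | h1
  · exact ⟨v + 1, by simp [lineG, grid], by omega⟩
  · exact ⟨v - 1, by simp [lineG, grid], by omega⟩

theorem grid_connected : grid.Connected := ⟨fun v w => ⟨(grid_walk v w).choose⟩⟩

theorem line_connected : lineG.Connected := ⟨fun v w => ⟨(line_walk v w).choose⟩⟩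

theorem point_connected : pointG.Connected := ⟨fun _ _ => ⟨Walk.nil⟩⟩

theorem grid_dist (v w : ℤ × ℤ) : grid.dist v w ≤ (v.1 - w.1).natAbs + (v.2 - w.2).natAbs := by
  obtain ⟨p, hp⟩ := grid_walk v w
  exact hp ▸ dist_le p

theorem line_dist (v w : ℤ) : lineG.dist v w ≤ (v - w).natAbs := by
  obtain ⟨p, hp⟩ := line_walk v w
  exact hp ▸ dist_le p

theorem Planar.comap {A B : Type} {P : SimpleGraph B} (h : Planar P) {f : A → B}
    (hf : Function.Injective f) : Planar (P.comap f) := by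
  obtain ⟨pos, arc, h1, h2, h3, h4⟩ := h
  have hm : ∀ e : (P.comap f).edgeSet, Sym2.map f e ∈ P.edgeSet := by
    rintro ⟨e, he⟩
    induction e using Sym2.ind with
    | _ u v => exact he
  refine ⟨pos ∘ f, fun e => arc ⟨_, hm e⟩, h1.comp hf, fun e => h2 _, fun e => ?_,
    fun e t h0 h1' => ⟨fun w => (h4 _ t h0 h1').1 _, fun e' he' => (h4 _ t h0 h1').2 _ fun h =>
      he' (Subtype.ext (Sym2.map.injective hf (congrArg Subtype.val h)))⟩⟩
  obtain ⟨u, v, e1, e2, e3⟩ := h3 ⟨_, hm e⟩
  obtain ⟨e, he⟩ := e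
  induction e using Sym2.ind with
  | _ a b =>
    simp only [Sym2.map_mk, Sym2.eq_iff] at e1
    rcases e1 with ⟨rfl, rfl⟩ | ⟨rfl, rfl⟩
    · exact ⟨a, b, rfl, e2, e3⟩
    · exact ⟨b, a, Sym2.eq_swap, e2, e3⟩

theorem grid_planar : Planar grid := by
  have he : ∀ e : grid.edgeSet, ∃ (v : ℤ × ℤ) (d : ℤ), (d = 0 ∨ d = 1) ∧
      (e : Sym2 (ℤ × ℤ)) = s(v, (v.1 + d, v.2 + (1 - d))) := by
    rintro ⟨e, he⟩
    induction e using Sym2.ind with
    | _ v w =>
      have h : (v.1 - w.1).natAbs + (v.2 - w.2).natAbs = 1 := he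
      rcases lt_trichotomy v.1 w.1 with h1 | h1 | h1
      · exact ⟨v, 1, Or.inr rfl, congrArg (fun z => s(v, z)) (Prod.ext (by simp; omega)
          (by simp; omega))⟩
      · rcases lt_or_ge v.2 w.2 with h2 | h2
        · exact ⟨v, 0, Or.inl rfl, congrArg (fun z => s(v, z)) (Prod.ext (by simp; omega)
            (by simp; omega))⟩
        · exact ⟨w, 0, Or.inl rfl, Sym2.eq_swap.trans (congrArg (fun z => s(w, z))
            (Prod.ext (by simp; omega) (by simp; omega)))⟩
      · exact ⟨w, 1, Or.inr rfl, Sym2.eq_swap.trans (congrArg (fun z => s(w, z))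
          (Prod.ext (by simp; omega) (by simp; omega)))⟩
  choose v d hd hv using he
  have hint : ∀ (a b : ℤ) (t : unitInterval), t ≠ 0 → t ≠ 1 → (a : ℝ) + t ≠ b := by
    intro a b t h0 h1 h
    have e0 : (0 : ℝ) < t := unitInterval.pos_iff_ne_zero.2 h0
    have e1 : (t : ℝ) < 1 := unitInterval.lt_one_iff_ne_one.2 h1
    have e2 : a < b := by exact_mod_cast (by linarith : (a : ℝ) < b)
    have e3 : b < a + 1 := by exact_mod_cast (by linarith : (b : ℝ) < a + 1)
    omega
  have hint2 : ∀ (a b : ℤ) (t s : unitInterval), t ≠ 0 → t ≠ 1 → (a : ℝ) + t = b + s → a = b := by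
    intro a b t s h0 h1 h
    have e0 : (0 : ℝ) < t := unitInterval.pos_iff_ne_zero.2 h0
    have e1 : (t : ℝ) < 1 := unitInterval.lt_one_iff_ne_one.2 h1
    have e2 : a < b + 1 := by exact_mod_cast (by linarith [s.2.2] : (a : ℝ) < b + 1)
    have e3 : b < a + 1 := by exact_mod_cast (by linarith [s.2.1] : (b : ℝ) < a + 1)
    omega
  refine ⟨fun w => (w.1, w.2), fun e => ⟨fun t => ((v e).1 + d e * t, (v e).2 + (1 - d e) * t),
    by fun_prop⟩, fun w w' h => ?_, fun e t s h => ?_, fun e => ⟨_, _, hv e, by simp, by simp⟩,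
    fun e t h0 h1 => ⟨fun w h => ?_, fun f hf s h => hf (Subtype.ext ?_)⟩⟩
  · simp only [Prod.mk.injEq, Int.cast_inj] at h
    exact Prod.ext h.1 h.2
  · simp only [ContinuousMap.coe_mk, Prod.mk.injEq] at h
    exact Subtype.ext (by linarith [h.1, h.2])
  · simp only [ContinuousMap.coe_mk, Prod.mk.injEq] at h
    rcases hd e with h2 | h2
    · exact hint (v e).2 w.2 t h0 h1 (by simpa [h2] using h.2)
    · exact hint (v e).1 w.1 t h0 h1 (by simpa [h2] using h.1)
  · simp only [ContinuousMap.coe_mk, Prod.mk.injEq] at h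
    rw [hv e, hv f]
    rcases hd e with h2 | h2 <;> rcases hd f with h3 | h3 <;>
      simp only [h2, h3, Int.cast_zero, Int.cast_one, zero_mul, one_mul, add_zero, sub_zero,
        sub_self, Int.cast_inj] at h
    · rw [h2, h3, show v e = v f from Prod.ext h.1 (hint2 _ _ t s h0 h1 h.2)]
    · exact absurd h.2 (hint _ _ t h0 h1)
    · exact absurd h.1 (hint _ _ t h0 h1)
    · rw [h2, h3, show v e = v f from Prod.ext (hint2 _ _ t s h0 h1 h.1) h.2]

theorem line_planar : Planar lineG := grid_planar.comap fun _ _ h => congrArg Prod.fst h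

theorem point_planar : Planar pointG := grid_planar.comap fun _ _ _ => rfl

end Pool.Agent.MP_77f003_co.H49
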