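import Pool.Agent.MP_77f003_co.H49.Flow

/-!
An infinite vertex-transitive graph of polynomial growth carries a nonconstant Lipschitz harmonic
function.
-/

namespace Pool.Agent.MP_77f003_co.H49

open SimpleGraph Filter Topology

variable {V : Type} {G : SimpleGraph V} [DecidableEq V] [G.LocallyFinite]

/-- Sum over the ordered pairs of adjacent vertices of `T`. -/
def ES (G : SimpleGraph V) [G.LocallyFinite] (T : Finset V) (F : V → V → ℝ) : ℝ :=
  ∑ x ∈ T, ∑ y ∈ G.neighborFinset x ∩ T, F x y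

theorem ES_swap (T : Finset V) (F : V → V → ℝ) : ES G T F = ES G T fun x y => F y x := by
  refine Finset.sum_comm' fun x y => ?_
  simp only [Finset.mem_inter, mem_neighborFinset]
  exact ⟨fun h => ⟨⟨h.2.1.symm, h.1⟩, h.2.2⟩, fun h => ⟨h.1.2, h.1.1.symm, h.2⟩⟩

theorem ES_left {T : Finset V} {a : V → ℝ} (ha : ∀ x ∈ T, a x ≠ 0 → G.neighborFinset x ⊆ T)
    (b : V → V → ℝ) :
    ES G T (fun x y => a x * b x y) = ∑ x ∈ T, a x * ∑ y ∈ G.neighborFinset x, b x y := by
  refine Finset.sum_congr rfl fun x hx => ?_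
  by_cases h : a x = 0
  · simp [h]
  · rw [Finset.inter_eq_left.2 (ha x hx h), Finset.mul_sum]

theorem ES_add (T : Finset V) (F F' : V → V → ℝ) :
    ES G T (fun x y => F x y + F' x y) = ES G T F + ES G T F' := by
  simp [ES, Finset.sum_add_distrib]

theorem ES_mono {T : Finset V} {F F' : V → V → ℝ} (h : ∀ x y, G.Adj x y → F x y ≤ F' x y) :
    ES G T F ≤ ES G T F' :=
  Finset.sum_le_sum fun x _ => Finset.sum_le_sum fun y hy =>
    h x y ((mem_neighborFinset _ _ _).1 (Finset.mem_inter.1 hy).1)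

theorem le_ES {T : Finset V} {F : V → V → ℝ} (h : ∀ x y, 0 ≤ F x y) {a b : V} (ha : a ∈ T)
    (hb : b ∈ T) (hab : G.Adj a b) : F a b ≤ ES G T F :=
  (Finset.single_le_sum (f := fun y => F a y) (fun y _ => h a y)
    (Finset.mem_inter.2 ⟨(mem_neighborFinset _ _ _).2 hab, hb⟩)).trans
    (Finset.single_le_sum (f := fun x => ∑ y ∈ G.neighborFinset x ∩ T, F x y)
      (fun x _ => Finset.sum_nonneg fun y _ => h x y) ha)

/-- The lazy random walk operator on finitely supported functions. -/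
noncomputable def Pop (G : SimpleGraph V) [G.LocallyFinite] (Δ : ℕ) : Module.End ℝ (V →₀ ℝ) :=
  Finsupp.linearCombination ℝ fun x => (1 / 2 : ℝ) • Finsupp.single x (1 : ℝ) +
    (1 / (2 * Δ) : ℝ) • ∑ y ∈ G.neighborFinset x, Finsupp.single y (1 : ℝ)

/-- The scalar product of finitely supported functions. -/
noncomputable def ip (V : Type) : (V →₀ ℝ) →ₗ[ℝ] (V →₀ ℝ) →ₗ[ℝ] ℝ :=
  Finsupp.linearCombination ℝ fun x => Finsupp.lapply x

omit [DecidableEq V] in
theorem ip_single (x : V) (g : V →₀ ℝ) : ip V (Finsupp.single x 1) g = g x := by simp [ip]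

omit [DecidableEq V] in
theorem ip_eq {f : V →₀ ℝ} (g : V →₀ ℝ) {T : Finset V} (hT : f.support ⊆ T) :
    ip V f g = ∑ x ∈ T, f x * g x := by
  unfold ip
  rw [Finsupp.linearCombination_apply, Finsupp.sum_of_support_subset _ hT _ (by simp)]
  simp

theorem ip_symm (f g : V →₀ ℝ) : ip V f g = ip V g f := by
  rw [ip_eq g (Finset.subset_union_left (s₂ := g.support)),
    ip_eq f (Finset.subset_union_right (s₁ := f.support))]
  simp [mul_comm]

omit [DecidableEq V] in
theorem ip_nonneg (f : V →₀ ℝ) : 0 ≤ ip V f f := by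
  rw [ip_eq f le_rfl]
  exact Finset.sum_nonneg fun x _ => mul_self_nonneg _

theorem ip_cs (f g : V →₀ ℝ) : ip V f g ^ 2 ≤ ip V f f * ip V g g :=
  LinearMap.BilinForm.apply_sq_le_of_symm (ip V) ip_nonneg ⟨fun f g => ip_symm f g⟩ f g

omit [DecidableEq V] in
theorem Pop_single (Δ : ℕ) (x : V) : Pop G Δ (Finsupp.single x 1) =
    (1 / 2 : ℝ) • Finsupp.single x (1 : ℝ) +
    (1 / (2 * Δ) : ℝ) • ∑ y ∈ G.neighborFinset x, Finsupp.single y (1 : ℝ) := by simp [Pop]

theorem Pop_apply (Δ : ℕ) (f : V →₀ ℝ) (y : V) :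
    Pop G Δ f y = f y / 2 + (∑ x ∈ G.neighborFinset y, f x) / (2 * Δ) := by
  induction f using Finsupp.induction_linear with
  | zero => simp
  | add f g hf hg =>
    simp only [map_add, Finsupp.add_apply, hf, hg, Finset.sum_add_distrib]
    ring
  | single x a =>
    have : Finsupp.single x a = a • Finsupp.single x (1 : ℝ) := by simp
    rw [this, map_smul, Pop_single]
    simp only [Finsupp.smul_apply, Finsupp.add_apply, Finsupp.finsetSum_apply, smul_eq_mul,
      Finsupp.single_apply, ← Finset.mul_sum, Finset.sum_ite_eq, Finset.sum_ite_eq',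
      show x ∈ G.neighborFinset y ↔ y ∈ G.neighborFinset x by simp [G.adj_comm]]
    ring

theorem ip_Pop (Δ : ℕ) (f g : V →₀ ℝ) : ip V (Pop G Δ f) g = ip V f (Pop G Δ g) := by
  induction f using Finsupp.induction_linear with
  | zero => simp
  | add f f' hf hf' => simp [hf, hf']
  | single x a =>
    have : Finsupp.single x a = a • Finsupp.single x (1 : ℝ) := by simp
    rw [this, map_smul, map_smul, map_smul, Pop_single, LinearMap.smul_apply,
      LinearMap.smul_apply, ip_single, Pop_apply]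
    simp only [map_add, map_smul, map_sum, LinearMap.add_apply, LinearMap.smul_apply,
      LinearMap.sum_apply, ip_single, smul_eq_mul]
    ring

theorem ip_Pop_pow (Δ n : ℕ) (f g : V →₀ ℝ) :
    ip V ((Pop G Δ ^ n) f) g = ip V f ((Pop G Δ ^ n) g) := by
  induction n generalizing g with
  | zero => simp
  | succ n ih =>
    rw [pow_succ' (Pop G Δ) n, Module.End.mul_apply, ip_Pop, ih, ← Module.End.mul_apply,
      ← pow_succ, pow_succ']

theorem energy {Δ : ℕ} (hΔ : ∀ x, G.degree x = Δ) (hΔ0 : 0 < Δ) (f : V →₀ ℝ) {σ : ℝ}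
    (hσ : σ * σ = 1) {T : Finset V} (hT : f.support ⊆ T)
    (hT' : ∀ x ∈ f.support, G.neighborFinset x ⊆ T) :
    ES G T (fun x y => (f x + σ * f y) ^ 2) =
      2 * Δ * ip V f f + σ * (4 * Δ * ip V f (Pop G Δ f) - 2 * Δ * ip V f f) := by
  have h1 : ∀ x ∈ T, f x ≠ 0 → G.neighborFinset x ⊆ T := fun x _ h =>
    hT' x (Finsupp.mem_support_iff.2 h)
  have e1 : ES G T (fun x _ => f x * f x) = Δ * ip V f f := by
    rw [ES_left h1, ip_eq f hT, Finset.mul_sum]
    refine Finset.sum_congr rfl fun x _ => ?_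
    rw [Finset.sum_const, card_neighborFinset_eq_degree, hΔ, nsmul_eq_mul]
    ring
  have e2 : ES G T (fun x y => f x * (2 * σ * f y)) =
      σ * (4 * Δ * ip V f (Pop G Δ f) - 2 * Δ * ip V f f) := by
    rw [ES_left h1, ip_eq _ hT, ip_eq _ hT, Finset.mul_sum, Finset.mul_sum, ← Finset.sum_sub_distrib,
      Finset.mul_sum]
    refine Finset.sum_congr rfl fun x _ => ?_
    rw [Pop_apply, ← Finset.mul_sum]
    field_simp
    ring
  have e3 : (fun x y => (f x + σ * f y) ^ 2) =
      fun x y => (f x * f x + f y * f y) + f x * (2 * σ * f y) := by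
    ext x y
    linear_combination (f y * f y) * hσ
  rw [e3, ES_add, ES_add, ES_swap T fun _ y => f y * f y, e1, e2]
  ring

theorem Pop_psd {Δ : ℕ} (hΔ : ∀ x, G.degree x = Δ) (hΔ0 : 0 < Δ) (f : V →₀ ℝ) :
    0 ≤ ip V f (Pop G Δ f) := by
  have h := energy hΔ hΔ0 f (σ := 1) (by norm_num)
    (T := f.support ∪ f.support.biUnion fun x => G.neighborFinset x) Finset.subset_union_left
    fun x hx => (Finset.subset_biUnion_of_mem (fun x => G.neighborFinset x) hx).trans Finset.subset_union_right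
  have h0 : 0 ≤ ES G (f.support ∪ f.support.biUnion fun x => G.neighborFinset x)
      fun x y => (f x + 1 * f y) ^ 2 :=
    Finset.sum_nonneg fun _ _ => Finset.sum_nonneg fun _ _ => sq_nonneg _
  have : (0 : ℝ) < Δ := by positivity
  nlinarith

theorem edge_le {Δ : ℕ} (hΔ : ∀ x, G.degree x = Δ) (hΔ0 : 0 < Δ) (f : V →₀ ℝ) {a b : V}
    (hab : G.Adj a b) : (f a - f b) ^ 2 ≤ 4 * Δ * (ip V f f - ip V f (Pop G Δ f)) := by
  have h := energy hΔ hΔ0 f (σ := -1) (by norm_num)
    (T := (f.support ∪ f.support.biUnion fun x => G.neighborFinset x) ∪ {a, b})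
    (Finset.subset_union_left.trans Finset.subset_union_left)
    fun x hx => ((Finset.subset_biUnion_of_mem (fun x => G.neighborFinset x) hx).trans Finset.subset_union_right).trans
      Finset.subset_union_left
  have h0 := le_ES (G := G) (F := fun x y => (f x + -1 * f y) ^ 2)
    (T := (f.support ∪ f.support.biUnion fun x => G.neighborFinset x) ∪ {a, b})
    (fun _ _ => sq_nonneg _) (a := a) (b := b) (by simp) (by simp) hab
  rw [h] at h0
  linarith

/-- The law of the lazy random walk started at `x` after `n` steps. -/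
noncomputable def gk (G : SimpleGraph V) [G.LocallyFinite] (Δ n : ℕ) (x : V) : V →₀ ℝ :=
  (Pop G Δ ^ n) (Finsupp.single x 1)

omit [DecidableEq V] in
theorem gk_succ (Δ n : ℕ) (x : V) : gk G Δ (n + 1) x = Pop G Δ (gk G Δ n x) := by
  rw [gk, pow_succ', Module.End.mul_apply, gk]

theorem gk_iso (Δ n : ℕ) (φ : G ≃g G) (x y : V) : gk G Δ n (φ x) (φ y) = gk G Δ n x y := by
  induction n generalizing y with
  | zero => simp [gk, Finsupp.single_apply]
  | succ n ih =>
    rw [gk_succ, gk_succ, Pop_apply, Pop_apply, ← map_nbr, Finset.sum_map, ih]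
    congr 2
    exact Finset.sum_congr rfl fun z _ => ih z

theorem gk_supp [Fact G.Connected] (Δ n : ℕ) (x y : V) (h : gk G Δ n x y ≠ 0) :
    G.dist x y ≤ n := by
  induction n generalizing y with
  | zero =>
    have : x = y := by
      by_contra hxy
      simp [gk, hxy] at h
    simp [this]
  | succ n ih =>
    rw [gk_succ, Pop_apply] at h
    by_cases h1 : gk G Δ n x y = 0
    · simp only [h1, zero_div, zero_add, ne_eq, div_eq_zero_iff, not_or] at h
      obtain ⟨z, hz, h'⟩ := Finset.exists_ne_zero_of_sum_ne_zero h.1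
      have e1 := ih z h'
      have e2 := tri (G := G) x z y
      rw [dist_adj ((mem_neighborFinset _ _ _).1 hz).symm] at e2
      omega
    · exact (ih y h1).trans (Nat.le_succ n)

omit [DecidableEq V] in
theorem gk_mass {Δ : ℕ} (hΔ : ∀ x, G.degree x = Δ) (hΔ0 : 0 < Δ) (n : ℕ) (x : V) :
    Finsupp.linearCombination ℝ (fun _ => (1 : ℝ)) (gk G Δ n x) = 1 := by
  have key : ∀ f : V →₀ ℝ, Finsupp.linearCombination ℝ (fun _ => (1 : ℝ)) (Pop G Δ f) =
      Finsupp.linearCombination ℝ (fun _ => (1 : ℝ)) f := by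
    intro f
    induction f using Finsupp.induction_linear with
    | zero => simp
    | add f f' hf hf' => simp [hf, hf']
    | single x a =>
      have : Finsupp.single x a = a • Finsupp.single x (1 : ℝ) := by simp
      rw [this, map_smul, map_smul, map_smul, Pop_single]
      simp only [map_add, map_smul, map_sum, Finsupp.linearCombination_single, smul_eq_mul,
        mul_one, Finset.sum_const, card_neighborFinset_eq_degree, hΔ, nsmul_eq_mul]
      field_simp
      ring
  induction n with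
  | zero => simp [gk]
  | succ n ih => rw [gk_succ, key, ih]

theorem ip_gk (ht : VT G) (Δ i j : ℕ) (x o : V) :
    ip V (gk G Δ i x) (gk G Δ j x) = gk G Δ (i + j) o o := by
  obtain ⟨φ, rfl⟩ := ht x o
  rw [gk_iso, gk, ip_Pop_pow, ip_single, gk, gk, ← Module.End.mul_apply, ← pow_add]

omit [DecidableEq V] in
theorem sum_gk {Δ : ℕ} (hΔ0 : 0 < Δ) (n : ℕ) (x : V) :
    ∑ y ∈ G.neighborFinset x, gk G Δ n y =
      (2 * Δ : ℝ) • gk G Δ (n + 1) x - (Δ : ℝ) • gk G Δ n x := by
  have : (0 : ℝ) < Δ := by positivity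
  rw [gk, pow_succ, Module.End.mul_apply, Pop_single, map_add, map_smul, map_smul, map_sum,
    smul_add, smul_smul, smul_smul]
  have e1 : (2 * Δ : ℝ) * (1 / 2) = Δ := by ring
  have e2 : (2 * Δ : ℝ) * (1 / (2 * Δ)) = 1 := by field_simp
  rw [e1, e2, one_smul]
  simp [gk]

omit [DecidableEq V] in
theorem exists_dist_eq [Fact G.Connected] [Infinite V] (o : V) (n : ℕ) :
    ∃ w, G.dist o w = n := by
  obtain ⟨w, hw⟩ := Infinite.exists_notMem_finset (ball G o n)
  rw [mem_ball, not_le] at hw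
  obtain ⟨q, q0, q1, q2⟩ := exists_geo (G := G) o w
  refine ⟨q n, ?_⟩
  have e1 := dist_geo_le q2 (Nat.zero_le n) hw.le
  have e2 := dist_geo_le q2 hw.le le_rfl
  have e3 := tri (G := G) o (q n) w
  rw [q0] at e1
  rw [q1] at e2
  omega

theorem dirichlet_lower [Fact G.Connected] [Infinite V] {Δ : ℕ} (hΔ : ∀ x, G.degree x = Δ)
    (hΔ0 : 0 < Δ) (o : V) (n : ℕ) :
    1 ≤ ((ball G o n).card * (2 * n + 1)) ^ 2 * (4 * Δ *
      (ip V (gk G Δ n o) (gk G Δ n o) - ip V (gk G Δ n o) (gk G Δ (n + 1) o))) := by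
  set g := gk G Δ n o with hg
  set E := 4 * Δ * (ip V g g - ip V g (gk G Δ (n + 1) o)) with hE
  have hedge : ∀ a b, G.Adj a b → g a - g b ≤ Real.sqrt E := fun a b hab =>
    Real.le_sqrt_of_sq_le (by rw [hE, gk_succ]; exact edge_le hΔ hΔ0 g hab)
  obtain ⟨w, hw⟩ := exists_dist_eq (G := G) o (n + 1)
  have hgw : g w = 0 := by
    by_contra h
    have := gk_supp Δ n o w h
    omega
  have hpt : ∀ z ∈ ball G o n, g z ≤ (2 * n + 1) * Real.sqrt E := by
    intro z hz
    obtain ⟨q, q0, q1, q2⟩ := exists_geo (G := G) z w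
    have key : ∀ i, i ≤ G.dist z w → g z - g (q i) ≤ i * Real.sqrt E := by
      intro i hi
      induction i with
      | zero => simp [q0]
      | succ i ih =>
        have := hedge _ _ (q2 i (by omega))
        have := ih (by omega)
        push_cast
        linarith
    have e1 := key _ le_rfl
    rw [q1, hgw, sub_zero] at e1
    have e2 := tri (G := G) z o w
    have e3 := mem_ball.1 hz
    rw [dcomm] at e3
    refine e1.trans (mul_le_mul_of_nonneg_right ?_ (Real.sqrt_nonneg _))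
    exact_mod_cast (by omega : G.dist z w ≤ 2 * n + 1)
  have hmass := gk_mass hΔ hΔ0 n o
  rw [Finsupp.linearCombination_apply, Finsupp.sum_of_support_subset _ (s := ball G o n)
    (fun z hz => mem_ball.2 (gk_supp Δ n o z (Finsupp.mem_support_iff.1 hz))) _ (by simp)] at hmass
  simp only [smul_eq_mul, mul_one] at hmass
  have e1 := Finset.sum_le_card_nsmul _ _ _ hpt
  rw [← hg] at hmass
  rw [hmass, nsmul_eq_mul, ← mul_assoc] at e1
  have hE0 : 0 ≤ E := by
    by_contra h
    rw [Real.sqrt_eq_zero_of_nonpos (not_le.1 h).le] at e1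
    norm_num at e1
  calc (1 : ℝ) ≤ ((ball G o n).card * (2 * n + 1) * Real.sqrt E) ^ 2 := by nlinarith
    _ = _ := by rw [mul_pow, Real.sq_sqrt hE0]

theorem exists_good_scale [Fact G.Connected] [Infinite V] (ht : VT G) {Δ : ℕ}
    (hΔ : ∀ x, G.degree x = Δ) (hΔ0 : 0 < Δ) (o : V) {C d : ℕ}
    (hC : ∀ r, (ball G o r).card ≤ C * (r + 1) ^ d) {ε : ℝ} (hε : 0 < ε) :
    ∃ n, gk G Δ (2 * n) o o - 2 * gk G Δ (2 * n + 1) o o + gk G Δ (2 * n + 2) o o ≤
        ε * (gk G Δ (2 * n) o o - gk G Δ (2 * n + 1) o o) ∧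
      0 < gk G Δ (2 * n) o o - gk G Δ (2 * n + 1) o o := by
  set a : ℕ → ℝ := fun m => gk G Δ m o o with ha
  have hlow : ∀ n, 1 ≤ ((ball G o n).card * (2 * n + 1)) ^ 2 * (4 * Δ * (a (2 * n) - a (2 * n + 1))) := by
    intro n
    have := dirichlet_lower hΔ hΔ0 o n
    rwa [ip_gk ht Δ n n o o, ip_gk ht Δ n (n + 1) o o, ← add_assoc, ← two_mul] at this
  have hpos : ∀ n, 0 < a (2 * n) - a (2 * n + 1) := by
    intro n
    by_contra h
    have := hlow n
    have e : ((ball G o n).card * (2 * n + 1) : ℝ) ^ 2 * (4 * Δ * (a (2 * n) - a (2 * n + 1))) ≤ 0 :=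
      mul_nonpos_of_nonneg_of_nonpos (by positivity)
        (mul_nonpos_of_nonneg_of_nonpos (by positivity) (not_lt.1 h))
    linarith
  by_contra hcon
  push Not at hcon
  have hstep : ∀ n, a (2 * (n + 1)) - a (2 * (n + 1) + 1) ≤
      (1 - ε) * (a (2 * n) - a (2 * n + 1)) := by
    intro n
    have h1 : ¬ (a (2 * n) - 2 * a (2 * n + 1) + a (2 * n + 2) ≤
        ε * (a (2 * n) - a (2 * n + 1))) := fun h => absurd (hcon n h) (not_le.2 (hpos n))
    have h2 := Pop_psd hΔ hΔ0 (gk G Δ n o - gk G Δ (n + 1) o)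
    simp only [map_sub, LinearMap.sub_apply, ← gk_succ, ip_gk ht Δ _ _ o o] at h2
    have e1 : n + (n + 1) = 2 * n + 1 := by ring
    have e2 : n + (n + 1 + 1) = 2 * n + 2 := by ring
    have e3 : n + 1 + (n + 1) = 2 * n + 2 := by ring
    have e4 : n + 1 + (n + 1 + 1) = 2 * (n + 1) + 1 := by ring
    have e5 : 2 * (n + 1) = 2 * n + 2 := by ring
    rw [e1, e2, e3, e4] at h2
    simp only [ha, e5] at h1 h2 ⊢
    linarith
  have hq : 0 < 1 - ε := by
    have := hstep 0
    have h0 := hpos 0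
    have h1 := hpos 1
    by_contra h
    nlinarith
  have hdec : ∀ n, a (2 * n) - a (2 * n + 1) ≤ (1 - ε) ^ n * (a 0 - a 1) := by
    intro n
    induction n with
    | zero => simp
    | succ n ih =>
      refine (hstep n).trans ?_
      rw [pow_succ', mul_assoc]
      exact mul_le_mul_of_nonneg_left ih hq.le
  have hlim := ((tendsto_pow_const_mul_const_pow_of_abs_lt_one (2 * d + 2)
    (r := 1 - ε) (by rw [abs_of_pos hq]; linarith)).comp (tendsto_add_atTop_nat 1)).const_mul
    ((C * 2) ^ 2 * (4 * Δ * (a 0 - a 1)) / (1 - ε))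
  rw [mul_zero] at hlim
  obtain ⟨n, hn⟩ := (hlim.eventually (gt_mem_nhds one_pos)).exists
  refine absurd (hlow n) (not_le.2 (lt_of_le_of_lt ?_ hn))
  have e1 : ((ball G o n).card : ℝ) ≤ C * (n + 1) ^ d := by exact_mod_cast hC n
  calc _ ≤ ((C * (n + 1) ^ d) * (2 * (n + 1)) : ℝ) ^ 2 * (4 * Δ * ((1 - ε) ^ n * (a 0 - a 1))) := by
        have := (hpos n).le
        gcongr
        · linarith
        · exact hdec n
    _ = _ := by
        simp only [Function.comp_apply]
        push_cast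
        field_simp
        ring

/-- Harmonic functions. -/
def Harm (G : SimpleGraph V) [G.LocallyFinite] (u : V → ℝ) : Prop :=
  ∀ x, ∑ y ∈ G.neighborFinset x, (u y - u x) = 0

theorem exists_approx [Fact G.Connected] [Infinite V] (ht : VT G) {Δ : ℕ}
    (hΔ : ∀ x, G.degree x = Δ) (hΔ0 : 0 < Δ) (o : V) {C d : ℕ}
    (hC : ∀ r, (ball G o r).card ≤ C * (r + 1) ^ d) {ε : ℝ} (hε : 0 < ε) :
    ∃ f : V → ℝ, f o = 0 ∧ (∀ x y, G.Adj x y → |f x - f y| ≤ 4 * Δ) ∧
      (∃ y ∈ G.neighborFinset o, 4 ≤ f y) ∧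
      ∀ x, |∑ y ∈ G.neighborFinset x, (f y - f x)| ≤ ε := by
  have hΔr : (0 : ℝ) < Δ := by positivity
  obtain ⟨n, h1, h2⟩ := exists_good_scale ht hΔ hΔ0 o hC (ε := ε ^ 2 / (16 * Δ ^ 3))
    (by positivity)
  set c := gk G Δ (2 * n) o o - gk G Δ (2 * n + 1) o o with hc
  have hsum : ∀ x, ∑ y ∈ G.neighborFinset x,
      ip V (gk G Δ n y - gk G Δ n x) (gk G Δ n y - gk G Δ n x) = 4 * Δ * c := by
    intro x
    have e1 : ∀ y, ip V (gk G Δ n y - gk G Δ n x) (gk G Δ n y - gk G Δ n x) =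
        2 * gk G Δ (2 * n) o o - 2 * ip V (gk G Δ n x) (gk G Δ n y) := by
      intro y
      simp only [map_sub, LinearMap.sub_apply, ip_gk ht Δ _ _ _ o, ← two_mul,
        ip_symm (gk G Δ n y) (gk G Δ n x)]
      ring
    simp only [e1]
    simp only [Finset.sum_sub_distrib, ← Finset.mul_sum, ← map_sum, sum_gk hΔ0, map_sub,
      map_smul, ip_gk ht Δ _ _ _ o, Finset.sum_const, card_neighborFinset_eq_degree, hΔ,
      nsmul_eq_mul, smul_eq_mul, ← add_assoc, ← two_mul, hc]
    ring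
  have hadj : ∀ x y, G.Adj x y →
      ip V (gk G Δ n y - gk G Δ n x) (gk G Δ n y - gk G Δ n x) ≤ 4 * Δ * c := by
    intro x y hxy
    rw [← hsum x]
    exact Finset.single_le_sum (f := fun y => ip V (gk G Δ n y - gk G Δ n x)
      (gk G Δ n y - gk G Δ n x)) (fun y _ => ip_nonneg _) ((mem_neighborFinset _ _ _).2 hxy)
  obtain ⟨y, hy, hy'⟩ : ∃ y ∈ G.neighborFinset o,
      4 * c ≤ ip V (gk G Δ n y - gk G Δ n o) (gk G Δ n y - gk G Δ n o) := by
    refine Finset.exists_le_of_sum_le (Finset.card_pos.1 ?_) (le_of_eq ?_)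
    · rw [card_neighborFinset_eq_degree, hΔ]
      exact hΔ0
    · rw [hsum, Finset.sum_const, card_neighborFinset_eq_degree, hΔ, nsmul_eq_mul]
      ring
  set w := gk G Δ n y - gk G Δ n o with hw
  have hww : ip V w w ≤ 4 * Δ * c := hadj o y ((mem_neighborFinset _ _ _).1 hy)
  refine ⟨fun x => ip V (gk G Δ n x - gk G Δ n o) w / c, by simp, fun x x' hx => ?_,
    ⟨y, hy, by rwa [le_div_iff₀ h2]⟩, fun x => ?_⟩
  · rw [← sub_div, ← LinearMap.sub_apply, ← map_sub, sub_sub_sub_cancel_right, abs_div,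
      abs_of_pos h2, div_le_iff₀ h2]
    refine abs_le_of_sq_le_sq' ?_ (by positivity) |> abs_le.2
    refine (ip_cs _ _).trans ?_
    rw [sq]
    exact mul_le_mul (hadj _ _ hx.symm) hww (ip_nonneg _) (by positivity)
  · have e1 : ∑ y ∈ G.neighborFinset x, (ip V (gk G Δ n y - gk G Δ n o) w / c -
        ip V (gk G Δ n x - gk G Δ n o) w / c) =
        2 * Δ * ip V (gk G Δ (n + 1) x - gk G Δ n x) w / c := by
      simp only [← sub_div, ← Finset.sum_div, ← LinearMap.sub_apply, ← map_sub,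
        sub_sub_sub_cancel_right, ← LinearMap.sum_apply, ← map_sum, Finset.sum_sub_distrib,
        sum_gk hΔ0, Finset.sum_const, card_neighborFinset_eq_degree, hΔ]
      simp only [map_sub, map_smul, map_nsmul, LinearMap.sub_apply, LinearMap.smul_apply,
        smul_eq_mul, nsmul_eq_mul]
      ring
    rw [e1, abs_div, abs_of_pos h2, div_le_iff₀ h2]
    refine abs_le_of_sq_le_sq' ?_ (by positivity) |> abs_le.2
    have e2 : ip V (gk G Δ (n + 1) x - gk G Δ n x) (gk G Δ (n + 1) x - gk G Δ n x) ≤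
        ε ^ 2 / (16 * Δ ^ 3) * c := by
      refine le_trans (le_of_eq ?_) h1
      simp only [map_sub, LinearMap.sub_apply, ip_gk ht Δ _ _ _ o]
      have e1 : n + (n + 1) = 2 * n + 1 := by ring
      have e3 : n + 1 + (n + 1) = 2 * n + 2 := by ring
      have e4 : n + 1 + n = 2 * n + 1 := by ring
      rw [e1, e3, e4, ← two_mul]
      ring
    calc _ = (2 * Δ) ^ 2 * ip V (gk G Δ (n + 1) x - gk G Δ n x) w ^ 2 := by ring
      _ ≤ (2 * Δ) ^ 2 * (ε ^ 2 / (16 * Δ ^ 3) * c * (4 * Δ * c)) := by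
          gcongr
          exact (ip_cs _ _).trans (mul_le_mul e2 hww (ip_nonneg _) (by positivity))
      _ = _ := by
          field_simp
          ring

omit [DecidableEq V] [G.LocallyFinite] in
theorem lip_bound [Fact G.Connected] {u : V → ℝ} {L : ℝ}
    (h : ∀ x y, G.Adj x y → |u x - u y| ≤ L) (x y : V) : |u x - u y| ≤ L * G.dist x y := by
  generalize hk : G.dist x y = k
  induction k generalizing x with
  | zero => simp [eq_of_dist hk]
  | succ k ih =>
    obtain ⟨z, hz, hz'⟩ := exists_step hk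
    have e1 := ih z hz'
    have e2 := h x z hz
    have e3 := abs_sub_le (u x) (u z) (u y)
    push_cast
    linarith

theorem exists_harmonic [Fact G.Connected] [Infinite V] (ht : VT G) (o : V) {C d : ℕ}
    (hC : ∀ r, (ball G o r).card ≤ C * (r + 1) ^ d) :
    ∃ u : V → ℝ, Harm G u ∧ (∃ L, ∀ x y, G.Adj x y → |u x - u y| ≤ L) ∧ ∃ y, u y ≠ u o := by
  set Δ := G.degree o with hΔ'
  have hΔ : ∀ x, G.degree x = Δ := fun x => degree_eq ht x o
  have hΔ0 : 0 < Δ := by
    obtain ⟨w, hw⟩ := exists_dist_eq (G := G) o 1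
    exact (G.degree_pos_iff_exists_adj o).2 ⟨w, dist_eq_one_iff_adj.1 hw⟩
  choose f f0 f1 f2 f3 using fun n : ℕ => exists_approx ht hΔ hΔ0 o hC
    (ε := 1 / ((n : ℝ) + 1)) (by positivity)
  have hK : IsCompact (Set.pi Set.univ
      fun x => Set.Icc (-(4 * Δ * G.dist x o : ℝ)) (4 * Δ * G.dist x o)) :=
    isCompact_univ_pi fun _ => isCompact_Icc
  obtain ⟨u, -, hu⟩ := hK.ultrafilter_le_nhds ((hyperfilter ℕ).map f) (by
    rw [Ultrafilter.coe_map, Filter.le_principal_iff, Filter.mem_map]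
    refine Filter.Eventually.of_forall fun n x _ => ?_
    have := lip_bound (f1 n) x o
    rw [f0, sub_zero] at this
    exact abs_le.1 this)
  have hu' : ∀ x, Tendsto (fun n => f n x) (hyperfilter ℕ) (𝓝 (u x)) :=
    tendsto_pi_nhds.1 hu
  obtain ⟨y, -, hy⟩ := (Ultrafilter.eventually_exists_mem_iff (f := hyperfilter ℕ)
    (is := (G.neighborFinset o : Set V)) (P := fun y n => 4 ≤ f n y)
    (Finset.finite_toSet _)).1 (Filter.Eventually.of_forall f2)
  refine ⟨u, fun x => ?_, ⟨4 * Δ, fun x y hxy => ?_⟩, y, ?_⟩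
  · have e1 : Tendsto (fun n => |∑ y ∈ G.neighborFinset x, (f n y - f n x)|) (hyperfilter ℕ)
        (𝓝 |∑ y ∈ G.neighborFinset x, (u y - u x)|) :=
      (tendsto_finsetSum _ fun y _ => (hu' y).sub (hu' x)).abs
    have e2 : Tendsto (fun n : ℕ => 1 / ((n : ℝ) + 1)) (hyperfilter ℕ) (𝓝 0) :=
      tendsto_one_div_add_atTop_nhds_zero_nat.mono_left Nat.hyperfilter_le_atTop
    exact abs_nonpos_iff.1 (le_of_tendsto_of_tendsto' e1 e2 fun n => f3 n x)
  · exact le_of_tendsto' ((hu' x).sub (hu' y)).abs fun n => f1 n x y hxy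
  · have e1 : 4 ≤ u y := ge_of_tendsto (hu' y) hy
    have e2 : u o ≤ 0 := le_of_tendsto' (hu' o) fun n => (f0 n).le
    linarith

end Pool.Agent.MP_77f003_co.H49
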