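import Pool.Agent.MP_77f003_co.H49.Core
import Pool.Agent.MP_77f003_co.H13.Large
import Pool.Agent.MP_77f003_co.H13.Teeth
import Pool.Agent.MP_77f003_co.H19.Comb
import Pool.Agent.MP_77f003_co.H19.Mader
import Pool.Agent.MP_77f003_co.H19.Surv
import Pool.Agent.MP_77f003_co.H21.Rec
import Pool.Agent.MP_77f003_co.H30.Ell
import Pool.Agent.MP_77f003_co.H32.Chain
import Pool.Agent.MP_77f003_co.H42.Token
import Pool.Agent.MP_77f003_co.H51.Track
import Pool.Agent.MP_77f003_co.H54.GNc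
import Pool.Agent.MP_77f003_co.H55.Cluster
import Pool.Agent.MP_77f003_co.H62.Hub
import Pool.Agent.MP_77f003_co.H72.Kill
import Pool.Agent.MP_77f003_co.H77.Omega
import Pool.Agent.MP_77f003_co.H84.Dim
import Pool.Agent.MP_77f003_co.H84.Fib
import Pool.Agent.MP_77f003_co.H95.Scatter

/-!
The proved statements put together.
-/

namespace Pool.Agent.MP_77f003_co.H49

open SimpleGraph MulAction

variable {V : Type} {G : SimpleGraph V} [Fact G.Connected] [G.LocallyFinite]

theorem exists_lim (ht : VT G) (hn : ¬ Acc G) :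
    ∃ N u v A, Lim G N u v A ∧ ¬ FinOrb (stab (⋃ j, A j) : Subgroup (G ≃g G)) :=
  ncSpec chainSpec recSpec (gNcSpec scatterSpec gTrackSpec (dimSpec matSpec fibSpec)) G ht hn

theorem Lim.fatCl' {N : Set (Set V)} {u v : V} {A : ℕ → Set V} (h : Lim G N u v A) (ht : VT G)
    (hP : ¬ FinOrb (stab (⋃ j, A j) : Subgroup (G ≃g G)))
    (hL : ∀ n, ∃ j, Large (stab (⋃ j, A j) ⊓ stab (A j) : Subgroup (G ≃g G)) n) (K k : ℕ) :
    FatCl G K k :=
  h.fatCl (hubSpec deepSpec maderSpec) (clusterSpec willisSpec (ellSpec omegaSpec))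
    (legSpec omegaSpec) killSpec (teethSpec (combSpec tokenSpec)) (survSpec (combSpec tokenSpec))
    ht hP hL K k

theorem fatCl_of_um (ht : VT G) (hn : ¬ Acc G) (hU : UM G) (K k : ℕ) : FatCl G K k :=
  let ⟨_, _, _, _, h, hP⟩ := exists_lim ht hn
  h.fatCl' ht hP (h.large (largeSpec fibSpec) ht hU hP) K k

end Pool.Agent.MP_77f003_co.H49
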