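import Mathlib

/-!
Comparison of Gram determinants and a pigeonhole lemma on scales.
-/

namespace Pool.Agent.MP_77f003_co.H49

open Matrix
open scoped MatrixOrder

theorem simul_diag {ι : Type} [Fintype ι] [DecidableEq ι] {M M' : Matrix ι ι ℝ}
    (hM : M.IsHermitian) (hM' : M'.PosDef) :
    ∃ (P : Matrix ι ι ℝ) (lam : ι → ℝ), Pᵀ * M' * P = 1 ∧ Pᵀ * M * P = diagonal lam := by
  obtain ⟨B, hB, rfl⟩ := CStarAlgebra.isStrictlyPositive_iff_eq_star_mul_self.mp
    hM'.isStrictlyPositive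
  lift B to (Matrix ι ι ℝ)ˣ using hB
  have hN : (star (B⁻¹ : (Matrix ι ι ℝ)ˣ).1 * M * (B⁻¹ : (Matrix ι ι ℝ)ˣ).1).IsHermitian :=
    isHermitian_conjTranspose_mul_mul _ hM
  have h1 := hN.conjStarAlgAut_star_eigenvectorUnitary
  rw [Unitary.conjStarAlgAut_star_apply] at h1
  have hs : ∀ A : Matrix ι ι ℝ, Aᵀ = star A := fun A => by
    rw [star_eq_conjTranspose, conjTranspose_eq_transpose_of_trivial]
  refine ⟨(B⁻¹ : (Matrix ι ι ℝ)ˣ).1 * (hN.eigenvectorUnitary : Matrix ι ι ℝ), hN.eigenvalues,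
    ?_, ?_⟩
  · rw [hs, star_mul]
    have e1 : star (B⁻¹ : (Matrix ι ι ℝ)ˣ).1 * star B.1 = 1 := by
      rw [← star_mul, Units.mul_inv, star_one]
    calc _ = star (hN.eigenvectorUnitary : Matrix ι ι ℝ) *
          ((star (B⁻¹ : (Matrix ι ι ℝ)ˣ).1 * star B.1) * (B.1 * (B⁻¹ : (Matrix ι ι ℝ)ˣ).1)) *
          (hN.eigenvectorUnitary : Matrix ι ι ℝ) := by simp only [mul_assoc]
      _ = 1 := by rw [e1, Units.mul_inv, one_mul, mul_one, Unitary.coe_star_mul_self]
  · rw [hs, star_mul]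
    simpa only [mul_assoc, RCLike.ofReal_real_eq_id, Function.id_comp] using h1

theorem det_le_of_subspace {ι κ : Type} [Fintype ι] [DecidableEq ι] [Fintype κ]
    {M M' : Matrix ι ι ℝ} (hM : M.PosSemidef) (hM' : M'.PosDef)
    (hle : ∀ c, c ⬝ᵥ M *ᵥ c ≤ c ⬝ᵥ M' *ᵥ c) (Φ : (ι → ℝ) →ₗ[ℝ] (κ → ℝ)) {η : ℝ} (hη : 0 ≤ η)
    (hη1 : η ≤ 1) (hΦ : ∀ c, Φ c = 0 → c ⬝ᵥ M *ᵥ c ≤ η * (c ⬝ᵥ M' *ᵥ c)) :
    M.det ≤ η ^ (Fintype.card ι - Fintype.card κ) * M'.det := by
  obtain ⟨P, lam, h1, h2⟩ := simul_diag hM.isHermitian hM'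
  have q : ∀ (A : Matrix ι ι ℝ) (y : ι → ℝ),
      (P *ᵥ y) ⬝ᵥ A *ᵥ (P *ᵥ y) = y ⬝ᵥ (Pᵀ * A * P) *ᵥ y := by
    intro A y
    rw [← mulVec_mulVec, ← mulVec_mulVec, dotProduct_mulVec y, vecMul_transpose]
  have q1 : ∀ y : ι → ℝ, (P *ᵥ y) ⬝ᵥ M' *ᵥ (P *ᵥ y) = ∑ i, y i ^ 2 := by
    intro y
    rw [q, h1, one_mulVec]
    simp [dotProduct, sq]
  have q2 : ∀ y : ι → ℝ, (P *ᵥ y) ⬝ᵥ M *ᵥ (P *ᵥ y) = ∑ i, lam i * y i ^ 2 := by
    intro y
    rw [q, h2]
    simp only [dotProduct, mulVec_diagonal]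
    exact Finset.sum_congr rfl fun i _ => by ring
  have hs : ∀ i, ∑ j, lam j * (Pi.single i (1 : ℝ) : ι → ℝ) j ^ 2 = lam i := by
    intro i
    rw [Finset.sum_eq_single i (fun j _ hj => by simp [hj]) (by simp)]
    simp
  have hl1 : ∀ i, lam i ≤ 1 := by
    intro i
    have := hle (P *ᵥ Pi.single i 1)
    rw [q1, q2, hs, Finset.sum_eq_single i (fun j _ hj => by simp [hj]) (by simp)] at this
    simpa using this
  have hl0 : ∀ i, 0 ≤ lam i := by
    intro i
    have := hM.dotProduct_mulVec_nonneg (P *ᵥ Pi.single i 1)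
    rwa [star_trivial, q2, hs] at this
  set I := Finset.univ.filter fun i => η < lam i with hI
  have hIc : I.card ≤ Fintype.card κ := by
    by_contra hcon
    let ext : (I → ℝ) →ₗ[ℝ] (ι → ℝ) := Function.ExtendByZero.linearMap ℝ Subtype.val
    have hext : ∀ (y : I → ℝ) (i : I), ext y i = y i := fun y i =>
      Subtype.val_injective.extend_apply _ _ _
    have hext' : ∀ (y : I → ℝ) (i : ι), i ∉ I → ext y i = 0 := fun y i hi =>
      Function.extend_apply' _ _ _ (by rintro ⟨j, rfl⟩; exact hi j.2)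
    obtain ⟨y, hy, hy0⟩ := (Submodule.ne_bot_iff _).1
      (LinearMap.ker_ne_bot_of_finrank_lt (f := Φ ∘ₗ P.mulVecLin ∘ₗ ext) (by simpa using hcon))
    have := hΦ (P *ᵥ ext y) hy
    rw [q1, q2, Finset.mul_sum] at this
    refine absurd this (not_le.2 (Finset.sum_lt_sum (fun i _ => ?_) ?_))
    · by_cases hi : i ∈ I
      · exact mul_le_mul_of_nonneg_right (Finset.mem_filter.1 hi).2.le (sq_nonneg _)
      · simp [hext' y i hi]
    · obtain ⟨i, hi⟩ := Function.ne_iff.1 hy0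
      refine ⟨i, Finset.mem_univ _, mul_lt_mul_of_pos_right (Finset.mem_filter.1 i.2).2 ?_⟩
      rw [hext]
      exact sq_pos_of_ne_zero hi
  have e1 : P.det * M'.det * P.det = 1 := by
    simpa [det_mul] using congrArg det h1
  have e2 : P.det * M.det * P.det = ∏ i, lam i := by
    simpa [det_mul] using congrArg det h2
  have e3 : M.det = (∏ i, lam i) * M'.det := by
    rw [← e2]
    linear_combination (-M.det) * e1
  rw [e3]
  refine mul_le_mul_of_nonneg_right ?_ hM'.det_pos.le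
  rw [← Finset.prod_filter_mul_prod_filter_not Finset.univ fun i => η < lam i]
  have f1 : ∏ i with η < lam i, lam i ≤ 1 :=
    Finset.prod_le_one (fun i _ => hl0 i) fun i _ => hl1 i
  have f2 : ∏ i with ¬ η < lam i, lam i ≤ η ^ (Fintype.card ι - Fintype.card κ) := by
    refine (Finset.prod_le_prod (g := fun _ => η) (fun i _ => hl0 i)
      fun i hi => not_lt.1 (Finset.mem_filter.1 hi).2).trans ?_
    rw [Finset.prod_const]
    refine pow_le_pow_of_le_one hη hη1 ?_
    have := Finset.card_filter_add_card_filter_not (s := Finset.univ) fun i => η < lam i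
    rw [Finset.card_univ, ← hI] at this
    omega
  calc _ ≤ 1 * η ^ (Fintype.card ι - Fintype.card κ) :=
        mul_le_mul f1 f2 (Finset.prod_nonneg fun i _ => hl0 i) zero_le_one
    _ = _ := one_mul _

theorem exists_scale {h : ℕ → ℝ} (hm : Monotone h) {c c₀ : ℝ} (hc : 0 < c)
    (hb : ∀ k : ℕ, h k ≤ c * k + c₀) (w : ℕ) :
    ∃ i, h (i + 1) - h i ≤ 4 * c ∧ h (i + w + 1) - h (i + w) ≤ 4 * c ∧
      h (i + w + 1) - h i ≤ 4 * c * (w + 1) := by
  by_contra hcon
  set Φ : ℕ → ℝ := fun i => h i + h (i + w) + (∑ j ∈ Finset.range (w + 1), h (i + j)) / (w + 1)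
    with hΦ
  have hw : (0 : ℝ) < w + 1 := by positivity
  have hstep : ∀ i, Φ i + 4 * c ≤ Φ (i + 1) := by
    intro i
    have e1 : ∑ j ∈ Finset.range (w + 1), h (i + 1 + j) =
        ∑ j ∈ Finset.range (w + 1), h (i + j) + (h (i + w + 1) - h i) := by
      have := Finset.sum_range_succ' (fun j => h (i + j)) (w + 1)
      rw [Finset.sum_range_succ] at this
      simp only [add_zero, ← add_assoc] at this
      simp only [add_right_comm i 1]
      linarith
    have e2 := hm (Nat.le_succ i)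
    have e3 := hm (Nat.le_succ (i + w))
    have e4 : 0 ≤ (h (i + w + 1) - h i) / (w + 1) :=
      div_nonneg (sub_nonneg.2 (hm (by omega))) hw.le
    simp only [hΦ, e1, add_div, add_right_comm i 1 w]
    simp only [Nat.succ_eq_add_one] at e2 e3
    by_contra hlt
    refine hcon ⟨i, by linarith, by linarith, ?_⟩
    rw [← div_le_iff₀ hw]
    linarith
  have hlow : ∀ n : ℕ, Φ 0 + 4 * c * n ≤ Φ n := by
    intro n
    induction n with
    | zero => simp
    | succ n ih =>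
      have := hstep n
      push_cast
      linarith
  have hup : ∀ n : ℕ, Φ n ≤ 3 * (c * (n + w) + c₀) := by
    intro n
    have e1 := hb (n + w)
    have e2 := hm (Nat.le_add_right n w)
    have e3 : (∑ j ∈ Finset.range (w + 1), h (n + j)) / (w + 1) ≤ h (n + w) := by
      rw [div_le_iff₀ hw]
      have := Finset.sum_le_card_nsmul (Finset.range (w + 1)) (fun j => h (n + j)) (h (n + w))
        fun j hj => hm (by have := Finset.mem_range.1 hj; omega)
      simpa [mul_comm] using this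
    push_cast at e1
    simp only [hΦ]
    linarith
  obtain ⟨n, hn⟩ := exists_nat_gt ((3 * (c * w + c₀) - Φ 0) / c)
  rw [div_lt_iff₀ hc] at hn
  have := (hlow n).trans (hup n)
  nlinarith

end Pool.Agent.MP_77f003_co.H49
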