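import Pool.Agent.MP_77f003_co.H49.Harm
import Pool.Agent.MP_77f003_co.H49.LinAlg

/-!
Kleiner's theorem for amenable vertex-transitive graphs of polynomial growth: the space of
Lipschitz harmonic functions is finite dimensional.
-/

namespace Pool.Agent.MP_77f003_co.H49

open SimpleGraph Matrix

variable {V : Type} {G : SimpleGraph V} [DecidableEq V] [G.LocallyFinite]

/-- The norm of the gradient. -/
noncomputable def grad (G : SimpleGraph V) [G.LocallyFinite] (u : V → ℝ) (z : V) : ℝ :=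
  Real.sqrt (∑ y ∈ G.neighborFinset z, (u z - u y) ^ 2)

omit [DecidableEq V] in
theorem grad_sq (u : V → ℝ) (z : V) :
    grad G u z ^ 2 = ∑ y ∈ G.neighborFinset z, (u z - u y) ^ 2 :=
  Real.sq_sqrt (Finset.sum_nonneg fun _ _ => sq_nonneg _)

omit [DecidableEq V] in
theorem le_grad (u : V → ℝ) (a b : V) (h : G.Adj a b) : |u a - u b| ≤ grad G u a :=
  Real.abs_le_sqrt (Finset.single_le_sum (f := fun y => (u a - u y) ^ 2)
    (fun _ _ => sq_nonneg _) ((mem_neighborFinset _ _ _).2 h))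

theorem clamp_lip {s t δ : ℝ} (h : |s - t| ≤ δ) : |max 0 (min 1 s) - max 0 (min 1 t)| ≤ δ := by
  rw [abs_le] at h ⊢
  simp only [max_def, min_def]
  split_ifs <;> constructor <;> linarith

theorem caccioppoli [Fact G.Connected] {Δ : ℕ} (hΔ : ∀ x, G.degree x ≤ Δ) {u : V → ℝ}
    (hu : Harm G u) (o : V) {R : ℕ} (hR : 1 ≤ R) :
    ∑ z ∈ ball G o (2 * R), grad G u z ^ 2 ≤ Δ / R ^ 2 * ∑ x ∈ ball G o (4 * R), u x ^ 2 := by
  have hR0 : (0 : ℝ) < R := by positivity
  set φ : V → ℝ := fun x => max 0 (min 1 ((3 * R + 1 - G.dist o x) / R)) with hφ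
  set T := ball G o (4 * R) with hT
  have hnb : ∀ x y, G.Adj x y → G.dist o y ≤ G.dist o x + 1 := fun x y h => by
    have := tri (G := G) o x y
    rwa [dist_adj h] at this
  have φ1 : ∀ x, G.dist o x ≤ 2 * R + 1 → φ x = 1 := by
    intro x hx
    have : (G.dist o x : ℝ) ≤ 2 * R + 1 := by exact_mod_cast hx
    have : (1 : ℝ) ≤ (3 * R + 1 - G.dist o x) / R := by
      rw [le_div_iff₀ hR0]
      linarith
    simp [hφ, this]
  have φ0 : ∀ x, φ x ≠ 0 → G.neighborFinset x ⊆ T := by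
    intro x hx y hy
    have e1 := hnb x y ((mem_neighborFinset _ _ _).1 hy)
    refine mem_ball.2 ?_
    by_contra hcon
    have : ((3 * R + 1 : ℕ) : ℝ) ≤ G.dist o x := by exact_mod_cast (by omega)
    push_cast at this
    exact hx (max_eq_left ((min_le_right _ _).trans
      (div_nonpos_of_nonpos_of_nonneg (by linarith) hR0.le)))
  have φl : ∀ x y, G.Adj x y → (φ x - φ y) ^ 2 ≤ 1 / R ^ 2 := by
    intro x y h
    have e1 : (G.dist o y : ℝ) ≤ G.dist o x + 1 := by exact_mod_cast hnb x y h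
    have e2 : (G.dist o x : ℝ) ≤ G.dist o y + 1 := by exact_mod_cast hnb y x h.symm
    have : |φ x - φ y| ≤ 1 / R := by
      refine clamp_lip ?_
      rw [← sub_div, abs_div, abs_of_pos hR0]
      gcongr
      rw [abs_le]
      constructor <;> linarith
    calc _ = |φ x - φ y| ^ 2 := (sq_abs _).symm
      _ ≤ (1 / R) ^ 2 := by gcongr
      _ = _ := by ring
  have e1 : ES G T (fun x y => (φ x ^ 2 * u x) * (u x - u y)) = 0 := by
    rw [ES_left fun x _ hx => φ0 x fun h => hx (by simp [h])]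
    refine Finset.sum_eq_zero fun x _ => ?_
    have := hu x
    rw [← neg_eq_zero, ← Finset.sum_neg_distrib] at this
    simp only [neg_sub] at this
    rw [this, mul_zero]
  have e2 : ES G T (fun x y => (φ x * u x - φ y * u y) ^ 2) =
      ES G T (fun x y => u x * u y * (φ x - φ y) ^ 2) := by
    have : (fun x y => (φ x * u x - φ y * u y) ^ 2) = fun x y =>
        ((φ x ^ 2 * u x) * (u x - u y) + (φ y ^ 2 * u y) * (u y - u x)) +
          u x * u y * (φ x - φ y) ^ 2 := by
      ext x y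
      ring
    rw [this, ES_add, ES_add, ES_swap T fun x y => (φ y ^ 2 * u y) * (u y - u x), e1]
    ring
  have e3 : ES G T (fun x _ => u x ^ 2 / (2 * R ^ 2)) ≤ Δ / R ^ 2 * (∑ x ∈ T, u x ^ 2) / 2 := by
    rw [Finset.mul_sum, Finset.sum_div]
    refine Finset.sum_le_sum fun x _ => ?_
    rw [Finset.sum_const, nsmul_eq_mul]
    have : ((G.neighborFinset x ∩ T).card : ℝ) ≤ Δ := by
      exact_mod_cast (Finset.card_le_card Finset.inter_subset_left).trans (hΔ x)
    calc _ ≤ (Δ : ℝ) * (u x ^ 2 / (2 * R ^ 2)) := by gcongr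
      _ = _ := by ring
  calc ∑ z ∈ ball G o (2 * R), grad G u z ^ 2
      = ∑ z ∈ ball G o (2 * R), ∑ y ∈ G.neighborFinset z ∩ T, (φ z * u z - φ y * u y) ^ 2 := by
        refine Finset.sum_congr rfl fun z hz => ?_
        have hz := mem_ball.1 hz
        have hz1 := φ1 z (by omega)
        rw [grad_sq, Finset.inter_eq_left.2 (φ0 z (by simp [hz1]))]
        refine Finset.sum_congr rfl fun y hy => ?_
        have := hnb z y ((mem_neighborFinset _ _ _).1 hy)
        rw [hz1, φ1 y (by omega), one_mul, one_mul]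
    _ ≤ ES G T (fun x y => (φ x * u x - φ y * u y) ^ 2) :=
        Finset.sum_le_sum_of_subset_of_nonneg (ball_mono o (by omega))
          fun _ _ _ => Finset.sum_nonneg fun _ _ => sq_nonneg _
    _ ≤ ES G T (fun x y => u x ^ 2 / (2 * R ^ 2) + u y ^ 2 / (2 * R ^ 2)) := by
        rw [e2]
        refine ES_mono fun x y h => ?_
        calc u x * u y * (φ x - φ y) ^ 2 ≤ (u x ^ 2 + u y ^ 2) / 2 * (φ x - φ y) ^ 2 := by
              gcongr
              nlinarith [sq_nonneg (u x - u y)]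
          _ ≤ (u x ^ 2 + u y ^ 2) / 2 * (1 / R ^ 2) := by
              gcongr
              exact φl x y h
          _ = _ := by ring
    _ ≤ _ := by
        rw [ES_add, ES_swap T fun _ y => u y ^ 2 / (2 * R ^ 2)]
        linarith

omit [G.LocallyFinite] in
theorem sum_biUnion_le {ι : Type} (X : Finset ι) (t : ι → Finset V) {f : V → ℝ}
    (hf : ∀ y, 0 ≤ f y) : ∑ y ∈ X.biUnion t, f y ≤ ∑ x ∈ X, ∑ y ∈ t x, f y := by
  classical
  induction X using Finset.induction_on with
  | empty => simp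
  | insert a X ha ih =>
    rw [Finset.biUnion_insert, Finset.sum_insert ha]
    have e1 := Finset.sum_union_inter (s₁ := t a) (s₂ := X.biUnion t) (f := f)
    have e2 : 0 ≤ ∑ y ∈ t a ∩ X.biUnion t, f y := Finset.sum_nonneg fun y _ => hf y
    linarith

omit [G.LocallyFinite] in
theorem exists_net [Fact G.Connected] (B : Finset V) (ρ : ℕ) :
    ∃ X ⊆ B, (∀ x ∈ X, ∀ y ∈ X, x ≠ y → ρ < G.dist x y) ∧ ∀ y ∈ B, ∃ x ∈ X, G.dist x y ≤ ρ := by
  obtain ⟨X, hX, hmax⟩ := Finset.exists_max_image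
    (B.powerset.filter fun X => ∀ x ∈ X, ∀ y ∈ X, x ≠ y → ρ < G.dist x y) Finset.card
    ⟨∅, by simp⟩
  obtain ⟨h1, h2⟩ := Finset.mem_filter.1 hX
  rw [Finset.mem_powerset] at h1
  refine ⟨X, h1, h2, fun y hy => ?_⟩
  by_contra hcon
  push Not at hcon
  have hyX : y ∉ X := fun h => by simpa using hcon y h
  have := hmax (insert y X) (Finset.mem_filter.2
    ⟨Finset.mem_powerset.2 (Finset.insert_subset hy h1), fun a ha b hb hab => by
      rcases Finset.mem_insert.1 ha with rfl | ha' <;> rcases Finset.mem_insert.1 hb with rfl | hb'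
      · exact absurd rfl hab
      · rw [dcomm]
        exact hcon b hb'
      · exact hcon a ha'
      · exact h2 a ha' b hb' hab⟩)
  rw [Finset.card_insert_of_notMem hyX] at this
  omega

theorem packing [Fact G.Connected] (ht : VT G) (o : V) {X : Finset V} {s ρ : ℕ} {z : V}
    (hX : ∀ x ∈ X, ∀ y ∈ X, x ≠ y → 2 * s < G.dist x y) (hz : ∀ x ∈ X, G.dist z x ≤ ρ) :
    X.card * (ball G o s).card ≤ (ball G o (ρ + s)).card := by
  rw [← card_ball_eq ht z o (ρ + s)]
  have e1 : (X.biUnion fun x => ball G x s).card = X.card * (ball G o s).card := by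
    rw [Finset.card_biUnion]
    · simp [card_ball_eq ht _ o]
    · intro x hx y hy hxy
      refine Finset.disjoint_left.2 fun w h1 h2 => ?_
      have e1 := hX x hx y hy hxy
      have e2 := tri (G := G) x w y
      have e3 := mem_ball.1 h1
      have e4 := mem_ball.1 h2
      rw [dcomm] at e4
      omega
  rw [← e1]
  refine Finset.card_le_card (Finset.biUnion_subset.2 fun x hx w hw => mem_ball.2 ?_)
  have e2 := tri (G := G) z x w
  have e3 := mem_ball.1 hw
  have e4 := hz x hx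
  omega

theorem key_est [Fact G.Connected] (ht : VT G) (ha : Amenable G) (o : V) {Δ : ℕ}
    (hΔ : ∀ x, G.degree x ≤ Δ) {u : V → ℝ} (hu : Harm G u) {s R : ℕ} (hs : 1 ≤ s)
    (hR : 6 * s ≤ R) {θ : ℝ} (hθ : ((ball G o (16 * s)).card : ℝ) ≤ θ * (ball G o s).card)
    {X : Finset V} (hXB : X ⊆ ball G o R) (hX : ∀ x ∈ X, ∀ y ∈ X, x ≠ y → 2 * s < G.dist x y)
    (hcov : ∀ y ∈ ball G o R, ∃ x ∈ X, G.dist x y ≤ 2 * s)
    (hmean : ∀ x ∈ X, ∑ y ∈ ball G x (2 * s), u y = 0) :
    ∑ x ∈ ball G o R, u x ^ 2 ≤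
      8 * θ ^ 2 * Δ * s ^ 2 / R ^ 2 * ∑ x ∈ ball G o (16 * R), u x ^ 2 := by
  have hV : ∀ r, (0 : ℝ) < (ball G o r).card := fun r => by
    exact_mod_cast Finset.card_pos.2 ⟨o, self_mem_ball o r⟩
  have hVm : ∀ r r', r ≤ r' → ((ball G o r).card : ℝ) ≤ (ball G o r').card := fun r r' h => by
    exact_mod_cast Finset.card_le_card (ball_mono o h)
  have hθ0 : 0 ≤ θ := by
    by_contra h
    nlinarith [hV s, hV (16 * s)]
  have h1 : ∀ x ∈ X, ∑ y ∈ ball G x (2 * s), u y ^ 2 ≤
      8 * θ * s ^ 2 * ∑ z ∈ ball G x (6 * s), grad G u z ^ 2 := by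
    intro x hx
    have e1 := poincare ht ha o (le_grad u) x (2 * s)
    have e2 : ∑ a ∈ ball G x (2 * s), ∑ b ∈ ball G x (2 * s), (u a - u b) ^ 2 =
        2 * (ball G o (2 * s)).card * ∑ y ∈ ball G x (2 * s), u y ^ 2 := by
      simp only [sub_sq, Finset.sum_add_distrib, Finset.sum_sub_distrib, ← Finset.mul_sum,
        hmean x hx, Finset.sum_const, nsmul_eq_mul, card_ball_eq ht x o, mul_zero]
      ring
    have e3 : ((ball G o (2 * (2 * s))).card : ℝ) ≤ θ * (ball G o (2 * s)).card :=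
      (hVm _ _ (by omega)).trans (hθ.trans (mul_le_mul_of_nonneg_left (hVm _ _ (by omega)) hθ0))
    have e4 : 3 * (2 * s) = 6 * s := by ring
    rw [e2, e4] at e1
    have e5 : 0 ≤ ∑ z ∈ ball G x (6 * s), grad G u z ^ 2 := Finset.sum_nonneg fun _ _ => sq_nonneg _
    refine le_of_mul_le_mul_left (e1.trans ?_) (show 0 < 2 * ((ball G o (2 * s)).card : ℝ) by
      linarith [hV (2 * s)])
    push_cast
    calc _ ≤ 2 * (2 * (s : ℝ)) * (2 * (2 * s) * (θ * (ball G o (2 * s)).card)) *
          ∑ z ∈ ball G x (6 * s), grad G u z ^ 2 := by gcongr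
      _ = _ := by ring
  have h2 : ∑ x ∈ X, ∑ z ∈ ball G x (6 * s), grad G u z ^ 2 ≤
      θ * ∑ z ∈ ball G o (2 * R), grad G u z ^ 2 := by
    rw [Finset.sum_comm' (t' := ball G o (2 * R))
      (s' := fun z => X.filter fun x => G.dist z x ≤ 6 * s), Finset.mul_sum]
    · refine Finset.sum_le_sum fun z _ => ?_
      rw [Finset.sum_const, nsmul_eq_mul]
      gcongr
      have e1 := packing ht o (X := X.filter fun x => G.dist z x ≤ 6 * s) (z := z) (ρ := 6 * s)
        (fun x hx y hy => hX x (Finset.mem_filter.1 hx).1 y (Finset.mem_filter.1 hy).1)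
        fun x hx => (Finset.mem_filter.1 hx).2
      have e2 : ((X.filter fun x => G.dist z x ≤ 6 * s).card : ℝ) * (ball G o s).card ≤
          θ * (ball G o s).card :=
        le_trans (by exact_mod_cast e1) ((hVm (6 * s + s) _ (by omega)).trans hθ)
      exact le_of_mul_le_mul_right e2 (hV s)
    · intro x z
      simp only [mem_ball, Finset.mem_filter, dcomm z x]
      refine ⟨fun h => ⟨h, ?_⟩, fun h => h.1⟩
      have e1 := mem_ball.1 (hXB h.1)
      have e2 := tri (G := G) o x z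
      omega
  have h3 := caccioppoli hΔ hu o (R := R) (by omega)
  have h4 : ∑ x ∈ ball G o (4 * R), u x ^ 2 ≤ ∑ x ∈ ball G o (16 * R), u x ^ 2 :=
    Finset.sum_le_sum_of_subset_of_nonneg (ball_mono o (by omega)) fun _ _ _ => sq_nonneg _
  calc ∑ x ∈ ball G o R, u x ^ 2 ≤ ∑ y ∈ X.biUnion fun x => ball G x (2 * s), u y ^ 2 := by
        refine Finset.sum_le_sum_of_subset_of_nonneg (fun y hy => ?_) fun _ _ _ => sq_nonneg _
        obtain ⟨x, hx, hx'⟩ := hcov y hy
        exact Finset.mem_biUnion.2 ⟨x, hx, mem_ball.2 hx'⟩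
    _ ≤ ∑ x ∈ X, ∑ y ∈ ball G x (2 * s), u y ^ 2 := sum_biUnion_le _ _ fun _ => sq_nonneg _
    _ ≤ ∑ x ∈ X, 8 * θ * s ^ 2 * ∑ z ∈ ball G x (6 * s), grad G u z ^ 2 := Finset.sum_le_sum h1
    _ ≤ 8 * θ * s ^ 2 * (θ * (Δ / R ^ 2 * ∑ x ∈ ball G o (16 * R), u x ^ 2)) := by
        rw [← Finset.mul_sum]
        gcongr
        refine h2.trans ?_
        gcongr
        refine h3.trans ?_
        gcongr
    _ = _ := by ring

/-- The space of Lipschitz harmonic functions. -/
def HL (G : SimpleGraph V) [G.LocallyFinite] : Submodule ℝ (V → ℝ) where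
  carrier := {u | Harm G u ∧ ∃ L, ∀ x y, G.Adj x y → |u x - u y| ≤ L}
  add_mem' := by
    rintro u v ⟨hu, L, hL⟩ ⟨hv, L', hL'⟩
    refine ⟨fun x => ?_, L + L', fun x y h => ?_⟩
    · rw [← add_zero 0]
      nth_rewrite 1 [← hu x]
      rw [← hv x, ← Finset.sum_add_distrib]
      exact Finset.sum_congr rfl fun y _ => by simp only [Pi.add_apply]; ring
    · have := abs_add_le (u x - u y) (v x - v y)
      have e : (u + v) x - (u + v) y = u x - u y + (v x - v y) := by
        simp only [Pi.add_apply]; ring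
      rw [e]
      linarith [hL x y h, hL' x y h]
  zero_mem' := ⟨fun x => by simp, 0, by simp⟩
  smul_mem' := by
    rintro c u ⟨hu, L, hL⟩
    refine ⟨fun x => ?_, |c| * L, fun x y h => ?_⟩
    · simp only [Pi.smul_apply, smul_eq_mul, ← mul_sub, ← Finset.mul_sum, hu x, mul_zero]
    · simp only [Pi.smul_apply, smul_eq_mul, ← mul_sub, abs_mul]
      exact mul_le_mul_of_nonneg_left (hL x y h) (abs_nonneg _)

omit [DecidableEq V] in
theorem exists_ball_inj [Fact G.Connected] (o : V) {E : Type} [AddCommGroup E] [Module ℝ E]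
    [Module.Finite ℝ E] (U : E →ₗ[ℝ] (V → ℝ)) (hU : Function.Injective U) :
    ∃ R, ∀ c, (∀ x, G.dist o x ≤ R → U c x = 0) → c = 0 := by
  let K : ℕ → Submodule ℝ E := fun R =>
    ⨅ x ∈ {x | G.dist o x ≤ R}, LinearMap.ker (LinearMap.proj x ∘ₗ U)
  have hK : ∀ R c, c ∈ K R ↔ ∀ x, G.dist o x ≤ R → U c x = 0 := by
    intro R c
    simp [K, Submodule.mem_iInf]
  obtain ⟨R, hR⟩ := IsArtinian.monotone_stabilizes (R := ℝ) (M := E)
    ⟨fun R => OrderDual.toDual (K R), fun R R' h c hc =>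
      (hK R c).2 fun x hx => (hK R' c).1 hc x (hx.trans h)⟩
  refine ⟨R, fun c hc => hU ?_⟩
  ext x
  have := (hK _ c).2 hc
  have e : K R = K (max R (G.dist o x)) := hR _ (le_max_left _ _)
  rw [e, hK] at this
  simpa using this x (le_max_right _ _)

theorem card_le_of_linInd [Fact G.Connected] (ht : VT G) (ha : Amenable G) (o : V) {C d : ℕ}
    (hC : ∀ r, (ball G o r).card ≤ C * (r + 1) ^ d) :
    ∃ D₀ : ℕ, ∀ (ι : Type) [Fintype ι] (u : ι → V → ℝ), (∀ i, u i ∈ HL G) →
      LinearIndependent ℝ u → Fintype.card ι ≤ D₀ := by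
  set Δ := G.degree o with hΔ'
  have hΔ : ∀ x, G.degree x ≤ Δ := fun x => (degree_eq ht x o).le
  set θ : ℝ := 16 ^ (4 * (2 * d + 2)) with hθ
  have hθ1 : 1 < θ := one_lt_pow₀ (by norm_num) (by omega)
  obtain ⟨w, hw⟩ : ∃ w : ℕ, 8 * θ ^ 4 * Δ < 256 ^ w := pow_unbounded_of_one_lt _ (by norm_num)
  refine ⟨2 * (16 ^ (4 * (2 * d + 2))) ^ (w + 2), fun ι _ u hu hli => ?_⟩
  classical
  rcases isEmpty_or_nonempty ι with hι | hι
  · simp
  set D := Fintype.card ι with hD
  have hD0 : (0 : ℝ) < D := by exact_mod_cast Fintype.card_pos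
  set U : (ι → ℝ) →ₗ[ℝ] (V → ℝ) := Fintype.linearCombination ℝ u with hU
  have hUa : ∀ c x, U c x = ∑ i, c i * u i x := fun c x => by
    simp [hU, Fintype.linearCombination_apply]
  have hUm : ∀ c, U c ∈ HL G := fun c => Submodule.sum_mem _ fun i _ => Submodule.smul_mem _ _ (hu i)
  set M : ℕ → Matrix ι ι ℝ := fun R => Matrix.of fun i j => ∑ x ∈ ball G o R, u i x * u j x
    with hM
  have hq : ∀ R c, c ⬝ᵥ M R *ᵥ c = ∑ x ∈ ball G o R, U c x ^ 2 := by
    intro R c
    simp only [hM, dotProduct, mulVec, Matrix.of_apply, hUa, sq, Finset.sum_mul, Finset.mul_sum]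
    rw [Finset.sum_comm (s := ball G o R)]
    refine Finset.sum_congr rfl fun i _ => ?_
    rw [Finset.sum_comm (s := ball G o R)]
    exact Finset.sum_congr rfl fun j _ => Finset.sum_congr rfl fun x _ => by ring
  have hherm : ∀ R, (M R).IsHermitian := fun R => by
    ext i j
    simp [hM, mul_comm]
  obtain ⟨R₀, hR₀⟩ := exists_ball_inj (G := G) o U
    (linearIndependent_iff_injective_fintypeLinearCombination.1 hli)
  have hpd : ∀ R, R₀ ≤ R → (M R).PosDef := by
    intro R hR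
    refine PosDef.of_dotProduct_mulVec_pos (hherm R) fun c hc => ?_
    rw [star_trivial, hq]
    refine lt_of_le_of_ne (Finset.sum_nonneg fun _ _ => sq_nonneg _) fun h => hc (hR₀ c ?_)
    intro x hx
    exact pow_eq_zero_iff two_ne_zero |>.1 ((Finset.sum_eq_zero_iff_of_nonneg
      fun _ _ => sq_nonneg _).1 h.symm x (mem_ball.2 (hx.trans hR)))
  have hmono : ∀ R R', R ≤ R' → ∀ c, c ⬝ᵥ M R *ᵥ c ≤ c ⬝ᵥ M R' *ᵥ c := by
    intro R R' h c
    rw [hq, hq]
    exact Finset.sum_le_sum_of_subset_of_nonneg (ball_mono o h) fun _ _ _ => sq_nonneg _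
  have hsc : ∀ k, R₀ ≤ 16 ^ (k + R₀) := fun k =>
    (Nat.lt_pow_self (by norm_num : 1 < 16)).le.trans (Nat.pow_le_pow_right (by norm_num) (by omega))
  have hV : ∀ r, (0 : ℝ) < (ball G o r).card := fun r => by
    exact_mod_cast Finset.card_pos.2 ⟨o, self_mem_ball o r⟩
  set h₁ : ℕ → ℝ := fun k => Real.log (ball G o (16 ^ (k + R₀))).card with hh₁
  set h₂ : ℕ → ℝ := fun k => Real.log (M (16 ^ (k + R₀))).det / D with hh₂
  have hpm : ∀ k k', k ≤ k' → 16 ^ (k + R₀) ≤ 16 ^ (k' + R₀) := fun k k' h =>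
    Nat.pow_le_pow_right (by norm_num) (by omega)
  have m₁ : Monotone h₁ := fun k k' h => Real.log_le_log (hV _)
    (by exact_mod_cast Finset.card_le_card (ball_mono o (hpm k k' h)))
  have m₂ : Monotone h₂ := by
    intro k k' h
    refine div_le_div_of_nonneg_right (Real.log_le_log (hpd _ (hsc k)).det_pos ?_) hD0.le
    simpa using det_le_of_subspace (κ := Empty) (hpd _ (hsc k)).posSemidef (hpd _ (hsc k'))
      (hmono _ _ (hpm k k' h)) 0 zero_le_one le_rfl
      (fun c _ => by simpa using hmono _ _ (hpm k k' h) c)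
  obtain ⟨A, hA0, hA⟩ : ∃ A : ℝ, 0 < A ∧ ∀ i x, |u i x| ≤ A * (G.dist o x + 1) := by
    choose L hL using fun i => (hu i).2
    refine ⟨∑ i, (|u i o| + |L i|) + 1, by positivity, fun i x => ?_⟩
    have e1 := lip_bound (hL i) x o
    have e2 := Finset.single_le_sum (f := fun i => |u i o| + |L i|) (fun i _ => by positivity)
      (Finset.mem_univ i)
    have e3 := abs_sub_abs_le_abs_sub (u i x) (u i o)
    have e4 : (0 : ℝ) ≤ G.dist o x := by positivity
    rw [dcomm] at e1
    nlinarith [le_abs_self (L i), abs_nonneg (L i), abs_nonneg (u i o)]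
  have hC0 : (0 : ℝ) < C := by
    have := (hV 0).trans_le (Nat.cast_le.2 (hC 0))
    simpa using this
  have hVb : ∀ n : ℕ, ((ball G o (16 ^ n)).card : ℝ) ≤ C * 16 ^ ((n + 1) * d) := by
    intro n
    refine le_trans (Nat.cast_le.2 (hC _)) ?_
    push_cast
    rw [pow_mul]
    gcongr
    have : (1 : ℝ) ≤ 16 ^ n := one_le_pow₀ (by norm_num)
    rw [pow_succ]
    linarith
  have hbound : ∀ k : ℕ, (h₁ + h₂) k ≤ ((2 * d + 2) * Real.log 16) * k +
      (((2 * d + 2) * Real.log 16) * (R₀ + 1) + Real.log C +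
        Real.log D.factorial / D + Real.log (C * A ^ 2)) := by
    intro k
    have e1 : h₁ k ≤ Real.log C + ((k + R₀ + 1) * d) * Real.log 16 := by
      refine (Real.log_le_log (hV _) (hVb _)).trans (le_of_eq ?_)
      rw [Real.log_mul hC0.ne' (by positivity), Real.log_pow]
      push_cast
      ring
    have e2 : ∀ i j, |M (16 ^ (k + R₀)) i j| ≤ C * A ^ 2 * 16 ^ ((k + R₀ + 1) * (d + 2)) := by
      intro i j
      refine (Finset.abs_sum_le_sum_abs _ _).trans ?_
      refine (Finset.sum_le_card_nsmul _ _ ((A * 16 ^ (k + R₀ + 1)) ^ 2) fun x hx => ?_).trans ?_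
      · have e3 : A * (G.dist o x + 1) ≤ A * 16 ^ (k + R₀ + 1) := by
          gcongr
          have e4 : (G.dist o x : ℝ) ≤ 16 ^ (k + R₀) := by exact_mod_cast mem_ball.1 hx
          have : (1 : ℝ) ≤ 16 ^ (k + R₀) := one_le_pow₀ (by norm_num)
          rw [pow_succ]
          linarith
        rw [abs_mul, sq]
        exact mul_le_mul ((hA i x).trans e3) ((hA j x).trans e3) (abs_nonneg _) (by positivity)
      · rw [nsmul_eq_mul]
        refine (mul_le_mul_of_nonneg_right (hVb _) (by positivity)).trans (le_of_eq ?_)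
        ring
    have e3 := Matrix.det_le (abv := AbsoluteValue.abs) e2
    have e4 : h₂ k ≤ Real.log D.factorial / D + Real.log (C * A ^ 2) +
        ((k + R₀ + 1) * (d + 2)) * Real.log 16 := by
      rw [hh₂]
      simp only
      rw [div_le_iff₀ hD0]
      refine (Real.log_le_log (hpd _ (hsc k)).det_pos ((le_abs_self _).trans e3)).trans
        (le_of_eq ?_)
      rw [nsmul_eq_mul, Real.log_mul (by positivity) (by positivity), Real.log_pow,
        Real.log_mul (by positivity) (by positivity), Real.log_pow]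
      push_cast
      field_simp
      ring
    simp only [Pi.add_apply]
    nlinarith
  obtain ⟨i, g1, g2, g3⟩ := exists_scale (m₁.add m₂)
    (mul_pos (by positivity) (Real.log_pos (by norm_num))) hbound (w + 1)
  have hlog : 4 * ((2 * d + 2) * Real.log 16) = Real.log θ := by
    rw [hθ, Real.log_pow]
    push_cast
    ring
  rw [hlog] at g1 g2 g3
  set s := 16 ^ (i + R₀) with hs
  set R := 16 ^ (i + (w + 1) + R₀) with hR
  have hs1 : 16 ^ (i + 1 + R₀) = 16 * s := by rw [hs]; ring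
  have hR1 : 16 ^ (i + (w + 1) + 1 + R₀) = 16 * R := by rw [hR]; ring
  have hRs : R = 16 ^ w * (16 * s) := by rw [hR, hs]; ring
  have hs0 : 1 ≤ s := Nat.one_le_pow _ _ (by norm_num)
  have hw0 : 1 ≤ 16 ^ w := Nat.one_le_pow _ _ (by norm_num)
  have k1 : ((ball G o (16 * s)).card : ℝ) ≤ θ * (ball G o s).card := by
    rw [← Real.log_le_log_iff (hV _) (mul_pos (by linarith) (hV _)),
      Real.log_mul (by linarith) (hV _).ne', ← hs1]
    linarith [m₂ (Nat.le_succ i)]
  have k2 : (M (16 * R)).det ≤ θ ^ D * (M R).det := by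
    have p1 := (hpd _ (hsc (i + (w + 1)))).det_pos
    have p2 := (hpd _ (hsc (i + (w + 1) + 1))).det_pos
    rw [← hR1, ← Real.log_le_log_iff p2 (mul_pos (by positivity) p1),
      Real.log_mul (by positivity) p1.ne', Real.log_pow]
    have : h₂ (i + (w + 1) + 1) - h₂ (i + (w + 1)) ≤ Real.log θ := by
      linarith [m₁ (Nat.le_succ (i + (w + 1)))]
    rw [hh₂] at this
    simp only [← sub_div, div_le_iff₀ hD0] at this
    linarith
  have k3 : ((ball G o (16 * R)).card : ℝ) ≤ θ ^ (w + 2) * (ball G o s).card := by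
    rw [← Real.log_le_log_iff (hV _) (mul_pos (by positivity) (hV _)),
      Real.log_mul (by positivity) (hV _).ne', ← hR1, Real.log_pow]
    push_cast at g3 ⊢
    linarith [m₂ (show i ≤ i + (w + 1) + 1 by omega)]
  obtain ⟨X, hXB, hX, hcov⟩ := exists_net (G := G) (ball G o R) (2 * s)
  have hXc : (X.card : ℝ) ≤ θ ^ (w + 2) := by
    have e1 := packing ht o hX fun x hx => mem_ball.1 (hXB hx)
    have e2 : (X.card : ℝ) * (ball G o s).card ≤ (ball G o (16 * R)).card := by
      exact_mod_cast e1.trans (Finset.card_le_card (ball_mono o (by nlinarith)))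
    exact le_of_mul_le_mul_right (e2.trans k3) (hV s)
  have hθ2 : 0 < 1 / θ ^ 2 := by positivity
  have k4 := det_le_of_subspace (κ := X) (hpd R (hsc _)).posSemidef
    (hpd (16 * R) (hR1 ▸ hsc _)) (hmono _ _ (by omega))
    (LinearMap.pi fun x : X => (∑ y ∈ ball G x (2 * s), LinearMap.proj y) ∘ₗ U) hθ2.le
    (by rw [div_le_one (by positivity)]; exact one_le_pow₀ hθ1.le) (fun c hc => by
      rw [hq, hq]
      refine (key_est ht ha o hΔ (hUm c).1 hs0 (by nlinarith) k1 hXB hX hcov fun x hx => by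
        simpa using congrFun hc ⟨x, hx⟩).trans ?_
      refine mul_le_mul_of_nonneg_right ?_ (Finset.sum_nonneg fun _ _ => sq_nonneg _)
      rw [div_le_div_iff₀ (by positivity) (by positivity), hRs]
      push_cast
      have e1 : ((16 : ℝ) ^ w) ^ 2 = 256 ^ w := by rw [← pow_mul, mul_comm, pow_mul]; norm_num
      rw [mul_pow, e1]
      have : (0 : ℝ) ≤ (s : ℝ) ^ 2 := by positivity
      have : (0 : ℝ) ≤ 256 ^ w := by positivity
      nlinarith)
  have p1 := (hpd R (hsc _)).det_pos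
  have k5 : θ ^ (2 * (D - X.card)) ≤ θ ^ D := by
    rw [Fintype.card_coe, ← hD, one_div, inv_pow, ← pow_mul,
      le_inv_mul_iff₀ (by positivity)] at k4
    exact le_of_mul_le_mul_right (k4.trans k2) p1
  have k6 := (pow_le_pow_iff_right₀ hθ1).1 k5
  have k7 : X.card ≤ (16 ^ (4 * (2 * d + 2))) ^ (w + 2) := by
    rw [hθ] at hXc
    exact_mod_cast hXc
  omega

theorem finite_HL [Fact G.Connected] (ht : VT G) (ha : Amenable G) (o : V) {C d : ℕ}
    (hC : ∀ r, (ball G o r).card ≤ C * (r + 1) ^ d) : Module.Finite ℝ (HL G) := by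
  obtain ⟨D₀, hD⟩ := card_le_of_linInd ht ha o hC
  rw [← Module.rank_lt_aleph0_iff]
  refine lt_of_le_of_lt (rank_le (n := D₀) fun s hs => ?_) (Cardinal.natCast_lt_aleph0)
  simpa using hD s (fun i => ((i : HL G) : V → ℝ)) (fun i => (i : HL G).2)
    (hs.map' (HL G).subtype (Submodule.ker_subtype _))

end Pool.Agent.MP_77f003_co.H49
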