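import Mathlib

/-!
An infinite finitely generated group of polynomial growth that embeds in the unit ball of a finite
dimensional normed algebra has a finite index subgroup with a nontrivial homomorphism to `ℤ`.
-/

namespace Pool.Agent.MP_77f003_co.H49

open scoped commutatorElement Pointwise

/-- Virtual indicability. -/
def VI (Λ : Type) [Group Λ] : Prop :=
  ∃ H : Subgroup Λ, H.FiniteIndex ∧ ∃ χ : H →* Multiplicative ℤ, ∃ h, χ h ≠ 1

theorem exists_hom_int (A : Type) [g : Group A] (hA : ∀ a b : A, a * b = b * a) [Group.FG A]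
    [Infinite A] : ∃ χ : A →* Multiplicative ℤ, ∃ a, χ a ≠ 1 := by
  let _ : CommGroup A := { g with mul_comm := hA }
  have : Module.Finite ℤ (Additive A) := Module.Finite.iff_addGroup_fg.2 inferInstance
  obtain ⟨a, ha⟩ : ∃ a : Additive A, a ∉ Submodule.torsion ℤ (Additive A) := by
    by_contra h
    push Not at h
    have : Finite (Additive A) := Module.finite_of_fg_torsion _ fun x => h x
    exact not_finite (Additive A)
  have h1 : (Submodule.torsion ℤ (Additive A)).mkQ a ≠ 0 := by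
    simpa using ha
  rw [Ne, ← Module.forall_dual_apply_eq_zero_iff ℤ] at h1
  push Not at h1
  obtain ⟨φ, hφ⟩ := h1
  exact ⟨AddMonoidHom.toMultiplicativeRight
    (φ ∘ₗ (Submodule.torsion ℤ (Additive A)).mkQ).toAddMonoidHom, a.toMul, hφ⟩

theorem VI.comap {Γ Λ : Type} [Group Γ] [Group Λ] (π : Γ →* Λ) (hπ : Function.Surjective π)
    (h : VI Λ) : ∃ H : Subgroup Γ, H.FiniteIndex ∧ ∃ χ : H →* Multiplicative ℤ, (∃ h, χ h ≠ 1) ∧
      ∀ h : H, IsOfFinOrder (π h) → χ h = 1 := by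
  obtain ⟨H, hH, χ, h, hh⟩ := h
  refine ⟨H.comap π, ⟨by rw [H.index_comap_of_surjective hπ]; exact hH.index_ne_zero⟩,
    χ.comp (π.subgroupComap H), ?_, fun g hg => ?_⟩
  · obtain ⟨g, hg⟩ := hπ h
    refine ⟨⟨g, by simp [hg]⟩, ?_⟩
    convert hh using 1
    exact congrArg χ (Subtype.ext hg)
  · have h1 : IsOfFinOrder (π.subgroupComap H g) := Submonoid.isOfFinOrder_coe.1 hg
    exact (χ.isOfFinOrder h1).eq_one'

theorem VI.of_surj {Γ Λ : Type} [Group Γ] [Group Λ] (π : Γ →* Λ) (hπ : Function.Surjective π)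
    (h : VI Λ) : VI Γ := by
  obtain ⟨H, hH, χ, h1, -⟩ := h.comap π hπ
  exact ⟨H, hH, χ, h1⟩

theorem VI.of_subgroup {Λ : Type} [Group Λ] (H : Subgroup Λ) [hH : H.FiniteIndex] (h : VI H) :
    VI Λ := by
  obtain ⟨K, hK, χ, k, hk⟩ := h
  refine ⟨K.map H.subtype, ⟨?_⟩, χ.comp
    (K.equivMapOfInjective H.subtype H.subtype_injective).symm.toMonoidHom,
    K.equivMapOfInjective H.subtype H.subtype_injective k, by simpa using hk⟩
  rw [Subgroup.index_map_subtype]
  exact mul_ne_zero hK.index_ne_zero hH.index_ne_zero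

/-- All `k`-fold commutators of `h` with elements of `S` are trivial. -/
def Triv {Λ : Type} [Group Λ] (S : Set Λ) : ℕ → Λ → Prop
  | 0, h => h = 1
  | k + 1, h => ∀ s ∈ S, Triv S k ⁅s, h⁆

theorem triv_one {Λ : Type} [Group Λ] (S : Set Λ) (k : ℕ) : Triv S k 1 := by
  induction k with
  | zero => rfl
  | succ k ih => exact fun s _ => by simpa using ih

theorem Triv.quot {Λ : Type} [Group Λ] {S : Set Λ} (hS : Subgroup.closure S = ⊤) {k : ℕ} {h : Λ}
    (H : Triv S (k + 1) h) :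
    Triv (QuotientGroup.mk' (Subgroup.center Λ) '' S) k (QuotientGroup.mk' (Subgroup.center Λ) h) := by
  induction k generalizing h with
  | zero =>
    show (h : Λ ⧸ Subgroup.center Λ) = 1
    rw [QuotientGroup.eq_one_iff, Subgroup.mem_center_iff]
    intro g
    have hg : g ∈ Subgroup.closure S := hS ▸ Subgroup.mem_top g
    have : Subgroup.closure S ≤ Subgroup.centralizer {h} := (Subgroup.closure_le _).2 fun s hs =>
      Subgroup.mem_centralizer_singleton_iff.2 (commutatorElement_eq_one_iff_mul_comm.1 (H s hs))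
    exact Subgroup.mem_centralizer_singleton_iff.1 (this hg)
  | succ k ih =>
    rintro _ ⟨s, hs, rfl⟩
    rw [← map_commutatorElement]
    exact ih (H s hs)

theorem vi_of_triv (k : ℕ) : ∀ (Λ : Type) [Group Λ] [Infinite Λ] (S : Set Λ), S.Finite →
    Subgroup.closure S = ⊤ → (∀ s ∈ S, Triv S k s) → VI Λ := by
  induction k with
  | zero =>
    intro Λ _ _ S _ hS h
    have : (⊤ : Subgroup Λ) ≤ ⊥ := hS ▸ (Subgroup.closure_le _).2 fun s hs => h s hs
    obtain ⟨g, hg⟩ := exists_ne (1 : Λ)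
    exact absurd (this (Subgroup.mem_top g)) hg
  | succ k ih =>
    intro Λ _ _ S hf hS h
    cases finite_or_infinite (Λ ⧸ Subgroup.center Λ) with
    | inr hq =>
      refine (ih _ (QuotientGroup.mk' (Subgroup.center Λ) '' S) (hf.image _) ?_ ?_).of_surj _
        (QuotientGroup.mk'_surjective _)
      · rw [← MonoidHom.map_closure, hS, Subgroup.map_top_of_surjective _
          (QuotientGroup.mk'_surjective _)]
      · rintro _ ⟨s, hs, rfl⟩
        exact (h s hs).quot hS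
    | inl hq =>
      have hi : (Subgroup.center Λ).FiniteIndex := Subgroup.finiteIndex_of_finite_quotient
      have : Group.FG Λ := Group.fg_iff.2 ⟨S, hS, hf⟩
      have : Infinite (Subgroup.center Λ) := by
        by_contra hcon
        have : Finite (Subgroup.center Λ) := not_infinite_iff_finite.1 hcon
        have : Finite Λ := Finite.of_equiv _
          (Subgroup.groupEquivQuotientProdSubgroup (s := Subgroup.center Λ)).symm
        exact not_finite Λ
      exact ⟨_, hi, exists_hom_int _ fun a b => Subtype.ext (b.2.comm a).symm.eq⟩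

theorem exists_finite_closure {Λ : Type} [Group Λ] (T : Set Λ) [h : Group.FG (Subgroup.closure T)] :
    ∃ S ⊆ T, S.Finite ∧ Subgroup.closure S = Subgroup.closure T := by
  obtain ⟨F, hF, hF'⟩ := (Subgroup.fg_iff _).1 ((Group.fg_iff_subgroup_fg _).1 h)
  have key : ∀ g ∈ Subgroup.closure T, ∃ S ⊆ T, S.Finite ∧ g ∈ Subgroup.closure S := by
    intro g hg
    induction hg using Subgroup.closure_induction with
    | mem x hx => exact ⟨{x}, by simpa using hx, Set.finite_singleton _,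
        Subgroup.subset_closure rfl⟩
    | one => exact ⟨∅, by simp, Set.finite_empty, Subgroup.one_mem _⟩
    | mul x y _ _ hx hy =>
      obtain ⟨S, h1, h2, h3⟩ := hx
      obtain ⟨S', h1', h2', h3'⟩ := hy
      exact ⟨S ∪ S', Set.union_subset h1 h1', h2.union h2', Subgroup.mul_mem _
        (Subgroup.closure_mono Set.subset_union_left h3)
        (Subgroup.closure_mono Set.subset_union_right h3')⟩
    | inv x _ hx =>
      obtain ⟨S, h1, h2, h3⟩ := hx
      exact ⟨S, h1, h2, Subgroup.inv_mem _ h3⟩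
  choose! S h1 h2 h3 using key
  have hFT : ∀ g ∈ F, g ∈ Subgroup.closure T := fun g hg => hF ▸ Subgroup.subset_closure hg
  refine ⟨⋃ g ∈ F, S g, Set.iUnion₂_subset fun g hg => h1 g (hFT g hg),
    hF'.biUnion fun g hg => h2 g (hFT g hg), le_antisymm (Subgroup.closure_mono
      (Set.iUnion₂_subset fun g hg => h1 g (hFT g hg))) ?_⟩
  rw [← hF, Subgroup.closure_le]
  exact fun g hg => Subgroup.closure_mono (Set.subset_biUnion_of_mem (u := S) hg) (h3 g (hFT g hg))

section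
variable {Λ A : Type} [Group Λ] [NormedRing A] [NormedAlgebra ℝ A] (ι : Λ →* A)
  (hι : ∀ g, ‖ι g‖ ≤ 1)
include hι

omit [NormedAlgebra ℝ A] in
theorem norm_ι_mul (g : Λ) (a : A) : ‖ι g * a‖ ≤ ‖a‖ :=
  (norm_mul_le _ _).trans (mul_le_of_le_one_left (norm_nonneg _) (hι g))

omit [NormedAlgebra ℝ A] in
theorem del_mul (g h : Λ) : ‖ι (g * h) - 1‖ ≤ ‖ι g - 1‖ + ‖ι h - 1‖ := by
  have : ι (g * h) - 1 = (ι g - 1) + ι g * (ι h - 1) := by rw [map_mul]; noncomm_ring
  rw [this]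
  exact (norm_add_le _ _).trans (by gcongr; exact norm_ι_mul ι hι _ _)

omit [NormedAlgebra ℝ A] in
theorem del_inv_mul (g h : Λ) : ‖ι (g⁻¹ * h) - 1‖ ≤ ‖ι h - ι g‖ := by
  have : ι (g⁻¹ * h) - 1 = ι g⁻¹ * (ι h - ι g) := by
    rw [mul_sub, ← map_mul, ← map_mul, inv_mul_cancel, map_one]
  rw [this]
  exact norm_ι_mul ι hι _ _

omit [NormedAlgebra ℝ A] in
theorem del_inv (g : Λ) : ‖ι g⁻¹ - 1‖ ≤ ‖ι g - 1‖ := by
  have := del_inv_mul ι hι g 1
  rwa [mul_one, map_one, norm_sub_rev 1] at this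

omit [NormedAlgebra ℝ A] in
theorem del_comm (g h : Λ) : ‖ι ⁅g, h⁆ - 1‖ ≤ 2 * ‖ι g - 1‖ * ‖ι h - 1‖ := by
  have e : ι ⁅g, h⁆ - 1 = ((ι g - 1) * (ι h - 1) - (ι h - 1) * (ι g - 1)) * ι (g⁻¹ * h⁻¹) := by
    have e1 : (ι g - 1) * (ι h - 1) - (ι h - 1) * (ι g - 1) = ι (g * h) - ι (h * g) := by
      rw [map_mul, map_mul]
      noncomm_ring
    rw [e1, sub_mul, ← map_mul, ← map_mul, commutatorElement_def]
    simp [mul_assoc]
  rw [e]
  refine (norm_mul_le _ _).trans ((mul_le_of_le_one_right (norm_nonneg _) (hι _)).trans ?_)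
  refine (norm_sub_le _ _).trans ?_
  linarith [norm_mul_le (ι g - 1) (ι h - 1), norm_mul_le (ι h - 1) (ι g - 1)]

omit [NormedAlgebra ℝ A] in
theorem del_pow_le (h : Λ) (b : ℕ) : ‖ι (h ^ b) - 1‖ ≤ b * ‖ι h - 1‖ := by
  induction b with
  | zero => simp
  | succ b ih =>
    have := del_mul ι hι (h ^ b) h
    rw [pow_succ]
    push_cast
    linarith

theorem le_del_pow (h : Λ) {b : ℕ} (hb : 1 ≤ b) (hb' : b * ‖ι h - 1‖ ≤ 1) :
    ‖ι h - 1‖ / 2 ≤ ‖ι (h ^ b) - 1‖ := by
  have key : ∀ b : ℕ, ‖ι (h ^ b) - 1 - (b : ℝ) • (ι h - 1)‖ ≤ (b * ‖ι h - 1‖) ^ 2 / 2 := by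
    intro b
    induction b with
    | zero => simp
    | succ b ih =>
      have e : ι (h ^ (b + 1)) - 1 - ((b + 1 : ℕ) : ℝ) • (ι h - 1) =
          (ι (h ^ b) - 1 - (b : ℝ) • (ι h - 1)) + (ι (h ^ b) - 1) * (ι h - 1) := by
        rw [pow_succ, map_mul, Nat.cast_succ, add_smul, one_smul]
        noncomm_ring
      rw [e]
      refine (norm_add_le _ _).trans ?_
      have e1 := (norm_mul_le (ι (h ^ b) - 1) (ι h - 1)).trans
        (mul_le_mul_of_nonneg_right (del_pow_le ι hι h b) (norm_nonneg _))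
      push_cast
      nlinarith [sq_nonneg ‖ι h - 1‖]
  have e1 := key b
  have e2 := norm_sub_norm_le ((b : ℝ) • (ι h - 1)) (ι (h ^ b) - 1)
  rw [norm_smul, Real.norm_natCast, norm_sub_rev ((b : ℝ) • (ι h - 1))] at e2
  have e3 : (1 : ℝ) ≤ b := by exact_mod_cast hb
  have e4 := norm_nonneg (ι h - 1)
  nlinarith [mul_nonneg (show (0 : ℝ) ≤ b by linarith) e4]

theorem many_products (hinj : Function.Injective ι) {B : ℕ → Set Λ}
    (hB1 : 1 ∈ B 0) (hBm : ∀ r s, r ≤ s → B r ⊆ B s)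
    (hBmul : ∀ r s, ∀ g ∈ B r, ∀ h ∈ B s, g * h ∈ B (r + s)) (hBinv : ∀ r, ∀ g ∈ B r, g⁻¹ ∈ B r)
    {S : Set Λ} {L q : ℕ} (hq : 1 ≤ q) (hSL : S ⊆ B L)
    (hS : ∀ s ∈ S, ‖ι s - 1‖ ≤ 1 / (20 * q)) (m : ℕ) :
    ∀ (h : Λ) (r : ℕ), h ∈ B r → ‖ι h - 1‖ ≤ 1 / (20 * q) → ¬ Triv S m h →
      ∃ X : Finset Λ, X.card = q ^ m ∧ ∀ x ∈ X, ‖ι x - 1‖ ≤ 2 * q * ‖ι h - 1‖ ∧
        x ∈ B (q * 3 ^ m * (r + 2 * L)) := by
  classical
  have hq' : (1 : ℝ) ≤ q := by exact_mod_cast hq
  have hpow : ∀ (h : Λ) (r a : ℕ), h ∈ B r → h ^ a ∈ B (a * r) := by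
    intro h r a hh
    induction a with
    | zero => simpa using hB1
    | succ a ih =>
      rw [pow_succ, add_mul, one_mul]
      exact hBmul _ _ _ ih _ hh
  induction m with
  | zero =>
    intro h r _ _ _
    refine ⟨{1}, by simp, fun x hx => ?_⟩
    rw [Finset.mem_singleton.1 hx]
    exact ⟨by simp; positivity, hBm _ _ (Nat.zero_le _) hB1⟩
  | succ m ih =>
    intro h r hr hδ hT
    have hne : h ≠ 1 := fun e => hT (e ▸ triv_one S _)
    have hpos : 0 < ‖ι h - 1‖ := norm_pos_iff.2 (sub_ne_zero.2 fun e => hne (hinj (by simpa using e)))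
    obtain ⟨s, hs, hT'⟩ : ∃ s ∈ S, ¬ Triv S m ⁅s, h⁆ := by
      by_contra hcon
      push Not at hcon
      exact hT hcon
    have e1 : ‖ι ⁅s, h⁆ - 1‖ ≤ ‖ι h - 1‖ / (10 * q) := by
      refine (del_comm ι hι s h).trans ?_
      calc _ ≤ 2 * (1 / (20 * q)) * ‖ι h - 1‖ := by gcongr; exact hS s hs
        _ = _ := by field_simp; ring
    have e2 : ‖ι h - 1‖ / (10 * q) ≤ ‖ι h - 1‖ := div_le_self hpos.le (by linarith)
    have e3 : ⁅s, h⁆ ∈ B (L + r + L + r) :=
      hBmul _ _ _ (hBmul _ _ _ (hBmul _ _ _ (hSL hs) _ hr) _ (hBinv _ _ (hSL hs))) _ (hBinv _ _ hr)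
    obtain ⟨X, hX, hX'⟩ := ih _ _ e3 (e1.trans (e2.trans hδ)) hT'
    have e4 : ∀ x ∈ X, ‖ι x - 1‖ ≤ ‖ι h - 1‖ / 5 := fun x hx => by
      refine (hX' x hx).1.trans ?_
      calc _ ≤ 2 * q * (‖ι h - 1‖ / (10 * q)) := by gcongr
        _ = _ := by field_simp; ring
    have key : ∀ a < q, ∀ a' < q, ∀ x ∈ X, ∀ x' ∈ X, a < a' → h ^ a * x ≠ h ^ a' * x' := by
      intro a ha a' ha' x hx x' hx' hlt he
      obtain ⟨b, rfl⟩ := Nat.exists_eq_add_of_lt hlt
      rw [add_assoc, pow_add, mul_assoc, mul_right_inj] at he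
      have f1 : h ^ (b + 1) = x * x'⁻¹ := by rw [he]; group
      have f2 := le_del_pow ι hι h (b := b + 1) (by omega) (by
        calc _ ≤ (q : ℝ) * (1 / (20 * q)) := by
              gcongr
              omega
          _ = 1 / 20 := by field_simp
          _ ≤ 1 := by norm_num)
      rw [f1] at f2
      linarith [del_mul ι hι x x'⁻¹, del_inv ι hι x', e4 x hx, e4 x' hx']
    refine ⟨(Finset.range q ×ˢ X).image fun p => h ^ p.1 * p.2, ?_, ?_⟩
    · rw [Finset.card_image_of_injOn, Finset.card_product, Finset.card_range, hX, pow_succ']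
      rintro ⟨a, x⟩ h1 ⟨a', x'⟩ h2 he
      simp only [Finset.coe_product, Finset.coe_range, Set.mem_prod, Set.mem_Iio,
        Finset.mem_coe] at h1 h2 he
      rcases lt_trichotomy a a' with hlt | rfl | hlt
      · exact absurd he (key _ h1.1 _ h2.1 _ h1.2 _ h2.2 hlt)
      · rw [mul_left_cancel he]
      · exact absurd he.symm (key _ h2.1 _ h1.1 _ h2.2 _ h1.2 hlt)
    · intro y hy
      obtain ⟨⟨a, x⟩, h1, rfl⟩ := Finset.mem_image.1 hy
      obtain ⟨h1, h2⟩ := Finset.mem_product.1 h1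
      have h1 : a ≤ q := (Finset.mem_range.1 h1).le
      refine ⟨(del_mul ι hι _ _).trans ?_, hBm _ _ ?_ (hBmul _ _ _ (hpow h r a hr) _ (hX' x h2).2)⟩
      · have f1 := del_pow_le ι hι h a
        have f2 : (a : ℝ) ≤ q := by exact_mod_cast h1
        have f3 := e4 x h2
        nlinarith
      · have f1 : 1 ≤ 3 ^ m := Nat.one_le_pow _ _ (by norm_num)
        have f2 : a * r ≤ q * 3 ^ m * (r + 2 * L) :=
          Nat.mul_le_mul (h1.trans (Nat.le_mul_of_pos_right _ f1)) (by omega)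
        calc _ ≤ q * 3 ^ m * (r + 2 * L) + q * 3 ^ m * (L + r + L + r + 2 * L) := by omega
          _ = _ := by ring

theorem vi_of_bounded [ProperSpace A] [Group.FG Λ] [Infinite Λ] (hinj : Function.Injective ι)
    {B : ℕ → Set Λ} (hB1 : 1 ∈ B 0) (hBm : ∀ r s, r ≤ s → B r ⊆ B s)
    (hBmul : ∀ r s, ∀ g ∈ B r, ∀ h ∈ B s, g * h ∈ B (r + s)) (hBinv : ∀ r, ∀ g ∈ B r, g⁻¹ ∈ B r)
    (hBall : ∀ g, ∃ r, g ∈ B r) {C d : ℕ}
    (hC : ∀ r (X : Finset Λ), (∀ x ∈ X, x ∈ B r) → X.card ≤ C * (r + 1) ^ d) : VI Λ := by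
  set q := 3 ^ (d + 1) with hq
  have hq1 : 1 ≤ q := Nat.one_le_pow _ _ (by norm_num)
  set T := {g : Λ | ‖ι g - 1‖ ≤ 1 / (20 * q)} with hT
  have hfi : (Subgroup.closure T).FiniteIndex := by
    obtain ⟨t, -, ht, hcov⟩ := finite_cover_balls_of_compact (isCompact_closedBall (0 : A) 1)
      (e := 1 / (40 * q)) (by positivity)
    have : ∀ g : Λ, ∃ a : t, dist (ι g) a < 1 / (40 * q) := by
      intro g
      obtain ⟨a, ha, h⟩ := Set.mem_iUnion₂.1 (hcov (show ι g ∈ _ by simpa using hι g))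
      exact ⟨⟨a, ha⟩, h⟩
    choose c hc using this
    have := ht.to_subtype
    have : Finite (Λ ⧸ Subgroup.closure T) := by
      refine Finite.of_injective (fun x => c x.out) fun x y hxy => ?_
      rw [← x.out_eq, ← y.out_eq]
      refine QuotientGroup.eq.2 (Subgroup.subset_closure ((del_inv_mul ι hι _ _).trans ?_))
      have e1 := hc x.out
      have e2 := hc y.out
      simp only at hxy
      rw [hxy] at e1
      have e3 := dist_triangle_right (ι y.out) (ι x.out) (c y.out)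
      rw [← dist_eq_norm]
      have : (1 : ℝ) / (20 * q) = 1 / (40 * q) + 1 / (40 * q) := by field_simp; ring
      linarith
    exact Subgroup.finiteIndex_of_finite_quotient
  obtain ⟨S, hST, hSf, hS⟩ := exists_finite_closure T
  obtain ⟨L, hL⟩ : ∃ L, S ⊆ B L := by
    choose ρ hρ using hBall
    obtain ⟨L, hL⟩ := (hSf.image ρ).bddAbove
    exact ⟨L, fun s hs => hBm _ _ (hL ⟨s, hs, rfl⟩) (hρ s)⟩
  obtain ⟨m, hm⟩ : ∃ m : ℕ, C * (q * (3 * L) + 1) ^ d < 3 ^ m :=
    pow_unbounded_of_one_lt _ (by norm_num)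
  have htriv : ∀ s ∈ S, Triv S m s := by
    intro s hs
    by_contra hcon
    obtain ⟨X, h1, h2⟩ := many_products ι hι hinj hB1 hBm hBmul hBinv hq1 hL hST m s L (hL hs)
      (hST hs) hcon
    have e1 := hC _ X fun x hx => (h2 x hx).2
    have e2 : q * 3 ^ m * (L + 2 * L) + 1 ≤ (q * (3 * L) + 1) * 3 ^ m := by
      have : 1 ≤ 3 ^ m := Nat.one_le_pow _ _ (by norm_num)
      nlinarith
    have e3 : q ^ m ≤ C * (q * (3 * L) + 1) ^ d * (3 ^ m) ^ d := by
      rw [← h1, mul_assoc, ← mul_pow]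
      exact e1.trans (Nat.mul_le_mul_left _ (Nat.pow_le_pow_left e2 _))
    have e4 : q ^ m = 3 ^ m * (3 ^ m) ^ d := by rw [hq]; ring
    rw [e4] at e3
    exact absurd (Nat.le_of_mul_le_mul_right e3 (by positivity)) (not_le.2 hm)
  rw [← hS] at hfi
  have : Infinite (Subgroup.closure S) := by
    by_contra hcon
    have : Finite (Subgroup.closure S) := not_infinite_iff_finite.1 hcon
    have : Finite Λ := Finite.of_equiv _
      (Subgroup.groupEquivQuotientProdSubgroup (s := Subgroup.closure S)).symm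
    exact not_finite Λ
  have key : ∀ (k : ℕ) (g : Subgroup.closure S), Triv S k (g : Λ) →
      Triv ((Subgroup.closure S).subtype ⁻¹' S) k g := by
    intro k
    induction k with
    | zero => exact fun g hg => Subtype.ext hg
    | succ k ih => exact fun g hg s hs => ih _ (hg s hs)
  exact (vi_of_triv m _ _ (hSf.preimage (Subgroup.subtype_injective _).injOn)
    (Subgroup.closure_preimage_eq_top S) fun s hs => key m s (htriv s hs)).of_subgroup _

end

end Pool.Agent.MP_77f003_co.H49
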