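import Pool.Agent.MP_77f003_co.H49.Order
import Pool.Agent.MP_77f003_co.H49.Cyl

/-!
A non-amenable one-ended vertex-transitive graph without crossing gadgets is quasi-isometric to a
planar graph.
-/

namespace Pool.Agent.MP_77f003_co.H49

open SimpleGraph Filter

variable {V : Type} {G : SimpleGraph V} {K : ℕ} [Fact G.Connected]

/-- A geodesic ray starting at `o`. -/
def GR (G : SimpleGraph V) (o : V) (a : ℕ → V) : Prop :=
  (∀ k, G.dist o (a k) = k) ∧ ∀ k, G.dist (a k) (a (k + 1)) ≤ 1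

theorem GR.geo {o : V} {a : ℕ → V} (h : GR G o a) (n : ℕ) : Geo G a n := fun i j hij _ => by
  have e1 := dist_lazy h.2 hij
  have e2 := tri (G := G) o (a i) (a j)
  rw [h.1, h.1] at e2
  omega

theorem GR.zero {o : V} {a : ℕ → V} (h : GR G o a) : a 0 = o := (eq_of_dist (h.1 0)).symm

theorem GR.isR {o : V} {a : ℕ → V} (h : GR G o a) : IsR G a :=
  ⟨1, h.2, fun i j hij => by rw [h.geo j i j hij le_rfl]; omega⟩

theorem GR.le {o : V} {a : ℕ → V} (h : GR G o a) (z : V) (k m : ℕ) (hz : G.dist o z = m) :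
    G.dist z (a m) ≤ 2 * G.dist z (a k) := by
  have e1 := tri (G := G) z (a k) (a m)
  have e2 := tri (G := G) o z (a k)
  have e3 := tri (G := G) o (a k) z
  rw [h.1, hz] at e2 e3
  rw [dcomm (a k) z] at e3
  rcases le_total k m with h1 | h1
  · rw [h.geo m k m h1 le_rfl] at e1
    omega
  · rw [dcomm (a k), h.geo k m k h1 le_rfl] at e1
    omega

theorem GR.ft {δ : ℕ} (hδ : Slim G 10 δ) {o : V} {a b : ℕ → V} (ha : GR G o a) (hb : GR G o b)
    {n k m : ℕ} (h : m + G.dist (a n) (b k) + δ < n) : G.dist (a m) (b m) ≤ 2 * δ := by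
  obtain ⟨W, w1, w2, w3, w4⟩ := exists_seg (G := G) (b k) (a n)
  obtain ⟨z, hz, e1⟩ := hδ a n (b '' Set.Iic k ∪ W) (ha.geo n) (((Set.finite_Iic _).image _).union w1)
    (fun x => ((hb.geo k).thin x).union (w2 x)) (by
      rw [ha.zero, ← hb.zero]
      exact ((hb.geo k).lk (Nat.zero_le _) le_rfl fun j _ hj => Or.inl ⟨j, hj, rfl⟩).trans
        (w3.mono Set.subset_union_right)) m (by omega)
  rcases hz with ⟨j, -, rfl⟩ | hz
  · have := hb.le (a m) j m (ha.1 m)
    omega
  · have e2 := w4 z hz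
    have e3 := tri (G := G) (a m) z (a n)
    rw [ha.geo n m n (by omega) le_rfl, dcomm (b k) (a n)] at *
    omega

theorem GR.near {δ : ℕ} (hδ : Slim G 10 δ) {o : V} {a b : ℕ → V} (ha : GR G o a) (hb : GR G o b)
    {n k m : ℕ} (h : m ≤ n) : G.dist (a m) (b m) ≤ 4 * G.dist (a n) (b k) + 2 * δ := by
  rcases lt_or_ge (m + G.dist (a n) (b k) + δ) n with h1 | h1
  · have := GR.ft hδ ha hb h1
    omega
  · have e1 := hb.le (a m) k m (ha.1 m)
    have e2 := tri (G := G) (a m) (a n) (b k)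
    rw [ha.geo n m n h le_rfl] at e2
    omega

theorem GR.asym {δ : ℕ} (hδ : Slim G 10 δ) {o : V} {a b : ℕ → V} (ha : GR G o a) (hb : GR G o b)
    (h : ¬ Div G a b) (m : ℕ) : G.dist (a m) (b m) ≤ 2 * δ := by
  unfold Div at h
  push Not at h
  obtain ⟨t, ht⟩ := h
  obtain ⟨n, ⟨k, h1⟩, h2⟩ := (ht.and_eventually (eventually_gt_atTop (m + t + δ))).exists
  exact GR.ft hδ ha hb (n := n) (k := k) (by omega)

omit [Fact G.Connected] in
theorem not_div {a b : ℕ → V} {C : ℕ} (h : ∀ m, G.dist (a m) (b m) ≤ C) : ¬ Div G a b := by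
  intro hd
  obtain ⟨n, hn⟩ := (hd (C + 1)).exists
  have := hn n
  have := h n
  omega

theorem GR.lnk {δ : ℕ} (hδ : Slim G 10 δ) {o : V} {a b c d : ℕ → V} (ha : GR G o a)
    (hb : GR G o b) (hc : GR G o c) (hd : GR G o d) {m R : ℕ} (h : G.dist (a m) (b m) ≤ R)
    (h1 : 2 * R + 4 * K + 2 * δ < G.dist (a m) (c m))
    (h2 : 2 * R + 4 * K + 2 * δ < G.dist (a m) (d m)) : Lnk G K a b c d := by
  obtain ⟨W, w1, -, w3, w4⟩ := exists_seg (G := G) (a m) (b m)
  have key : ∀ {e}, GR G o e → 2 * R + 4 * K + 2 * δ < G.dist (a m) (e m) →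
      Far G K (W ∪ a '' Set.Ici m ∪ b '' Set.Ici m) (Set.range e) := by
    rintro e he h3 w ((hw | ⟨n, hn, rfl⟩) | ⟨n, hn, rfl⟩) _ ⟨k, rfl⟩
    · have e1 := w4 w hw
      have e2 := he.le (a m) k m (ha.1 m)
      have e3 := tri (G := G) (a m) w (e k)
      omega
    · have := GR.near hδ ha he (k := k) hn
      omega
    · have := GR.near hδ hb he (k := k) hn
      have e3 := tri (G := G) (a m) (b m) (e m)
      omega
  refine ⟨W, c '' Set.Iic m ∪ d '' Set.Iic m, m, m, m, m, w1,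
    ((Set.finite_Iic _).image _).union ((Set.finite_Iic _).image _), w3, ?_,
    ((key hc h1).union' (key hd h2)).mono le_rfl ?_⟩
  · refine ((hc.geo m).lk (Nat.zero_le _) le_rfl fun j _ hj => Or.inl ⟨j, hj, rfl⟩).symm.trans ?_
    rw [hc.zero, ← hd.zero]
    exact (hd.geo m).lk (Nat.zero_le _) le_rfl fun j _ hj => Or.inr ⟨j, hj, rfl⟩
  · rintro _ (((⟨k, -, rfl⟩ | ⟨k, -, rfl⟩) | ⟨k, -, rfl⟩) | ⟨k, -, rfl⟩)
    exacts [Or.inl ⟨k, rfl⟩, Or.inr ⟨k, rfl⟩, Or.inl ⟨k, rfl⟩, Or.inr ⟨k, rfl⟩]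

omit [Fact G.Connected] in
theorem pigeon {B : Finset V} {P : V → ℕ → Prop} (h : ∀ n, ∃ u ∈ B, P u n) :
    ∃ u ∈ B, ∀ m, ∃ n, m ≤ n ∧ P u n := by
  by_contra hcon
  push Not at hcon
  have : ∀ᶠ n in atTop, ∀ u ∈ B, ¬ P u n := (eventually_all_finset B).2 fun u hu => by
    obtain ⟨m, hm⟩ := hcon u hu
    exact eventually_atTop.2 ⟨m, hm⟩
  obtain ⟨n, hn⟩ := this.exists
  obtain ⟨u, h1, h2⟩ := h n
  exact hn u h1 h2

variable [G.LocallyFinite]

theorem exists_branches [Infinite V] (ht : VT G) {δ : ℕ} (hδ : Slim G 10 δ) (o : V) :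
    ∃ (S : Set V) (β : S → ℕ → V) (ch : S → S), (∀ v, GR G o (β v)) ∧
      (∀ v, β v (G.dist o v) = v) ∧ (∀ v, β (ch v) = β v) ∧
      (∀ v : S, G.dist o (ch v) = G.dist o v + 1) ∧ ∀ x, ∃ v : S, G.dist x v ≤ δ := by
  have : ∀ v, ∃ z, G.dist v z ≤ 1 ∧ G.dist o z = G.dist o v - 1 := fun v => by
    rcases h : G.dist v o with _ | k
    · exact ⟨v, by simp, by rw [dcomm, h]⟩
    · obtain ⟨z, h1, h2⟩ := exists_step h
      exact ⟨z, (dist_adj h1).le, by rw [dcomm, h2, dcomm, h]; rfl⟩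
  choose par p1 p2 using this
  have p3 : ∀ n v, G.dist o (par^[n] v) = G.dist o v - n := by
    intro n v
    induction n with
    | zero => rfl
    | succ n ih => rw [Function.iterate_succ_apply', p2, ih]; omega
  have p4 : ∀ v n, G.dist (par^[n] v) (par^[n + 1] v) ≤ 1 := fun v n => by
    rw [Function.iterate_succ_apply']
    exact p1 _
  let S : Set V := {v | ∀ n, ∃ w, G.dist o w = G.dist o v + n ∧ par^[n] w = v}
  have hS : ∀ u, (∀ m, ∃ n, m ≤ n ∧ ∃ w, G.dist o w = G.dist o u + n ∧ par^[n] w = u) → u ∈ S := by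
    intro u h m
    obtain ⟨n, h1, w, h2, h3⟩ := h m
    refine ⟨par^[n - m] w, by rw [p3]; omega, ?_⟩
    rw [← Function.iterate_add_apply, Nat.add_sub_cancel' h1, h3]
  have hch : ∀ v : S, ∃ u : S, par u = v ∧ G.dist o u = G.dist o v + 1 := by
    rintro ⟨v, hv⟩
    obtain ⟨u, -, hu⟩ := pigeon (B := ball G v 1) (P := fun u n => par u = v ∧
      G.dist o u = G.dist o v + 1 ∧ ∃ w, G.dist o w = G.dist o u + n ∧ par^[n] w = u) fun n => by
        obtain ⟨w, h1, h2⟩ := hv (n + 1)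
        rw [Function.iterate_succ_apply'] at h2
        refine ⟨par^[n] w, mem_ball.2 ?_, h2, by rw [p3]; omega, w, by rw [p3]; omega, rfl⟩
        rw [← h2, dcomm]
        exact p1 _
    obtain ⟨-, -, h1, h2, -⟩ := hu 0
    exact ⟨⟨u, hS u fun m => (hu m).imp fun n h => ⟨h.1, h.2.2.2⟩⟩, h1, h2⟩
  choose ch c1 c2 using hch
  have c3 : ∀ n (v : S), G.dist o (ch^[n] v : S) = G.dist o v + n := by
    intro n v
    induction n with
    | zero => rfl
    | succ n ih => rw [Function.iterate_succ_apply', c2, ih]; omega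
  refine ⟨S, fun v k => if k ≤ G.dist o v then par^[G.dist o v - k] v
    else (ch^[k - G.dist o v] v : S), ch, fun v => ⟨fun k => ?_, fun k => ?_⟩, fun v => by simp,
    fun v => funext fun k => ?_, c2, fun x => ?_⟩
  · beta_reduce
    split_ifs
    · rw [p3]; omega
    · rw [c3]; omega
  · beta_reduce
    split_ifs with h1 h2 h2
    · rw [show G.dist o v - k = G.dist o v - (k + 1) + 1 by omega, dcomm]
      exact p4 _ _
    · rw [show G.dist o v - k = 0 by omega, show k + 1 - G.dist o v = 1 by omega, dcomm]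
      simpa [c1] using p1 (ch v)
    · omega
    · rw [show k + 1 - G.dist o v = k - G.dist o v + 1 by omega, Function.iterate_succ_apply',
        dcomm]
      simpa [c1] using p1 (ch (ch^[k - G.dist o v] v))
  · beta_reduce
    rw [c2]
    split_ifs with h1 h2 h2
    · rw [show G.dist o v + 1 - k = G.dist o v - k + 1 by omega, Function.iterate_succ_apply, c1]
    · rw [show G.dist o v + 1 - k = 0 by omega, show k - G.dist o v = 1 by omega]
      rfl
    · omega
    · rw [show k - G.dist o v = k - (G.dist o v + 1) + 1 by omega, Function.iterate_succ_apply]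
  · obtain ⟨L0, hL0⟩ := exists_line ht o
    obtain ⟨φ, hφ⟩ := ht (L0 0) x
    have hL : IsLine G fun i => φ (L0 i) := fun i j => by rw [dist_iso, hL0]
    have hgeo : ∀ w, Geo G (fun k => par^[k] w) (G.dist o w) := fun w i j hij hj => by
      have e1 := dist_lazy (g := fun k => par^[k] w) (p4 w) hij
      have e2 := tri (G := G) o (par^[j] w) (par^[i] w)
      rw [p3, p3, dcomm (par^[j] w)] at e2
      simp only at e1 ⊢
      omega
    have hlk : ∀ w, Lk G ((fun k => par^[k] w) '' Set.Iic (G.dist o w)) w o := fun w => by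
      have := (hgeo w).lk (S := (fun k => par^[k] w) '' Set.Iic (G.dist o w)) (Nat.zero_le _)
        le_rfl fun k _ hk => ⟨k, hk, rfl⟩
      rwa [← eq_of_dist (show G.dist o (par^[G.dist o w] w) = 0 by rw [p3]; omega)] at this
    obtain ⟨u, hu, hu'⟩ := pigeon (B := ball G x δ) (P := fun u n => ∃ k, n ≤ k + δ ∧
      ∃ w, G.dist o w = G.dist o u + k ∧ par^[k] w = u) fun n => by
        obtain ⟨z, hz, e1⟩ := hδ (fun k => φ (L0 (k - n))) (2 * n)
          ((fun k => par^[k] (φ (L0 (-n)))) '' Set.Iic _ ∪ (fun k => par^[k] (φ (L0 n))) '' Set.Iic _)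
          (fun a b h1 h2 => by rw [hL]; omega)
          (((Set.finite_Iic _).image _).union ((Set.finite_Iic _).image _))
          (fun x => ((hgeo _).thin x).union ((hgeo _).thin x)) (by
            rw [show (((0 : ℕ) : ℤ) - n) = -n by omega, show (((2 * n : ℕ) : ℤ) - n) = n by omega]
            exact ((hlk _).mono Set.subset_union_left).trans
              ((hlk _).symm.mono Set.subset_union_right)) n (by omega)
        rw [sub_self, hφ] at e1
        have key : ∀ i : ℤ, i.natAbs = n → ∀ k, k ≤ G.dist o (φ (L0 i)) →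
            G.dist x (par^[k] (φ (L0 i))) ≤ δ → n ≤ k + δ := by
          intro i hi k hk h
          have e2 := hgeo _ 0 k (Nat.zero_le _) hk
          have e3 := hL 0 i
          have e4 := tri (G := G) x (par^[k] (φ (L0 i))) (φ (L0 i))
          simp only [hφ, Function.iterate_zero_apply] at e2 e3
          rw [dcomm] at e2
          omega
        rcases hz with ⟨k, hk, rfl⟩ | ⟨k, hk, rfl⟩
        · exact ⟨_, mem_ball.2 e1, k, key _ (by simp) k hk e1, _,
            by rw [p3]; exact (Nat.sub_add_cancel hk).symm, rfl⟩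
        · exact ⟨_, mem_ball.2 e1, k, key _ (by simp) k hk e1, _,
            by rw [p3]; exact (Nat.sub_add_cancel hk).symm, rfl⟩
    refine ⟨⟨u, hS u fun m => ?_⟩, mem_ball.1 hu⟩
    obtain ⟨n, h1, k, h2, h3⟩ := hu' (m + δ)
    exact ⟨k, by omega, h3⟩

theorem countable_vert (G : SimpleGraph V) [Fact G.Connected] [G.LocallyFinite] :
    Countable V := by
  obtain ⟨o⟩ := (Fact.out : G.Connected).nonempty
  rw [← Set.countable_univ_iff]
  exact (Set.countable_iUnion fun n => (finite_ball (G := G) o n).countable).mono fun x _ =>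
    Set.mem_iUnion.2 ⟨G.dist o x, Nat.le_refl _⟩

theorem cyl_of_not_switch (hna : ¬ Amenable G) (ht : VT G) (hS : ¬ Switch G K) {o : V}
    (hOE : ∀ α β, IsR G α → IsR G β → AdjI G o ∅ α β) :
    ∃ (W : Type) (P : SimpleGraph W) (x : W → ℝ) (y : W → ℕ), P.Connected ∧ QuasiIsometric G P ∧
      (∀ n, {w | y w = n}.Finite) ∧ (∀ u v (k : ℤ), x u = x v + k → y u = y v → u = v) ∧
      ∀ u v, P.Adj u v → ((x u = x v ∧ y v = y u + 1) ∨ ∃ k, Hor x y u v k) ∨
        ((x v = x u ∧ y u = y v + 1) ∨ ∃ k, Hor x y v u k) := by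
  classical
  have := infinite_of_not_amenable hna
  have := countable_vert G
  have hΔ : ∀ v, G.degree v ≤ G.degree o := fun v => (degree_eq ht v o).le
  obtain ⟨δ, hδ⟩ := exists_slim hna ht hS 10
  obtain ⟨S, β, ch, b1, b2, b3, b4, b5⟩ := exists_branches ht hδ o
  let st : Setoid S := ⟨fun u v => ¬ Div G (β u) (β v), fun u h => h.ne rfl,
    fun {u v} h h' => h (h'.symm (b1 v).isR (b1 u).isR), fun {u v w} h h' =>
      not_div (C := 4 * δ) fun m => by
        have e1 := GR.asym hδ (b1 u) (b1 v) h m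
        have e2 := GR.asym hδ (b1 v) (b1 w) h' m
        have e3 := tri (G := G) (β u m) (β v m) (β w m)
        omega⟩
  have hd : ∀ a b : Quotient st, a ≠ b → Div G (β a.out) (β b.out) := fun a b h => by
    by_contra hcon
    exact h (Quotient.out_equiv_out.1 hcon)
  obtain ⟨θ, θ1, θ2⟩ := exists_order hOE hS (φ := fun a : Quotient st => β a.out)
    (fun a => (b1 _).isR) hd
  obtain ⟨g, hg⟩ := Set.countable_iff_exists_injOn.1 (Set.countable_range β)
  have : Nontrivial (Set.Ioo (0 : ℝ) 1) :=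
    ⟨⟨⟨1 / 2, by norm_num⟩, ⟨1 / 3, by norm_num⟩, by norm_num⟩⟩
  have : Countable (ℚ ×ₗ ℕ) := inferInstanceAs (Countable (ℚ × ℕ))
  obtain ⟨em⟩ := Order.embedding_from_countable_to_dense (ℚ ×ₗ ℕ) (Set.Ioo (0 : ℝ) 1)
  let x : S → ℝ := fun v => em (toLex (θ ⟦v⟧, g (β v)))
  let y : S → ℕ := fun v => G.dist o v
  have x0 : ∀ v, 0 < x v := fun v => (em _).2.1
  have x1 : ∀ v, x v < 1 := fun v => (em _).2.2
  have x2 : ∀ v, x (ch v) = x v := fun v => by
    have : (⟦ch v⟧ : Quotient st) = ⟦v⟧ := Quotient.sound fun h => h.ne (b3 v)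
    simp only [x, this, b3]
  have x3 : ∀ {u v}, x u < x v → θ ⟦u⟧ ≤ θ ⟦v⟧ := fun h =>
    Prod.Lex.monotone_fst _ _ (em.le_iff_le.1 (Subtype.coe_le_coe.1 h.le))
  have hinj : ∀ u v (k : ℤ), x u = x v + k → y u = y v → u = v := by
    intro u v k h1 h2
    have e1 : (k : ℝ) < 1 := by linarith [x0 v, x1 u]
    have e2 : (-1 : ℝ) < k := by linarith [x0 u, x1 v]
    have e3 : k < 1 := by exact_mod_cast e1
    have e4 : -1 < k := by exact_mod_cast e2
    obtain rfl : k = 0 := by omega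
    rw [Int.cast_zero, add_zero] at h1
    have e5 := hg ⟨u, rfl⟩ ⟨v, rfl⟩
      (congrArg Prod.snd (toLex.injective (em.injective (Subtype.ext h1))))
    apply Subtype.ext
    rw [← b2 u, ← b2 v, e5]
    exact congrArg _ h2
  set R := 3 * (2 * δ + 1) with hR
  set C := 2 * (R + 4 * δ) + 4 * K + 6 * δ with hC
  let P : SimpleGraph S :=
    { Adj := fun u v => u ≠ v ∧ ((v = ch u ∨ u = ch v) ∨
        (((∃ k, Hor x y u v k) ∨ ∃ k, Hor x y v u k) ∧ G.dist u v ≤ 2 * C))
      symm := ⟨fun u v h => ⟨h.1.symm, h.2.imp Or.symm fun h => ⟨h.1.symm, by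
        rw [dcomm]; exact h.2⟩⟩⟩
      loopless := ⟨fun u h => h.1 rfl⟩ }
  have hup : ∀ n (v : S), Wk P n v (ch^[n] v) ∧ y (ch^[n] v) = y v + n ∧ β (ch^[n] v) = β v := by
    intro n v
    induction n with
    | zero => exact ⟨Wk.refl _ _, rfl, rfl⟩
    | succ n ih =>
      rw [Function.iterate_succ_apply']
      refine ⟨ih.1.trans (Wk.adj ⟨fun e => ?_, Or.inl (Or.inl rfl)⟩), ?_, by rw [b3, ih.2.2]⟩
      · have := b4 (ch^[n] v)
        rw [← e] at this
        omega
      · have := b4 (ch^[n] v)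
        have := ih.2.1
        simp only [y] at *
        omega
  have hrep : ∀ (v : S) m, G.dist (β v m) (β (⟦v⟧ : Quotient st).out m) ≤ 2 * δ := fun v m =>
    GR.asym hδ (b1 _) (b1 _) (st.symm (Quotient.mk_out (s := st) v)) m
  have hBT : ∀ u v c d : S, y v = y u → y c = y u → y d = y u → G.dist u v ≤ R → x u < x c →
      x c < x v → (x d < x u ∨ x v < x d) → G.dist u c ≤ C ∨ G.dist u d ≤ C := by
    intro u v c d y1 y2 y3 e0 e1 e2 e3
    by_contra hcon
    push Not at hcon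
    have hb : ∀ {w : S}, y w = y u → β w (y u) = w := fun {w} h => h ▸ b2 w
    have hne : ∀ {w : S}, y w = y u → C < G.dist u w →
        θ ⟦w⟧ ≠ θ ⟦u⟧ ∧ θ ⟦w⟧ ≠ θ ⟦v⟧ := fun {w} h h' => by
      constructor
      · intro e
        have := GR.asym hδ (b1 _) (b1 _) (Quotient.exact (θ1 e)) (y u)
        rw [hb h, hb rfl, dcomm] at this
        omega
      · intro e
        have := GR.asym hδ (b1 _) (b1 _) (Quotient.exact (θ1 e)) (y u)
        rw [hb h, hb y1, dcomm] at this
        have := tri (G := G) u v w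
        omega
    obtain ⟨n1, n2⟩ := hne y2 hcon.1
    obtain ⟨n3, n4⟩ := hne y3 hcon.2
    have l1 : θ ⟦u⟧ < θ ⟦c⟧ := (x3 e1).lt_of_ne n1.symm
    have l2 : θ ⟦c⟧ < θ ⟦v⟧ := (x3 e2).lt_of_ne n2
    have l3 : θ ⟦d⟧ < θ ⟦u⟧ ∨ θ ⟦v⟧ < θ ⟦d⟧ :=
      e3.imp (fun h => (x3 h).lt_of_ne n3) fun h => (x3 h).lt_of_ne n4.symm
    have dv : ∀ {a b}, θ a ≠ θ b → Div G (β a.out) (β b.out) := fun h =>
      hd _ _ fun e => h (e ▸ rfl)
    have n5 : θ ⟦u⟧ ≠ θ ⟦v⟧ := (l1.trans l2).ne
    have n6 : θ ⟦c⟧ ≠ θ ⟦d⟧ := by rcases l3 with h | h <;> intro e <;> linarith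
    have hfar : ∀ {w : S}, y w = y u → C < G.dist u w → 2 * (R + 4 * δ) + 4 * K + 2 * δ <
        G.dist (β (⟦u⟧ : Quotient st).out (y u)) (β (⟦w⟧ : Quotient st).out (y u)) := by
      intro w h h'
      have k1 := hrep u (y u)
      have k2 := hrep w (y u)
      rw [hb rfl] at k1
      rw [hb h, dcomm] at k2
      have k3 := tri (G := G) u (β (⟦u⟧ : Quotient st).out (y u)) w
      have k4 := tri (G := G) (β (⟦u⟧ : Quotient st).out (y u))
        (β (⟦w⟧ : Quotient st).out (y u)) w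
      omega
    refine hS (switch_of_four (b1 _).isR (b1 _).isR (b1 _).isR (b1 _).isR (dv n5) (dv n1.symm)
      (dv n3.symm) (dv n2.symm) (dv n4.symm) (dv n6)
      (GR.lnk hδ (b1 _) (b1 _) (b1 _) (b1 _) (R := R + 4 * δ) ?_ (hfar y2 hcon.1) (hfar y3 hcon.2))
      (lnk_of_adj (b1 _).isR (b1 _).isR (dv n5) (dv n3.symm) (dv n2) (dv n6)
        (hOE _ _ (b1 _).isR (b1 _).isR)
        (θ2 _ _ _ _ l1 (Or.inr l2) (l3.imp id fun h => l2.trans h)))
      (lnk_of_adj (b1 _).isR (b1 _).isR (dv n1) (dv n6) (dv n5.symm) (dv n4.symm)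
        (hOE _ _ (b1 _).isR (b1 _).isR)
        (θ2 _ _ _ _ l2 (Or.inl l1) (l3.imp (fun h => h.trans l1) id))).s1.s2)
    have k1 := hrep u (y u)
    have k2 := hrep v (y u)
    rw [hb rfl, dcomm] at k1
    rw [hb y1] at k2
    have k3 := tri (G := G) (β (⟦u⟧ : Quotient st).out (y u)) u (β (⟦v⟧ : Quotient st).out (y u))
    have k4 := tri (G := G) u v (β (⟦v⟧ : Quotient st).out (y u))
    omega
  set D := (G.degree o + 1) ^ C with hD
  have hlev : ∀ u v : S, y u = y v → G.dist u v ≤ R → x u < x v → Wk P (2 * D + 1) u v := by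
    intro u v h1 h2 h3
    have hP : ∀ a ∈ {w : S | G.dist u w ≤ C}, ∀ b ∈ {w : S | G.dist u w ≤ C}, ∀ k,
        Hor x y a b k → Wk P 1 a b := by
      intro a ha b hb k h
      by_cases hab : a = b
      · exact hab ▸ Wk.refl _ _
      refine Wk.adj ⟨hab, Or.inr ⟨Or.inl ⟨k, h⟩, ?_⟩⟩
      have e1 := tri (G := G) a u b
      have e2 : G.dist u a ≤ C := ha
      have e3 : G.dist u b ≤ C := hb
      rw [dcomm] at e2
      omega
    set T := ((ball G u C).subtype (· ∈ S)) ×ˢ ({0, 1} : Finset ℤ) with hT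
    have hTc : T.card ≤ 2 * D := by
      rw [hT, Finset.card_product, Finset.card_subtype, mul_comm]
      exact Nat.mul_le_mul Finset.card_le_two
        ((Finset.card_filter_le _ _).trans (card_ball_le hΔ _ _))
    have hu : u ∈ {w : S | G.dist u w ≤ C} := by simp
    have hv : v ∈ {w : S | G.dist u w ≤ C} := show G.dist u v ≤ C by omega
    have hl : ∀ {a : ℝ} {w : S} {l : ℤ}, 0 < a → a < x w + l → x w + l < 2 → l = 0 ∨ l = 1 := by
      intro a w l k0 k1 k2
      have e1 : (l : ℝ) < 2 := by linarith [x0 w]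
      have e2 : (-1 : ℝ) < l := by linarith [x1 w]
      have e3 : l < 2 := by exact_mod_cast e1
      have e4 : -1 < l := by exact_mod_cast e2
      omega
    have hmem : ∀ {w : S} {l : ℤ}, (l = 0 ∨ l = 1) → G.dist u w ≤ C →
        (w, l) ∈ T ∧ w ∈ {w : S | G.dist u w ≤ C} := fun k1 k2 =>
      ⟨Finset.mem_product.2 ⟨Finset.mem_subtype.2 (mem_ball.2 k2), by simpa using k1⟩, k2⟩
    by_cases hc : ∀ c : S, y c = y u → x u < x c → x c < x v → G.dist u c ≤ C
    · refine (wk_hor hP _ T u v 0 0 rfl hu hv h1 (by simpa using h3)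
        (by simp only [Int.cast_zero]; linarith [x0 u, x1 v]) fun w l k1 k2 k3 => ?_).mono
        (by omega)
      simp only [Int.cast_zero, add_zero] at k2 k3
      rcases hl (x0 u) k2 (by linarith [x1 v]) with rfl | rfl
      · exact hmem (Or.inl rfl) (hc w k1 (by simpa using k2) (by simpa using k3))
      · simp only [Int.cast_one] at k3
        linarith [x0 w, x1 v]
    · push Not at hc
      obtain ⟨c, c1, c2, c3, c4⟩ := hc
      refine (wk_hor hP _ T v u 0 1 rfl hv hu h1.symm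
        (by simp only [Int.cast_zero, Int.cast_one]; linarith [x0 u, x1 v])
        (by simp only [Int.cast_zero, Int.cast_one]; linarith) fun w l k1 k2 k3 => ?_).symm.mono
        (by omega)
      simp only [Int.cast_zero, add_zero, Int.cast_one] at k2 k3
      have k4 := hl (x0 v) k2 (by linarith [x1 u])
      refine hmem k4 ((hBT u v c w h1.symm c1 (k1.trans h1.symm) h2 c2 c3 ?_).resolve_left
        (not_le.2 c4))
      rcases k4 with rfl | rfl
      · exact Or.inr (by simpa using k2)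
      · exact Or.inl (by simpa using k3)
  refine (qi_of_walks (G := G) (P := P) Subtype.val δ (2 * C + 1)
    (2 * δ + 1 + (2 * D + 1) + (2 * δ + 1)) (fun u v h => ?_) (fun u v h => ?_) b5).elim
    fun h1 h2 => ?_
  rotate_right
  · refine ⟨S, P, x, y, h1, h2, fun n => ((finite_ball (G := G) o n).preimage
      Subtype.val_injective.injOn).subset fun w hw => le_of_eq hw, hinj, ?_⟩
    rintro u v ⟨-, (rfl | rfl) | ⟨h | h, -⟩⟩
    exacts [Or.inl (Or.inl ⟨(x2 u).symm, b4 u⟩), Or.inr (Or.inl ⟨(x2 v).symm, b4 v⟩),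
      Or.inl (Or.inr h), Or.inr (Or.inr h)]
  · have key : ∀ v : S, G.dist v (ch v) ≤ 1 := fun v => by
      have := (b1 v).2 (G.dist o v)
      rwa [b2, ← b4, ← b3, b2] at this
    obtain ⟨-, (rfl | rfl) | ⟨-, h⟩⟩ := h
    · exact (key u).trans (by omega)
    · rw [dcomm]
      exact (key v).trans (by omega)
    · omega
  · obtain ⟨u1, u2, u3⟩ := hup (y v - y u) u
    obtain ⟨v1, v2, v3⟩ := hup (y u - y v) v
    have e1 := tri (G := G) o u v
    have e2 := tri (G := G) o v u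
    rw [dcomm (v : V)] at e2
    have e3 : y v - y u ≤ 2 * δ + 1 := by simp only [y]; omega
    have e4 : y u - y v ≤ 2 * δ + 1 := by simp only [y]; omega
    have key : ∀ {w w' : S} {n}, y w' = y w + n → β w' = β w → G.dist w w' ≤ n := by
      intro w w' n k1 k2
      have := dist_lazy (b1 w).2 (show y w ≤ y w' by omega)
      rw [b2, ← k2, b2] at this
      omega
    have e5 := key u2 u3
    have e6 := key v2 v3
    generalize ch^[y v - y u] u = u' at *
    generalize ch^[y u - y v] v = v' at *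
    have e7 : G.dist u' v' ≤ R := by
      have k1 := tri (G := G) u' u v'
      have k2 := tri (G := G) u v v'
      rw [dcomm] at e5
      omega
    have e8 : y u' = y v' := by omega
    refine ((u1.mono e3).trans ?_).trans (v1.mono e4).symm
    rcases lt_trichotomy (x u') (x v') with k | k | k
    · exact hlev _ _ e8 e7 k
    · exact hinj u' v' 0 (by simpa using k) e8 ▸ Wk.refl _ _
    · exact (hlev _ _ e8.symm (by rwa [dcomm]) k).symm

theorem planar_of_not_switch (hna : ¬ Amenable G) (ht : VT G) (hS : ¬ Switch G K) {o : V}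
    (hOE : ∀ α β, IsR G α → IsR G β → AdjI G o ∅ α β) :
    ∃ (W : Type) (P : SimpleGraph W), P.Connected ∧ Planar P ∧ QuasiIsometric G P := by
  obtain ⟨W, P, x, y, h1, h2, -, h3, h4⟩ := cyl_of_not_switch hna ht hS hOE
  exact ⟨W, P, h1, planar_cyl P x y h3 h4, h2⟩

end Pool.Agent.MP_77f003_co.H49
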