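import Pool.Agent.MP_77f003_co.H49.Theta

/-!
Without crossing gadgets, pairwise diverging rays carry a linear order in which rays not separated
by obstacles are adjacent at infinity.
-/

namespace Pool.Agent.MP_77f003_co.H49

open SimpleGraph Filter

theorem exists_listing {κ : Type} [Finite κ] [Nonempty κ] (J : SimpleGraph κ) (hc : J.Preconnected)
    (h3 : ∀ v a b c, J.Adj v a → J.Adj v b → J.Adj v c → a = b ∨ a = c ∨ b = c) :
    ∃ (n : ℕ) (q : ℕ → κ), Set.InjOn q {i | i ≤ n} ∧ (∀ i, i < n → J.Adj (q i) (q (i + 1))) ∧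
      ∀ v, ∃ i, q i = v ∧ i ≤ n := by
  obtain ⟨u, v, p, hp, hmax⟩ := Walk.exists_isPath_forall_isPath_length_le_length J
  refine ⟨p.length, p.getVert, hp.getVert_injOn, fun i hi => p.adj_getVert_succ hi, fun w => ?_⟩
  rw [← Walk.mem_support_iff_exists_getVert]
  by_contra hw
  obtain ⟨q⟩ := hc u w
  obtain ⟨z, ⟨x, hx, hxz⟩, l⟩ := Lk.exit (G := J) (S := Set.univ) (T := {z | z ∈ p.support})
    ⟨q, fun _ _ => trivial⟩ p.start_mem_support hw
  have hz : z ∉ p.support := l.left.2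
  obtain ⟨i, rfl, hi⟩ := Walk.mem_support_iff_exists_getVert.1 hx
  rcases Nat.eq_zero_or_pos i with rfl | h0
  · rw [p.getVert_zero] at hxz
    simpa using hmax _ _ _ ((Walk.cons_isPath_iff hxz.symm p).2 ⟨hp, hz⟩)
  rcases hi.eq_or_lt with rfl | h1
  · rw [p.getVert_length] at hxz
    simpa using hmax _ _ _ (hp.concat hz hxz)
  obtain ⟨j, rfl⟩ := Nat.exists_eq_add_of_lt h0
  rw [zero_add] at *
  rcases h3 _ _ _ _ hxz (p.adj_getVert_succ h1) (p.adj_getVert_succ (i := j) (by omega)).symm with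
    h | h | h
  · exact hz (h ▸ p.getVert_mem_support _)
  · exact hz (h ▸ p.getVert_mem_support _)
  · have := hp.getVert_injOn (show j + 1 + 1 ∈ {i | i ≤ p.length} from h1)
      (show j ∈ {i | i ≤ p.length} from (by omega : j ≤ p.length)) h
    omega

variable {V : Type} {G : SimpleGraph V} {K : ℕ} [Fact G.Connected]

theorem switch_of_four {a b c d : ℕ → V} (ra : IsR G a) (rb : IsR G b) (rc : IsR G c)
    (rd : IsR G d) (ab : Div G a b) (ac : Div G a c) (ad : Div G a d) (bc : Div G b c)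
    (bd : Div G b d) (cd : Div G c d) (h1 : Lnk G K a b c d) (h2 : Lnk G K a c b d)
    (h3 : Lnk G K a d b c) : Switch G K := by
  have := ab.symm ra rb
  have := ac.symm ra rc
  have := ad.symm ra rd
  have := bc.symm rb rc
  have := bd.symm rb rd
  have := cd.symm rc rd
  refine switch_of_rays (ρ := ![a, b, c, d]) (fun i => ?_) (fun i j hij => ?_) h1 h2 h3
  · fin_cases i <;> assumption
  · fin_cases i <;> fin_cases j <;> first | contradiction | assumption

theorem no_claw {o : V} (hOE : ∀ α β, IsR G α → IsR G β → AdjI G o ∅ α β) (hS : ¬ Switch G K)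
    {F : Set (ℕ → V)} (hF : Fam G F) {v a b c : ℕ → V} (ha : (HG G o F).Adj v a)
    (hb : (HG G o F).Adj v b) (hc : (HG G o F).Adj v c) : a = b ∨ a = c ∨ b = c := by
  by_contra hcon
  push Not at hcon
  obtain ⟨ab, ac, bc⟩ := hcon
  have key : ∀ {a b c}, (HG G o F).Adj v a → (HG G o F).Adj v b → (HG G o F).Adj v c → a ≠ b →
      a ≠ c → Lnk G K v a b c := fun ha hb hc ab ac =>
    lnk_of_adj (hF.ray _ ha.1) (hF.ray _ ha.2.1) (hF.div _ hb.1 _ hb.2.1 hb.ne)
      (hF.div _ hc.1 _ hc.2.1 hc.ne) (hF.div _ ha.2.1 _ hb.2.1 ab) (hF.div _ ha.2.1 _ hc.2.1 ac)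
      (hOE _ _ (hF.ray _ hb.2.1) (hF.ray _ hc.2.1)) (ha.2.2.2.mono (by
        rintro _ (rfl | rfl)
        · exact ⟨hb.2.1, by simp [hb.ne', ab.symm]⟩
        · exact ⟨hc.2.1, by simp [hc.ne', ac.symm]⟩))
  exact hS (switch_of_four (hF.ray _ ha.1) (hF.ray _ ha.2.1) (hF.ray _ hb.2.1) (hF.ray _ hc.2.1)
    (hF.div _ ha.1 _ ha.2.1 ha.ne) (hF.div _ hb.1 _ hb.2.1 hb.ne) (hF.div _ hc.1 _ hc.2.1 hc.ne)
    (hF.div _ ha.2.1 _ hb.2.1 ab) (hF.div _ ha.2.1 _ hc.2.1 ac) (hF.div _ hb.2.1 _ hc.2.1 bc)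
    (key ha hb hc ab ac) (key hb ha hc ab.symm bc) (key hc ha hb ac.symm bc.symm))

theorem exists_pos {o : V} (hOE : ∀ α β, IsR G α → IsR G β → AdjI G o ∅ α β) (hS : ¬ Switch G K)
    {κ : Type} {φ : κ → ℕ → V} (h1 : ∀ a, IsR G (φ a)) (h2 : ∀ a b, a ≠ b → Div G (φ a) (φ b))
    (s : Finset κ) : ∃ pos : κ → ℕ, Set.InjOn pos s ∧ ∀ a ∈ s, ∀ b ∈ s, ∀ c ∈ s, ∀ d ∈ s,
      pos a < pos b → (pos c < pos a ∨ pos b < pos c) → (pos d < pos a ∨ pos b < pos d) →
      AdjI G o {φ c, φ d} (φ a) (φ b) := by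
  classical
  rcases s.eq_empty_or_nonempty with rfl | hs
  · exact ⟨fun _ => 0, by simp, by simp⟩
  have : Nonempty s := hs.to_subtype
  have hinj : Function.Injective φ := fun a b e => by_contra fun h => (h2 a b h).ne e
  have hF : Fam G (φ '' s) := by
    refine ⟨s.finite_toSet.image _, ?_, ?_⟩
    · rintro _ ⟨a, -, rfl⟩
      exact h1 a
    · rintro _ ⟨a, -, rfl⟩ _ ⟨b, -, rfl⟩ hne
      exact h2 a b fun e => hne (e ▸ rfl)
  have hι : Function.Injective fun a : s => φ a := hinj.comp Subtype.val_injective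
  obtain ⟨n, q, q1, q2, q3⟩ := exists_listing ((HG G o (φ '' s)).comap fun a : s => φ a)
    (fun a b => hF.reach (O := ∅) hι (fun k => ⟨⟨k, k.2, rfl⟩, by simp⟩)
      (by rintro _ ⟨a, ha, rfl⟩ -; exact ⟨⟨a, ha⟩, rfl⟩) (hOE _ _ (h1 _) (h1 _)))
    (fun v a b c ha hb hc => (no_claw hOE hS hF ha hb hc).imp (fun e => hι e)
      (Or.imp (fun e => hι e) fun e => hι e))
  choose ix i1 i2 using q3
  refine ⟨fun a => if h : a ∈ s then ix ⟨a, h⟩ else 0, fun a ha b hb e => ?_,
    fun a ha b hb c hc d hd => ?_⟩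
  · simp only [Finset.mem_coe.1 ha, Finset.mem_coe.1 hb, dif_pos] at e
    have := (i1 _).symm.trans ((congrArg q e).trans (i1 _))
    exact congrArg Subtype.val this
  · simp only [ha, hb, hc, hd, dif_pos]
    intro e1 e2 e3
    have hne : ∀ {x : s} {k}, k ≤ n → ix x ≠ k → φ (q k) ≠ φ x := fun {x k} hk h e =>
      h (q1 (i2 x) hk ((i1 x).trans (hι e).symm))
    have key : ∀ j, ix ⟨a, ha⟩ < j → j ≤ ix ⟨b, hb⟩ →
        AdjI G o {φ c, φ d} (φ (q (ix ⟨a, ha⟩))) (φ (q j)) := by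
      have hb' := i2 ⟨b, hb⟩
      have st : ∀ j, ix ⟨a, ha⟩ ≤ j → j < ix ⟨b, hb⟩ →
          AdjI G o {φ c, φ d} (φ (q j)) (φ (q (j + 1))) := fun j j1 j2 =>
        (q2 j (by omega)).2.2.2.mono (by
          rintro _ (rfl | rfl)
          · exact ⟨⟨c, hc, rfl⟩, by
              rintro (e | e)
              exacts [hne (x := ⟨c, hc⟩) (by omega) (by omega) e.symm,
                hne (x := ⟨c, hc⟩) (by omega) (by omega) e.symm]⟩
          · exact ⟨⟨d, hd, rfl⟩, by
              rintro (e | e)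
              exacts [hne (x := ⟨d, hd⟩) (by omega) (by omega) e.symm,
                hne (x := ⟨d, hd⟩) (by omega) (by omega) e.symm]⟩)
      intro j j1
      induction j, j1 using Nat.le_induction with
      | base => exact fun h => st _ le_rfl h
      | succ j j1 ih =>
        intro h
        refine (ih (by omega)).trans (st j (by omega) h) (h1 _) (Set.toFinite _) ?_
        rintro _ (rfl | rfl)
        · exact h2 _ _ fun e => hne (x := ⟨c, hc⟩) (k := j) (by omega) (by omega) (congrArg φ e)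
        · exact h2 _ _ fun e => hne (x := ⟨d, hd⟩) (k := j) (by omega) (by omega) (congrArg φ e)
    have := key _ e1 le_rfl
    rwa [i1, i1] at this

theorem exists_order {o : V} (hOE : ∀ α β, IsR G α → IsR G β → AdjI G o ∅ α β)
    (hS : ¬ Switch G K) {κ : Type} [Countable κ] {φ : κ → ℕ → V} (h1 : ∀ a, IsR G (φ a))
    (h2 : ∀ a b, a ≠ b → Div G (φ a) (φ b)) :
    ∃ θ : κ → ℚ, Function.Injective θ ∧ ∀ a b c d, θ a < θ b → (θ c < θ a ∨ θ b < θ c) →
      (θ d < θ a ∨ θ b < θ d) → AdjI G o {φ c, φ d} (φ a) (φ b) := by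
  classical
  choose pos p1 p2 using exists_pos hOE hS h1 h2
  let U : Ultrafilter (Finset κ) := Ultrafilter.of atTop
  have hU : ∀ a : κ, ∀ᶠ s : Finset κ in U, a ∈ s := fun a => Ultrafilter.of_le atTop
    ((eventually_ge_atTop ({a} : Finset κ)).mono fun s hs => hs (Finset.mem_singleton_self a))
  let _ : LinearOrder κ :=
    { le := fun a b => ∀ᶠ s in U, pos s a ≤ pos s b
      le_refl := fun a => by simp
      le_trans := fun a b c e1 e2 => (e1.and e2).mono fun s h => h.1.trans h.2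
      le_antisymm := fun a b e1 e2 => by
        obtain ⟨s, ⟨e3, e4⟩, e5, e6⟩ := ((e1.and e2).and ((hU a).and (hU b))).exists
        exact p1 s e5 e6 (le_antisymm e3 e4)
      le_total := fun a b => Ultrafilter.eventually_or.1
        (Eventually.of_forall fun s => le_total _ _)
      toDecidableLE := Classical.decRel _ }
  obtain ⟨θ⟩ := Order.embedding_from_countable_to_dense κ ℚ
  have hlt : ∀ {a b}, θ a < θ b → ∀ᶠ s in U, pos s a < pos s b := fun h =>
    (Ultrafilter.eventually_not.2 (not_le.2 (θ.lt_iff_lt.1 h))).mono fun s h => not_le.1 h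
  refine ⟨θ, θ.injective, fun a b c d e1 e2 e3 => ?_⟩
  obtain ⟨s, ⟨⟨k1, k2⟩, k3⟩, ⟨k4, k5⟩, k6, k7⟩ := ((((hlt e1).and
    (Ultrafilter.eventually_or.2 (e2.imp hlt hlt))).and
    (Ultrafilter.eventually_or.2 (e3.imp hlt hlt))).and (((hU a).and (hU b)).and
      ((hU c).and (hU d)))).exists
  exact p2 s a k4 b k5 c k6 d k7 k1 k2 k3

end Pool.Agent.MP_77f003_co.H49
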