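import Pool.Agent.MP_77f003_co.H49.Rays

/-!
Fat models whose branch sets contain tails of rays, and moves of branch sets between rays.
-/

namespace Pool.Agent.MP_77f003_co.H49

open SimpleGraph Filter

variable {V : Type} {G : SimpleGraph V} {ι : Type} {K : ℕ}

/-- A finite set together with a tail of a ray. -/
def Br (Z : Set V) (w : ℕ → V) (n : ℕ) : Set V := Z ∪ w '' Set.Ici n

theorem tail_mem_Br {Z : Set V} {w : ℕ → V} {n k : ℕ} (h : n ≤ k) : w k ∈ Br Z w n :=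
  Or.inr ⟨k, h, rfl⟩

/-- A fat model of the edge set `D` whose branch sets end in the rays `ρ i`. -/
structure Peb (G : SimpleGraph V) (K : ℕ) (ρ : ι → ℕ → V) (D : Set (ι × ι)) (Z : ι → Set V)
    (n : ι → ℕ) (E : ι × ι → Set V) : Prop where
  ray : ∀ i, IsR G (ρ i)
  fin : ∀ i, (Z i).Finite
  conn : ∀ i, ∀ z ∈ Z i, Lk G (Z i) z (ρ i (n i))
  efin : ∀ e, (E e).Finite
  link : ∀ e ∈ D, ∃ x ∈ Z e.1, ∃ y ∈ Z e.2, Lk G (E e) x y
  bb : ∀ i j, i ≠ j → Far G K (Br (Z i) (ρ i) (n i)) (Br (Z j) (ρ j) (n j))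
  ee : ∀ e ∈ D, ∀ f ∈ D, e ≠ f → Far G K (E e) (E f)
  eb : ∀ e ∈ D, ∀ k, k ≠ e.1 → k ≠ e.2 → Far G K (E e) (Br (Z k) (ρ k) (n k))
  mem : ∀ i, ρ i (n i) ∈ Z i

/-- Existence of such a model. -/
def PP (G : SimpleGraph V) (K : ℕ) (ρ : ι → ℕ → V) (D : Set (ι × ι)) : Prop :=
  ∃ Z n E, Peb G K ρ D Z n E

variable [Fact G.Connected] {ρ ρ' : ι → ℕ → V} {D : Set (ι × ι)} {Z : ι → Set V} {n : ι → ℕ}
  {E : ι × ι → Set V}

theorem Peb.jump (H : Peb G K ρ D Z n E) {i : ι} {β : ℕ → V} (hβ : IsR G β) {m m' : ℕ}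
    (hm : n i ≤ m) {P : Set V} (hP : Lk G P (ρ i m) (β m'))
    (h1 : ∀ j, j ≠ i → Far G K (Br P β m') (Br (Z j) (ρ j) (n j)))
    (h2 : ∀ e ∈ D, i ≠ e.1 → i ≠ e.2 → Far G K (E e) (Br P β m'))
    (hi : ρ' i = β) (hρ : ∀ j, j ≠ i → ρ' j = ρ j) :
    ∃ Z' n', Peb G K ρ' D Z' n' E ∧ (∀ j, j ≠ i → Z' j = Z j ∧ n' j = n j) ∧
      Br (Z' i) β (n' i) ⊆ Br (Z i) (ρ i) (n i) ∪ Br P β m' ∧ ρ i m ∈ Z' i := by
  classical
  obtain ⟨Q, q1, q2, q3, q4⟩ := hP.fin
  have hq : β m' ∈ Q := (q4 _ q3).right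
  set Y := Z i ∪ ρ i '' Set.Icc (n i) m ∪ Q with hY
  have hsub : Br Y β m' ⊆ Br (Z i) (ρ i) (n i) ∪ Br P β m' := by
    rintro z (((h | ⟨k, hk, rfl⟩) | h) | h)
    · exact Or.inl (Or.inl h)
    · exact Or.inl (tail_mem_Br hk.1)
    · exact Or.inr (Or.inl (q2 h))
    · exact Or.inr (Or.inr h)
  have hB : ∀ j, j ≠ i → Br (Function.update Z i Y j) (ρ' j) (Function.update n i m' j) =
      Br (Z j) (ρ j) (n j) := fun j hj => by
    rw [Function.update_of_ne hj, Function.update_of_ne hj, hρ j hj]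
  have hBi : Br (Function.update Z i Y i) (ρ' i) (Function.update n i m' i) = Br Y β m' := by
    rw [Function.update_self, Function.update_self, hi]
  have hZ : ∀ j, Z j ⊆ Function.update Z i Y j := fun j => by
    by_cases hj : j = i
    · subst hj
      rw [Function.update_self]
      exact fun z hz => Or.inl (Or.inl hz)
    · rw [Function.update_of_ne hj]
  have hfar : ∀ j, j ≠ i → Far G K (Br Y β m') (Br (Z j) (ρ j) (n j)) := fun j hj =>
    ((H.bb i j hj.symm).union (h1 j hj)).mono hsub le_rfl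
  have hseg : ∀ k, n i ≤ k → k ≤ m → Lk G Y (ρ i k) (β m') := fun k k1 k2 =>
    ((H.ray i).lk fun l l1 l2 => Or.inl (Or.inr ⟨l, ⟨by omega, by omega⟩, rfl⟩)).trans
      ((q4 _ q3).mono Set.subset_union_right)
  refine ⟨Function.update Z i Y, Function.update n i m', ⟨fun j => ?_, fun j => ?_, fun j => ?_,
    H.efin, fun e he => ?_, fun j k hjk => ?_, H.ee, fun e he k k1 k2 => ?_, fun j => ?_⟩,
    fun j hj => ⟨Function.update_of_ne hj _ _, Function.update_of_ne hj _ _⟩, ?_, ?_⟩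
  · by_cases hj : j = i
    · rwa [hj, hi]
    · rw [hρ j hj]; exact H.ray j
  · by_cases hj : j = i
    · rw [hj, Function.update_self]
      exact ((H.fin i).union ((Set.finite_Icc _ _).image _)).union q1
    · rw [Function.update_of_ne hj]; exact H.fin j
  · by_cases hj : j = i
    · rw [hj, Function.update_self, Function.update_self, hi]
      rintro z ((h | ⟨k, hk, rfl⟩) | h)
      · exact ((H.conn i z h).mono fun w hw => Or.inl (Or.inl hw)).trans (hseg _ le_rfl hm)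
      · exact hseg k hk.1 hk.2
      · exact (q4 z h).mono Set.subset_union_right
    · rw [Function.update_of_ne hj, Function.update_of_ne hj, hρ j hj]
      exact H.conn j
  · obtain ⟨x, hx, y, hy, h⟩ := H.link e he
    exact ⟨x, hZ _ hx, y, hZ _ hy, h⟩
  · by_cases hj : j = i
    · subst hj
      rw [hBi, hB k hjk.symm]
      exact hfar k hjk.symm
    · by_cases hk : k = i
      · subst hk
        rw [hBi, hB j hj]
        exact (hfar j hj).symm
      · rw [hB j hj, hB k hk]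
        exact H.bb j k hjk
  · by_cases hk : k = i
    · subst hk
      rw [hBi]
      exact ((H.eb e he k k1 k2).union' (h2 e he k1 k2)).mono le_rfl hsub
    · rw [hB k hk]
      exact H.eb e he k k1 k2
  · by_cases hj : j = i
    · rw [hj, Function.update_self, Function.update_self, hi]
      exact Or.inr hq
    · rw [Function.update_of_ne hj, Function.update_of_ne hj, hρ j hj]
      exact H.mem j
  · rw [Function.update_self, Function.update_self]
    exact hsub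
  · rw [Function.update_self]
    exact Or.inl (Or.inr ⟨m, ⟨hm, le_rfl⟩, rfl⟩)

theorem far_of_bound {o : V} {S : Set V} (hS : S.Finite) (K : ℕ) :
    ∀ᶠ t in atTop, ∀ O, Far G K S (Safe G o t O) := by
  obtain ⟨R, hR⟩ := (hS.image (G.dist o)).bddAbove
  filter_upwards [eventually_ge_atTop (R + K)] with t ht O x hx y hy
  have e1 := hR ⟨x, hx, rfl⟩
  have e2 := hy.1
  have e3 := tri (G := G) o x y
  omega

variable [Finite ι]

theorem Peb.deep (H : Peb G K ρ D Z n E) (o : V) :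
    ∀ᶠ t in atTop, (∀ i m, t ≤ G.dist o (ρ i m) → n i ≤ m) ∧
      (∀ e O, Far G K (E e) (Safe G o t O)) ∧
      ∀ j O, ρ j ∈ O → Far G K (Safe G o t O) (Br (Z j) (ρ j) (n j)) := by
  refine (eventually_all.2 fun i => (H.ray i).idx o (n i)).and
    ((eventually_all.2 fun e => far_of_bound (H.efin e) K).and (eventually_all.2 fun j => ?_))
  filter_upwards [far_of_bound (G := G) (o := o) (H.fin j) K, eventually_ge_atTop K] with t h1 h2 O hO
  refine (h1 O).symm.union' ?_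
  rintro x hx _ ⟨k, -, rfl⟩
  exact h2.trans (hx.2 _ hO k)

theorem Peb.dive (H : Peb G K ρ D Z n E) (o : V) :
    ∀ᶠ t in atTop, ∀ (i : ι) (β : ℕ → V) (m m' : ℕ) (O : Set (ℕ → V)) (ρ' : ι → ℕ → V),
      IsR G β → (∀ j, j ≠ i → ρ j ∈ O) → Lk G (Safe G o t O) (ρ i m) (β m') →
      (∀ k, m' ≤ k → β k ∈ Safe G o t O) → ρ' i = β → (∀ j, j ≠ i → ρ' j = ρ j) →
      PP G K ρ' D := by
  filter_upwards [H.deep o] with t ⟨h1, h2, h3⟩ i β m m' O ρ' hβ hO hP hk hi hρ
  have hsub : Br (Safe G o t O) β m' ⊆ Safe G o t O := by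
    rintro _ (h | ⟨k, h, rfl⟩)
    exacts [h, hk k h]
  obtain ⟨Z', n', H', -⟩ := H.jump hβ (h1 i m hP.left.1) hP
    (fun j hj => (h3 j O (hO j hj)).mono hsub le_rfl) (fun e _ _ _ => (h2 e O).mono le_rfl hsub)
    hi hρ
  exact ⟨Z', n', E, H'⟩

theorem Peb.dive2 (H : Peb G K ρ D Z n E) (o : V) :
    ∀ᶠ t in atTop, ∀ (i j : ι) (β γ : ℕ → V) (m m' : ℕ) (O O' : Set (ℕ → V)) (P Q : Set V)
      (ρ' : ι → ℕ → V), i ≠ j → IsR G β → IsR G γ → (∀ k, k ≠ i → ρ k ∈ O) →
      (∀ k, k ≠ j → ρ k ∈ O') → Lk G P (ρ i m) (β 0) → Lk G Q (ρ j m') (γ 0) →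
      Br P β 0 ⊆ Safe G o t O → Br Q γ 0 ⊆ Safe G o t O' → Far G K (Br P β 0) (Br Q γ 0) →
      ρ' i = β → ρ' j = γ → (∀ k, k ≠ i → k ≠ j → ρ' k = ρ k) → PP G K ρ' D := by
  classical
  filter_upwards [H.deep o] with t ⟨h1, h2, h3⟩ i j β γ m m' O O' P Q ρ' hij hβ hγ hO hO' hP hQ
    sP sQ hPQ hi hj hρ
  obtain ⟨Z1, n1, H1, e1, e2, -⟩ := H.jump (ρ' := Function.update ρ i β) hβ
    (h1 i m (sP (Or.inl hP.left)).1) hP (fun k hk => (h3 k O (hO k hk)).mono sP le_rfl)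
    (fun e _ _ _ => (h2 e O).mono le_rfl sP) (Function.update_self _ _ _)
    (fun k hk => Function.update_of_ne hk _ _)
  obtain ⟨Z2, n2, H2, -⟩ := H1.jump (ρ' := ρ') (i := j) (m := m') (m' := 0) (P := Q) hγ
    (by rw [(e1 j hij.symm).2]; exact h1 j m' (sQ (Or.inl hQ.left)).1)
    (by rw [Function.update_of_ne hij.symm]; exact hQ)
    (fun k hk => by
      by_cases hki : k = i
      · subst hki
        rw [Function.update_self]
        exact (((h3 k O' (hO' k hk)).mono sQ le_rfl).union' hPQ.symm).mono le_rfl e2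
      · rw [(e1 k hki).1, (e1 k hki).2, Function.update_of_ne hki]
        exact (h3 k O' (hO' k hk)).mono sQ le_rfl)
    (fun e _ _ _ => (h2 e O').mono le_rfl sQ) hj
    (fun k hk => by
      by_cases hki : k = i
      · rw [hki, hi, Function.update_self]
      · rw [hρ k hki hk, Function.update_of_ne hki])
  exact ⟨Z2, n2, E, H2⟩

theorem PP.move (H : PP G K ρ D) {o : V} {i : ι} {β : ℕ → V} {O : Set (ℕ → V)} (hβ : IsR G β)
    (hO : ∀ j, j ≠ i → ρ j ∈ O) (hf : O.Finite) (hd : ∀ γ ∈ O, Div G β γ)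
    (h : AdjI G o O (ρ i) β) (hi : ρ' i = β) (hρ : ∀ j, j ≠ i → ρ' j = ρ j) : PP G K ρ' D := by
  obtain ⟨Z, n, E, H⟩ := H
  obtain ⟨t, ht⟩ := (H.dive o).exists
  obtain ⟨N, hN⟩ := eventually_atTop.1 (tail_safe o hβ hf hd t)
  obtain ⟨s, hs, hts⟩ := ((hβ.idx o N).and (eventually_ge_atTop t)).exists
  obtain ⟨m, m', l⟩ := h s
  have := hs m' l.right.1
  exact ht i β m m' O ρ' hβ hO (l.mono (Safe.mono hts le_rfl)) (fun k hk => hN k (by omega)) hi hρ

omit [Finite ι] in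
theorem Peb.advance (H : Peb G K ρ D Z n E) {i : ι} {m : ℕ} (hm : n i ≤ m) :
    ∃ Z' n', Peb G K ρ D Z' n' E ∧ (∀ j, j ≠ i → Z' j = Z j ∧ n' j = n j) ∧ ρ i m ∈ Z' i := by
  have hsub : Br {ρ i m} (ρ i) m ⊆ Br (Z i) (ρ i) (n i) := by
    rintro _ (rfl | ⟨k, h, rfl⟩)
    exacts [tail_mem_Br hm, tail_mem_Br (hm.trans h)]
  obtain ⟨Z', n', H', e1, -, e2⟩ := H.jump (ρ' := ρ) (H.ray i) hm (Lk.refl (S := {ρ i m}) rfl)
    (fun j hj => (H.bb i j hj.symm).mono hsub le_rfl)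
    (fun e he k1 k2 => (H.eb e he i k1 k2).mono le_rfl hsub) rfl (fun _ _ => rfl)
  exact ⟨Z', n', H', e1, e2⟩

theorem PP.edge (H : PP G K ρ D) {o : V} {i j : ι} (hij : i ≠ j) {O : Set (ℕ → V)}
    (hO : ∀ k, k ≠ i → k ≠ j → ρ k ∈ O) (h : AdjI G o O (ρ i) (ρ j)) :
    PP G K ρ (insert (i, j) D) := by
  classical
  by_cases hD : (i, j) ∈ D
  · rwa [Set.insert_eq_of_mem hD]
  obtain ⟨Z, n, E, H⟩ := H
  obtain ⟨t, h1, h2, h3⟩ := (H.deep o).exists
  obtain ⟨m, m', l⟩ := h t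
  obtain ⟨Q, q1, q2, q3, q4⟩ := l.fin
  obtain ⟨Z1, n1, H1, e1, e2⟩ := H.advance (h1 i m l.left.1)
  obtain ⟨Z2, n2, H2, e3, e4⟩ := H1.advance (i := j) (m := m')
    (by rw [(e1 j hij.symm).2]; exact h1 j m' l.right.1)
  have hE : ∀ e ∈ D, Function.update E (i, j) Q e = E e := fun e he =>
    Function.update_of_ne (ne_of_mem_of_not_mem he hD) _ _
  refine ⟨Z2, n2, Function.update E (i, j) Q, H2.ray, H2.fin, H2.conn, fun e => ?_, ?_, H2.bb,
    ?_, ?_, H2.mem⟩
  · by_cases he : e = (i, j)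
    · rwa [he, Function.update_self]
    · rw [Function.update_of_ne he]; exact H.efin e
  · rintro e (rfl | he)
    · rw [Function.update_self]
      exact ⟨_, (e3 i hij).1 ▸ e2, _, e4, q4 _ q3⟩
    · rw [hE e he]
      exact H2.link e he
  · rintro e (rfl | he) f (rfl | hf) hef
    · exact absurd rfl hef
    · rw [Function.update_self, hE f hf]
      exact ((h2 f O).mono le_rfl q2).symm
    · rw [Function.update_self, hE e he]
      exact (h2 e O).mono le_rfl q2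
    · rw [hE e he, hE f hf]
      exact H.ee e he f hf hef
  · rintro e (rfl | he) k k1 k2
    · rw [Function.update_self, (e3 k k2).1, (e3 k k2).2, (e1 k k1).1, (e1 k k1).2]
      exact (h3 k O (hO k k1 k2)).mono q2 le_rfl
    · rw [hE e he]
      exact H2.eb e he k k1 k2

theorem PP.init (K : ℕ) (h1 : ∀ i, IsR G (ρ i)) (h2 : ∀ i j, i ≠ j → Div G (ρ i) (ρ j)) :
    PP G K ρ ∅ := by
  have : ∀ᶠ n in atTop, ∀ i j, i ≠ j → ∀ m, K ≤ G.dist (ρ i n) (ρ j m) :=
    eventually_all.2 fun i => eventually_all.2 fun j => by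
      by_cases h : i = j
      · exact Eventually.of_forall fun _ h' => absurd h h'
      · exact (h2 i j h K).mono fun _ h' _ => h'
  obtain ⟨N, hN⟩ := eventually_atTop.1 this
  have hB : ∀ i, ∀ x ∈ Br {ρ i N} (ρ i) N, ∃ k, N ≤ k ∧ ρ i k = x := by
    rintro i _ (rfl | h)
    exacts [⟨N, le_rfl, rfl⟩, h]
  refine ⟨fun i => {ρ i N}, fun _ => N, fun _ => ∅, h1, fun _ => Set.finite_singleton _, ?_,
    fun _ => Set.finite_empty, by simp, fun i j hij x hx y hy => ?_, by simp, by simp,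
    fun _ => rfl⟩
  · rintro i _ rfl
    exact Lk.refl rfl
  · obtain ⟨k, k1, rfl⟩ := hB i x hx
    obtain ⟨l, -, rfl⟩ := hB j y hy
    exact hN k k1 i j hij l

theorem PP.fatCl {h : ℕ} {ρ : Fin h → ℕ → V} {D : Set (Fin h × Fin h)} (H : PP G K ρ D)
    (hD : ∀ i j, i < j → (i, j) ∈ D) : FatCl G K h := by
  obtain ⟨Z, n, E, H⟩ := H
  refine ⟨Finset.range h, fun i => if hi : i < h then Z ⟨i, hi⟩ else ∅,
    fun i j => if hi : i < h ∧ j < h then E (⟨i, hi.1⟩, ⟨j, hi.2⟩) else ∅, by simp, ?_, ?_, ?_,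
    ?_, ?_⟩ <;> simp only [Finset.mem_range]
  · intro i hi
    rw [dif_pos hi]
    exact ⟨⟨_, H.mem _⟩, fun x hx y hy => (H.conn _ x hx).trans (H.conn _ y hy).symm⟩
  · intro i hi j hj hij
    rw [dif_pos hi, dif_pos hj, dif_pos ⟨hi, hj⟩]
    exact H.link _ (hD _ _ hij)
  · intro i hi j hj hij
    rw [dif_pos hi, dif_pos hj]
    exact (H.bb _ _ (by simpa using hij)).mono Set.subset_union_left Set.subset_union_left
  · intro i hi j hj k hk l hl hij hkl hne
    rw [dif_pos ⟨hi, hj⟩, dif_pos ⟨hk, hl⟩]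
    exact H.ee _ (hD _ _ hij) _ (hD _ _ hkl) (by simpa [Prod.ext_iff, ← imp_iff_not_or] using hne)
  · intro i hi j hj k hk hij k1 k2
    rw [dif_pos ⟨hi, hj⟩, dif_pos hk]
    exact (H.eb _ (hD _ _ hij) _ (by simpa using k1) (by simpa using k2)).mono le_rfl
      Set.subset_union_left

theorem fatCl_of_adj {h : ℕ} {ρ : Fin h → ℕ → V} {o : V} (K : ℕ) (h1 : ∀ i, IsR G (ρ i))
    (h2 : ∀ i j, i ≠ j → Div G (ρ i) (ρ j))
    (h3 : ∀ i j, i ≠ j → AdjI G o {γ | ∃ k, k ≠ i ∧ k ≠ j ∧ ρ k = γ} (ρ i) (ρ j)) :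
    FatCl G K h := by
  have key : ∀ D : Finset (Fin h × Fin h), (∀ e ∈ D, e.1 ≠ e.2) → PP G K ρ D := by
    intro D
    induction D using Finset.induction_on with
    | empty => exact fun _ => by simpa using PP.init K h1 h2
    | insert e D he ih =>
      intro hD
      rw [Finset.coe_insert]
      refine (ih fun f hf => hD f (by simp [hf])).edge (hD e (by simp)) ?_
        (h3 _ _ (hD e (by simp)))
      exact fun k k1 k2 => ⟨k, k1, k2, rfl⟩
  exact (key (Finset.univ.filter fun e => e.1 ≠ e.2) (by simp)).fatCl fun i j hij => by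
    simpa using hij.ne

theorem fatCl_of_swap {h : ℕ} {r : Fin (h + 2) → ℕ → V} {o : V} (K : ℕ) (h1 : ∀ i, IsR G (r i))
    (h2 : ∀ i j, i ≠ j → Div G (r i) (r j))
    (h3 : AdjI G o {γ | ∃ k, k ≠ 0 ∧ k ≠ 1 ∧ r k = γ} (r 0) (r 1))
    (h4 : ∀ (D : Set (Fin (h + 2) × Fin (h + 2))) (π : Equiv.Perm (Fin (h + 2))) (k : Fin (h + 1)),
      PP G K (fun i => r (π i)) D →
      PP G K (fun i => r ((Equiv.swap k.castSucc k.succ * π) i)) D) : FatCl G K (h + 2) := by
  have hperm : ∀ (D : Set (Fin (h + 2) × Fin (h + 2))) (π π' : Equiv.Perm (Fin (h + 2))),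
      PP G K (fun i => r (π i)) D → PP G K (fun i => r (π' i)) D := by
    intro D π π'
    have : ∀ σ ∈ Submonoid.closure (Set.range fun k : Fin (h + 1) =>
        Equiv.swap k.castSucc k.succ), ∀ π : Equiv.Perm (Fin (h + 2)),
        PP G K (fun i => r (π i)) D → PP G K (fun i => r ((σ * π) i)) D := by
      intro σ hσ
      induction hσ using Submonoid.closure_induction with
      | mem σ hσ =>
        obtain ⟨k, rfl⟩ := hσ
        exact fun π => h4 D π k
      | one => simp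
      | mul a b _ _ ha hb => exact fun π H => by rw [mul_assoc]; exact ha _ (hb _ H)
    intro H
    have := this (π' * π⁻¹) (by rw [Equiv.Perm.mclosure_swap_castSucc_succ]; trivial) π H
    rwa [inv_mul_cancel_right] at this
  have key : ∀ D : Finset (Fin (h + 2) × Fin (h + 2)), (∀ e ∈ D, e.1 ≠ e.2) →
      ∀ π : Equiv.Perm (Fin (h + 2)), PP G K (fun i => r (π i)) D := by
    intro D
    induction D using Finset.induction_on with
    | empty =>
      intro _ π
      simpa using PP.init K (fun i => h1 (π i)) fun i j hij => h2 _ _ (π.injective.ne hij)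
    | insert e D he ih =>
      intro hD π
      rw [Finset.coe_insert]
      have hne := hD e (by simp)
      obtain ⟨σ, s0, s1⟩ : ∃ σ : Equiv.Perm (Fin (h + 2)), σ e.1 = 0 ∧ σ e.2 = 1 := by
        refine ⟨Equiv.swap (Equiv.swap e.1 0 e.2) 1 * Equiv.swap e.1 0, ?_, by simp⟩
        rw [Equiv.Perm.mul_apply, Equiv.swap_apply_left, Equiv.swap_apply_of_ne_of_ne]
        · intro h
          apply hne
          apply (Equiv.swap e.1 0).injective
          rw [← h, Equiv.swap_apply_left]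
        · simp
      refine hperm _ σ π ((ih (fun f hf => hD f (by simp [hf])) σ).edge (o := o) hne
        (O := {γ | ∃ k, k ≠ 0 ∧ k ≠ 1 ∧ r k = γ})
        (fun k k1 k2 => ⟨σ k, s0 ▸ σ.injective.ne k1, s1 ▸ σ.injective.ne k2, rfl⟩) ?_)
      simp only [s0, s1]
      exact h3
  exact (key (Finset.univ.filter fun e => e.1 ≠ e.2) (by simp) 1).fatCl fun i j hij => by
    simpa using hij.ne

end Pool.Agent.MP_77f003_co.H49
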