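import Pool.Agent.MP_77f003_co.H49.Cyl
import Pool.Agent.MP_77f003_co.H49.Grid

/-!
Drawings with free discs at marked vertices, for graphs drawn on a cylinder.
-/

namespace Pool.Agent.MP_77f003_co.H49

open SimpleGraph

/-- A drawing without crossings, with an arc for each ordered pair of adjacent vertices. -/
def Draw {X : Type} (Q : SimpleGraph X) (pos : X → ℂ) (arc : X → X → C(unitInterval, ℂ)) : Prop :=
  Function.Injective pos ∧ ∀ u v, Q.Adj u v → Function.Injective (arc u v) ∧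
    ((arc u v 0 = pos u ∧ arc u v 1 = pos v) ∨ (arc u v 0 = pos v ∧ arc u v 1 = pos u)) ∧
    ∀ t, t ≠ 0 → t ≠ 1 → (∀ w, arc u v t ≠ pos w) ∧
      ∀ u' v', Q.Adj u' v' → ∀ s, arc u v t = arc u' v' s → s(u, v) = s(u', v')

/-- The points used by a drawing. -/
def Ink {X : Type} (Q : SimpleGraph X) (pos : X → ℂ) (arc : X → X → C(unitInterval, ℂ)) : Set ℂ :=
  {z | (∃ w, z = pos w) ∨ ∃ u v t, Q.Adj u v ∧ z = arc u v t}

/-- A drawing with disjoint closed discs touching it exactly at the marked vertices. -/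
def Tame {X : Type} (Q : SimpleGraph X) (L : Set X) : Prop :=
  ∃ (pos : X → ℂ) (arc : X → X → C(unitInterval, ℂ)) (c : X → ℂ), Draw Q pos arc ∧
    (∀ s ∈ L, pos s ≠ c s ∧ ∀ z ∈ Ink Q pos arc, ‖z - c s‖ ≤ ‖pos s - c s‖ → z = pos s) ∧
    ∀ s ∈ L, ∀ s' ∈ L, ∀ z, ‖z - c s‖ ≤ ‖pos s - c s‖ → ‖z - c s'‖ ≤ ‖pos s' - c s'‖ → s = s'

theorem Draw.planar {X : Type} {Q : SimpleGraph X} {pos : X → ℂ}
    {arc : X → X → C(unitInterval, ℂ)} (h : Draw Q pos arc) : Planar Q := by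
  have he : ∀ e : Q.edgeSet, ∃ u v, Q.Adj u v ∧ (e : Sym2 X) = s(u, v) := by
    rintro ⟨e, he⟩
    induction e using Sym2.ind with
    | _ u v => exact ⟨u, v, he, rfl⟩
  choose u v h1 h2 using he
  have hi := Complex.equivRealProdCLM.injective
  refine ⟨fun w => Complex.equivRealProdCLM (pos w), fun e =>
    ⟨fun t => Complex.equivRealProdCLM (arc (u e) (v e) t), by fun_prop⟩, hi.comp h.1,
    fun e => hi.comp (h.2 _ _ (h1 e)).1, fun e => ?_, fun e t t0 t1 => ⟨fun w k => ?_,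
      fun f hf s k => hf (Subtype.ext ?_)⟩⟩
  · rcases (h.2 _ _ (h1 e)).2.1 with k | k
    · exact ⟨_, _, h2 e, congrArg Complex.equivRealProdCLM k.1,
        congrArg Complex.equivRealProdCLM k.2⟩
    · exact ⟨_, _, (h2 e).trans Sym2.eq_swap, congrArg Complex.equivRealProdCLM k.1,
        congrArg Complex.equivRealProdCLM k.2⟩
  · exact ((h.2 _ _ (h1 e)).2.2 t t0 t1).1 w (hi k)
  · rw [h2, h2]
    exact (((h.2 _ _ (h1 e)).2.2 t t0 t1).2 _ _ (h1 f) s (hi k)).symm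

/-- The graph with infinitely many pendant vertices at each vertex. -/
def pend {W : Type} (P : SimpleGraph W) : SimpleGraph (W ⊕ W × ℕ) where
  Adj
    | .inl u, .inl v => P.Adj u v
    | .inl u, .inr s => u = s.1
    | .inr s, .inl u => u = s.1
    | .inr _, .inr _ => False
  symm := ⟨by rintro (u | u) (v | v) h; exacts [h.symm, h, h, h]⟩
  loopless := ⟨by rintro (u | u) h; exacts [h.ne rfl, h]⟩

theorem tame_pend {W : Type} {P : SimpleGraph W} {pos : W → ℂ} {arc : W → W → C(unitInterval, ℂ)}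
    (h : Draw P pos arc) (R : W × ℕ → Set ℂ) (γ : W × ℕ → C(unitInterval, ℂ))
    (r1 : ∀ s, IsOpen (R s)) (r2 : ∀ s s', ∀ z ∈ R s, z ∈ R s' → s = s')
    (r3 : ∀ s, ∀ z ∈ R s, z ∉ Ink P pos arc) (g1 : ∀ s, Function.Injective (γ s))
    (g2 : ∀ s, γ s 0 = pos s.1) (g3 : ∀ s t, t ≠ 0 → γ s t ∈ R s)
    (g4 : ∀ s t, t ≠ 1 → ‖γ s t‖ < ‖γ s 1‖) : Tame (pend P) (Set.range Sum.inr) := by
  have hc : ∀ s, ∃ c, γ s 1 ≠ c ∧ ∀ z, ‖z - c‖ ≤ ‖γ s 1 - c‖ → z ∈ R s ∧ ‖γ s 1‖ ≤ ‖z‖ := by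
    intro s
    have e0 : 0 < ‖γ s 1‖ := (norm_nonneg _).trans_lt (g4 s 0 zero_ne_one)
    obtain ⟨ε, e1, e2⟩ := Metric.isOpen_iff.1 (r1 s) _ (g3 s 1 one_ne_zero)
    set p := γ s 1
    set η := ε / (4 * ‖p‖) with hη
    have e3 : 0 < η := by positivity
    have e4 : η * ‖p‖ = ε / 4 := by rw [hη]; field_simp
    have e5 : ‖p - ((1 + η : ℝ) : ℂ) * p‖ = η * ‖p‖ := by
      rw [show p - ((1 + η : ℝ) : ℂ) * p = -((η : ℂ) * p) by push_cast; ring, norm_neg, norm_mul,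
        Complex.norm_real, Real.norm_of_nonneg e3.le]
    refine ⟨((1 + η : ℝ) : ℂ) * p, fun e => ?_, fun z hz => ⟨e2 ?_, ?_⟩⟩
    · rw [← e, sub_self, norm_zero] at e5
      linarith
    · have := norm_sub_le_norm_sub_add_norm_sub z (((1 + η : ℝ) : ℂ) * p) p
      rw [norm_sub_rev (_ * p) p] at this
      rw [Metric.mem_ball, dist_eq_norm]
      linarith
    · have := norm_sub_norm_le (((1 + η : ℝ) : ℂ) * p) z
      rw [norm_sub_rev, norm_mul, Complex.norm_real, Real.norm_of_nonneg (by linarith)] at this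
      linarith
  choose c c1 c2 using hc
  have i1 : ∀ w, pos w ∈ Ink P pos arc := fun w => Or.inl ⟨w, rfl⟩
  have i2 : ∀ {u v} t, P.Adj u v → arc u v t ∈ Ink P pos arc := fun t h => Or.inr ⟨_, _, t, h, rfl⟩
  have k1 : ∀ s t, t ≠ 0 → ∀ z ∈ Ink P pos arc, γ s t ≠ z := fun s t t0 z hz e =>
    r3 s _ (g3 s t t0) (e ▸ hz)
  have k2 : ∀ s t s' t', t ≠ 0 → γ s t = γ s' t' → s = s' := fun s t s' t' t0 e => by
    by_cases t1 : t' = 0
    · exact absurd (e.trans (t1 ▸ g2 s')) (k1 s t t0 _ (i1 _))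
    · exact r2 s s' _ (g3 s t t0) (e ▸ g3 s' t' t1)
  let A : W ⊕ W × ℕ → W ⊕ W × ℕ → C(unitInterval, ℂ) := fun a b => match a, b with
    | .inl u, .inl v => arc u v
    | .inl _, .inr s => γ s
    | .inr s, _ => γ s
  have hA : ∀ a b, (pend P).Adj a b → (∃ u v, P.Adj u v ∧ a = .inl u ∧ b = .inl v ∧
      A a b = arc u v) ∨ ∃ s, s(a, b) = s(.inl s.1, .inr s) ∧ A a b = γ s := by
    rintro (u | s) (v | s') k
    · exact Or.inl ⟨u, v, k, rfl, rfl, rfl⟩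
    · exact Or.inr ⟨s', by rw [show u = s'.1 from k], rfl⟩
    · exact Or.inr ⟨s, by rw [show v = s.1 from k, Sym2.eq_swap], rfl⟩
    · exact k.elim
  refine ⟨Sum.elim pos fun s => γ s 1, A, Sum.elim pos c, ⟨?_, fun a b hab => ?_⟩, ?_, ?_⟩
  · rintro (u | s) (v | s') e
    · exact congrArg _ (h.1 e)
    · exact absurd e.symm (k1 _ _ one_ne_zero _ (i1 u))
    · exact absurd e (k1 _ _ one_ne_zero _ (i1 v))
    · exact congrArg _ (k2 _ _ _ _ one_ne_zero e)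
  · rcases hA a b hab with ⟨u, v, k, rfl, rfl, e⟩ | ⟨s, k, e⟩ <;> rw [e]
    · obtain ⟨d1, d2, d3⟩ := h.2 u v k
      refine ⟨d1, d2, fun t t0 t1 => ⟨?_, fun a' b' hab' t' e' => ?_⟩⟩
      · rintro (w | s)
        exacts [(d3 t t0 t1).1 w, (k1 _ _ one_ne_zero _ (i2 t k)).symm]
      rcases hA a' b' hab' with ⟨u', v', k', rfl, rfl, e''⟩ | ⟨s, -, e''⟩ <;> rw [e''] at e'
      · exact congrArg (Sym2.map Sum.inl) ((d3 t t0 t1).2 u' v' k' t' e')
      · by_cases t2 : t' = 0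
        · exact absurd (e'.trans (t2 ▸ g2 s)) ((d3 t t0 t1).1 _)
        · exact absurd e'.symm (k1 _ _ t2 _ (i2 t k))
    · refine ⟨g1 s, ?_, fun t t0 t1 => ⟨?_, fun a' b' hab' t' e' => ?_⟩⟩
      · rcases Sym2.eq_iff.1 k with ⟨rfl, rfl⟩ | ⟨rfl, rfl⟩
        exacts [Or.inl ⟨g2 s, rfl⟩, Or.inr ⟨g2 s, rfl⟩]
      · rintro (w | s') e'
        · exact k1 _ _ t0 _ (i1 w) e'
        · obtain rfl := k2 _ _ _ _ t0 e'
          exact t1 (g1 s e')
      rcases hA a' b' hab' with ⟨u', v', k', rfl, rfl, e''⟩ | ⟨s', k', e''⟩ <;> rw [e''] at e'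
      · exact absurd e' (k1 _ _ t0 _ (i2 t' k'))
      · rw [k, k', k2 _ _ _ _ t0 e']
  · rintro _ ⟨s, rfl⟩
    refine ⟨c1 s, fun z hz e => ?_⟩
    obtain ⟨e1, e2⟩ := c2 s z e
    have key : ∀ s' t, z = γ s' t → z = γ s 1 := by
      rintro s' t rfl
      have t0 : t ≠ 0 := fun t0 => r3 s _ e1 (by rw [t0, g2]; exact i1 _)
      obtain rfl := r2 s s' _ e1 (g3 s' t t0)
      by_contra e3
      exact absurd e2 (not_le.2 (g4 s t fun t1 => e3 (t1 ▸ rfl)))
    rcases hz with ⟨w | s', rfl⟩ | ⟨a, b, t, hab, rfl⟩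
    · exact absurd (i1 w) (r3 s _ e1)
    · exact key s' 1 rfl
    · rcases hA a b hab with ⟨u, v, k, -, -, e⟩ | ⟨s', -, e⟩
      · exact absurd (e ▸ i2 t k) (r3 s _ e1)
      · exact key s' t (by rw [e])
  · rintro _ ⟨s, rfl⟩ _ ⟨s', rfl⟩ z e e'
    exact congrArg _ (r2 s s' z (c2 s z e).1 (c2 s' z e').1)

/-- The covering map from the strip to the punctured complex plane. -/
noncomputable def cylC (p : ℝ × ℝ) : ℂ := Complex.exp (p.2 + p.1 * (2 * Real.pi * Complex.I))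

theorem cylC_cont : Continuous cylC := by
  unfold cylC
  fun_prop

theorem cylC_eq {a b a' b' : ℝ} :
    cylC (a, b) = cylC (a', b') ↔ b = b' ∧ ∃ k : ℤ, a = a' + k :=
  Complex.equivRealProdCLM.injective.eq_iff.symm.trans cyl_eq

theorem norm_cylC (p : ℝ × ℝ) : ‖cylC p‖ = Real.exp p.2 := by simp [cylC, Complex.norm_exp]

theorem cylC_open : IsOpenMap cylC :=
  Complex.isOpenMap_exp.comp (IsOpenMap.of_inverse
    (f := fun p : ℝ × ℝ => (p.2 + p.1 * (2 * Real.pi * Complex.I) : ℂ))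
    (f' := fun z => (z.im / (2 * Real.pi), z.re)) (by fun_prop)
    (fun z => Complex.ext (by simp [-Complex.ofReal_div]) (by simp [-Complex.ofReal_div]))
    fun p => Prod.ext (by simp) (by simp))

theorem draw_cyl {W : Type} (P : SimpleGraph W) (x : W → ℝ) (y : W → ℤ)
    (hinj : ∀ u v (k : ℤ), x u = x v + k → y u = y v → u = v)
    (hE : ∀ u v, P.Adj u v → ((x u = x v ∧ y v = y u + 1) ∨ ∃ k, Hor x y u v k) ∨
      ((x v = x u ∧ y u = y v + 1) ∨ ∃ k, Hor x y v u k)) :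
    ∃ arc, Draw P (fun w => cylC (x w, y w)) arc ∧ ∀ z ∈ Ink P (fun w => cylC (x w, y w)) arc,
      ∃ a b : ℝ, z = cylC (a, b) ∧ ((∃ n : ℤ, b = n) ∨ ∃ u, a = x u ∧ y u < b ∧ b < y u + 1) := by
  have he : ∀ e : W × W, ∃ (u v : W) (k : ℤ), P.Adj e.1 e.2 → s(e.1, e.2) = s(u, v) ∧
      ((k = 0 ∧ x u = x v ∧ y v = y u + 1) ∨ Hor x y u v k) := by
    rintro ⟨u, v⟩
    by_cases he : P.Adj u v
    · rcases hE u v he with (h | ⟨k, h⟩) | (h | ⟨k, h⟩)
      exacts [⟨u, v, 0, fun _ => ⟨rfl, Or.inl ⟨rfl, h⟩⟩⟩, ⟨u, v, k, fun _ => ⟨rfl, Or.inr h⟩⟩,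
        ⟨v, u, 0, fun _ => ⟨Sym2.eq_swap, Or.inl ⟨rfl, h⟩⟩⟩,
        ⟨v, u, k, fun _ => ⟨Sym2.eq_swap, Or.inr h⟩⟩]
    · exact ⟨u, v, 0, fun h => absurd h he⟩
  choose u v k h0 using he
  have hint : ∀ (a b : ℤ) (t s : ℝ), 0 < t → t < 1 → 0 ≤ s → s ≤ 1 → (a : ℝ) + t = b + s →
      a = b := by
    intro a b t s t0 t1 s0 s1 h
    have e2 : a < b + 1 := by exact_mod_cast (by linarith : (a : ℝ) < b + 1)
    have e3 : b < a + 1 := by exact_mod_cast (by linarith : (b : ℝ) < a + 1)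
    omega
  have hint0 : ∀ (a b : ℤ) (t : ℝ), 0 < t → t < 1 → (a : ℝ) + t ≠ b := by
    intro a b t t0 t1 h
    have := hint a b t 0 t0 t1 le_rfl zero_le_one (by linarith)
    subst this
    linarith
  let A : W × W → C(unitInterval, ℂ) := fun e => ⟨fun t => cylC (x (u e) + t *
    (x (v e) + k e - x (u e)), y (u e) + t * (y (v e) - y (u e))), cylC_cont.comp (by fun_prop)⟩
  have A0 : ∀ e, A e 0 = cylC (x (u e), y (u e)) := fun e => by simp [A]
  have A1 : ∀ e, A e 1 = cylC (x (v e), y (v e)) := fun e => cylC_eq.2 ⟨by simp, k e, by simp⟩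
  have m1 : ∀ e : W × W, P.Adj e.1 e.2 → Function.Injective (A e) := by
    intro e he t s h
    obtain ⟨e1, j, e2⟩ := cylC_eq.1 h
    apply Subtype.ext
    rcases (h0 e he).2 with ⟨-, -, e3⟩ | ⟨-, e3, e4, -⟩
    · rw [e3] at e1
      push_cast at e1
      linarith
    · have a1 := t.2.1
      have a2 := t.2.2
      have a3 := s.2.1
      have a4 := s.2.2
      have b1 : (j : ℝ) < 1 := by nlinarith
      have b2 : (-1 : ℝ) < j := by nlinarith
      have b3 : j < 1 := by exact_mod_cast b1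
      have b4 : -1 < j := by exact_mod_cast b2
      obtain rfl : j = 0 := by omega
      refine mul_right_cancel₀ (b := x (v e) + k e - x (u e)) (by linarith) ?_
      push_cast at e2
      linarith
  have m2 : ∀ e : W × W, P.Adj e.1 e.2 → ∀ t, t ≠ 0 → t ≠ 1 → ∀ w, A e t ≠ cylC (x w, y w) := by
    intro e he t t0 t1 w h
    have a1 : (0 : ℝ) < t := unitInterval.pos_iff_ne_zero.2 t0
    have a2 : (t : ℝ) < 1 := unitInterval.lt_one_iff_ne_one.2 t1
    obtain ⟨e1, j, e2⟩ := cylC_eq.1 h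
    rcases (h0 e he).2 with ⟨-, -, e3⟩ | ⟨e3, e4, e5, e6⟩
    · rw [e3] at e1
      push_cast at e1
      exact hint0 (y (u e)) (y w) t a1 a2 (by linarith)
    · rw [← e3, sub_self, mul_zero, add_zero] at e1
      exact e6 w j (by exact_mod_cast e1.symm) ⟨by nlinarith, by nlinarith⟩
  have m3 : ∀ e f : W × W, P.Adj e.1 e.2 → P.Adj f.1 f.2 → ∀ t, t ≠ 0 → t ≠ 1 → ∀ s,
      A e t = A f s → s(u e, v e) = s(u f, v f) := by
    intro e f he hf t t0 t1 s h
    by_cases s0 : s = 0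
    · exact absurd (h.trans (s0 ▸ A0 f)) (m2 e he t t0 t1 _)
    by_cases s1 : s = 1
    · exact absurd (h.trans (s1 ▸ A1 f)) (m2 e he t t0 t1 _)
    have a1 : (0 : ℝ) < t := unitInterval.pos_iff_ne_zero.2 t0
    have a2 : (t : ℝ) < 1 := unitInterval.lt_one_iff_ne_one.2 t1
    have a3 : (0 : ℝ) < s := unitInterval.pos_iff_ne_zero.2 s0
    have a4 : (s : ℝ) < 1 := unitInterval.lt_one_iff_ne_one.2 s1
    obtain ⟨e1, j, e2⟩ := cylC_eq.1 h
    rcases (h0 e he).2 with ⟨b1, b2, b3⟩ | ⟨b1, b2, b3, b4⟩ <;>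
      rcases (h0 f hf).2 with ⟨c1, c2, c3⟩ | ⟨c1, c2, c3, c4⟩
    · rw [b3, c3] at e1
      rw [b1, c1, ← b2, ← c2] at e2
      push_cast at e1 e2
      have d1 := hint (y (u e)) (y (u f)) t s a1 a2 a3.le a4.le (by linarith)
      have d2 := hinj (u e) (u f) j (by linarith) d1
      rw [d2, hinj (v e) (v f) 0 (by rw [← b2, ← c2, d2]; simp) (by omega)]
    · rw [b3, ← c1] at e1
      push_cast at e1
      exact absurd (by linarith) (hint0 (y (u e)) (y (u f)) t a1 a2)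
    · rw [c3, ← b1] at e1
      push_cast at e1
      exact absurd (by linarith) (hint0 (y (u f)) (y (u e)) s a3 a4)
    · rw [← b1, ← c1, sub_self, sub_self, mul_zero, mul_zero, add_zero, add_zero] at e1
      have d0 : y (u e) = y (u f) := by exact_mod_cast e1
      have p1 : x (u e) < x (u e) + t * (x (v e) + k e - x (u e)) := by nlinarith
      have p2 : x (u e) + t * (x (v e) + k e - x (u e)) < x (v e) + k e := by nlinarith
      have p3 : x (u f) < x (u f) + s * (x (v f) + k f - x (u f)) := by nlinarith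
      have p4 : x (u f) + s * (x (v f) + k f - x (u f)) < x (v f) + k f := by nlinarith
      have d1 : x (u e) = x (u f) + j := by
        rcases lt_trichotomy (x (u e)) (x (u f) + j) with h | h | h
        · exact absurd ⟨h, by linarith⟩ (b4 (u f) j d0.symm)
        · exact h
        · exact absurd ⟨by push_cast; linarith, by push_cast; linarith⟩ (c4 (u e) (-j) d0)
      have d2 : x (v e) = x (v f) + (k f + j - k e : ℤ) := by
        rcases lt_trichotomy (x (v e) + k e) (x (v f) + k f + j) with h | h | h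
        · exact absurd ⟨by push_cast; linarith, by push_cast; linarith⟩
            (c4 (v e) (k e - j) (by omega))
        · push_cast
          linarith
        · exact absurd ⟨by push_cast; linarith, by push_cast; linarith⟩
            (b4 (v f) (k f + j) (by omega))
      rw [hinj _ _ _ d1 d0, hinj _ _ _ d2 (by omega)]
  refine ⟨fun a b => A (a, b), ⟨fun w w' h => ?_, fun a b hab => ⟨m1 (a, b) hab, ?_,
    fun t t0 t1 => ⟨m2 (a, b) hab t t0 t1, fun a' b' hab' s h => (h0 (a, b) hab).1.trans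
      ((m3 (a, b) (a', b') hab hab' t t0 t1 s h).trans (h0 (a', b') hab').1.symm)⟩⟩⟩, ?_⟩
  · obtain ⟨e1, j, e2⟩ := cylC_eq.1 h
    exact hinj _ _ j e2 (by exact_mod_cast e1)
  · rcases Sym2.eq_iff.1 (h0 (a, b) hab).1 with ⟨e1, e2⟩ | ⟨e1, e2⟩
    · exact Or.inl ⟨(A0 _).trans (by rw [← e1]), (A1 _).trans (by rw [← e2])⟩
    · exact Or.inr ⟨(A0 _).trans (by rw [← e2]), (A1 _).trans (by rw [← e1])⟩
  · rintro _ (⟨w, rfl⟩ | ⟨a, b, t, hab, rfl⟩)
    · exact ⟨_, _, rfl, Or.inl ⟨_, rfl⟩⟩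
    by_cases t0 : t = 0
    · exact ⟨_, _, t0 ▸ A0 _, Or.inl ⟨_, rfl⟩⟩
    by_cases t1 : t = 1
    · exact ⟨_, _, t1 ▸ A1 _, Or.inl ⟨_, rfl⟩⟩
    have a1 : (0 : ℝ) < t := unitInterval.pos_iff_ne_zero.2 t0
    have a2 : (t : ℝ) < 1 := unitInterval.lt_one_iff_ne_one.2 t1
    refine ⟨_, _, rfl, ?_⟩
    rcases (h0 (a, b) hab).2 with ⟨e1, e2, e3⟩ | ⟨e1, -⟩
    · exact Or.inr ⟨u (a, b), by simp [e1, e2], by simp [e3, a1], by simp [e3, a2]⟩
    · exact Or.inl ⟨y (u (a, b)), by simp [e1]⟩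

theorem tame_cyl {W : Type} (P : SimpleGraph W) (x : W → ℝ) (y : W → ℤ)
    (hinj : ∀ u v (k : ℤ), x u = x v + k → y u = y v → u = v)
    (hE : ∀ u v, P.Adj u v → ((x u = x v ∧ y v = y u + 1) ∨ ∃ k, Hor x y u v k) ∨
      ((x v = x u ∧ y u = y v + 1) ∨ ∃ k, Hor x y v u k))
    (hg : ∀ w, ∃ g : ℝ, 0 < g ∧ ∀ u (j : ℤ), y u = y w → ¬ (x w < x u + j ∧ x u + j < x w + g)) :
    Tame (pend P) (Set.range Sum.inr) := by
  obtain ⟨arc, h1, h2⟩ := draw_cyl P x y hinj hE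
  choose g g0 g1 using hg
  have hint : ∀ {a b : ℤ} {t : ℝ}, a < t → t < a + 1 → b ≤ t → t < b + 1 → a = b := by
    intro a b t t0 t1 s0 s1
    have e2 : a < b + 1 := by exact_mod_cast (by linarith : (a : ℝ) < b + 1)
    have e3 : b < a + 1 := by exact_mod_cast (by linarith : (b : ℝ) < a + 1)
    omega
  obtain ⟨κ, k0, k1⟩ : ∃ κ : ℕ → ℝ, (∀ j, 0 < κ j) ∧ ∀ j : ℕ, ((j : ℝ) + 1) * κ j = 1 / 2 :=
    ⟨fun j => 1 / (2 * (j + 1)), fun j => by positivity, fun j => by field_simp⟩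
  refine tame_pend h1 (fun s => cylC '' {p | y s.1 < p.2 ∧ p.2 < y s.1 + 1 ∧ x s.1 < p.1 ∧
    p.1 < x s.1 + g s.1 ∧ (s.2 + 1 / 2) * (g s.1 * (p.2 - y s.1)) < p.1 - x s.1 ∧
    p.1 - x s.1 < (s.2 + 3 / 2) * (g s.1 * (p.2 - y s.1))})
    (fun s => ⟨fun t => cylC (x s.1 + g s.1 / 2 * t, y s.1 + κ s.2 * t),
      cylC_cont.comp (by fun_prop)⟩) (fun s => cylC_open _ ?_) ?_ ?_ (fun s t t' h => ?_)
    (fun s => by simp) (fun s t t0 => ⟨_, ?_, rfl⟩) fun s t t1 => ?_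
  · simp only [Set.ofPred_and]
    refine (isOpen_lt ?_ ?_).inter ((isOpen_lt ?_ ?_).inter ((isOpen_lt ?_ ?_).inter
      ((isOpen_lt ?_ ?_).inter ((isOpen_lt ?_ ?_).inter (isOpen_lt ?_ ?_))))) <;> fun_prop
  · rintro ⟨w, j⟩ ⟨w', j'⟩ _ ⟨⟨a, b⟩, ⟨p1, p2, p3, p4, p5, p6⟩, rfl⟩
      ⟨⟨a', b'⟩, ⟨q1, q2, q3, q4, q5, q6⟩, e⟩
    obtain ⟨rfl, k, rfl⟩ := cylC_eq.1 e
    simp only at *
    have e1 := hint p1 p2 q1.le q2
    have e2 : x w' = x w + k := by
      rcases lt_trichotomy (x w') (x w + k) with h | h | h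
      · exact absurd ⟨h, by linarith⟩ (g1 w' w k e1)
      · exact h
      · exact absurd ⟨by push_cast; linarith, by push_cast; linarith⟩ (g1 w w' (-k) e1.symm)
    obtain rfl := hinj _ _ _ e2 e1.symm
    rw [show (k : ℝ) = 0 by linarith, add_zero] at q5 q6
    have e3 : 0 < g w' * (b' - y w') := mul_pos (g0 _) (by linarith)
    have e4 := lt_of_mul_lt_mul_right (p5.trans q6) e3.le
    have e5 := lt_of_mul_lt_mul_right (q5.trans p6) e3.le
    have e6 : j < j' + 1 := by exact_mod_cast (by linarith : (j : ℝ) < j' + 1)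
    have e7 : j' < j + 1 := by exact_mod_cast (by linarith : (j' : ℝ) < j + 1)
    rw [show j = j' by omega]
  · rintro ⟨w, j⟩ _ ⟨⟨a, b⟩, ⟨p1, p2, p3, p4, -⟩, rfl⟩ hz
    obtain ⟨a', b', e, h⟩ := h2 _ hz
    obtain ⟨rfl, k, rfl⟩ := cylC_eq.1 e
    simp only at *
    rcases h with ⟨n, rfl⟩ | ⟨u, rfl, h3, h4⟩
    · obtain rfl := hint p1 p2 le_rfl (lt_add_one _)
      exact lt_irrefl _ p1
    · exact g1 w u k (hint h3 h4 p1.le p2) ⟨p3, p4⟩
  · exact Subtype.ext (mul_left_cancel₀ (k0 s.2).ne' (add_left_cancel (cylC_eq.1 h).1))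
  · have a1 : (0 : ℝ) < t := unitInterval.pos_iff_ne_zero.2 t0
    have a2 : (t : ℝ) ≤ 1 := t.2.2
    have a3 := k0 s.2
    have a4 := k1 s.2
    have a5 := g0 s.1
    have a6 : (0 : ℝ) ≤ s.2 := by positivity
    have a7 := mul_pos a5 (mul_pos a3 a1)
    have a8 : g s.1 / 2 * t = (s.2 + 1) * (g s.1 * (κ s.2 * t)) := by
      linear_combination -(g s.1 * t) * a4
    refine ⟨?_, ?_, ?_, ?_, ?_, ?_⟩ <;> simp only [add_sub_cancel_left]
    · nlinarith
    · nlinarith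
    · nlinarith
    · nlinarith
    · linarith
    · linarith
  · have a2 : (t : ℝ) < 1 := unitInterval.lt_one_iff_ne_one.2 t1
    simp only [ContinuousMap.coe_mk, norm_cylC, Real.exp_lt_exp, Set.Icc.coe_one]
    nlinarith [k0 s.2]

theorem tame_fin {W : Type} (P : SimpleGraph W) (x : W → ℝ) (y : W → ℕ)
    (hf : ∀ n, {w | y w = n}.Finite) (hinj : ∀ u v (k : ℤ), x u = x v + k → y u = y v → u = v)
    (hE : ∀ u v, P.Adj u v → ((x u = x v ∧ y v = y u + 1) ∨ ∃ k, Hor x y u v k) ∨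
      ((x v = x u ∧ y u = y v + 1) ∨ ∃ k, Hor x y v u k)) :
    Tame (pend P) (Set.range Sum.inr) := by
  refine tame_cyl P x (fun w => y w) (by simpa using hinj) (by
    simpa only [Hor, ← Nat.cast_add_one, Nat.cast_inj] using hE) fun w => ?_
  obtain ⟨u, -, hu⟩ := Set.exists_min_image _ (fun u => ⌊x w - x u⌋ + 1 - (x w - x u)) (hf (y w))
    ⟨w, rfl⟩
  refine ⟨_, sub_pos.2 (Int.lt_floor_add_one (x w - x u)), fun v j e ⟨h1, h2⟩ => ?_⟩
  have e1 := hu v (by exact_mod_cast e)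
  have e2 : ⌊x w - x v⌋ < j := Int.floor_lt.2 (by linarith)
  have e3 : ((⌊x w - x v⌋ + 1 : ℤ) : ℝ) ≤ j := by exact_mod_cast e2
  push_cast at e3
  linarith

theorem tame_grid {W : Type} {f : W → ℤ × ℤ} (hf : Function.Injective f) :
    Tame (pend (grid.comap f)) (Set.range Sum.inr) := by
  have : Nontrivial (Set.Ioo (0 : ℝ) 1) :=
    ⟨⟨⟨1 / 2, by norm_num⟩, ⟨1 / 3, by norm_num⟩, by norm_num⟩⟩
  obtain ⟨em⟩ := Order.embedding_from_countable_to_dense ℤ (Set.Ioo (0 : ℝ) 1)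
  have hz : ∀ {a b j : ℤ} {c : ℝ}, c ≤ 1 → (em a : ℝ) ≤ em b + j → (em b : ℝ) + j ≤ c → j = 0 := by
    intro a b j c c1 h1 h2
    have e1 : (j : ℝ) < 1 := by linarith [(em b).2.1]
    have e2 : (-1 : ℝ) < j := by linarith [(em a).2.1, (em b).2.2]
    have e3 : j < 1 := by exact_mod_cast e1
    have e4 : -1 < j := by exact_mod_cast e2
    omega
  have hl : ∀ {a b}, (em a : ℝ) < em b ↔ a < b := Subtype.coe_lt_coe.trans em.lt_iff_lt
  have hs : ∀ a b (j : ℤ), ¬ ((em a : ℝ) < em b + j ∧ (em b : ℝ) + j < em (a + 1)) := by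
    rintro a b j ⟨h1, h2⟩
    obtain rfl := hz (em (a + 1)).2.2.le h1.le h2.le
    simp only [Int.cast_zero, add_zero, hl] at h1 h2
    omega
  have hh : ∀ u v, (f v).1 = (f u).1 + 1 → (f u).2 = (f v).2 →
      Hor (fun w => (em (f w).1 : ℝ)) (fun w => (f w).2) u v 0 := fun u v h1 h2 =>
    ⟨h2, by simp [h1, hl], by simpa using (em _).2.2.trans (lt_add_of_pos_left _ (em _).2.1),
      fun w j _ => by simpa [h1] using hs _ _ j⟩
  refine tame_cyl _ (fun w => em (f w).1) (fun w => (f w).2) (fun u v k h1 h2 => ?_)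
    (fun u v h => ?_) fun w => ⟨em ((f w).1 + 1) - em (f w).1, sub_pos.2 (hl.2 (by omega)),
      fun u j _ => by simpa using hs _ _ j⟩
  · obtain rfl := hz (em (f u).1).2.2.le h1.le h1.ge
    exact hf (Prod.ext (em.injective (Subtype.ext (by simpa using h1))) h2)
  · have h' : ((f u).1 - (f v).1).natAbs + ((f u).2 - (f v).2).natAbs = 1 := h
    rcases lt_trichotomy (f u).1 (f v).1 with e | e | e
    · exact Or.inl (Or.inr ⟨0, hh u v (by omega) (by omega)⟩)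
    · rcases lt_or_ge (f u).2 (f v).2 with e' | e'
      · exact Or.inl (Or.inl ⟨by rw [e], by omega⟩)
      · exact Or.inr (Or.inl ⟨by rw [e], by omega⟩)
    · exact Or.inr (Or.inr ⟨0, hh v u (by omega) (by omega)⟩)

end Pool.Agent.MP_77f003_co.H49
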