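import Pool.Agent.MP_77f003_co.H49.Tree
import Pool.Agent.MP_77f003_co.H49.Tame

/-!
Every bag is coarsely equivalent to a graph with a tame drawing.
-/

namespace Pool.Agent.MP_77f003_co.H49

open SimpleGraph Filter

variable {V : Type} {G : SimpleGraph V} {N : Set (Set V)} {m : ℕ}

/-- A tame graph coarsely equivalent to `B`, with many marked vertices near each point. -/
def Piece (G : SimpleGraph V) (B : Set V) (c : ℕ) (C : ℕ → ℕ) : Prop :=
  ∃ (X : Type) (Q : SimpleGraph X) (L : Set X) (f : X → V) (l : V → ℕ → X), Tame Q L ∧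
    (∀ u v, Q.Adj u v → G.dist (f u) (f v) ≤ c) ∧ (∀ u, f u ∈ B) ∧
    (∀ R u v, G.dist (f u) (f v) ≤ R → Wk Q (C R) u v) ∧
    (∀ x ∈ B, ∀ n, G.dist x (f (l x n)) ≤ c) ∧ (∀ x n, l x n ∈ L) ∧
    ∀ x y n n', l x n = l y n' → n = n'

/-- The graph on `Y` joining points at distance at most `r`. -/
def rips (G : SimpleGraph V) (Y : Set V) (r : ℕ) : SimpleGraph Y where
  Adj u v := u ≠ v ∧ G.dist u v ≤ r
  symm := ⟨fun u v h => ⟨h.1.symm, by rw [dcomm]; exact h.2⟩⟩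
  loopless := ⟨fun u h => h.1 rfl⟩

theorem Piece.mono {B : Set V} {c c' : ℕ} {C C' : ℕ → ℕ} (h : Piece G B c C) (h1 : c ≤ c')
    (h2 : ∀ R, C R ≤ C' R) : Piece G B c' C' := by
  obtain ⟨X, Q, L, f, l, p1, p2, p3, p4, p5, p6⟩ := h
  exact ⟨X, Q, L, f, l, p1, fun u v h => (p2 u v h).trans h1, p3,
    fun R u v h => (p4 R u v h).mono (h2 R), fun x hx n => (p5 x hx n).trans h1, p6⟩

theorem wk_pend {W : Type} {P : SimpleGraph W} {n : ℕ} (u v : W ⊕ W × ℕ)
    (h : Wk P n (u.elim id Prod.fst) (v.elim id Prod.fst)) : Wk (pend P) (1 + n + 1) u v := by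
  have k : ∀ u : W ⊕ W × ℕ, Wk (pend P) 1 u (.inl (u.elim id Prod.fst)) := by
    rintro (u | u)
    exacts [Wk.refl _ _, Wk.adj rfl]
  obtain ⟨p, hp⟩ := h
  exact ((k u).trans ⟨p.map (⟨Sum.inl, fun h => h⟩ : P →g pend P), by simpa using hp⟩).trans
    (k v).symm

variable [Fact G.Connected]

theorem Piece.map {B : Set V} {c : ℕ} {C : ℕ → ℕ} (h : Piece G B c C) (φ : G ≃g G) :
    Piece G (φ ⁻¹' B) c C := by
  obtain ⟨X, Q, L, f, l, p1, p2, p3, p4, p5, p6, p7⟩ := h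
  refine ⟨X, Q, L, fun u => φ.symm (f u), fun x => l (φ x), p1, fun u v h => ?_,
    fun u => by simpa using p3 u, fun R u v h => p4 R u v ?_, fun x hx n => ?_,
    fun x => p6 _, fun x y => p7 _ _⟩
  · rw [dist_iso]
    exact p2 u v h
  · rwa [dist_iso] at h
  · rw [← dist_iso φ, RelIso.apply_symm_apply]
    exact p5 _ hx n

theorem QuasiIsometric.inv {W : Type} {P : SimpleGraph W} [Fact P.Connected]
    (h : QuasiIsometric G P) : ∃ (g : W → V) (c : ℕ) (C : ℕ → ℕ),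
      (∀ u v, P.Adj u v → G.dist (g u) (g v) ≤ c) ∧
      (∀ R u v, G.dist (g u) (g v) ≤ R → P.dist u v ≤ C R) ∧ ∀ x, ∃ w, G.dist x (g w) ≤ c := by
  obtain ⟨f, A, B, a1, b0, h1, h2⟩ := h
  choose g hg using h2
  have key : ∀ x y, (P.dist (f x) (f y) : ℝ) ≤ 2 * B + 1 → G.dist x y ≤ ⌈(3 * B + 1) * A⌉₊ := by
    intro x y h
    have e1 := (h1 x y).1
    have e2 : (G.dist x y : ℝ) ≤ (3 * B + 1) * A := (div_le_iff₀ (by linarith)).1 (by linarith)
    exact_mod_cast e2.trans (Nat.le_ceil _)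
  have t3 : ∀ a b c d : W, (P.dist a d : ℝ) ≤ P.dist b a + P.dist b c + P.dist c d := by
    intro a b c d
    have e1 := tri (G := P) a b d
    have e2 := tri (G := P) b c d
    rw [dcomm a b] at e1
    exact_mod_cast (by omega)
  refine ⟨g, _, fun R => ⌈A * R + 3 * B⌉₊, fun u v h => key _ _ ?_, fun R u v h => ?_,
    fun x => ⟨f x, key _ _ (by linarith [hg (f x)])⟩⟩
  · have := t3 (f (g u)) u v (f (g v))
    rw [dist_adj h, Nat.cast_one] at this
    linarith [hg u, hg v]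
  · have e1 := t3 u (f (g u)) (f (g v)) v
    rw [dcomm (f (g u)) u, dcomm (f (g v)) v] at e1
    have e2 : (G.dist (g u) (g v) : ℝ) ≤ R := by exact_mod_cast h
    have e3 := mul_le_mul_of_nonneg_left e2 (show 0 ≤ A by linarith)
    have e4 : (P.dist u v : ℝ) ≤ A * R + 3 * B := by linarith [hg u, hg v, (h1 (g u) (g v)).2]
    exact_mod_cast e4.trans (Nat.le_ceil _)

theorem rips_fatCl {Y : Set V} {r K h : ℕ} (hb : ∀ u v : Y, (rips G Y r).dist u v ≤ G.dist u v + 1)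
    (H : FatCl (rips G Y r) (K + 2 * r + 1) h) : FatCl G K h := by
  obtain ⟨I, B, E, h1, h2, h3, h4, h5, h6⟩ := H
  let T : Set Y → Set V := fun S => {z | ∃ u ∈ S, G.dist u z ≤ r}
  have k1 : ∀ {S} {u : Y} {z}, u ∈ S → G.dist u z ≤ r → Lk G (T S) u z := fun hu hz =>
    Lk.ball fun w hw => ⟨_, hu, hw.trans hz⟩
  have k2 : ∀ {S} {u v : Y}, Lk (rips G Y r) S u v → Lk G (T S) u v := by
    rintro S u v ⟨p, hp⟩
    induction p with
    | nil => exact k1 (hp _ (by simp)) (by simp)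
    | cons hab q ih => exact (k1 (hp _ (by simp)) hab.2).trans (ih fun z hz => hp z (by simp [hz]))
  have k3 : ∀ {S S'}, Far (rips G Y r) (K + 2 * r + 1) S S' → Far G K (T S) (T S') := by
    rintro S S' h z ⟨u, u1, u2⟩ w ⟨v, v1, v2⟩
    have e1 := (h u u1 v v1).trans (hb u v)
    have e2 := tri (G := G) u z v
    have e3 := tri (G := G) z w v
    rw [dcomm] at v2
    omega
  refine ⟨I, fun i => T (B i), fun i j => T (E i j), h1, fun i hi => ⟨?_, ?_⟩,
    fun i hi j hj hij => ?_, fun i hi j hj hij => k3 (h4 i hi j hj hij),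
    fun i hi j hj k hk l hl e1 e2 e3 => k3 (h5 i hi j hj k hk l hl e1 e2 e3),
    fun i hi j hj k hk e1 e2 e3 => k3 (h6 i hi j hj k hk e1 e2 e3)⟩
  · obtain ⟨u, hu⟩ := (h2 i hi).1
    exact ⟨u, u, hu, by simp⟩
  · rintro z ⟨u, u1, u2⟩ w ⟨v, v1, v2⟩
    exact ((k1 u1 u2).symm.trans (k2 ((h2 i hi).2 u u1 v v1))).trans (k1 v1 v2)
  · obtain ⟨u, u1, v, v1, l⟩ := h3 i hi j hj hij
    exact ⟨u, ⟨u, u1, by simp⟩, v, ⟨v, v1, by simp⟩, k2 l⟩

variable [G.LocallyFinite]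

theorem tame_of_oneEnd (ht : VT G) {K h : ℕ} (hno : ¬ FatCl G K h) {o : V}
    (hOE : ∀ α β, IsR G α → IsR G β → AdjI G o ∅ α β) : ∃ (W : Type) (P : SimpleGraph W),
      P.Connected ∧ QuasiIsometric G P ∧ Tame (pend P) (Set.range Sum.inr) := by
  by_cases ha : Amenable G
  · rcases planar_of_not_fatCl ht ha hno with h | h | h
    · exact ⟨_, _, point_connected, h, tame_grid fun _ _ _ => rfl⟩
    · exact ⟨_, _, line_connected, h, tame_grid fun _ _ h => congrArg Prod.fst h⟩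
    · exact ⟨_, _, grid_connected, h, tame_grid Function.injective_id⟩
  · obtain ⟨W, P, x, y, h1, h2, h3, h4, h5⟩ :=
      cyl_of_not_switch ha ht (fun hS => hno (fatCl_of_switch ha ht hS hOE h)) hOE
    exact ⟨W, P, h1, h2, tame_fin P x y h3 h4 h5⟩

theorem CutSys.piece (c : CutSys G N m) (ht : VT G) {K h : ℕ} (hno : ¬ FatCl G K h)
    {O : Set (Set V)} (hO : IsNode N O) : ∃ c C, Piece G (Bag G O) c C := by
  obtain ⟨y, hy, r0, hr⟩ := c.cocompact ht hO
  let Y : Set V := {x | ∃ φ : G ≃g G, nmap φ O = O ∧ φ y = x}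
  have y1 : ∀ u : Y, u.1 ∈ Bag G O := by
    rintro ⟨_, φ, h1, rfl⟩
    exact bag_nmap.1 (h1.symm ▸ hy)
  have y2 : ∀ x ∈ Bag G O, ∃ u : Y, G.dist x u ≤ r0 := fun x hx => by
    obtain ⟨φ, h1, h2⟩ := hr x hx
    exact ⟨⟨_, φ, h1, rfl⟩, h2⟩
  set r := 2 * r0 + m + 1 with hr'
  have st : ∀ {u u' v : Y} (q : (rips G Y r).Walk u' v), G.dist u u' ≤ r →
      ∃ q' : (rips G Y r).Walk u v, q'.length ≤ q.length + 1 ∧
        ∀ w ∈ q'.support, w = u ∨ w ∈ q.support := by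
    intro u u' v q h
    by_cases e : u = u'
    · subst e
      exact ⟨q, by omega, fun w hw => Or.inr hw⟩
    · exact ⟨Walk.cons ⟨e, h⟩ q, by simp, fun w hw => by simpa using hw⟩
  have hW : ∀ (u v : Y) (p : G.Walk u v), ∃ q : (rips G Y r).Walk u v, q.length ≤ p.length + 1 ∧
      ∀ w ∈ q.support, ∃ z ∈ p.support, G.dist z w ≤ r0 := by
    intro u v p
    obtain ⟨u', e1, q, e2, e3⟩ := c.follow hO (y1 v) (T := fun a n S => ∃ u : Y,
      G.dist a u ≤ r0 ∧ ∃ q : (rips G Y r).Walk u v, q.length ≤ n ∧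
        ∀ w ∈ q.support, ∃ z ∈ S, G.dist z w ≤ r0) ⟨v, by simp, Walk.nil, by simp, by simp⟩
      (by
        rintro a b n S a1 a2 ⟨u', e1, q, e2, e3⟩
        obtain ⟨u, hu⟩ := y2 a a1
        obtain ⟨q', f1, f2⟩ := st (u := u) q (by
          have k1 := tri (G := G) u a u'
          have k2 := tri (G := G) a b u'
          rw [dcomm] at hu
          omega)
        refine ⟨u, hu, q', by omega, fun w hw => ?_⟩
        rcases f2 w hw with rfl | k
        · exact ⟨a, Or.inl rfl, hu⟩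
        · exact (e3 w k).imp fun z hz => ⟨Or.inr hz.1, hz.2⟩)
      (fun a n S z ⟨u, e1, q, e2, e3⟩ => ⟨u, e1, q, by omega,
        fun w hw => (e3 w hw).imp fun z hz => ⟨Or.inr hz.1, hz.2⟩⟩) u (y1 u) p
    obtain ⟨q', f1, f2⟩ := st (u := u) q (by omega)
    refine ⟨q', by omega, fun w hw => ?_⟩
    rcases f2 w hw with rfl | k
    exacts [⟨w, p.start_mem_support, by simp⟩, e3 w k]
  have hgeo := fun u v : Y => (Fact.out : G.Connected).exists_walk_length_eq_dist u.1 v.1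
  let o : Y := ⟨y, RelIso.refl _, Set.image_id' O, rfl⟩
  have : Nonempty Y := ⟨o⟩
  have : Fact (rips G Y r).Connected := ⟨⟨fun u v => ⟨(hW u v (hgeo u v).choose).choose⟩⟩⟩
  have hb : ∀ u v : Y, (rips G Y r).dist u v ≤ G.dist u v + 1 := fun u v => by
    obtain ⟨p, hp⟩ := hgeo u v
    obtain ⟨q, e, -⟩ := hW u v p
    exact (dist_le q).trans (hp ▸ e)
  have ha : ∀ u v : Y, G.dist u v ≤ r * (rips G Y r).dist u v := fun u v => by
    obtain ⟨q, q0, q1, q2⟩ := exists_geo (G := rips G Y r) u v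
    have := dist_seq_le (G := G) (g := fun i => (q i).1) (fun i hi => (q2 i hi).2) 0
      ((rips G Y r).dist u v) (by omega)
    simpa [q0, q1] using this
  let _ : (rips G Y r).LocallyFinite := fun u => (((finite_ball (G := G) u.1 r).preimage
    Subtype.val_injective.injOn).subset fun v hv => hv.2).fintype
  have hm : ∀ θ : G ≃g G, nmap θ O = O → ∀ u : Y, θ u ∈ Y := by
    rintro θ e ⟨_, φ, h1, rfl⟩
    exact ⟨φ.trans θ, by rw [nmap_trans, e, h1], rfl⟩
  have hs : ∀ θ : G ≃g G, nmap θ O = O → nmap θ.symm O = O := fun θ e =>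
    (congrArg _ e.symm).trans (nmap_symm θ O)
  have hvt : VT (rips G Y r) := by
    rintro ⟨_, φ, h1, rfl⟩ ⟨_, ψ, h2, rfl⟩
    have e : nmap (φ.symm.trans ψ) O = O := by rw [nmap_trans, h2, hs φ h1]
    generalize hθ : φ.symm.trans ψ = θ at e
    refine ⟨⟨⟨fun u => ⟨θ u, hm θ e u⟩, fun u => ⟨θ.symm u, hm _ (hs θ e) u⟩,
      fun u => by simp, fun u => by simp⟩, fun {u v} => ?_⟩, Subtype.ext (by simp [← hθ])⟩
    simp [rips, dist_iso, Subtype.ext_iff]
  have hq : ∀ {α : ℕ → Y}, IsR (rips G Y r) α → QR G fun n => α n := fun {α} hα =>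
    ⟨⟨r * 1, fun n => (ha _ _).trans (Nat.mul_le_mul_left _ (hα.lazy n))⟩, fun x t =>
      (hα.proper o (G.dist y x + t + 1)).mono fun n hn => by
        have e1 := hb o (α n)
        have e2 := tri (G := G) y x (α n)
        simp only [o] at e1 hn ⊢
        omega⟩
  have hn : ∀ {α : ℕ → Y}, IsR (rips G Y r) α → ∀ A ∈ O, ¬ ∀ᶠ n in atTop, (α n).1 ∉ A := by
    intro α hα A hA h
    have ep : ∀ {n}, (α n).1 ∉ A → Ep G A (α n) := fun k => ⟨y1 _ A hA, _, k, by simp⟩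
    obtain ⟨a, k1⟩ := h.exists
    obtain ⟨b, k2, k3⟩ := (h.and ((hq hα).2 (α a) (m + 1))).exists
    exact absurd (c.diam A (hO.sub hA) _ _ (ep k1) (ep k2)) (not_le.2 k3)
  obtain ⟨W, P, p1, p2, p3⟩ := tame_of_oneEnd hvt (fun H => hno (rips_fatCl hb H)) (o := o)
    fun α β hα hβ t => by
      rcases c.sep _ _ (hq hα) (hq hβ) with k | ⟨A, hA, k1, k2⟩
      · obtain ⟨a, b, p, hp⟩ := k (ball G y (r * t + r0))
        obtain ⟨q, -, e⟩ := hW _ _ p
        refine ⟨a, b, q, fun w hw => ⟨?_, by simp⟩⟩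
        obtain ⟨z, z1, z2⟩ := e w hw
        have e1 : ¬ G.dist y z ≤ r * t + r0 := fun k => hp z z1 (mem_ball.2 k)
        have e2 := tri (G := G) y w z
        have e3 := ha o w
        rw [dcomm] at z2
        exact (lt_of_mul_lt_mul_left (a := r) (by simp only [o] at e3 ⊢; omega) (Nat.zero_le _)).le
      · rcases hO.tot A hA with k | k
        exacts [absurd k2 (hn hβ A k), absurd (k1.mono fun _ h h' => h' h) (hn hα _ k)]
  have : Fact P.Connected := ⟨p1⟩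
  obtain ⟨g, c1, C, g1, g2, g3⟩ := p2.inv
  have : ∀ x, ∃ w, x ∈ Bag G O → G.dist x (g w) ≤ r0 + r * c1 := fun x => by
    by_cases hx : x ∈ Bag G O
    · obtain ⟨u, hu⟩ := y2 x hx
      obtain ⟨w, hw⟩ := g3 u
      exact ⟨w, fun _ => (tri x u _).trans
        (Nat.add_le_add hu ((ha _ _).trans (Nat.mul_le_mul_left _ hw)))⟩
    · exact ⟨(g3 o).choose, fun h => absurd h hx⟩
  choose w hw using this
  refine ⟨r0 + r * c1, fun R => 1 + C (R + 1) + 1, _, _, _, fun u => g (u.elim id Prod.fst),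
    fun x n => .inr (w x, n), p3, ?_, fun u => y1 _, fun R u v h => wk_pend u v ?_,
    fun x hx _ => hw x hx, fun x n => ⟨_, rfl⟩,
    fun x y n n' h => congrArg Prod.snd (Sum.inr.inj h)⟩
  · rintro (u | u) (v | v) h
    · exact ((ha _ _).trans (Nat.mul_le_mul_left _ (g1 u v h))).trans (Nat.le_add_left _ _)
    · simp [show u = v.1 from h]
    · simp [show v = u.1 from h]
    · exact h.elim
  · obtain ⟨p, hp⟩ := p1.exists_walk_length_eq_dist (u.elim id Prod.fst) (v.elim id Prod.fst)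
    exact ⟨p, hp ▸ g2 _ _ _ ((hb _ _).trans (Nat.succ_le_succ h))⟩

theorem CutSys.pieces (c : CutSys G N m) (ht : VT G) {K h : ℕ} (hno : ¬ FatCl G K h) :
    ∃ c C, ∀ O, IsNode N O → Piece G (Bag G O) c C := by
  obtain ⟨o⟩ := (Fact.out : G.Connected).nonempty
  have hf := (c.fin_nodes o).to_subtype
  choose c1 C hC using fun O : {O | IsNode N O ∧ o ∈ Bag G O} => c.piece ht hno O.2.1
  obtain ⟨c2, h2⟩ := (Set.finite_range c1).bddAbove
  choose C2 h3 using fun R => (Set.finite_range fun O => C O R).bddAbove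
  refine ⟨c2, C2, fun O hO => ?_⟩
  obtain ⟨x, hx⟩ := c.bag_ne hO
  obtain ⟨φ, rfl⟩ := ht o x
  have := ((hC ⟨nmap φ O, c.map hO φ, bag_nmap.2 hx⟩).mono (h2 ⟨_, rfl⟩)
    fun R => h3 R ⟨_, rfl⟩).map φ.symm
  convert this using 1
  ext z
  simp [bag_nmap]

end Pool.Agent.MP_77f003_co.H49
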