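import Pool.Agent.MP_77f003_co.H49.Escape

/-!
Diverging rays, adjacency at infinity and the ray graph.
-/

namespace Pool.Agent.MP_77f003_co.H49

open SimpleGraph Filter

variable {V : Type} {G : SimpleGraph V}

theorem Lk.exit {S T : Set V} {x y : V} (h : Lk G S x y) (hx : x ∈ T) (hy : y ∉ T) :
    ∃ w, (∃ v ∈ T, G.Adj v w) ∧ Lk G (S \ T) w y := by
  obtain ⟨p, hp⟩ := h
  have key : Lk G (S \ T) x y ∨ ∃ w, (∃ v ∈ T, G.Adj v w) ∧ Lk G (S \ T) w y := by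
    clear hx
    induction p with
    | nil => exact Or.inl (Lk.refl (Set.mem_sdiff_of_mem (hp _ (by simp)) hy))
    | @cons a b c hab q ih =>
      rcases ih hy (fun z hz => hp z (by simp [hz])) with h | h
      · by_cases ha : a ∈ T
        · exact Or.inr ⟨b, ⟨a, ha, hab⟩, h⟩
        · exact Or.inl ((Lk.adj hab (Set.mem_sdiff_of_mem (hp _ (by simp)) ha) h.left).trans h)
      · exact Or.inr h
  exact key.resolve_left fun h => h.left.2 hx

theorem Lk.fin {S : Set V} {x y : V} (h : Lk G S x y) :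
    ∃ P : Set V, P.Finite ∧ P ⊆ S ∧ x ∈ P ∧ ∀ z ∈ P, Lk G P z y := by
  classical
  obtain ⟨p, hp⟩ := h
  exact ⟨{z | z ∈ p.support}, p.support.finite_toSet, hp, p.start_mem_support, fun z hz =>
    ⟨p.dropUntil z hz, fun w hw => p.support_dropUntil_subset_support hz hw⟩⟩

theorem Lk.map {S : Set V} {x y : V} (h : Lk G S x y) (φ : G ≃g G) :
    Lk G (φ '' S) (φ x) (φ y) := by
  obtain ⟨p, hp⟩ := h
  refine ⟨p.map φ.toHom, fun z hz => ?_⟩
  rw [Walk.support_map, List.mem_map] at hz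
  obtain ⟨w, hw, rfl⟩ := hz
  exact ⟨w, hp w hw, rfl⟩

theorem Far.symm {K : ℕ} {S T : Set V} (h : Far G K S T) : Far G K T S :=
  fun x hx y hy => dcomm (G := G) y x ▸ h y hy x hx

theorem Far.mono {K : ℕ} {S T S' T' : Set V} (h : Far G K S T) (hS : S' ⊆ S) (hT : T' ⊆ T) :
    Far G K S' T' := fun x hx y hy => h x (hS hx) y (hT hy)

theorem Far.union {K : ℕ} {S S' T : Set V} (h : Far G K S T) (h' : Far G K S' T) :
    Far G K (S ∪ S') T := fun x hx => hx.elim (h x) (h' x)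

theorem Far.union' {K : ℕ} {S T T' : Set V} (h : Far G K S T) (h' : Far G K S T') :
    Far G K S (T ∪ T') := fun x hx y hy => hy.elim (h x hx y) (h' x hx y)

/-- A lazy quasi-geodesic ray with some constant. -/
def IsR (G : SimpleGraph V) (w : ℕ → V) : Prop := ∃ a, Ray G a w

/-- The first ray moves away from the second one. -/
def Div (G : SimpleGraph V) (α β : ℕ → V) : Prop :=
  ∀ t, ∀ᶠ n in atTop, ∀ m, t ≤ G.dist (α n) (β m)

/-- The points far from the base point and from the given rays. -/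
def Safe (G : SimpleGraph V) (o : V) (t : ℕ) (O : Set (ℕ → V)) : Set V :=
  {z | t ≤ G.dist o z ∧ ∀ γ ∈ O, ∀ k, t ≤ G.dist z (γ k)}

/-- Two rays are adjacent at infinity, far from the obstacles. -/
def AdjI (G : SimpleGraph V) (o : V) (O : Set (ℕ → V)) (α β : ℕ → V) : Prop :=
  ∀ t, ∃ m n, Lk G (Safe G o t O) (α m) (β n)

/-- A finite family of pairwise diverging rays. -/
structure Fam (G : SimpleGraph V) (F : Set (ℕ → V)) : Prop where
  fin : F.Finite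
  ray : ∀ α ∈ F, IsR G α
  div : ∀ α ∈ F, ∀ β ∈ F, α ≠ β → Div G α β

theorem Fam.mono {F F' : Set (ℕ → V)} (h : Fam G F) (h' : F' ⊆ F) : Fam G F' :=
  ⟨h.fin.subset h', fun α hα => h.ray α (h' hα), fun α hα β hβ => h.div α (h' hα) β (h' hβ)⟩

theorem Div.ne {α β : ℕ → V} (h : Div G α β) : α ≠ β := by
  rintro rfl
  obtain ⟨n, hn⟩ := (h 1).exists
  simpa using hn n

theorem Safe.mono {o : V} {s t : ℕ} {O O' : Set (ℕ → V)} (h : s ≤ t) (h' : O ⊆ O') :
    Safe G o t O' ⊆ Safe G o s O :=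
  fun _ hz => ⟨h.trans hz.1, fun γ hγ k => h.trans (hz.2 γ (h' hγ) k)⟩

theorem AdjI.mono {o : V} {O O' : Set (ℕ → V)} {α β : ℕ → V} (h : AdjI G o O' α β) (h' : O ⊆ O') :
    AdjI G o O α β := fun t => by
  obtain ⟨m, n, h1⟩ := h t
  exact ⟨m, n, h1.mono (Safe.mono le_rfl h')⟩

theorem AdjI.symm {o : V} {O : Set (ℕ → V)} {α β : ℕ → V} (h : AdjI G o O α β) :
    AdjI G o O β α := fun t => by
  obtain ⟨m, n, h1⟩ := h t
  exact ⟨n, m, h1.symm⟩

theorem not_adjI {o : V} {O : Set (ℕ → V)} {α β : ℕ → V} (h : ¬ AdjI G o O α β) :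
    ∀ᶠ t in atTop, ∀ m n, ¬ Lk G (Safe G o t O) (α m) (β n) := by
  unfold AdjI at h
  push Not at h
  obtain ⟨t, ht⟩ := h
  filter_upwards [eventually_ge_atTop t] with s hs m n h
  exact ht m n (h.mono (Safe.mono hs le_rfl))

/-- The ray graph of a family. -/
def HG (G : SimpleGraph V) (o : V) (F : Set (ℕ → V)) : SimpleGraph (ℕ → V) where
  Adj α β := α ∈ F ∧ β ∈ F ∧ α ≠ β ∧ AdjI G o (F \ {α, β}) α β
  symm := ⟨fun α β h => ⟨h.2.1, h.1, h.2.2.1.symm, Set.pair_comm α β ▸ h.2.2.2.symm⟩⟩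
  loopless := ⟨fun α h => h.2.2.1 rfl⟩

variable [Fact G.Connected]

theorem Lk.near {S : Set V} {x y : V} (h : G.dist x y ≤ 1) (hx : x ∈ S) (hy : y ∈ S) :
    Lk G S x y := by
  rcases Nat.le_one_iff_eq_zero_or_eq_one.1 h with h | h
  · rw [← eq_of_dist h]
    exact Lk.refl hx
  · exact Lk.adj (dist_eq_one_iff_adj.1 h) hx hy

theorem Lk.ball {S : Set V} {x y : V} (h : ∀ z, G.dist x z ≤ G.dist x y → z ∈ S) : Lk G S x y :=
  Lk.geo fun z hz => h z (by omega)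

theorem lk_lazy {w : ℕ → V} (h : ∀ n, G.dist (w n) (w (n + 1)) ≤ 1) {S : Set V} {i j : ℕ}
    (hS : ∀ k, min i j ≤ k → k ≤ max i j → w k ∈ S) : Lk G S (w i) (w j) := by
  wlog hij : i ≤ j generalizing i j
  · exact (this (by rwa [min_comm, max_comm]) (by omega)).symm
  obtain ⟨d, rfl⟩ := Nat.exists_eq_add_of_le hij
  exact Lk.seq (g := fun k => w (i + k)) (hS _ (by omega) (by omega)) fun k hk =>
    Lk.near (h _) (hS _ (by omega) (by omega)) (hS _ (by omega) (by omega))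

theorem IsR.lazy {w : ℕ → V} (h : IsR G w) (n : ℕ) : G.dist (w n) (w (n + 1)) ≤ 1 :=
  h.choose_spec.1 n

theorem IsR.lk {w : ℕ → V} (h : IsR G w) {S : Set V} {i j : ℕ}
    (hS : ∀ k, min i j ≤ k → k ≤ max i j → w k ∈ S) : Lk G S (w i) (w j) := lk_lazy h.lazy hS

theorem IsR.proper {w : ℕ → V} (h : IsR G w) (x : V) (t : ℕ) :
    ∀ᶠ n in atTop, t ≤ G.dist x (w n) := by
  obtain ⟨a, ha⟩ := h
  filter_upwards [eventually_gt_atTop (a * (G.dist (w 0) x + t))] with n hn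
  by_contra hcon
  have e1 := ha.2 0 n (Nat.zero_le _)
  have e2 := tri (G := G) (w 0) x (w n)
  have e3 : a * (G.dist (w 0) (w n) + 1) ≤ a * (G.dist (w 0) x + t) :=
    Nat.mul_le_mul_left _ (by omega)
  omega

theorem IsR.thin {w : ℕ → V} (h : IsR G w) : ∃ A, ∀ x, Thin G A x (Set.range w) :=
  ⟨_, h.choose_spec.thin⟩

theorem IsR.idx {w : ℕ → V} (h : IsR G w) (o : V) (N : ℕ) :
    ∀ᶠ t in atTop, ∀ m, t ≤ G.dist o (w m) → N ≤ m := by
  filter_upwards [eventually_gt_atTop (G.dist o (w 0) + N)] with t ht m hm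
  have e1 := dist_lazy h.lazy (Nat.zero_le m)
  have e2 := tri (G := G) o (w 0) (w m)
  omega

theorem Div.symm {α β : ℕ → V} (h : Div G α β) (hα : IsR G α) (hβ : IsR G β) : Div G β α := by
  intro t
  obtain ⟨N, hN⟩ := eventually_atTop.1 (h t)
  filter_upwards [hβ.proper (α 0) (t + N)] with n hn m
  rcases le_or_gt N m with hm | hm
  · rw [dcomm]
    exact hN m hm n
  · have e1 := dist_lazy hα.lazy (Nat.zero_le m)
    have e2 := tri (G := G) (α 0) (α m) (β n)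
    rw [dcomm]
    omega

theorem div_of_lin {α β : ℕ → V} {a s : ℕ} (ha : 1 ≤ a)
    (h : ∀ n m, s + n / a ≤ G.dist (α n) (β m)) : Div G α β := by
  intro t
  filter_upwards [eventually_ge_atTop (t * a)] with n hn m
  have := (Nat.le_div_iff_mul_le ha).2 hn
  have := h n m
  omega

theorem tail_safe (o : V) {x : ℕ → V} (hx : IsR G x) {O : Set (ℕ → V)} (hO : O.Finite)
    (h : ∀ γ ∈ O, Div G x γ) (t : ℕ) : ∀ᶠ n in atTop, x n ∈ Safe G o t O :=
  (hx.proper o t).and ((eventually_all_finite hO).2 fun γ hγ => h γ hγ t)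

theorem AdjI.trans {o : V} {O : Set (ℕ → V)} {α x β : ℕ → V} (h1 : AdjI G o O α x)
    (h2 : AdjI G o O x β) (hx : IsR G x) (hO : O.Finite) (h : ∀ γ ∈ O, Div G x γ) :
    AdjI G o O α β := by
  intro t
  obtain ⟨N, hN⟩ := eventually_atTop.1 (tail_safe o hx hO h t)
  obtain ⟨s, hs, hts⟩ := ((hx.idx o N).and (eventually_ge_atTop t)).exists
  obtain ⟨m, n, l1⟩ := h1 s
  obtain ⟨m', n', l2⟩ := h2 s
  have e1 := hs n l1.right.1
  have e2 := hs m' l2.left.1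
  exact ⟨m, n', ((l1.mono (Safe.mono hts le_rfl)).trans (hx.lk fun k hk _ => hN k (by omega))).trans
    (l2.mono (Safe.mono hts le_rfl))⟩

theorem Fam.uniq {F : Set (ℕ → V)} (hF : Fam G F) (o : V) (s : ℕ) :
    ∀ᶠ t in atTop, ∀ α ∈ F, ∀ β ∈ F, ∀ z, t ≤ G.dist o z → ∀ m n, G.dist z (α m) ≤ s →
      G.dist z (β n) ≤ s → α = β := by
  refine (eventually_all_finite hF.fin).2 fun α hα => (eventually_all_finite hF.fin).2 fun β hβ => ?_
  by_cases hne : α = β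
  · exact Eventually.of_forall fun _ _ _ _ _ _ _ => hne
  obtain ⟨N, hN⟩ := eventually_atTop.1 (hF.div α hα β hβ hne (2 * s + 1))
  obtain ⟨t0, ht0⟩ := ((hF.ray α hα).idx o N).exists
  filter_upwards [eventually_ge_atTop (t0 + s)] with t ht z hz m n e1 e2
  have e3 := tri (G := G) o (α m) z
  have e4 := tri (G := G) (α m) z (β n)
  rw [dcomm] at e1
  have e5 := hN m (ht0 m (by omega)) n
  omega

theorem Fam.core {F O S : Set (ℕ → V)} (hF : Fam G F) {o : V} {a b : ℕ → V} (hS : S ⊆ F)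
    (ha : a ∈ S) (hb : b ∈ F) (hbS : b ∉ S) (hbO : b ∉ O) (h : AdjI G o O a b) (s : ℕ) :
    ∃ α ∈ S, ∃ β ∈ F, β ∉ S ∧ β ∉ O ∧ ∃ y ∈ Safe G o s F,
      (∃ k, Lk G (Safe G o s (F \ {α})) y (α k)) ∧ ∃ k, Lk G (Safe G o s (F \ {β})) y (β k) := by
  wlog hs : 1 ≤ s generalizing s
  · obtain ⟨α, h1, β, h2, h3, h4, y, h5, ⟨k, h6⟩, ⟨k', h7⟩⟩ := this 1 le_rfl
    exact ⟨α, h1, β, h2, h3, h4, y, Safe.mono (by omega) le_rfl h5,
      ⟨k, h6.mono (Safe.mono (by omega) le_rfl)⟩, ⟨k', h7.mono (Safe.mono (by omega) le_rfl)⟩⟩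
  obtain ⟨t, hU, ht⟩ := ((hF.uniq o (2 * s)).and (eventually_ge_atTop (2 * s))).exists
  have hnear : ∀ w, t ≤ G.dist o w → ∀ α ∈ F, ∀ k, G.dist w (α k) ≤ s →
      Lk G (Safe G o s (F \ {α})) w (α k) := by
    intro w hw α hα k hk
    refine Lk.ball fun z hz => ⟨?_, fun γ hγ j => ?_⟩
    · have e1 := tri (G := G) o z w
      rw [dcomm z w] at e1
      omega
    · by_contra hcon
      have e1 := tri (G := G) w z (γ j)
      exact hγ.2 (hU γ hγ.1 α hα w hw j k (by omega) (by omega))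
  obtain ⟨m, n, l⟩ := h t
  obtain ⟨w, ⟨v, ⟨α, hα, k, hk⟩, hvw⟩, l1⟩ :=
    l.exit (T := {z | ∃ γ ∈ S, ∃ k, G.dist z (γ k) < s}) ⟨a, ha, m, by rw [SimpleGraph.dist_self]; exact hs⟩ (by
      rintro ⟨γ, hγ, k, hk⟩
      exact hbS (hU γ (hS hγ) b hb _ l.right.1 k n (by omega) (by simp) ▸ hγ))
  have e1 : G.dist w (α k) ≤ s := by
    have := tri (G := G) w v (α k)
    rw [dist_adj hvw.symm] at this
    omega
  obtain ⟨w', ⟨v', ⟨β, hβ, k', hk'⟩, hvw'⟩, l2⟩ :=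
    l1.symm.exit (T := {z | ∃ γ ∈ (F \ S) \ O, ∃ k, G.dist z (γ k) < s})
      ⟨b, ⟨⟨hb, hbS⟩, hbO⟩, n, by rw [SimpleGraph.dist_self]; exact hs⟩ (by
      rintro ⟨γ, hγ, j, hj⟩
      exact hγ.1.2 (hU α (hS hα) γ hγ.1.1 _ l1.left.1.1 k j (by omega) (by omega) ▸ hα))
  have e2 : G.dist w' (β k') ≤ s := by
    have := tri (G := G) w' v' (β k')
    rw [dist_adj hvw'.symm] at this
    omega
  have hsub : (Safe G o t O \ {z | ∃ γ ∈ S, ∃ k, G.dist z (γ k) < s}) \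
      {z | ∃ γ ∈ (F \ S) \ O, ∃ k, G.dist z (γ k) < s} ⊆ Safe G o s F := by
    rintro z ⟨⟨h1, h2⟩, h3⟩
    refine ⟨by have := h1.1; omega, fun γ hγ j => ?_⟩
    by_contra hcon
    by_cases c1 : γ ∈ S
    · exact h2 ⟨γ, c1, j, by omega⟩
    by_cases c2 : γ ∈ O
    · have := h1.2 γ c2 j
      omega
    · exact h3 ⟨γ, ⟨⟨hγ, c1⟩, c2⟩, j, by omega⟩
  exact ⟨α, hα, β, hβ.1.1, hβ.1.2, hβ.2, w, hsub l2.right, ⟨k, hnear w l1.left.1.1 α (hS hα) k e1⟩,
    k', (l2.symm.mono (hsub.trans (Safe.mono le_rfl Set.sdiff_subset))).trans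
      (hnear w' l2.left.1.1.1 β hβ.1.1 k' e2)⟩

theorem Fam.cut {F O S : Set (ℕ → V)} (hF : Fam G F) {o : V} {a b : ℕ → V} (hS : S ⊆ F)
    (ha : a ∈ S) (hb : b ∈ F) (hbS : b ∉ S) (hbO : b ∉ O) (h : AdjI G o O a b) :
    ∃ α ∈ S, ∃ β, β ∉ S ∧ β ∉ O ∧ (HG G o F).Adj α β := by
  by_contra hcon
  have : ∀ᶠ t in atTop, ∀ α ∈ S, ∀ β ∈ (F \ S) \ O,
      ∀ m n, ¬ Lk G (Safe G o t (F \ {α, β})) (α m) (β n) :=
    (eventually_all_finite (hF.fin.subset hS)).2 fun α hα =>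
      (eventually_all_finite (hF.fin.sdiff.sdiff)).2 fun β hβ => not_adjI fun h =>
        hcon ⟨α, hα, β, hβ.1.2, hβ.2, hS hα, hβ.1.1, fun e => hβ.1.2 (e ▸ hα), h⟩
  obtain ⟨s, hs⟩ := this.exists
  obtain ⟨α, h1, β, h2, h3, h4, y, -, ⟨k, h6⟩, ⟨k', h7⟩⟩ := hF.core hS ha hb hbS hbO h s
  exact hs α h1 β ⟨⟨h2, h3⟩, h4⟩ k k'
    ((h6.symm.mono (Safe.mono le_rfl (Set.sdiff_subset_sdiff_right (by simp)))).trans
      (h7.mono (Safe.mono le_rfl (Set.sdiff_subset_sdiff_right (by simp)))))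

theorem Fam.deep {F : Set (ℕ → V)} (hF : Fam G F) {o : V} {a b : ℕ → V}
    (h : (HG G o F).Adj a b) (s : ℕ) :
    ∃ y ∈ Safe G o s F, (∃ k, Lk G (Safe G o s (F \ {a})) y (a k)) ∧
      ∃ k, Lk G (Safe G o s (F \ {b})) y (b k) := by
  obtain ⟨α, h1, β, h2, h3, h4, h5⟩ := hF.core (S := {a}) (by simpa using h.1) rfl h.2.1
    (fun e => h.2.2.1 e.symm) (by simp) h.2.2.2 s
  obtain rfl : α = a := h1
  obtain rfl : β = b := by
    by_contra hcon
    exact h4 ⟨h2, by rintro (e | e); exacts [h3 e, hcon e]⟩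
  exact h5

theorem Fam.reach {F O : Set (ℕ → V)} (hF : Fam G F) {o : V} {κ : Type} {ι : κ → ℕ → V}
    (hι : Function.Injective ι) (h1 : ∀ k, ι k ∈ F ∧ ι k ∉ O) (h2 : ∀ γ ∈ F, γ ∉ O → ∃ k, ι k = γ)
    {a b : κ} (h : AdjI G o O (ι a) (ι b)) : ((HG G o F).comap ι).Reachable a b := by
  by_contra hcon
  obtain ⟨_, ⟨k, hk, rfl⟩, β, e1, e2, e3⟩ := hF.cut
    (S := ι '' {k | ((HG G o F).comap ι).Reachable a k})
    (by rintro _ ⟨k, -, rfl⟩; exact (h1 k).1) ⟨a, Reachable.refl _, rfl⟩ (h1 b).1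
    (by rintro ⟨k, hk, e⟩; exact hcon (hι e ▸ hk)) (h1 b).2 h
  obtain ⟨j, rfl⟩ := h2 β e3.2.1 e2
  exact e1 ⟨j, hk.trans (Adj.reachable e3), rfl⟩

variable [G.LocallyFinite]

theorem multi_escape {Δ : ℕ} (hΔ : ∀ v, G.degree v ≤ Δ) (hna : ¬ Amenable G) {ι : Type}
    [DecidableEq ι] (n A s : ℕ) : ∃ T, ∀ (I : Finset ι) (y : ι → V) (S : ι → Set V), I.card = n →
      (∀ i ∈ I, Thin G A (y i) (S i)) → (∀ i ∈ I, ∀ z ∈ S i, T ≤ G.dist (y i) z) →
      (∀ i ∈ I, ∀ j ∈ I, i ≠ j → T ≤ G.dist (y i) (y j)) →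
      ∃ g : ι → ℕ → V, ∀ i ∈ I, IsR G (g i) ∧ g i 0 = y i ∧ Far G s (Set.range (g i)) (S i) ∧
        (∀ β, Set.range β ⊆ S i → Div G (g i) β) ∧
        ∀ j ∈ I, i ≠ j → Far G s (Set.range (g i)) (Set.range (g j)) ∧ Div G (g i) (g j) := by
  obtain ⟨a, ha, hesc⟩ := escape hΔ hna
  induction n generalizing A with
  | zero =>
    refine ⟨0, fun I y S hI _ _ _ => ⟨fun i _ => y i, fun i hi => ?_⟩⟩
    rw [Finset.card_eq_zero.1 hI] at hi
    simp at hi
  | succ n ih =>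
    obtain ⟨T, hT⟩ := ih (A + (4 * a + 1))
    obtain ⟨t, ht⟩ := hesc (A + n) (s + T)
    refine ⟨T + t, fun I y S hI h1 h2 h3 => ?_⟩
    obtain ⟨i0, J, hi0, rfl, hJ⟩ := Finset.card_eq_succ.1 hI
    classical
    obtain ⟨w, w1, w2, w3⟩ := ht (y i0) (S i0 ∪ (J.image y : Set V))
      ((h1 i0 (by simp)).union ((thin_card _ _).mono le_rfl (hJ ▸ Finset.card_image_le))) (by
        rintro z (hz | hz)
        · have := h2 i0 (by simp) z hz
          omega
        · obtain ⟨j, hj, rfl⟩ := Finset.mem_image.1 hz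
          have := h3 i0 (by simp) j (by simp [hj]) (fun e => hi0 (e ▸ hj))
          omega)
    obtain ⟨g, hg⟩ := hT J y (fun i => S i ∪ Set.range w) hJ
      (fun i hi => (h1 i (by simp [hi])).union (w1.thin _)) (by
        rintro i hi z (hz | ⟨k, rfl⟩)
        · have := h2 i (by simp [hi]) z hz
          omega
        · have := w3 k (y i) (Or.inr (Finset.mem_image_of_mem y hi))
          rw [dcomm]
          generalize k / a = u at this
          omega)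
      (fun i hi j hj hij => by
        have := h3 i (by simp [hi]) j (by simp [hj]) hij
        omega)
    have hne : ∀ j ∈ J, Function.update g i0 w j = g j := fun j hj =>
      Function.update_of_ne (ne_of_mem_of_not_mem hj hi0) _ _
    refine ⟨Function.update g i0 w, fun i hi => ?_⟩
    rcases Finset.mem_insert.1 hi with rfl | hi
    · rw [Function.update_self]
      refine ⟨⟨a, w1⟩, w2, ?_, fun β hβ => div_of_lin ha fun k m =>
        w3 k _ (Or.inl (hβ ⟨m, rfl⟩)), fun j hj hij => ?_⟩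
      · rintro _ ⟨k, rfl⟩ z hz
        have := w3 k z (Or.inl hz)
        generalize k / a = u at this
        omega
      · have hj' := (Finset.mem_insert.1 hj).resolve_left hij.symm
        obtain ⟨e1, -, e3, e4, -⟩ := hg j hj'
        rw [hne j hj']
        exact ⟨(e3.mono le_rfl Set.subset_union_right).symm,
          (e4 w Set.subset_union_right).symm e1 ⟨a, w1⟩⟩
    · obtain ⟨e1, e2, e3, e4, e5⟩ := hg i hi
      rw [hne i hi]
      refine ⟨e1, e2, e3.mono le_rfl Set.subset_union_left,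
        fun β hβ => e4 β (hβ.trans Set.subset_union_left), fun j hj hij => ?_⟩
      rcases Finset.mem_insert.1 hj with rfl | hj
      · rw [Function.update_self]
        exact ⟨e3.mono le_rfl Set.subset_union_right, e4 w Set.subset_union_right⟩
      · rw [hne j hj]
        exact e5 j hj hij

end Pool.Agent.MP_77f003_co.H49
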