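import Pool.Agent.MP_77f003_co.H49.Kleiner
import Pool.Agent.MP_77f003_co.H49.Nil

/-!
A finitely generated group acting transitively on an infinite amenable graph of polynomial growth
has a finite index subgroup with a nontrivial homomorphism to `ℤ` that kills a vertex stabiliser.
-/

namespace Pool.Agent.MP_77f003_co.H49

open SimpleGraph
open scoped ENNReal

variable {V : Type} {G : SimpleGraph V} {Γ : Type} [Group Γ] [MulAction Γ V]

/-- The group acts by graph automorphisms. -/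
def Acts (Γ : Type) [Group Γ] [MulAction Γ V] (G : SimpleGraph V) : Prop :=
  ∀ (γ : Γ) (x y : V), G.Adj x y → G.Adj (γ • x) (γ • y)

/-- The automorphism given by a group element. -/
def Acts.iso (h : Acts Γ G) (γ : Γ) : G ≃g G where
  toEquiv := MulAction.toPerm γ
  map_rel_iff' := fun {x y} => ⟨fun h' => by simpa using h γ⁻¹ _ _ h', h γ x y⟩

theorem Acts.dist [Fact G.Connected] (h : Acts Γ G) (γ : Γ) (x y : V) :
    G.dist (γ • x) (γ • y) = G.dist x y := dist_iso (h.iso γ) x y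

/-- The action on darts. -/
def Acts.dart (h : Acts Γ G) (γ : Γ) (d : G.Dart) : G.Dart :=
  ⟨(γ • d.fst, γ • d.snd), h γ _ _ d.adj⟩

/-- The action on bounded functions on darts. -/
noncomputable def Acts.T (h : Acts Γ G) (γ : Γ) :
    lp (fun _ : G.Dart => ℝ) ∞ →L[ℝ] lp (fun _ : G.Dart => ℝ) ∞ :=
  LinearMap.mkContinuous
    { toFun := fun ω => ⟨fun d => ω (h.dart γ⁻¹ d), memℓp_infty
        ⟨‖ω‖, by rintro _ ⟨d, rfl⟩; exact lp.norm_apply_le_norm ENNReal.top_ne_zero ω _⟩⟩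
      map_add' := fun _ _ => rfl
      map_smul' := fun _ _ => rfl } 1 fun ω => by
    rw [one_mul]
    exact lp.norm_le_of_forall_le (norm_nonneg _)
      fun d => lp.norm_apply_le_norm ENNReal.top_ne_zero ω _

theorem Acts.T_apply (h : Acts Γ G) (γ : Γ) (ω : lp (fun _ : G.Dart => ℝ) ∞) (d : G.Dart) :
    h.T γ ω d = ω (h.dart γ⁻¹ d) := rfl

theorem Acts.norm_T (h : Acts Γ G) (γ : Γ) (ω : lp (fun _ : G.Dart => ℝ) ∞) : ‖h.T γ ω‖ ≤ ‖ω‖ :=
  lp.norm_le_of_forall_le (norm_nonneg _) fun _ => lp.norm_apply_le_norm ENNReal.top_ne_zero ω _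

variable [G.LocallyFinite]

/-- The gradient of a Lipschitz harmonic function. -/
noncomputable def nabla (G : SimpleGraph V) [G.LocallyFinite] :
    HL G →ₗ[ℝ] lp (fun _ : G.Dart => ℝ) ∞ where
  toFun u := ⟨fun d => u.1 d.fst - u.1 d.snd, memℓp_infty (by
    obtain ⟨L, hL⟩ := u.2.2
    exact ⟨L, by rintro _ ⟨d, rfl⟩; exact hL _ _ d.adj⟩)⟩
  map_add' u v := by
    ext d
    show (u.1 d.fst + v.1 d.fst) - (u.1 d.snd + v.1 d.snd) =
      (u.1 d.fst - u.1 d.snd) + (v.1 d.fst - v.1 d.snd)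
    ring
  map_smul' c u := by
    ext d
    show c * u.1 d.fst - c * u.1 d.snd = c * (u.1 d.fst - u.1 d.snd)
    ring

theorem Acts.comp_mem (h : Acts Γ G) (γ : Γ) {u : V → ℝ} (hu : u ∈ HL G) :
    (fun x => u (γ • x)) ∈ HL G := by
  obtain ⟨h1, L, hL⟩ := hu
  refine ⟨fun x => ?_, L, fun x y hxy => hL _ _ (h γ _ _ hxy)⟩
  have := h1 (h.iso γ x)
  rwa [← map_nbr, Finset.sum_map] at this

theorem Acts.T_nabla (h : Acts Γ G) (γ : Γ) (u : HL G) :
    h.T γ (nabla G u) = nabla G ⟨_, h.comp_mem γ⁻¹ u.2⟩ := rfl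

/-- The representation on gradients of Lipschitz harmonic functions. -/
noncomputable def Acts.rep (h : Acts Γ G) :
    Γ →* (LinearMap.range (nabla G) →L[ℝ] LinearMap.range (nabla G)) where
  toFun γ := (h.T γ).restrict (by rintro _ ⟨u, rfl⟩; exact ⟨_, (h.T_nabla γ u).symm⟩)
  map_one' := by
    ext ω d
    simp [ContinuousLinearMap.restrict_apply, h.T_apply, Acts.dart]
  map_mul' γ γ' := by
    ext ω d
    simp [ContinuousLinearMap.restrict_apply, h.T_apply, Acts.dart, mul_smul]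

theorem Acts.norm_rep (h : Acts Γ G) (γ : Γ) : ‖h.rep γ‖ ≤ 1 :=
  ContinuousLinearMap.opNorm_le_bound _ zero_le_one fun ω => by
    rw [one_mul]
    exact h.norm_T γ ω

theorem Acts.rep_eq [Fact G.Connected] (h : Acts Γ G) {o : V} {R : ℕ}
    (hR : ∀ u : HL G, (∀ x, G.dist o x ≤ R → u.1 x = 0) → u = 0) {γ γ' : Γ}
    (he : ∀ x, G.dist o x ≤ R → γ⁻¹ • x = γ'⁻¹ • x) : h.rep γ = h.rep γ' := by
  refine ContinuousLinearMap.ext ?_
  rintro ⟨_, u, rfl⟩
  refine Subtype.ext ?_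
  show h.T γ (nabla G u) = h.T γ' (nabla G u)
  rw [h.T_nabla, h.T_nabla]
  congr 1
  rw [← sub_eq_zero]
  refine hR _ fun x hx => ?_
  show u.1 (γ⁻¹ • x) - u.1 (γ'⁻¹ • x) = 0
  rw [he x hx, sub_self]

theorem harm_const [Fact G.Connected] {u : V → ℝ} (hu : Harm G u) (hf : (Set.range u).Finite)
    (x y : V) : u x = u y := by
  obtain ⟨_, ⟨z, rfl⟩, hz⟩ := hf.exists_maximal ⟨_, x, rfl⟩
  have hmax : ∀ w, u w ≤ u z := fun w => le_of_not_gt fun h => absurd (hz ⟨w, rfl⟩ h.le) (not_le.2 h)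
  have key : ∀ k w, G.dist w z = k → u w = u z := by
    intro k
    induction k with
    | zero => exact fun w hw => by rw [eq_of_dist hw]
    | succ k ih =>
      intro w hw
      obtain ⟨w', h1, h2⟩ := exists_step hw
      have e1 := ih w' h2
      have := (Finset.sum_eq_zero_iff_of_nonpos fun a _ => by
        rw [e1]; linarith [hmax a]).1 (hu w') w ((mem_neighborFinset _ _ _).2 h1.symm)
      linarith
  rw [key _ x rfl, key _ y rfl]

theorem hom_of_rep [Fact G.Connected] [Group.FG Γ] (h : Acts Γ G)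
    (htr : ∀ x y : V, ∃ γ : Γ, γ • x = y) (o : V) {C d : ℕ}
    (hC : ∀ r, (ball G o r).card ≤ C * (r + 1) ^ d) {A : Type} [NormedRing A] [NormedAlgebra ℝ A]
    [ProperSpace A] (ρ : Γ →* A) (hρ : ∀ γ, ‖ρ γ‖ ≤ 1) {R : ℕ}
    (hR : ∀ γ γ' : Γ, (∀ x, G.dist o x ≤ R → γ⁻¹ • x = γ'⁻¹ • x) → ρ γ = ρ γ')
    [Infinite (Γ ⧸ ρ.ker)] :
    ∃ H : Subgroup Γ, H.FiniteIndex ∧ ∃ χ : H →* Multiplicative ℤ, (∃ g, χ g ≠ 1) ∧
      ∀ g : H, (g : Γ) • o = o → χ g = 1 := by
  classical
  set ι := QuotientGroup.lift ρ.ker ρ le_rfl with hι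
  have hinj : Function.Injective ι := (injective_iff_map_eq_one _).2 fun g hg => by
    obtain ⟨γ, rfl⟩ := QuotientGroup.mk_surjective g
    exact (QuotientGroup.eq_one_iff _).2 hg
  set B : ℕ → Set (Γ ⧸ ρ.ker) := fun r => {g | ∃ γ : Γ, G.dist o (γ • o) ≤ r ∧ g = γ}
    with hB
  have hinv : ∀ γ : Γ, G.dist o (γ⁻¹ • o) = G.dist o (γ • o) := fun γ => by
    rw [← h.dist γ, smul_inv_smul, dcomm]
  have hcount : ∀ r (X : Finset (Γ ⧸ ρ.ker)), (∀ x ∈ X, x ∈ B r) →
      X.card ≤ (C * Fintype.card (ball G o R → ball G o R)) * (r + 1) ^ d := by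
    intro r X hX
    choose! γ hγ1 hγ2 using hX
    choose τ hτ using htr o
    have hmem : ∀ (g : Γ) (z : ball G o R), (τ (g⁻¹ • o))⁻¹ • g⁻¹ • (z : V) ∈ ball G o R := by
      intro g z
      rw [mem_ball, ← h.dist (τ (g⁻¹ • o)), smul_inv_smul, hτ, h.dist]
      exact mem_ball.1 z.2
    have := Finset.card_le_card_of_injOn (s := X)
      (t := ball G o r ×ˢ (Finset.univ : Finset (ball G o R → ball G o R)))
      (fun x => ((γ x)⁻¹ • o, fun z => ⟨_, hmem (γ x) z⟩))
      (fun x hx => by simpa [mem_ball, hinv] using hγ1 x hx)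
      (fun x hx y hy hxy => by
        obtain ⟨e1, e2⟩ := Prod.mk.inj hxy
        rw [hγ2 x hx, hγ2 y hy]
        refine hinj (hR _ _ fun z hz => ?_)
        have e3 := congrArg Subtype.val (congrFun e2 ⟨z, mem_ball.2 hz⟩)
        simp only [e1] at e3
        exact MulAction.injective _ e3)
    rw [Finset.card_product, Finset.card_univ] at this
    refine this.trans ((Nat.mul_le_mul_right _ (hC r)).trans (le_of_eq (by ring)))
  have hvi := vi_of_bounded ι (fun g => by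
      obtain ⟨γ, rfl⟩ := QuotientGroup.mk_surjective g
      exact hρ γ) hinj (B := B) ⟨1, by simp, rfl⟩
    (fun r s hrs g ⟨γ, h1, h2⟩ => ⟨γ, h1.trans hrs, h2⟩)
    (by
      rintro r s _ ⟨γ, h1, rfl⟩ _ ⟨γ', h2, rfl⟩
      refine ⟨γ * γ', ?_, rfl⟩
      have := tri (G := G) o (γ • o) (γ • γ' • o)
      rw [h.dist] at this
      rw [mul_smul]
      omega)
    (by
      rintro r _ ⟨γ, h1, rfl⟩
      exact ⟨γ⁻¹, by rwa [hinv], rfl⟩)
    (fun g => by
      obtain ⟨γ, rfl⟩ := QuotientGroup.mk_surjective g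
      exact ⟨_, γ, le_rfl, rfl⟩) hcount
  obtain ⟨H, hH, χ, h1, h2⟩ := hvi.comap _ (QuotientGroup.mk'_surjective _)
  refine ⟨H, hH, χ, h1, fun g hg => h2 g ?_⟩
  have hfin : (B 0).Finite := by
    by_contra hcon
    obtain ⟨X, hX, hX'⟩ := Set.Infinite.exists_subset_card_eq hcon
      ((C * Fintype.card (ball G o R → ball G o R)) * (0 + 1) ^ d + 1)
    have := hcount 0 X fun x hx => hX hx
    omega
  refine finite_powers.1 (hfin.subset ?_)
  rintro _ ⟨n, rfl⟩
  refine ⟨(g : Γ) ^ n, ?_, by simp⟩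
  have : (g : Γ) ^ n • o = o := (MulAction.stabilizer Γ o).pow_mem hg n
  simp [this]

theorem exists_hom [Fact G.Connected] [Infinite V] [Group.FG Γ] (h : Acts Γ G)
    (htr : ∀ x y : V, ∃ γ : Γ, γ • x = y) (ha : Amenable G) (o : V) {C d : ℕ}
    (hC : ∀ r, (ball G o r).card ≤ C * (r + 1) ^ d) :
    ∃ H : Subgroup Γ, H.FiniteIndex ∧ ∃ χ : H →* Multiplicative ℤ, (∃ g, χ g ≠ 1) ∧
      ∀ g : H, (g : Γ) • o = o → χ g = 1 := by
  classical
  have ht : VT G := fun x y => by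
    obtain ⟨γ, hγ⟩ := htr x y
    exact ⟨h.iso γ, hγ⟩
  have := finite_HL ht ha o hC
  obtain ⟨R, hR⟩ := exists_ball_inj (G := G) o (HL G).subtype (HL G).injective_subtype
  cases finite_or_infinite (Γ ⧸ h.rep.ker) with
  | inr hq =>
    have : FiniteDimensional ℝ (LinearMap.range (nabla G)) := inferInstance
    have : ProperSpace (LinearMap.range (nabla G) →L[ℝ] LinearMap.range (nabla G)) :=
      FiniteDimensional.proper_real (LinearMap.range (nabla G) →L[ℝ] LinearMap.range (nabla G))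
    exact hom_of_rep (A := LinearMap.range (nabla G) →L[ℝ] LinearMap.range (nabla G)) (R := R)
      h htr o hC h.rep h.norm_rep fun γ γ' he => h.rep_eq hR he
  | inl hq =>
    have hi : h.rep.ker.FiniteIndex := Subgroup.finiteIndex_of_finite_quotient
    obtain ⟨u, hu, hL, y, hy⟩ := exists_harmonic ht o hC
    have key : ∀ (g : h.rep.ker) (x : V), u ((g : Γ) • x) - u x = u ((g : Γ) • o) - u o := by
      intro g x
      have e1 : h.rep (g : Γ)⁻¹ = 1 := (h.rep.ker.inv_mem g.2 :)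
      have e2 := lip_bound (G := G) (u := fun x => u ((g : Γ) • x) - u x) (L := 0)
        (fun a b hab => by
          have := congrArg (fun ω => ω.1 ⟨(a, b), hab⟩)
            (DFunLike.congr_fun e1 ⟨nabla G ⟨u, hu, hL⟩, _, rfl⟩)
          change u ((g : Γ)⁻¹⁻¹ • a) - u ((g : Γ)⁻¹⁻¹ • b) = u a - u b at this
          rw [inv_inv] at this
          rw [abs_nonpos_iff]
          linarith) x o
      rw [zero_mul, abs_nonpos_iff] at e2
      linarith
    let χ : h.rep.ker →* Multiplicative ℝ := MonoidHom.mk'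
      (fun g => Multiplicative.ofAdd (u ((g : Γ) • o) - u o)) fun g g' => by
        rw [← ofAdd_add, Subgroup.coe_mul, mul_smul, ← key g ((g' : Γ) • o)]
        congr 1
        ring
    obtain ⟨g, hg⟩ : ∃ g, χ g ≠ 1 := by
      by_contra hcon
      push Not at hcon
      refine hy (harm_const hu ((Set.finite_range
        fun q : Γ ⧸ h.rep.ker => u (q.out⁻¹ • o)).subset ?_) _ _)
      rintro _ ⟨x, rfl⟩
      obtain ⟨γ, rfl⟩ := htr o x
      obtain ⟨k, hk⟩ := QuotientGroup.mk_out_eq_mul h.rep.ker γ⁻¹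
      refine ⟨(γ⁻¹ : Γ), ?_⟩
      have e1 := key k⁻¹ (γ • o)
      have e2 : u (((k⁻¹ : h.rep.ker) : Γ) • o) - u o = 0 := hcon k⁻¹
      simp only [hk, mul_inv_rev, inv_inv, mul_smul]
      rw [e2, Subgroup.coe_inv] at e1
      linarith
    have : Infinite χ.range := by
      have hno : ¬ IsOfFinOrder (χ.rangeRestrict g) := fun hf =>
        hg (χ.range.subtype.isOfFinOrder hf).eq_one'
      exact Infinite.of_injective _ (injective_pow_iff_not_isOfFinOrder.2 hno)
    obtain ⟨χ', a, ha'⟩ := exists_hom_int χ.range mul_comm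
    refine ⟨_, hi, χ'.comp χ.rangeRestrict, ?_, fun g hg => ?_⟩
    · obtain ⟨g, rfl⟩ := χ.rangeRestrict_surjective a
      exact ⟨g, ha'⟩
    · have : χ.rangeRestrict g = 1 := Subtype.ext (by simp [χ, hg])
      simp [this]

end Pool.Agent.MP_77f003_co.H49
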