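import Pool.Agent.MP_77f003_co.H49.Basic

/-!
A separator theorem of Plotkin-Rao-Smith type for finite vertex sets of a bounded degree graph
without a fat clique minor.
-/

namespace Pool.Agent.MP_77f003_co.H49

open SimpleGraph

variable {V : Type} {G : SimpleGraph V} [DecidableEq V]

/-- The invariant of the separator algorithm. -/
structure St (G : SimpleGraph V) (K h l c : ℕ) (F : Finset V) (I : Finset ℕ) (A : ℕ → Finset V)
    (e : ℕ → ℕ → ℕ → V) (R L S : Finset V) : Prop where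
  Ane : ∀ i ∈ I, (A i).Nonempty
  Alk : ∀ i ∈ I, ∀ x ∈ A i, ∀ y ∈ A i, Lk G (A i) x y
  Acard : ∀ i ∈ I, (A i).card ≤ l + h * (2 * l ^ 2 + 1)
  AA : ∀ i ∈ I, ∀ j ∈ I, i ≠ j → Far G (3 * K + 1) (A i) (A j)
  e0 : ∀ i ∈ I, ∀ j ∈ I, i < j → e i j 0 ∈ A i ∧ e i j (3 * K + 1) ∈ A j ∧
    ∀ s, s < 3 * K + 1 → G.Adj (e i j s) (e i j (s + 1))
  ee : ∀ i ∈ I, ∀ j ∈ I, ∀ k ∈ I, ∀ m ∈ I, i < j → k < m → j ≠ m →
    ∀ s, s ≤ 3 * K + 1 → ∀ s', s' ≤ 3 * K + 1 → K ≤ G.dist (e i j s) (e k m s')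
  RF : R ⊆ F
  LF : L ⊆ F
  disj : Disjoint R L
  noadj : ∀ x ∈ R, ∀ y ∈ L, ¬ G.Adj x y
  cover : ∀ x ∈ F, x ∈ R ∨ x ∈ L ∨ x ∈ S ∨ ∃ i ∈ I, ∃ a ∈ A i, G.dist a x ≤ 3 * K
  RA : ∀ i ∈ I, Far G (3 * K + 1) (A i) R
  Re : ∀ i ∈ I, ∀ j ∈ I, i < j → ∀ s, s ≤ 3 * K + 1 → ∀ x ∈ R, 4 * K + 1 ≤ G.dist (e i j s) x
  Scard : l * S.card + c * R.card ≤ c * F.card
  Lcard : 3 * L.card ≤ 2 * F.card

variable {K h l c : ℕ} {F : Finset V} {I : Finset ℕ} {A : ℕ → Finset V}
  {e : ℕ → ℕ → ℕ → V} {R L S : Finset V}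

omit [DecidableEq V] in
theorem St.fatCl [Fact G.Connected] (H : St G K h l c F I A e R L S) (hI : h ≤ I.card) :
    FatCl G K h := by
  have ha : ∀ i ∈ I, ∀ j ∈ I, i < j → ∀ s, s ≤ 3 * K + 1 → ∀ k ∈ I, k ≠ i → ∀ a ∈ A k,
      3 * K + 1 ≤ G.dist (e i j s) a + s := by
    intro i hi j hj hij s hs k hk hki a ha
    obtain ⟨h0, -, h2⟩ := H.e0 i hi j hj hij
    have e1 := H.AA i hi k hk hki.symm _ h0 a ha
    have e2 := dist_geo_le h2 (Nat.zero_le s) hs
    have e3 := tri (G := G) (e i j 0) (e i j s) a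
    omega
  have hb : ∀ i ∈ I, ∀ j ∈ I, i < j → ∀ s, s ≤ 3 * K + 1 → ∀ k ∈ I, k ≠ j → ∀ a ∈ A k,
      s ≤ G.dist (e i j s) a := by
    intro i hi j hj hij s hs k hk hkj a ha
    obtain ⟨-, h1, h2⟩ := H.e0 i hi j hj hij
    have e1 := H.AA j hj k hk hkj.symm _ h1 a ha
    have e2 := dist_geo_le h2 hs le_rfl
    have e3 := tri (G := G) (e i j (3 * K + 1)) (e i j s) a
    rw [dcomm] at e2
    omega
  refine ⟨I, fun j => (A j : Set V) ∪
      {x | ∃ i ∈ I, i < j ∧ ∃ s, K ≤ s ∧ s ≤ 3 * K + 1 ∧ x = e i j s},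
    fun i j => {x | ∃ s, s ≤ K ∧ x = e i j s}, hI, fun j hj => ?_, fun i hi j hj hij => ?_,
    fun i hi j hj hij => ?_, fun i hi j hj k hk m hm hij hkm hne => ?_,
    fun i hi j hj k hk hij hki hkj => ?_⟩
  · obtain ⟨a, haA⟩ := H.Ane j hj
    refine ⟨⟨a, Or.inl haA⟩, ?_⟩
    have key : ∀ x ∈ (A j : Set V) ∪
        {x | ∃ i ∈ I, i < j ∧ ∃ s, K ≤ s ∧ s ≤ 3 * K + 1 ∧ x = e i j s},
        Lk G ((A j : Set V) ∪
          {x | ∃ i ∈ I, i < j ∧ ∃ s, K ≤ s ∧ s ≤ 3 * K + 1 ∧ x = e i j s}) x a := by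
      rintro x (hx | ⟨i, hi, hij, s, hs, hs', rfl⟩)
      · exact (H.Alk j hj x hx a haA).mono Set.subset_union_left
      · obtain ⟨-, h1, h2⟩ := H.e0 i hi j hj hij
        have := Lk.seq (G := G) (g := fun m => e i j (s + m)) (n := 3 * K + 1 - s)
          (S := (A j : Set V) ∪
            {x | ∃ i ∈ I, i < j ∧ ∃ s, K ≤ s ∧ s ≤ 3 * K + 1 ∧ x = e i j s})
          (Or.inr ⟨i, hi, hij, s, hs, hs', rfl⟩) (fun m hm => Lk.adj (h2 _ (by omega))
            (Or.inr ⟨i, hi, hij, s + m, by omega, by omega, rfl⟩)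
            (Or.inr ⟨i, hi, hij, s + (m + 1), by omega, by omega, rfl⟩))
        simp only [add_zero, Nat.add_sub_cancel' hs'] at this
        exact this.trans ((H.Alk j hj _ h1 a haA).mono Set.subset_union_left)
    exact fun x hx y hy => (key x hx).trans (key y hy).symm
  · obtain ⟨h0, -, h2⟩ := H.e0 i hi j hj hij
    refine ⟨e i j 0, Or.inl h0, e i j K, Or.inr ⟨i, hi, hij, K, le_rfl, by omega, rfl⟩, ?_⟩
    exact Lk.seq (g := e i j) ⟨0, by omega, rfl⟩ fun m hm =>
      Lk.adj (h2 _ (by omega)) ⟨m, by omega, rfl⟩ ⟨m + 1, by omega, rfl⟩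
  · rintro x (hx | ⟨k, hk, hki, s, hs, hs', rfl⟩) y (hy | ⟨m, hm, hmj, s', ht, ht', rfl⟩)
    · have := H.AA i hi j hj hij x hx y hy
      omega
    · have := hb m hm j hj hmj s' ht' i hi hij x hx
      rw [dcomm]
      omega
    · have := hb k hk i hi hki s hs' j hj hij.symm y hy
      omega
    · exact H.ee k hk i hi m hm j hj hki hmj hij s hs' s' ht'
  · rintro x ⟨s, hs, rfl⟩ y ⟨s', hs', rfl⟩
    by_cases hjm : j = m
    · subst hjm
      have hik : i ≠ k := by tauto
      obtain ⟨h0, -, h2⟩ := H.e0 k hk j hj hkm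
      have e1 := ha i hi j hj hij s (by omega) k hk hik.symm _ h0
      have e2 := dist_geo_le h2 (Nat.zero_le s') (by omega)
      have e3 := tri (G := G) (e i j s) (e k j s') (e k j 0)
      rw [dcomm] at e2
      omega
    · exact H.ee i hi j hj k hk m hm hij hkm hjm s (by omega) s' (by omega)
  · rintro x ⟨s, hs, rfl⟩ y (hy | ⟨m, hm, hmk, s', ht, ht', rfl⟩)
    · have := ha i hi j hj hij s (by omega) k hk hki y hy
      omega
    · exact H.ee i hi j hj m hm k hk hij hmk hkj.symm s (by omega) s' ht'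

theorem St.card_le (H : St G K h l c F I A e R L S) : R.card + L.card ≤ F.card := by
  rw [← Finset.card_union_of_disjoint H.disj]
  exact Finset.card_le_card (Finset.union_subset H.RF H.LF)

theorem St.drop [Fact G.Connected] (H : St G K h l c F I A e R L S)
    (hR : 2 * F.card < 3 * R.card) {i : ℕ} (hfar : Far G (3 * K + 2) (A i) R) :
    ∃ L', St G K h l c F (I.erase i) A e R L' S := by
  classical
  have hs : I.erase i ⊆ I := Finset.erase_subset _ _
  set L' := L ∪ F.filter (fun x => ∃ a ∈ A i, G.dist a x ≤ 3 * K) with hL'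
  have hLF : L' ⊆ F := Finset.union_subset H.LF (Finset.filter_subset _ _)
  have hd : Disjoint R L' := by
    rw [Finset.disjoint_union_right]
    refine ⟨H.disj, Finset.disjoint_left.2 fun x hx hx' => ?_⟩
    obtain ⟨-, a, ha, hax⟩ := Finset.mem_filter.1 hx'
    have := hfar a ha x hx
    omega
  refine ⟨L', fun j hj => H.Ane j (hs hj), fun j hj => H.Alk j (hs hj),
    fun j hj => H.Acard j (hs hj), fun j hj k hk => H.AA j (hs hj) k (hs hk),
    fun j hj k hk => H.e0 j (hs hj) k (hs hk),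
    fun j hj k hk m hm n hn => H.ee j (hs hj) k (hs hk) m (hs hm) n (hs hn), H.RF, hLF, hd,
    fun x hx y hy hxy => ?_, fun x hx => ?_, fun j hj => H.RA j (hs hj),
    fun j hj k hk => H.Re j (hs hj) k (hs hk), H.Scard, ?_⟩
  · rcases Finset.mem_union.1 hy with hy | hy
    · exact H.noadj x hx y hy hxy
    · obtain ⟨-, a, ha, hay⟩ := Finset.mem_filter.1 hy
      have e1 := hfar a ha x hx
      have e2 := tri (G := G) a y x
      rw [dist_adj hxy.symm] at e2
      omega
  · rcases H.cover x hx with h1 | h1 | h1 | ⟨j, hj, a, ha, hax⟩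
    · exact Or.inl h1
    · exact Or.inr (Or.inl (Finset.mem_union_left _ h1))
    · exact Or.inr (Or.inr (Or.inl h1))
    · by_cases hji : j = i
      · subst hji
        exact Or.inr (Or.inl (Finset.mem_union_right _ (Finset.mem_filter.2 ⟨hx, a, ha, hax⟩)))
      · exact Or.inr (Or.inr (Or.inr ⟨j, Finset.mem_erase.2 ⟨hji, hj⟩, a, ha, hax⟩))
  · have := Finset.card_le_card (Finset.union_subset H.RF hLF)
    rw [Finset.card_union_of_disjoint hd] at this
    omega

theorem St.cut (H : St G K h l c F I A e R L S) (hc : 1 ≤ c)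
    (hR : 2 * F.card < 3 * R.card) {M Y : Finset V} (hM : M ⊆ R) (hne : M.Nonempty)
    (h2 : 2 * M.card ≤ R.card) (hY : l * Y.card ≤ M.card)
    (hadj : ∀ x ∈ M, ∀ y ∈ R, G.Adj x y → y ∈ M ∪ Y) :
    ∃ R' L' S', St G K h l c F I A e R' L' S' ∧ R'.card < R.card := by
  have hs : R \ (M ∪ Y) ⊆ R := Finset.sdiff_subset
  have hcard : (R \ (M ∪ Y)).card + M.card ≤ R.card := by
    rw [← Finset.card_union_of_disjoint (Finset.disjoint_left.2 fun x hx hx' => by
      simp [hx'] at hx)]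
    exact Finset.card_le_card (Finset.union_subset hs hM)
  have hpos := hne.card_pos
  refine ⟨R \ (M ∪ Y), L ∪ M, S ∪ Y, ⟨H.Ane, H.Alk, H.Acard, H.AA, H.e0, H.ee, hs.trans H.RF,
    Finset.union_subset H.LF (hM.trans H.RF), ?_, fun x hx y hy hxy => ?_, fun x hx => ?_,
    fun i hi a ha x hx => H.RA i hi a ha x (hs hx),
    fun i hi j hj hij s hs' x hx => H.Re i hi j hj hij s hs' x (hs hx), ?_, ?_⟩, by omega⟩
  · rw [Finset.disjoint_union_right]
    refine ⟨H.disj.mono_left hs, Finset.disjoint_left.2 fun x hx hx' => ?_⟩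
    simp [hx'] at hx
  · rcases Finset.mem_union.1 hy with hy | hy
    · exact H.noadj x (hs hx) y hy hxy
    · exact (Finset.mem_sdiff.1 hx).2 (hadj y hy x (hs hx) hxy.symm)
  · rcases H.cover x hx with h1 | h1 | h1 | h1
    · by_cases hM' : x ∈ M
      · exact Or.inr (Or.inl (Finset.mem_union_right _ hM'))
      · by_cases hY' : x ∈ Y
        · exact Or.inr (Or.inr (Or.inl (Finset.mem_union_right _ hY')))
        · exact Or.inl (by simp [h1, hM', hY'])
    · exact Or.inr (Or.inl (Finset.mem_union_left _ h1))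
    · exact Or.inr (Or.inr (Or.inl (Finset.mem_union_left _ h1)))
    · exact Or.inr (Or.inr (Or.inr h1))
  · have e1 := H.Scard
    have e2 := Finset.card_union_le S Y
    have e3 : l * (S ∪ Y).card ≤ l * S.card + l * Y.card := by
      rw [← mul_add]
      exact Nat.mul_le_mul_left _ e2
    have e4 : c * (R \ (M ∪ Y)).card + c * M.card ≤ c * R.card := by
      rw [← mul_add]
      exact Nat.mul_le_mul_left _ hcard
    have e5 : M.card ≤ c * M.card := Nat.le_mul_of_pos_left _ hc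
    omega
  · have e1 := H.card_le
    have e2 := Finset.card_union_le L M
    omega

omit [DecidableEq V] in
theorem exists_pad {R : Finset V} {v : V} (hv : v ∈ R) (hR : ∀ x ∈ R, Lk G R v x) {k : ℕ}
    (hk : k ≤ R.card) : ∃ P : Finset V, P ⊆ R ∧ v ∈ P ∧ k ≤ P.card ∧ P.card ≤ k + 1 ∧
      ∀ x ∈ P, Lk G P v x := by
  classical
  induction k with
  | zero => exact ⟨{v}, by simpa using hv, by simp, by simp, by simp, by
      simpa using Lk.refl (by simp)⟩
  | succ k ih =>
    obtain ⟨P, hPR, hvP, h1, h2, h3⟩ := ih (by omega)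
    by_cases hP : k + 1 ≤ P.card
    · exact ⟨P, hPR, hvP, hP, by omega, h3⟩
    obtain ⟨x, hxR, hxP⟩ : ∃ x ∈ R, x ∉ P := by
      by_contra hcon
      push Not at hcon
      have := Finset.card_le_card (s := R) (t := P) hcon
      omega
    obtain ⟨p, hp⟩ := hR x hxR
    obtain ⟨d, hd, hd1, hd2⟩ := p.exists_boundary_dart (P : Set V) hvP hxP
    have hdR : d.snd ∈ R := hp _ (p.dart_snd_mem_support_of_mem_darts hd)
    have hsub : (P : Set V) ⊆ (insert d.snd P : Finset V) := by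
      intro z hz
      simp [show z ∈ P from hz]
    refine ⟨insert d.snd P, Finset.insert_subset hdR hPR, Finset.mem_insert_of_mem hvP,
      by rw [Finset.card_insert_of_notMem hd2]; omega,
      by rw [Finset.card_insert_of_notMem hd2]; omega, fun y hy => ?_⟩
    rcases Finset.mem_insert.1 hy with rfl | hy
    · exact ((h3 _ hd1).mono hsub).trans (Lk.adj d.adj (hsub hd1) (by simp))
    · exact (h3 y hy).mono hsub

theorem St.create [Fact G.Connected] [G.LocallyFinite] (H : St G K h l c F I A e R L S)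
    {β : ℕ} (hβ : ∀ x, (ball G x (4 * K)).card ≤ β) (hc : h * ((3 * K + 2) * β) ≤ c)
    (hI : I.card < h) (hl : l ≤ R.card) (hl1 : 1 ≤ l) {v : V} (hv : v ∈ R)
    (hrad : ∀ x ∈ R, ∃ p : G.Walk v x, (∀ z ∈ p.support, z ∈ R) ∧ p.length ≤ 2 * l ^ 2)
    (hport : ∀ i ∈ I, ∃ a ∈ A i, ∃ r ∈ R, G.dist a r ≤ 3 * K + 1) :
    ∃ j A' e' R' S', St G K h l c F (insert j I) A' e' R' L S' ∧ R'.card < R.card := by
  classical
  obtain ⟨P, hPR, hvP, hP1, hP2, hP3⟩ := exists_pad (G := G) (k := l) hv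
    (fun x hx => by obtain ⟨p, hp, -⟩ := hrad x hx; exact ⟨p, hp⟩) (by omega)
  have hex : ∀ i : ℕ, ∃ (g : ℕ → V) (T : Finset V), i ∈ I → g 0 ∈ A i ∧ g (3 * K + 1) ∈ T ∧
      (∀ s, s < 3 * K + 1 → G.Adj (g s) (g (s + 1))) ∧ T ⊆ R ∧ T.card ≤ 2 * l ^ 2 ∧
      ∀ x ∈ T, Lk G (insert v T : Finset V) v x := by
    intro i
    by_cases hi : i ∈ I
    · obtain ⟨a, ha, r, hr, har⟩ := hport i hi
      have har' : G.dist a r = 3 * K + 1 := le_antisymm har (H.RA i hi a ha r hr)
      obtain ⟨g, g0, g1, g2⟩ := exists_geo (G := G) a r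
      rw [har'] at g1 g2
      obtain ⟨p, hp, hpl⟩ := hrad r hr
      by_cases hrv : r = v
      · refine ⟨g, {v}, fun _ => ⟨g0 ▸ ha, by simp [g1, hrv], g2, by simpa using hv,
          by simp only [Finset.card_singleton]; nlinarith, by simpa using Lk.refl (by simp)⟩⟩
      refine ⟨g, p.support.toFinset.erase v, fun _ => ⟨g0 ▸ ha, by simp [g1, hrv], g2,
        fun z hz => hp z (List.mem_toFinset.1 (Finset.mem_of_mem_erase hz)), ?_, fun x hx => ?_⟩⟩
      · have e1 := List.toFinset_card_le p.support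
        rw [Walk.length_support] at e1
        rw [Finset.card_erase_of_mem (by simp)]
        omega
      · have hx' : x ∈ p.support := List.mem_toFinset.1 (Finset.mem_of_mem_erase hx)
        refine ⟨p.takeUntil x hx', fun z hz => ?_⟩
        have := p.support_takeUntil_subset_support hx' hz
        by_cases hzv : z = v <;> simp [hzv, this]
    · exact ⟨fun _ => v, ∅, fun h => absurd h hi⟩
  choose g T hg using hex
  set j := I.sup id + 1 with hj
  have hlt : ∀ i ∈ I, i < j := fun i hi => Nat.lt_succ_of_le (Finset.le_sup (f := id) hi)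
  set An : Finset V := P ∪ I.biUnion T with hAn
  have hAnR : An ⊆ R := Finset.union_subset hPR
    (Finset.biUnion_subset.2 fun i hi => (hg i hi).2.2.2.1)
  have hAnlk : ∀ x ∈ An, Lk G An v x := by
    intro x hx
    rcases Finset.mem_union.1 hx with hx | hx
    · exact (hP3 x hx).mono (by simp [hAn])
    · obtain ⟨i, hi, hx⟩ := Finset.mem_biUnion.1 hx
      refine ((hg i hi).2.2.2.2.2 x hx).mono fun z hz => ?_
      rcases Finset.mem_insert.1 (show z ∈ insert v (T i) from hz) with rfl | hz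
      · exact Finset.mem_union_left _ hvP
      · exact Finset.mem_union_right _ (Finset.mem_biUnion.2 ⟨i, hi, hz⟩)
  set Z : Finset V := I.biUnion fun i => (Finset.range (3 * K + 2)).biUnion
    fun s => ball G (g i s) (4 * K) with hZ
  have hZc : Z.card ≤ c := by
    refine le_trans ?_ hc
    refine (Finset.card_biUnion_le_card_mul _ _ ((3 * K + 2) * β) fun i _ => ?_).trans
      (Nat.mul_le_mul_right _ hI.le)
    simpa using Finset.card_biUnion_le_card_mul (Finset.range (3 * K + 2))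
      (fun s => ball G (g i s) (4 * K)) β fun s _ => hβ _
  set R' := R.filter (fun x => x ∉ Z ∧ ∀ a ∈ An, 3 * K + 1 ≤ G.dist a x) with hR'
  have hs : R' ⊆ R := Finset.filter_subset _ _
  have hcard : R'.card + P.card ≤ R.card := by
    rw [← Finset.card_union_of_disjoint (Finset.disjoint_left.2 fun x hx hx' => by
      have := (Finset.mem_filter.1 hx).2.2 x (Finset.mem_union_left _ hx')
      simp at this)]
    exact Finset.card_le_card (Finset.union_subset hs hPR)
  have hAj : Function.update A j An j = An := Function.update_self _ _ _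
  have hAi : ∀ i ∈ I, Function.update A j An i = A i := fun i hi =>
    Function.update_of_ne (hlt i hi).ne _ _
  have hgr : ∀ i ∈ I, ∀ s, s ≤ 3 * K + 1 → ∃ r ∈ R, G.dist (g i s) r ≤ 3 * K + 1 := by
    intro i hi s hs'
    obtain ⟨-, h1, h2, h3, -⟩ := hg i hi
    exact ⟨_, h3 h1, (dist_geo_le h2 hs' le_rfl).trans (by omega)⟩
  have hpair : ∀ i ∈ insert j I, ∀ k ∈ insert j I, i < k → i ∈ I ∧ (k = j ∨ k ∈ I ∧ k ≠ j) := by
    intro i hi k hk hik
    rcases Finset.mem_insert.1 hk with rfl | hk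
    · rcases Finset.mem_insert.1 hi with rfl | hi
      · exact absurd hik (lt_irrefl _)
      · exact ⟨hi, Or.inl rfl⟩
    · rcases Finset.mem_insert.1 hi with rfl | hi
      · exact absurd (hlt k hk) (by omega)
      · exact ⟨hi, Or.inr ⟨hk, (hlt k hk).ne⟩⟩
  refine ⟨j, Function.update A j An, fun i k => if k = j then g i else e i k, R', S ∪ Z,
    ⟨fun i hi => ?_, fun i hi => ?_, fun i hi => ?_, fun i hi k hk hik => ?_,
      fun i hi k hk hik => ?_, fun i hi k hk m hm n hn hik hmn hkn s hs' s' ht => ?_,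
      hs.trans H.RF, H.LF, H.disj.mono_left hs, fun x hx => H.noadj x (hs hx), fun x hx => ?_,
      fun i hi => ?_, fun i hi k hk hik s hs' x hx => ?_, ?_, H.Lcard⟩, by omega⟩
  · rcases Finset.mem_insert.1 hi with rfl | hi
    · rw [hAj]
      exact ⟨v, Finset.mem_union_left _ hvP⟩
    · rw [hAi i hi]
      exact H.Ane i hi
  · rcases Finset.mem_insert.1 hi with rfl | hi
    · rw [hAj]
      exact fun x hx y hy => (hAnlk x hx).symm.trans (hAnlk y hy)
    · rw [hAi i hi]
      exact H.Alk i hi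
  · rcases Finset.mem_insert.1 hi with rfl | hi
    · rw [hAj]
      have e1 := Finset.card_union_le P (I.biUnion T)
      have e2 := Finset.card_biUnion_le_card_mul I T (2 * l ^ 2) fun i hi => (hg i hi).2.2.2.2.1
      have e3 : I.card * (2 * l ^ 2) ≤ h * (2 * l ^ 2) := Nat.mul_le_mul_right _ hI.le
      rw [mul_add h]
      rw [← hAn] at e1
      omega
    · rw [hAi i hi]
      exact H.Acard i hi
  · rcases Finset.mem_insert.1 hi with rfl | hi
    · rcases Finset.mem_insert.1 hk with rfl | hk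
      · exact absurd rfl hik
      · rw [hAj, hAi k hk]
        intro x hx y hy
        rw [dcomm]
        exact H.RA k hk y hy x (hAnR hx)
    · rcases Finset.mem_insert.1 hk with rfl | hk
      · rw [hAj, hAi i hi]
        exact fun x hx y hy => H.RA i hi x hx y (hAnR hy)
      · rw [hAi i hi, hAi k hk]
        exact H.AA i hi k hk hik
  · obtain ⟨hi', rfl | ⟨hk', hkj⟩⟩ := hpair i hi k hk hik
    · obtain ⟨h0, h1, h2, -⟩ := hg i hi'
      rw [hAj, hAi i hi']
      simp only [if_true]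
      exact ⟨h0, Finset.mem_union_right _ (Finset.mem_biUnion.2 ⟨i, hi', h1⟩), h2⟩
    · rw [hAi i hi', hAi k hk']
      simp only [hkj, if_false]
      exact H.e0 i hi' k hk' hik
  · obtain ⟨hi', rfl | ⟨hk', hkj⟩⟩ := hpair i hi k hk hik
    · obtain ⟨hm', rfl | ⟨hn', hnj⟩⟩ := hpair m hm n hn hmn
      · exact absurd rfl hkn
      · simp only [hnj, if_true, if_false]
        obtain ⟨r, hr, hr'⟩ := hgr i hi' s hs'
        have e1 := H.Re m hm' n hn' hmn s' ht r hr
        have e2 := tri (G := G) (e m n s') (g i s) r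
        rw [dcomm]
        omega
    · obtain ⟨hm', rfl | ⟨hn', hnj⟩⟩ := hpair m hm n hn hmn
      · simp only [hkj, if_true, if_false]
        obtain ⟨r, hr, hr'⟩ := hgr m hm' s' ht
        have e1 := H.Re i hi' k hk' hik s hs' r hr
        have e2 := tri (G := G) (e i k s) (g m s') r
        omega
      · simp only [hkj, hnj, if_false]
        exact H.ee i hi' k hk' m hm' n hn' hik hmn hkn s hs' s' ht
  · rcases H.cover x hx with h1 | h1 | h1 | ⟨i, hi, a, ha, hax⟩
    · by_cases hZ' : x ∈ Z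
      · exact Or.inr (Or.inr (Or.inl (Finset.mem_union_right _ hZ')))
      · by_cases hA' : ∀ a ∈ An, 3 * K + 1 ≤ G.dist a x
        · exact Or.inl (Finset.mem_filter.2 ⟨h1, hZ', hA'⟩)
        · push Not at hA'
          obtain ⟨a, ha, hax⟩ := hA'
          exact Or.inr (Or.inr (Or.inr ⟨j, Finset.mem_insert_self _ _, a, by rwa [hAj],
            by omega⟩))
    · exact Or.inr (Or.inl h1)
    · exact Or.inr (Or.inr (Or.inl (Finset.mem_union_left _ h1)))
    · exact Or.inr (Or.inr (Or.inr ⟨i, Finset.mem_insert_of_mem hi, a, by rwa [hAi i hi], hax⟩))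
  · rcases Finset.mem_insert.1 hi with rfl | hi
    · rw [hAj]
      exact fun a ha x hx => (Finset.mem_filter.1 hx).2.2 a ha
    · rw [hAi i hi]
      exact fun a ha x hx => H.RA i hi a ha x (hs hx)
  · obtain ⟨hi', rfl | ⟨hk', hkj⟩⟩ := hpair i hi k hk hik
    · simp only [if_true]
      by_contra hcon
      exact (Finset.mem_filter.1 hx).2.1 (Finset.mem_biUnion.2 ⟨i, hi', Finset.mem_biUnion.2
        ⟨s, Finset.mem_range.2 (by omega), mem_ball.2 (by omega)⟩⟩)
    · simp only [hkj, if_false]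
      exact H.Re i hi' k hk' hik s hs' x (hs hx)
  · have e1 := H.Scard
    have e2 := Finset.card_union_le S Z
    have e3 : l * (S ∪ Z).card ≤ l * S.card + l * c := by
      rw [← mul_add]
      exact Nat.mul_le_mul_left _ (by omega)
    have e4 : c * R'.card + c * l ≤ c * R.card := by
      rw [← mul_add]
      exact Nat.mul_le_mul_left _ (by omega)
    rw [mul_comm l c] at e3
    omega

theorem grow {l : ℕ} (hl : 16 ≤ l) {f : ℕ → ℕ} (h0 : 1 ≤ f 0)
    (h : ∀ j, j < l ^ 2 → (l + 1) * f j ≤ l * f (j + 1)) : l ^ 4 ≤ f (l ^ 2) := by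
  have hl0 : (0 : ℝ) < l := by positivity
  have h1 : ∀ j, j ≤ l ^ 2 → (1 + 1 / (l : ℝ)) ^ j ≤ f j := by
    intro j hj
    induction j with
    | zero => simpa using h0
    | succ j ih =>
      have e1 : ((l : ℝ) + 1) * f j ≤ l * f (j + 1) := by exact_mod_cast h j (by omega)
      have e2 := ih (by omega)
      rw [pow_succ]
      have e3 : (1 + 1 / (l : ℝ)) = (l + 1) / l := by field_simp
      calc _ ≤ (f j : ℝ) * (1 + 1 / (l : ℝ)) := by gcongr
        _ = ((l + 1) * f j) / l := by rw [e3]; ring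
        _ ≤ _ := by rw [div_le_iff₀ hl0]; linarith
  have h2 : (2 : ℝ) ≤ (1 + 1 / (l : ℝ)) ^ l := by
    have := one_add_mul_le_pow (a := 1 / (l : ℝ)) (by have : 0 ≤ 1 / (l : ℝ) := by positivity
                                                      linarith) l
    rw [mul_one_div_cancel hl0.ne'] at this
    linarith
  have h3 : l ^ 4 ≤ 2 ^ l := by
    clear h h1 h2 hl0
    induction l, hl using Nat.le_induction with
    | base => norm_num
    | succ n hn ih =>
      have : (n + 1) ^ 4 ≤ 2 * n ^ 4 := by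
        have e1 : 16 * n ^ 3 ≤ n ^ 4 := by rw [pow_succ' n 3]; gcongr
        have e2 : 16 * n ^ 2 ≤ n ^ 3 := by rw [pow_succ' n 2]; gcongr
        have e3 : 16 * n ≤ n ^ 2 := by rw [sq]; gcongr
        nlinarith
      rw [pow_succ 2]
      omega
  have h4 : ((l ^ 4 : ℕ) : ℝ) ≤ f (l ^ 2) := by
    calc ((l ^ 4 : ℕ) : ℝ) ≤ ((2 ^ l : ℕ) : ℝ) := by exact_mod_cast h3
      _ = 2 ^ l := by push_cast; rfl
      _ ≤ ((1 + 1 / (l : ℝ)) ^ l) ^ l := by gcongr
      _ = (1 + 1 / (l : ℝ)) ^ (l ^ 2) := by rw [← pow_mul, sq]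
      _ ≤ _ := h1 _ le_rfl
  exact_mod_cast h4

theorem St.step [Fact G.Connected] [G.LocallyFinite] (H : St G K h l c F I A e R L S)
    {β : ℕ} (hβ : ∀ x, (ball G x (4 * K)).card ≤ β) (hc : h * ((3 * K + 2) * β) ≤ c)
    (hc1 : 1 ≤ c) (hI : I.card < h) (hl : 16 ≤ l) (hF : F.card ≤ l ^ 4) (hlF : 2 * l ≤ F.card)
    (hR : 2 * F.card < 3 * R.card) :
    ∃ I' A' e' R' L' S', St G K h l c F I' A' e' R' L' S' ∧
      2 * R'.card + I'.card < 2 * R.card + I.card := by
  classical
  by_cases hport : ∀ i ∈ I, ∃ a ∈ A i, ∃ r ∈ R, G.dist a r ≤ 3 * K + 1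
  swap
  · push Not at hport
    obtain ⟨i, hi, hfar⟩ := hport
    obtain ⟨L', H'⟩ := H.drop hR (i := i) fun a ha r hr => hfar a ha r hr
    refine ⟨_, _, _, _, _, _, H', ?_⟩
    have := Finset.card_erase_lt_of_mem hi
    omega
  obtain ⟨v, hv⟩ : R.Nonempty := Finset.card_pos.1 (by omega)
  obtain ⟨B, hB⟩ : ∃ B : ℕ → Finset V, ∀ j x, x ∈ B j ↔
      x ∈ R ∧ ∃ p : G.Walk v x, (∀ z ∈ p.support, z ∈ R) ∧ p.length ≤ j :=
    ⟨fun j => @Finset.filter _
      (fun x => ∃ p : G.Walk v x, (∀ z ∈ p.support, z ∈ R) ∧ p.length ≤ j)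
      (Classical.decPred _) R, fun j x => by rw [@Finset.mem_filter _ _ (Classical.decPred _)]⟩
  have hBR : ∀ j, B j ⊆ R := fun j x hx => ((hB j x).1 hx).1
  have hBm : ∀ j k, j ≤ k → B j ⊆ B k := by
    intro j k hjk x hx
    obtain ⟨h1, p, hp, hp'⟩ := (hB _ _).1 hx
    exact (hB _ _).2 ⟨h1, p, hp, hp'.trans hjk⟩
  have hvB : ∀ j, v ∈ B j := fun j =>
    (hB _ _).2 ⟨hv, Walk.nil, by simpa using hv, by simp⟩
  have hBadj : ∀ j, ∀ x ∈ B j, ∀ y ∈ R, G.Adj x y → y ∈ B (j + 1) := by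
    intro j x hx y hy hxy
    obtain ⟨h1, p, hp, hp'⟩ := (hB _ _).1 hx
    refine (hB _ _).2 ⟨hy, p.concat hxy, fun z hz => ?_, by simpa using hp'⟩
    rw [Walk.support_concat] at hz
    simp only [List.mem_append, List.mem_singleton] at hz
    rcases hz with hz | rfl
    · exact hp z hz
    · exact hy
  have hlay : ∀ j, (B (j + 1) \ B j).card + (B j).card = (B (j + 1)).card := fun j =>
    Finset.card_sdiff_add_card_eq_card (hBm _ _ (by omega))
  have hco : ∀ j, (R \ B j).card + (B j).card = R.card := fun j =>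
    Finset.card_sdiff_add_card_eq_card (hBR j)
  by_cases h1 : ∃ j, 2 * (B j).card ≤ R.card ∧ l * (B (j + 1) \ B j).card ≤ (B j).card
  · obtain ⟨j, h1, h2⟩ := h1
    obtain ⟨R', L', S', H', hlt⟩ := H.cut hc1 hR (hBR j) ⟨v, hvB j⟩ h1 h2 fun x hx y hy hxy => by
      have := hBadj j x hx y hy hxy
      by_cases hy' : y ∈ B j <;> simp [hy', this]
    exact ⟨_, _, _, _, _, _, H', by omega⟩
  by_cases h2 : ∃ j, 2 * (R \ B (j + 1)).card ≤ R.card ∧ (R \ B (j + 1)).Nonempty ∧
      l * (B (j + 1) \ B j).card ≤ (R \ B (j + 1)).card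
  · obtain ⟨j, h2, h3, h4⟩ := h2
    obtain ⟨R', L', S', H', hlt⟩ := H.cut hc1 hR Finset.sdiff_subset h3 h2 h4
      fun x hx y hy hxy => by
        have hy' : y ∉ B j := fun h =>
          (Finset.mem_sdiff.1 hx).2 (hBadj j y h x (Finset.mem_sdiff.1 hx).1 hxy.symm)
        by_cases hy'' : y ∈ B (j + 1) <;> simp [hy, hy', hy'']
    exact ⟨_, _, _, _, _, _, H', by omega⟩
  push Not at h1 h2
  have hRF := Finset.card_le_card H.RF
  have hbig : R.card < 2 * (B (l ^ 2)).card := by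
    by_contra hcon
    have := grow hl (f := fun j => (B j).card) (Finset.card_pos.2 ⟨v, hvB 0⟩) fun j hj => by
      have e1 := Finset.card_le_card (hBm j _ hj.le)
      have e2 := h1 j (by omega)
      have e3 := hlay j
      show (l + 1) * (B j).card ≤ l * (B (j + 1)).card
      rw [← e3, mul_add, add_mul]
      omega
    omega
  have hall : R \ B (2 * l ^ 2) = ∅ := by
    by_contra hcon
    have hne : (R \ B (2 * l ^ 2)).Nonempty := Finset.nonempty_iff_ne_empty.2 hcon
    have := grow hl (f := fun j => (R \ B (2 * l ^ 2 - j)).card) (Finset.card_pos.2 hne)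
      fun j hj => by
        obtain ⟨m, hm⟩ : ∃ m, 2 * l ^ 2 - j = m + 1 := ⟨2 * l ^ 2 - j - 1, by omega⟩
        have hm' : 2 * l ^ 2 - (j + 1) = m := by omega
        show (l + 1) * (R \ B (2 * l ^ 2 - j)).card ≤ l * (R \ B (2 * l ^ 2 - (j + 1))).card
        rw [hm, hm']
        have e1 := Finset.card_le_card (hBm (l ^ 2) (m + 1) (by omega))
        have e2 := hco (m + 1)
        have e3 := hco m
        have e4 := hlay m
        have e5 := h2 m (by omega)
          (hne.mono (Finset.sdiff_subset_sdiff le_rfl (hBm _ _ (by omega))))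
        have e6 : (R \ B m).card = (R \ B (m + 1)).card + (B (m + 1) \ B m).card := by omega
        rw [e6, mul_add, add_mul]
        omega
    have e1 : 2 * l ^ 2 - l ^ 2 = l ^ 2 := by omega
    simp only [e1] at this
    have e2 := hco (l ^ 2)
    omega
  obtain ⟨j, A', e', R', S', H', hlt⟩ := H.create hβ hc hI (by omega) (by omega) hv
    (fun x hx => by
      have : x ∈ B (2 * l ^ 2) := by
        by_contra hcon
        have : x ∈ R \ B (2 * l ^ 2) := Finset.mem_sdiff.2 ⟨hx, hcon⟩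
        simp [hall] at this
      exact ((hB _ _).1 this).2) hport
  refine ⟨_, _, _, _, _, _, H', ?_⟩
  have := Finset.card_insert_le j I
  omega

/-- The separator theorem. -/
theorem sep [hcon : Fact G.Connected] [G.LocallyFinite] (β : ℕ → ℕ)
    (hβ : ∀ x r, (ball G x r).card ≤ β r) {K h : ℕ} (hno : ¬ FatCl G K h) :
    ∃ c : ℕ, ∀ l, 16 ≤ l → ∀ F : Finset V, F.card ≤ l ^ 4 → ∃ R L : Finset V, R ⊆ F ∧ L ⊆ F ∧
      Disjoint R L ∧ (∀ x ∈ R, ∀ y ∈ L, ¬ G.Adj x y) ∧ 3 * R.card ≤ 2 * F.card ∧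
      3 * L.card ≤ 2 * F.card ∧ l * (F \ (R ∪ L)).card ≤ c * F.card + c * l ^ 3 := by
  set c₀ := h * ((3 * K + 2) * β (4 * K)) + 1 with hc₀
  set c₁ := h * ((1 + 3 * h) * β (3 * K)) + 1 with hc₁
  refine ⟨c₀ + c₁, fun l hl F hF => ?_⟩
  have hl2 : l ≤ l ^ 2 := by nlinarith
  by_cases hlF : 2 * l ≤ F.card
  swap
  · refine ⟨∅, ∅, by simp, by simp, by simp, by simp, by simp, by simp, ?_⟩
    have e1 : 2 * l ^ 3 ≤ (c₀ + c₁) * l ^ 3 := Nat.mul_le_mul_right _ (by omega)
    have e2 : l * F.card ≤ l * (2 * l ^ 2) := Nat.mul_le_mul_left _ (by omega)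
    simp only [Finset.union_self, Finset.sdiff_empty]
    nlinarith [Nat.zero_le ((c₀ + c₁) * F.card)]
  have key : ∀ n : ℕ, ∀ I A e R L S, St G K h l c₀ F I A e R L S → 2 * R.card + I.card ≤ n →
      ∃ I A e R L S, St G K h l c₀ F I A e R L S ∧ 3 * R.card ≤ 2 * F.card := by
    intro n
    induction n with
    | zero => exact fun I A e R L S H hn => ⟨I, A, e, R, L, S, H, by omega⟩
    | succ n ih =>
      intro I A e R L S H hn
      by_cases hR : 3 * R.card ≤ 2 * F.card
      · exact ⟨I, A, e, R, L, S, H, hR⟩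
      have hI : I.card < h := by
        by_contra hI
        exact hno (H.fatCl (by omega))
      obtain ⟨I', A', e', R', L', S', H', hlt⟩ := H.step (fun x => hβ x _) (by omega) (by omega)
        hI hl hF hlF (by omega)
      exact ih _ _ _ _ _ _ H' (by omega)
  obtain ⟨v⟩ := hcon.out.nonempty
  obtain ⟨I, A, e, R, L, S, H, hR⟩ := key _ ∅ (fun _ => ∅) (fun _ _ _ => v) F ∅ ∅
    ⟨by simp, by simp, by simp, by simp, by simp, by simp, le_rfl, by simp, by simp, by simp,
      fun x hx => Or.inl hx, by simp, by simp, by simp, by simp⟩ le_rfl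
  have hI : I.card < h := by
    by_contra hI
    exact hno (H.fatCl (by omega))
  refine ⟨R, L, H.RF, H.LF, H.disj, H.noadj, hR, H.Lcard, ?_⟩
  set Z : Finset V := I.biUnion fun i => (A i).biUnion fun a => ball G a (3 * K) with hZ
  have hsub : F \ (R ∪ L) ⊆ S ∪ Z := by
    intro x hx
    obtain ⟨hx1, hx2⟩ := Finset.mem_sdiff.1 hx
    rcases H.cover x hx1 with h1 | h1 | h1 | ⟨i, hi, a, ha, hax⟩
    · simp [h1] at hx2
    · simp [h1] at hx2
    · exact Finset.mem_union_left _ h1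
    · exact Finset.mem_union_right _ (Finset.mem_biUnion.2 ⟨i, hi, Finset.mem_biUnion.2
        ⟨a, ha, mem_ball.2 hax⟩⟩)
  have hZc : Z.card ≤ c₁ * l ^ 2 := by
    have e1 := Finset.card_biUnion_le_card_mul I
      (fun i => (A i).biUnion fun a => ball G a (3 * K)) ((1 + 3 * h) * l ^ 2 * β (3 * K))
      fun i hi => (Finset.card_biUnion_le_card_mul _ _ (β (3 * K)) fun a _ => hβ _ _).trans
        (Nat.mul_le_mul_right _ ((H.Acard i hi).trans (by
          have : h * (2 * l ^ 2 + 1) ≤ h * (3 * l ^ 2) := Nat.mul_le_mul_left _ (by omega)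
          nlinarith)))
    calc Z.card ≤ h * ((1 + 3 * h) * l ^ 2 * β (3 * K)) :=
          e1.trans (Nat.mul_le_mul_right _ hI.le)
      _ = (h * ((1 + 3 * h) * β (3 * K))) * l ^ 2 := by ring
      _ ≤ _ := Nat.mul_le_mul_right _ (by omega)
  have e1 := (Finset.card_le_card hsub).trans (Finset.card_union_le S Z)
  have e2 := H.Scard
  have e3 : l * (F \ (R ∪ L)).card ≤ l * S.card + l * (c₁ * l ^ 2) := by
    rw [← mul_add]
    exact Nat.mul_le_mul_left _ (by omega)
  nlinarith [Nat.zero_le (c₀ * R.card), Nat.zero_le (c₁ * F.card), Nat.zero_le (c₀ * l ^ 3)]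

end Pool.Agent.MP_77f003_co.H49
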