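import Pool.Agent.MP_77f003_co.H49.Pebble
import Pool.Agent.MP_77f003_co.H49.Harm

/-!
A crossing gadget that can be placed between two rays yields fat complete minors.
-/

namespace Pool.Agent.MP_77f003_co.H49

open SimpleGraph Filter

variable {V : Type} {G : SimpleGraph V} {K : ℕ}

/-- The terminals `a, b` and `c, d` are linked by sets far from each other. -/
def Pair (G : SimpleGraph V) (K : ℕ) (y : Fin 4 → V) (S : Fin 4 → Set V) (a b c d : Fin 4) : Prop :=
  ∃ L L', Lk G L (y a) (y b) ∧ Lk G L' (y c) (y d) ∧ Far G K L L' ∧ L ⊆ S c ∧ L ⊆ S d ∧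
    L' ⊆ S a ∧ L' ⊆ S b

/-- Four terminals all of whose pairings can be linked, far from thin sets holding the links. -/
def Switch (G : SimpleGraph V) (K : ℕ) : Prop :=
  ∃ A, ∀ T, ∃ (y : Fin 4 → V) (S : Fin 4 → Set V),
    (∀ a, (S a).Finite ∧ Thin G A (y a) (S a) ∧ ∀ z ∈ S a, T ≤ G.dist (y a) z) ∧
    Pair G K y S 0 1 2 3 ∧ Pair G K y S 0 2 1 3 ∧ Pair G K y S 0 3 1 2

theorem Pair.s1 {y : Fin 4 → V} {S : Fin 4 → Set V} {a b c d : Fin 4} (h : Pair G K y S a b c d) :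
    Pair G K y S b a c d := by
  obtain ⟨L, L', h1, h2, h3, h4, h5, h6, h7⟩ := h
  exact ⟨L, L', h1.symm, h2, h3, h4, h5, h7, h6⟩

theorem Pair.s2 {y : Fin 4 → V} {S : Fin 4 → Set V} {a b c d : Fin 4} (h : Pair G K y S a b c d) :
    Pair G K y S c d a b := by
  obtain ⟨L, L', h1, h2, h3, h4, h5, h6, h7⟩ := h
  exact ⟨L', L, h2, h1, h3.symm, h6, h7, h4, h5⟩

theorem all_pairs {P : Fin 4 → Fin 4 → Fin 4 → Fin 4 → Prop}
    (s1 : ∀ {a b c d}, P a b c d → P b a c d) (s2 : ∀ {a b c d}, P a b c d → P c d a b)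
    (h1 : P 0 1 2 3) (h2 : P 0 2 1 3) (h3 : P 0 3 1 2) (a b c d : Fin 4) (e1 : a ≠ b) (e2 : a ≠ c)
    (e3 : a ≠ d) (e4 : b ≠ c) (e5 : b ≠ d) (e6 : c ≠ d) : P a b c d := by
  have key : ∀ {a b c d}, P a b c d → P a b c d ∧ P b a c d ∧ P a b d c ∧ P b a d c ∧
      P c d a b ∧ P c d b a ∧ P d c a b ∧ P d c b a := fun h =>
    ⟨h, s1 h, s2 (s1 (s2 h)), s1 (s2 (s1 (s2 h))), s2 h, s2 (s1 h), s1 (s2 h), s1 (s2 (s1 h))⟩
  obtain ⟨_, _, _, _, _, _, _, _⟩ := key h1
  obtain ⟨_, _, _, _, _, _, _, _⟩ := key h2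
  obtain ⟨_, _, _, _, _, _, _, _⟩ := key h3
  fin_cases a <;> fin_cases b <;> fin_cases c <;> fin_cases d <;> first | contradiction | assumption

variable {ι : Type} {ρ : ι → ℕ → V} {D : Set (ι × ι)}

/-- The model with the pebbles `i, j` on the rays `α, β`. -/
def TT (G : SimpleGraph V) (K : ℕ) (ρ : ι → ℕ → V) (D : Set (ι × ι)) (i j : ι) (α β : ℕ → V) :
    Prop :=
  ∀ ρ' : ι → ℕ → V, ρ' i = α → ρ' j = β → (∀ k, k ≠ i → k ≠ j → ρ' k = ρ k) → PP G K ρ' D

theorem TT.symm {i j : ι} {α β : ℕ → V} (h : TT G K ρ D i j α β) : TT G K ρ D j i β α :=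
  fun ρ' h1 h2 h3 => h ρ' h2 h1 fun k k1 k2 => h3 k k2 k1

variable [Fact G.Connected]

theorem Pair.map {y : Fin 4 → V} {S : Fin 4 → Set V} {a b c d : Fin 4} (h : Pair G K y S a b c d)
    (φ : G ≃g G) : Pair G K (fun a => φ (y a)) (fun a => φ '' S a) a b c d := by
  obtain ⟨L, L', h1, h2, h3, h4, h5, h6, h7⟩ := h
  refine ⟨φ '' L, φ '' L', h1.map φ, h2.map φ, ?_, Set.image_mono h4, Set.image_mono h5,
    Set.image_mono h6, Set.image_mono h7⟩
  rintro _ ⟨x, hx, rfl⟩ _ ⟨z, hz, rfl⟩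
  rw [dist_iso]
  exact h3 x hx z hz

theorem exists_geo' (x y : V) : ∃ q : ℕ → V, q 0 = x ∧ q (G.dist x y) = y ∧
    ∀ a b, a ≤ b → b ≤ G.dist x y → G.dist (q a) (q b) = b - a := by
  obtain ⟨q, q0, q1, q2⟩ := exists_geo (G := G) x y
  refine ⟨q, q0, q1, fun a b hab hb => ?_⟩
  have e1 := dist_geo_le q2 hab hb
  have e2 := dist_geo_le q2 (Nat.zero_le a) (hab.trans hb)
  have e3 := dist_geo_le q2 hb le_rfl
  have e4 := tri (G := G) x (q a) y
  have e5 := tri (G := G) (q a) (q b) y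
  rw [q0] at e2
  rw [q1] at e3
  omega

theorem thin_rays {F : Set (ℕ → V)} (hF : F.Finite) (h : ∀ α ∈ F, IsR G α) :
    ∃ A, ∀ x, Thin G A x (⋃ γ ∈ F, Set.range γ) := by
  induction F, hF using Set.Finite.induction_on with
  | empty => exact ⟨0, fun x => by simpa using thin_empty x⟩
  | @insert a F _ _ ih =>
    obtain ⟨A, hA⟩ := ih fun α hα => h α (Or.inr hα)
    obtain ⟨B, hB⟩ := (h a (Or.inl rfl)).thin
    exact ⟨B + A, fun x => by rw [Set.biUnion_insert]; exact (hB x).union (hA x)⟩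

variable [Finite ι]

theorem TT.mv {F : Set (ℕ → V)} (hF : Fam G F) {o : V} {i j : ι} (hij : i ≠ j) {α α' β : ℕ → V}
    (h : (HG G o F).Adj α α') (hβ : β ∈ F \ {α, α'})
    (hρ : ∀ k, k ≠ i → k ≠ j → ρ k ∈ F \ {α, α'}) (H : TT G K ρ D i j α β) :
    TT G K ρ D i j α' β := by
  classical
  intro ρ' h1 h2 h3
  refine (H (Function.update ρ' i α) (Function.update_self _ _ _)
    (by rwa [Function.update_of_ne hij.symm]) fun k k1 k2 => by
      rw [Function.update_of_ne k1, h3 k k1 k2]).move (o := o) (i := i) (O := F \ {α, α'})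
    (hF.ray _ h.2.1) (fun k hk => ?_) hF.fin.sdiff
    (fun γ hγ => hF.div _ h.2.1 _ hγ.1 fun e => hγ.2 (Or.inr e.symm))
    (by rw [Function.update_self]; exact h.2.2.2) h1 fun k hk => (Function.update_of_ne hk _ _).symm
  rw [Function.update_of_ne hk]
  by_cases hj : k = j
  · rwa [hj, h2]
  · rw [h3 k hk hj]
    exact hρ k hk hj

variable [G.LocallyFinite]

theorem swap_main {Δ : ℕ} (hΔ : ∀ v, G.degree v ≤ Δ) (hna : ¬ Amenable G) (ht : VT G)
    (hS : Switch G K) {o : V} (hOE : ∀ α β, IsR G α → IsR G β → AdjI G o ∅ α β)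
    {F : Set (ℕ → V)} (hF : Fam G F) {r r' : ℕ → V} (hadj : (HG G o F).Adj r r')
    (hno : ∀ q, ¬ ((HG G o F).Adj q r ∧ (HG G o F).Adj q r')) {i j : ι} (hij : i ≠ j)
    (hρ : ∀ k, k ≠ i → k ≠ j → ρ k ∈ F \ {r, r'}) (H : TT G K ρ D i j r r') :
    TT G K ρ D i j r' r := by
  classical
  have hrr : r ≠ r' := hadj.2.2.1
  set ρ0 := Function.update (Function.update ρ i r) j r' with hρ0
  have a1 : ρ0 i = r := by rw [hρ0, Function.update_of_ne hij, Function.update_self]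
  have a2 : ρ0 j = r' := Function.update_self _ _ _
  have a3 : ∀ k, k ≠ i → k ≠ j → ρ0 k = ρ k := fun k k1 k2 => by
    rw [hρ0, Function.update_of_ne k2, Function.update_of_ne k1]
  have a4 : ∀ k, k ≠ i → ρ0 k ∈ F \ {r} := fun k hk => by
    by_cases hj : k = j
    · rw [hj, a2]
      exact ⟨hadj.2.1, hrr.symm⟩
    · rw [a3 k hk hj]
      exact ⟨(hρ k hk hj).1, fun e => (hρ k hk hj).2 (Or.inl e)⟩
  have a5 : ∀ k, k ≠ j → ρ0 k ∈ F \ {r'} := fun k hk => by
    by_cases hi : k = i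
    · rw [hi, a1]
      exact ⟨hadj.1, hrr⟩
    · rw [a3 k hi hk]
      exact ⟨(hρ k hi hk).1, fun e => (hρ k hi hk).2 (Or.inr e)⟩
  obtain ⟨Z, n, E, H0⟩ := H ρ0 a1 a2 a3
  have hev : ∀ᶠ t in atTop, ∀ q ∈ F \ {r, r'},
      (∀ m n, ¬ Lk G (Safe G o t (F \ {q, r})) (q m) (r n)) ∨
        ∀ m n, ¬ Lk G (Safe G o t (F \ {q, r'})) (q m) (r' n) := by
    refine (eventually_all_finite hF.fin.sdiff).2 fun q hq => ?_
    rcases not_and_or.1 (hno q) with h | h
    · exact (not_adjI fun e => h ⟨hq.1, hadj.1, fun e => hq.2 (Or.inl e), e⟩).mono fun _ => Or.inl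
    · exact (not_adjI fun e => h ⟨hq.1, hadj.2.1, fun e => hq.2 (Or.inr e), e⟩).mono
        fun _ => Or.inr
  obtain ⟨s, ⟨d1, d2⟩, d3, hKs⟩ :=
    (((H0.dive o).and (H0.dive2 o)).and (hev.and (eventually_ge_atTop K))).exists
  obtain ⟨A, hA⟩ := hS
  obtain ⟨B, hB⟩ := thin_rays hF.fin hF.ray
  obtain ⟨T, hT⟩ := multi_escape hΔ hna (ι := Fin 4) 4 (A + B + 1) s
  obtain ⟨y0, S0, b1, b2, b3, b4⟩ := hA T
  obtain ⟨M, hM⟩ := (((Set.finite_iUnion fun a => (b1 a).1).union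
    (Set.finite_range y0)).image (G.dist (y0 0))).bddAbove
  obtain ⟨z, hz, ⟨m1, z1⟩, ⟨m2, z2⟩⟩ := hF.deep hadj (s + T + M)
  obtain ⟨φ, hφ⟩ := ht (y0 0) z
  set y : Fin 4 → V := fun a => φ (y0 a) with hy
  set S : Fin 4 → Set V := fun a => φ '' S0 a with hSS
  have hP := all_pairs (P := Pair G K y S) Pair.s1 Pair.s2 (b2.map φ) (b3.map φ) (b4.map φ)
  have hball : ∀ w, G.dist z w ≤ M → w ∈ Safe G o (s + T) F := by
    intro w hw
    refine ⟨?_, fun γ hγ k => ?_⟩
    · have e1 := hz.1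
      have e2 := tri (G := G) o w z
      rw [dcomm w z] at e2
      omega
    · have e1 := hz.2 γ hγ k
      have e2 := tri (G := G) z w (γ k)
      omega
  have hyM : ∀ a, G.dist z (y a) ≤ M := fun a => by
    rw [← hφ, dist_iso]
    exact hM ⟨_, Or.inr ⟨a, rfl⟩, rfl⟩
  have hSM : ∀ a, S a ⊆ Safe G o s F := by
    rintro a _ ⟨w, hw, rfl⟩
    refine Safe.mono (by omega) le_rfl (hball _ ?_)
    rw [← hφ, dist_iso]
    exact hM ⟨_, Or.inl (Set.mem_iUnion.2 ⟨a, hw⟩), rfl⟩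
  have hST : ∀ a, ∀ w ∈ S a, T ≤ G.dist (y a) w := by
    rintro a _ ⟨w, hw, rfl⟩
    rw [dist_iso]
    exact (b1 a).2.2 w hw
  obtain ⟨g, hg⟩ := hT Finset.univ y (fun a => S a ∪ (⋃ γ ∈ F, Set.range γ) ∪ ({o} : Finset V))
    (by simp) (fun a _ => (((b1 a).2.1.map φ).union (hB _)).union (thin_card _ {o})) (by
      rintro a - w ((hw | hw) | hw)
      · exact hST a w hw
      · simp only [Set.mem_iUnion] at hw
        obtain ⟨γ, hγ, k, rfl⟩ := hw
        have := (hball _ (hyM a)).2 γ hγ k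
        omega
      · obtain rfl : w = o := by simpa using hw
        have := (hball _ (hyM a)).1
        rw [dcomm]
        omega) (by
      intro a _ b _ hab
      obtain ⟨c, d, h⟩ : ∃ c d, b ≠ c ∧ b ≠ d ∧ c ≠ a ∧ c ≠ d ∧ a ≠ d := by
        revert a b
        decide
      obtain ⟨L, L', h1, -, -, h2, -⟩ := hP b c a d h.1 hab.symm h.2.1 h.2.2.1 h.2.2.2.1 h.2.2.2.2
      exact hST a _ (h2 h1.left))
  replace hg := fun a => hg a (Finset.mem_univ a)
  have g1 : ∀ a, IsR G (g a) := fun a => (hg a).1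
  have g2 : ∀ a, ∀ γ ∈ F, Div G (g a) γ := fun a γ hγ => (hg a).2.2.2.1 γ fun w hw =>
    Or.inl (Or.inr (Set.mem_biUnion hγ hw))
  have g3 : ∀ a b, a ≠ b → Far G K (Set.range (g a)) (Set.range (g b)) := fun a b h x hx w hw =>
    hKs.trans (((hg a).2.2.2.2 b (by simp) h).1 x hx w hw)
  have g4 : ∀ a b, a ≠ b → Div G (g a) (g b) := fun a b h => ((hg a).2.2.2.2 b (by simp) h).2
  have g5 : ∀ a, Far G K (Set.range (g a)) (S a) := fun a x hx w hw =>
    hKs.trans ((hg a).2.2.1 x hx w (Or.inl (Or.inl hw)))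
  have g6 : ∀ a, Set.range (g a) ⊆ Safe G o s F := fun a x hx =>
    ⟨by rw [dcomm]; exact (hg a).2.2.1 x hx o (Or.inr (by simp)), fun γ hγ k =>
      (hg a).2.2.1 x hx _ (Or.inl (Or.inr (Set.mem_biUnion hγ ⟨k, rfl⟩)))⟩
  have g7 : ∀ a, g a ∉ F := fun a h => (g2 a _ h).ne rfl
  have g8 : ∀ {a b}, a ≠ b → g a ≠ g b := fun h => (g4 _ _ h).ne
  have hzg : ∀ a, Lk G (Safe G o s F) z (g a 0) := fun a => by
    rw [(hg a).2.1]
    exact Lk.ball fun w hw => Safe.mono (by omega) le_rfl (hball w (hw.trans (hyM a)))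
  have hF' : Fam G (F ∪ Set.range g) := by
    refine ⟨hF.fin.union (Set.finite_range g), ?_, ?_⟩
    · rintro _ (h | ⟨a, rfl⟩)
      exacts [hF.ray _ h, g1 a]
    · rintro α (h | ⟨a, rfl⟩) β (h' | ⟨b, rfl⟩) hne
      exacts [hF.div _ h _ h' hne, (g2 b _ h).symm (g1 b) (hF.ray _ h), g2 a _ h',
        g4 a b fun e => hne (e ▸ rfl)]
  let c : Fin 4 ⊕ Bool → ℕ → V := Sum.elim g fun b => if b then r' else r
  have hc : Function.Injective c := by
    rintro (a | _ | _) (b | _ | _) h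
    · exact congrArg _ (by_contra fun e => g8 e h)
    · exact absurd ((show r = g a from h.symm) ▸ hadj.1) (g7 a)
    · exact absurd ((show r' = g a from h.symm) ▸ hadj.2.1) (g7 a)
    · exact absurd ((show r = g b from h) ▸ hadj.1) (g7 b)
    · rfl
    · exact absurd h hrr
    · exact absurd ((show r' = g b from h) ▸ hadj.2.1) (g7 b)
    · exact absurd h.symm hrr
    · rfl
  have c1 : ∀ k, c k ∈ F ∪ Set.range g ∧ c k ∉ F \ {r, r'} := by
    rintro (a | _ | _)
    · exact ⟨Or.inr ⟨a, rfl⟩, fun h => g7 a h.1⟩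
    · exact ⟨Or.inl hadj.1, fun h => h.2 (Or.inl rfl)⟩
    · exact ⟨Or.inl hadj.2.1, fun h => h.2 (Or.inr rfl)⟩
  have c2 : ∀ γ ∈ F ∪ Set.range g, γ ∉ F \ {r, r'} → ∃ k, c k = γ := by
    rintro γ (h | ⟨a, rfl⟩) h'
    · rcases (by by_contra e; exact h' ⟨h, e⟩ : γ ∈ ({r, r'} : Set _)) with rfl | rfl
      exacts [⟨Sum.inr false, rfl⟩, ⟨Sum.inr true, rfl⟩]
    · exact ⟨Sum.inl a, rfl⟩
  set J := (HG G o (F ∪ Set.range g)).comap c with hJ
  have r1 : J.Reachable (Sum.inr false) (Sum.inr true) := hF'.reach hc c1 c2 hadj.2.2.2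
  have r2 : ∀ a, J.Reachable (Sum.inl a) (Sum.inr false) := by
    intro a
    by_contra hcon
    obtain ⟨_, ⟨k, hk, rfl⟩, β, e1, -, e3⟩ := hF'.cut (O := ∅) (o := o)
      (S := c '' {k | J.Reachable (Sum.inl a) k}) (a := g a) (b := r)
      (by rintro _ ⟨k, -, rfl⟩; exact (c1 k).1) ⟨Sum.inl a, Reachable.refl _, rfl⟩
      (Or.inl hadj.1) (by rintro ⟨k, hk, e⟩; exact hcon (hc (a₂ := Sum.inr false) e ▸ hk))
      (by simp) (hOE _ _ (g1 a) (hF.ray _ hadj.1))
    by_cases hβ : β ∈ F \ {r, r'}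
    · rcases k with b | _ | _
      · obtain ⟨m, n, l⟩ := e3.2.2.2 s
        have l1 : Lk G (Safe G o s (F \ {β})) (β n) z :=
          (l.symm.mono (Safe.mono le_rfl fun γ hγ => ⟨Or.inl hγ.1, by
            rintro (e | e)
            exacts [g7 b ((show γ = g b from e) ▸ hγ.1), hγ.2 e]⟩)).trans
          ((((g1 b).lk fun k _ _ => g6 b ⟨k, rfl⟩).trans (hzg b).symm).mono
            (Safe.mono le_rfl Set.sdiff_subset))
        rcases d3 β hβ with h | h
        · exact h n m1 ((l1.mono (Safe.mono le_rfl (Set.sdiff_subset_sdiff_right (by simp)))).trans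
            (z1.mono (Safe.mono (by omega) (Set.sdiff_subset_sdiff_right (by simp)))))
        · exact h n m2 ((l1.mono (Safe.mono le_rfl (Set.sdiff_subset_sdiff_right (by simp)))).trans
            (z2.mono (Safe.mono (by omega) (Set.sdiff_subset_sdiff_right (by simp)))))
      · exact hcon hk
      · exact hcon (hk.trans r1.symm)
    · obtain ⟨l, rfl⟩ := c2 β e3.2.1 hβ
      exact e1 ⟨l, hk.trans (Adj.reachable e3), rfl⟩
  have c3 : ∀ {a a' b}, b ≠ a → b ≠ a' → c b ∈ (F ∪ Set.range g) \ {c a, c a'} :=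
    fun h1 h2 => ⟨(c1 _).1, by rintro (e | e); exacts [h1 (hc e), h2 (hc e)]⟩
  have c4 : ∀ a a' k, k ≠ i → k ≠ j → ρ k ∈ (F ∪ Set.range g) \ {c a, c a'} :=
    fun a a' k k1 k2 => ⟨Or.inl (hρ k k1 k2).1, by
      rintro (e | e)
      exacts [(c1 a).2 (e ▸ hρ k k1 k2), (c1 a').2 (e ▸ hρ k k1 k2)]⟩
  have mv1 : ∀ {a a' b}, J.Adj a a' → b ≠ a → b ≠ a' → TT G K ρ D i j (c a) (c b) →
      TT G K ρ D i j (c a') (c b) := fun h h1 h2 => TT.mv hF' hij h (c3 h1 h2) (c4 _ _)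
  have mv2 : ∀ {a a' b}, J.Adj a a' → b ≠ a → b ≠ a' → TT G K ρ D i j (c b) (c a) →
      TT G K ρ D i j (c b) (c a') := fun h h1 h2 H =>
    (TT.mv hF' hij.symm h (c3 h1 h2) (fun k k1 k2 => c4 _ _ k k2 k1) H.symm).symm
  have w1 : ∀ {a a' b} (p : J.Walk a a'), b ∉ p.support → TT G K ρ D i j (c a) (c b) →
      TT G K ρ D i j (c a') (c b) := by
    intro a a' b p
    induction p with
    | nil => exact fun _ h => h
    | cons h q ih =>
      intro hb H
      simp only [Walk.support_cons, List.mem_cons, not_or] at hb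
      exact ih hb.2 (mv1 h hb.1 (fun e => hb.2 (e ▸ q.start_mem_support)) H)
  have w2 : ∀ {a a' b} (p : J.Walk a a'), b ∉ p.support → TT G K ρ D i j (c b) (c a) →
      TT G K ρ D i j (c b) (c a') := by
    intro a a' b p
    induction p with
    | nil => exact fun _ h => h
    | cons h q ih =>
      intro hb H
      simp only [Walk.support_cons, List.mem_cons, not_or] at hb
      exact ih hb.2 (mv2 h hb.1 (fun e => hb.2 (e ▸ q.start_mem_support)) H)
  obtain ⟨p, hp⟩ := r1.exists_isPath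
  by_cases hcase : ∃ a, Sum.inl a ∉ p.support
  · obtain ⟨a, ha⟩ := hcase
    obtain ⟨q, hq⟩ := (r2 a).exists_isPath
    by_cases hq' : Sum.inr true ∈ q.support
    · have t1 : TT G K ρ D i j (c (Sum.inl a)) (c (Sum.inr true)) := fun ρ' h1 h2 h3 =>
        d1 i (g a) m1 0 (F \ {r}) ρ' (g1 a) a4 (by
          rw [a1]
          exact (z1.symm.mono (Safe.mono (by omega) le_rfl)).trans
            ((hzg a).mono (Safe.mono le_rfl Set.sdiff_subset)))
          (fun k _ => Safe.mono le_rfl Set.sdiff_subset (g6 a ⟨k, rfl⟩)) h1 fun k hk => by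
            by_cases hj : k = j
            · rw [hj, h2, a2]; rfl
            · rw [h3 k hk hj, a3 k hk hj]
      exact w1 (q.takeUntil _ hq') (Walk.endpoint_notMem_support_takeUntil hq hq' (by simp))
        (w2 p.reverse (by simpa using ha) t1)
    · have t1 : TT G K ρ D i j (c (Sum.inr false)) (c (Sum.inl a)) := fun ρ' h1 h2 h3 =>
        d1 j (g a) m2 0 (F \ {r'}) ρ' (g1 a) a5 (by
          rw [a2]
          exact (z2.symm.mono (Safe.mono (by omega) le_rfl)).trans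
            ((hzg a).mono (Safe.mono le_rfl Set.sdiff_subset)))
          (fun k _ => Safe.mono le_rfl Set.sdiff_subset (g6 a ⟨k, rfl⟩)) h2 fun k hk => by
            by_cases hi : k = i
            · rw [hi, h1, a1]; rfl
            · rw [h3 k hi hk, a3 k hi hk]
      exact w2 q hq' (w1 p ha t1)
  push Not at hcase
  have hlen : p.length = 5 := by
    have := (hp.isHamiltonian_of_mem (by
      rintro (a | _ | _)
      exacts [hcase a, p.start_mem_support, p.end_mem_support])).length_eq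
    simpa using this
  have hinj : ∀ {k l}, k ≤ 5 → l ≤ 5 → k ≠ l → p.getVert k ≠ p.getVert l := fun k1 k2 h e =>
    h (hp.getVert_injOn (by simpa [hlen] using k1) (by simpa [hlen] using k2) e)
  have v0 : p.getVert 0 = Sum.inr false := p.getVert_zero
  have v5 : p.getVert 5 = Sum.inr true := by rw [← hlen]; exact p.getVert_length
  have hv : ∀ k, 0 < k → k < 5 → ∃ a, p.getVert k = Sum.inl a := by
    intro k k1 k2
    have e1 := hinj k2.le (Nat.zero_le _) k1.ne'
    have e2 := hinj k2.le le_rfl k2.ne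
    rw [v0] at e1
    rw [v5] at e2
    rcases h : p.getVert k with a | _ | _
    exacts [⟨a, rfl⟩, absurd h e1, absurd h e2]
  obtain ⟨x1, v1⟩ := hv 1 (by omega) (by omega)
  obtain ⟨x2, v2⟩ := hv 2 (by omega) (by omega)
  obtain ⟨x3, v3⟩ := hv 3 (by omega) (by omega)
  obtain ⟨x4, v4⟩ := hv 4 (by omega) (by omega)
  have n12 : x1 ≠ x2 := fun e => hinj (k := 1) (l := 2) (by omega) (by omega) (by omega)
    (by rw [v1, v2, e])
  have n13 : x1 ≠ x3 := fun e => hinj (k := 1) (l := 3) (by omega) (by omega) (by omega)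
    (by rw [v1, v3, e])
  have n14 : x1 ≠ x4 := fun e => hinj (k := 1) (l := 4) (by omega) (by omega) (by omega)
    (by rw [v1, v4, e])
  have n23 : x2 ≠ x3 := fun e => hinj (k := 2) (l := 3) (by omega) (by omega) (by omega)
    (by rw [v2, v3, e])
  have n24 : x2 ≠ x4 := fun e => hinj (k := 2) (l := 4) (by omega) (by omega) (by omega)
    (by rw [v2, v4, e])
  have n34 : x3 ≠ x4 := fun e => hinj (k := 3) (l := 4) (by omega) (by omega) (by omega)
    (by rw [v3, v4, e])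
  have ad : ∀ k, k < 5 → J.Adj (p.getVert k) (p.getVert (k + 1)) := fun k hk =>
    p.adj_getVert_succ (by omega)
  have ad0 := ad 0 (by omega)
  have ad1 := ad 1 (by omega)
  have ad3 := ad 3 (by omega)
  have ad4 := ad 4 (by omega)
  rw [v0, v1] at ad0
  rw [v1, v2] at ad1
  rw [v3, v4] at ad3
  rw [v4, v5] at ad4
  obtain ⟨L, L', l1, l2, l3, l4, l5, l6, l7⟩ := hP x1 x3 x2 x4 n13 n12 n14 n23.symm n34 n24
  have hfin : ∀ a, (S a).Finite := fun a => (b1 a).1.image _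
  obtain ⟨t1, ⟨u1, u2⟩⟩ := ((far_of_bound (G := G) (o := o) ((hfin _).subset l6) K).and
    (eventually_ge_atTop s)).exists
  obtain ⟨m3, m4, p1⟩ := ad0.2.2.2 t1
  obtain ⟨P, q1, q2, q3, q4⟩ := p1.fin
  obtain ⟨t2, ⟨u3, u4⟩, u5⟩ := (((far_of_bound (G := G) (o := o) ((hfin _).subset l4) K).and
    (far_of_bound (G := G) (o := o) q1 K)).and (eventually_ge_atTop s)).exists
  obtain ⟨m5, m6, p2⟩ := ad4.symm.2.2.2 t2
  have hob : ∀ {t a b k}, s ≤ t → k ≠ a → k ≠ b → Far G K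
      (Safe G o t ((F ∪ Set.range g) \ {c a, c b})) (Set.range (c k)) := by
    rintro t a b k h1 h2 h3 x hx _ ⟨l, rfl⟩
    exact hKs.trans (h1.trans (hx.2 _ (c3 h2 h3) l))
  have hBr : ∀ (X : Set V) (w : ℕ → V), Br X w 0 = X ∪ Set.range w := fun X w => by
    simp [Br]
  have t3 : TT G K ρ D i j (c (Sum.inl x3)) (c (Sum.inl x2)) := fun ρ' h1 h2 h3 => by
    refine d2 i j (g x3) (g x2) m3 m5 (F \ {r}) (F \ {r'}) (P ∪ Set.range (g x1) ∪ L)
      (Safe G o t2 ((F ∪ Set.range g) \ {c (Sum.inr true), c (Sum.inl x4)}) ∪ Set.range (g x4) ∪ L')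
      ρ' hij (g1 _) (g1 _) a4 a5 ?_ ?_ ?_ ?_ ?_ h1 h2
      fun k k1 k2 => by rw [h3 k k1 k2, a3 k k1 k2]
    · rw [a1]
      refine (((q4 _ q3).mono fun w hw => Or.inl (Or.inl hw)).trans
        ((g1 x1).lk (j := 0) fun k _ _ => Or.inl (Or.inr ⟨k, rfl⟩))).trans ?_
      rw [(hg x1).2.1, (hg x3).2.1]
      exact l1.mono Set.subset_union_right
    · rw [a2]
      refine ((p2.mono fun w hw => Or.inl (Or.inl hw)).trans
        ((g1 x4).lk (j := 0) fun k _ _ => Or.inl (Or.inr ⟨k, rfl⟩))).trans ?_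
      rw [(hg x4).2.1, (hg x2).2.1]
      exact l2.symm.mono Set.subset_union_right
    · rw [hBr]
      rintro w (((hw | hw) | hw) | hw)
      · refine Safe.mono u2 ?_ (q2 hw)
        exact fun γ hγ => ⟨Or.inl hγ.1, by
          rintro (e | e)
          exacts [hγ.2 e, g7 x1 ((show γ = g x1 from e) ▸ hγ.1)]⟩
      · exact Safe.mono le_rfl Set.sdiff_subset (g6 _ hw)
      · exact Safe.mono le_rfl Set.sdiff_subset (hSM _ (l4 hw))
      · exact Safe.mono le_rfl Set.sdiff_subset (g6 _ hw)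
    · rw [hBr]
      rintro w (((hw | hw) | hw) | hw)
      · refine Safe.mono u5 ?_ hw
        exact fun γ hγ => ⟨Or.inl hγ.1, by
          rintro (e | e)
          exacts [hγ.2 e, g7 x4 ((show γ = g x4 from e) ▸ hγ.1)]⟩
      · exact Safe.mono le_rfl Set.sdiff_subset (g6 _ hw)
      · exact Safe.mono le_rfl Set.sdiff_subset (hSM _ (l6 hw))
      · exact Safe.mono le_rfl Set.sdiff_subset (g6 _ hw)
    · rw [hBr, hBr]
      refine Far.union (Far.union (Far.union ?_ ?_) ?_) ?_ <;>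
        refine Far.union' (Far.union' (Far.union' ?_ ?_) ?_) ?_
      · exact u4 _
      · exact (hob (k := Sum.inl x4) u2 (by simp) (by simpa using n14.symm)).mono q2 le_rfl
      · exact (u1 _).symm.mono q2 le_rfl
      · exact (hob (k := Sum.inl x2) u2 (by simp) (by simpa using n12.symm)).mono q2 le_rfl
      · exact (hob (k := Sum.inl x1) u5 (by simp) (by simpa using n14)).symm
      · exact g3 _ _ n14
      · exact (g5 x1).mono le_rfl l6
      · exact g3 _ _ n12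
      · exact u3 _
      · exact ((g5 x4).mono le_rfl l5).symm
      · exact l3
      · exact ((g5 x2).mono le_rfl l4).symm
      · exact (hob (k := Sum.inl x3) u5 (by simp) (by simpa using n34)).symm
      · exact g3 _ _ n34
      · exact (g5 x3).mono le_rfl l7
      · exact g3 _ _ n23.symm
  exact mv2 ad0.symm (by simp) (by simp) (mv2 ad1.symm (by simp) (by simp)
    (mv1 ad4 (by simpa using n24) (by simp) (mv1 ad3 (by simpa using n23) (by simpa using n24) t3)))

theorem swap_any {Δ : ℕ} (hΔ : ∀ v, G.degree v ≤ Δ) (hna : ¬ Amenable G) (ht : VT G)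
    (hS : Switch G K) {o : V} (hOE : ∀ α β, IsR G α → IsR G β → AdjI G o ∅ α β)
    {F : Set (ℕ → V)} (hF : Fam G F) {r r' : ℕ → V} (hadj : (HG G o F).Adj r r')
    {i j : ι} (hij : i ≠ j) (hρ : ∀ k, k ≠ i → k ≠ j → ρ k ∈ F \ {r, r'})
    (hno : ∀ k, k ≠ i → k ≠ j → ¬ ((HG G o F).Adj (ρ k) r ∧ (HG G o F).Adj (ρ k) r'))
    (H : TT G K ρ D i j r r') : TT G K ρ D i j r' r := by
  by_cases h : ∀ q, ¬ ((HG G o F).Adj q r ∧ (HG G o F).Adj q r')
  · exact swap_main hΔ hna ht hS hOE hF hadj h hij hρ H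
  push Not at h
  obtain ⟨q, h1, h2⟩ := h
  have hq : ∀ k, k ≠ i → k ≠ j → ρ k ≠ q := fun k k1 k2 e => hno k k1 k2 (e ▸ ⟨h1, h2⟩)
  have e1 := hadj.ne
  have e2 := h1.ne
  have e3 := h2.ne
  refine TT.mv hF hij h2 ⟨hadj.1, by simp [e1, e2.symm]⟩ (fun k k1 k2 => ⟨(hρ k k1 k2).1, ?_⟩)
    (TT.mv hF hij.symm hadj.symm ⟨h1.1, by simp [e2, e3]⟩ (fun k k1 k2 => ?_)
      (TT.mv hF hij h1.symm ⟨hadj.2.1, by simp [e1.symm, e3.symm]⟩
        (fun k k1 k2 => ⟨(hρ k k1 k2).1, ?_⟩) H).symm).symm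
  · rintro (e | e)
    exacts [hq k k1 k2 e, (hρ k k1 k2).2 (Or.inr e)]
  · rw [Set.pair_comm]
    exact hρ k k2 k1
  · rintro (e | e)
    exacts [(hρ k k1 k2).2 (Or.inl e), hq k k1 k2 e]

omit [Finite ι] in
theorem infinite_of_not_amenable (hna : ¬ Amenable G) : Infinite V := by
  by_contra hcon
  have : Finite V := not_infinite_iff_finite.1 hcon
  have := Fintype.ofFinite V
  obtain ⟨o⟩ := (Fact.out : G.Connected).nonempty
  exact hna fun ε hε => ⟨Finset.univ, ⟨o, by simp⟩, by simp; positivity⟩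

omit [Finite ι] in
theorem fatCl_of_switch (hna : ¬ Amenable G) (ht : VT G) (hS : Switch G K) {o : V}
    (hOE : ∀ α β, IsR G α → IsR G β → AdjI G o ∅ α β) (h : ℕ) : FatCl G K h := by
  classical
  have hΔ : ∀ v, G.degree v ≤ G.degree o := fun v => (degree_eq ht v o).le
  have := infinite_of_not_amenable hna
  set N := (h + 1) ^ (h + 1) + 1 with hN
  obtain ⟨T, hT⟩ := multi_escape hΔ hna (ι := Fin N) N 0 0
  choose y hy using fun k => exists_dist_eq (G := G) o k
  obtain ⟨g, hg⟩ := hT Finset.univ (fun k => y (T * k)) (fun _ => ∅) (by simp)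
    (fun _ _ => thin_empty _) (by simp) (by
      intro a _ b _ hab
      have e1 := tri (G := G) o (y (T * a)) (y (T * b))
      have e2 := tri (G := G) o (y (T * b)) (y (T * a))
      rw [hy, hy] at e1 e2
      rw [dcomm] at e2
      rcases lt_or_gt_of_ne (Fin.val_ne_of_ne hab) with h | h
      · nlinarith
      · nlinarith)
  replace hg := fun a => hg a (Finset.mem_univ a)
  have g4 : ∀ a b, a ≠ b → Div G (g a) (g b) := fun a b h => ((hg a).2.2.2.2 b (by simp) h).2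
  have hinj : Function.Injective g := fun a b e => by_contra fun h => (g4 a b h).ne e
  have hF : Fam G (Set.range g) := by
    refine ⟨Set.finite_range g, ?_, ?_⟩
    · rintro _ ⟨a, rfl⟩
      exact (hg a).1
    · rintro _ ⟨a, rfl⟩ _ ⟨b, rfl⟩ hne
      exact g4 a b fun e => hne (e ▸ rfl)
  set J := (HG G o (Set.range g)).comap g with hJ
  have : Nonempty (Fin N) := ⟨⟨0, by omega⟩⟩
  have : Fact J.Connected := ⟨⟨fun a b => hF.reach (O := ∅) hinj (by simp) (fun γ h _ => h)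
    (hOE _ _ (hg a).1 (hg b).1)⟩⟩
  let _ : J.LocallyFinite := fun v => Fintype.ofFinite _
  by_cases hdeg : ∃ v, h ≤ J.degree v
  · obtain ⟨v, hv⟩ := hdeg
    obtain ⟨e, he⟩ := Function.Embedding.exists_of_card_le_finset (α := Fin h)
      (s := J.neighborFinset v) (by simpa using hv)
    have ha : ∀ k, J.Adj v (e k) := fun k => by simpa using he ⟨k, rfl⟩
    refine fatCl_of_adj (ρ := fun k => g (e k)) (o := o) K (fun k => (hg _).1)
      (fun i j hij => g4 _ _ (e.injective.ne hij)) fun i j hij => ?_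
    refine AdjI.trans (x := g v) ((ha i).symm.2.2.2.mono ?_) ((ha j).2.2.2.mono ?_) (hg v).1
      ((Set.finite_range fun k => g (e k)).subset ?_) ?_
    · rintro _ ⟨k, k1, k2, rfl⟩
      exact ⟨⟨_, rfl⟩, by
        rintro (e1 | e1)
        exacts [k1 (e.injective (hinj e1)), (ha k).ne' (hinj e1)]⟩
    · rintro _ ⟨k, k1, k2, rfl⟩
      exact ⟨⟨_, rfl⟩, by
        rintro (e1 | e1)
        exacts [(ha k).ne' (hinj e1), k2 (e.injective (hinj e1))]⟩
    · rintro _ ⟨k, -, -, rfl⟩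
      exact ⟨k, rfl⟩
    · rintro _ ⟨k, -, -, rfl⟩
      exact g4 _ _ (ha k).ne
  push Not at hdeg
  obtain ⟨v⟩ := ‹Nonempty (Fin N)›
  obtain ⟨w, hw⟩ : ∃ w, w ∉ ball J v (h + 1) := by
    by_contra hcon
    push Not at hcon
    have e1 := card_ball_le (fun v => (hdeg v).le) v (h + 1)
    rw [Finset.eq_univ_of_forall hcon, Finset.card_univ, Fintype.card_fin] at e1
    omega
  rw [mem_ball, not_le] at hw
  obtain ⟨q, -, -, hq⟩ := exists_geo' (G := J) v w
  have hq' : ∀ a b : Fin (h + 2), J.dist (q a) (q b) = (a - b : ℕ) + (b - a : ℕ) := by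
    intro a b
    rcases le_total (a : ℕ) b with h1 | h1
    · rw [hq _ _ h1 (by omega)]; omega
    · rw [dcomm, hq _ _ h1 (by omega)]; omega
  have hne : ∀ {a b : Fin (h + 2)}, a ≠ b → g (q a) ≠ g (q b) := fun {a b} hab e => by
    have e1 := hq' a b
    rw [hinj e, SimpleGraph.dist_self] at e1
    exact hab (Fin.ext (by omega))
  have hadj : ∀ k : Fin (h + 1), J.Adj (q k.castSucc) (q k.succ) := fun k =>
    dist_eq_one_iff_adj.1 (by rw [hq']; simp)
  have hfc : FatCl G K (h + 2) := by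
    refine fatCl_of_swap (r := fun k => g (q k)) (o := o) K (fun k => (hg _).1)
      (fun i j hij => hF.div _ ⟨_, rfl⟩ _ ⟨_, rfl⟩ (hne hij)) ((hadj 0).2.2.2.mono ?_)
      fun D π k H => ?_
    · rintro _ ⟨k, k1, k2, rfl⟩
      exact ⟨⟨_, rfl⟩, by
        rintro (e1 | e1)
        exacts [hne k1 e1, hne (b := Fin.succ 0) k2 e1]⟩
    · have hij : π.symm k.castSucc ≠ π.symm k.succ := π.symm.injective.ne k.castSucc_lt_succ.ne
      have n1 : ∀ {l}, l ≠ π.symm k.castSucc → π l ≠ k.castSucc := fun h e => h (by simp [← e])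
      have n2 : ∀ {l}, l ≠ π.symm k.succ → π l ≠ k.succ := fun h e => h (by simp [← e])
      refine swap_any (ρ := fun l => g (q (π l))) hΔ hna ht hS hOE hF (hadj k) hij
        (fun l l1 l2 => ⟨⟨_, rfl⟩, by
          rintro (e | e)
          exacts [hne (n1 l1) e, hne (n2 l2) e]⟩) (fun l l1 l2 ⟨e1, e2⟩ => ?_)
        (fun ρ' e1 e2 e3 => ?_) _ (by simp) (by simp) fun l l1 l2 => ?_
      · have e3 := dist_adj (G := J) e1
        have e4 := dist_adj (G := J) e2
        rw [hq'] at e3 e4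
        have e5 := Fin.val_ne_of_ne (n1 l1)
        have e6 := Fin.val_ne_of_ne (n2 l2)
        simp only [Fin.val_castSucc, Fin.val_succ] at e3 e4 e5 e6
        omega
      · convert H using 1
        funext l
        by_cases l1 : l = π.symm k.castSucc
        · rw [l1, e1]; simp
        by_cases l2 : l = π.symm k.succ
        · rw [l2, e2]; simp
        · exact e3 l l1 l2
      · simp only [Equiv.Perm.mul_apply, Equiv.swap_apply_of_ne_of_ne (n1 l1) (n2 l2)]
  obtain ⟨I, B, E, h1, h2⟩ := hfc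
  exact ⟨I, B, E, by omega, h2⟩

end Pool.Agent.MP_77f003_co.H49
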