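import Pool.Agent.MP_77f003_co.H49.Switch
import Pool.Agent.MP_77f003_co.H49.Line

/-!
Two sources of crossing gadgets: four rays all of whose pairings are linked, and geodesics with
thin detours.
-/

namespace Pool.Agent.MP_77f003_co.H49

open SimpleGraph Filter

variable {V : Type} {G : SimpleGraph V} {K : ℕ}

/-- The rays `a, b` and `c, d` are linked far from each other. -/
def Lnk (G : SimpleGraph V) (K : ℕ) (a b c d : ℕ → V) : Prop :=
  ∃ (L L' : Set V) (m1 m2 m3 m4 : ℕ), L.Finite ∧ L'.Finite ∧ Lk G L (a m1) (b m2) ∧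
    Lk G L' (c m3) (d m4) ∧ Far G K (L ∪ a '' Set.Ici m1 ∪ b '' Set.Ici m2)
      (L' ∪ c '' Set.Ici m3 ∪ d '' Set.Ici m4)

theorem Lnk.s1 {a b c d : ℕ → V} (h : Lnk G K a b c d) : Lnk G K b a c d := by
  obtain ⟨L, L', m1, m2, m3, m4, h1, h2, h3, h4, h5⟩ := h
  exact ⟨L, L', m2, m1, m3, m4, h1, h2, h3.symm, h4, by rwa [Set.union_right_comm]⟩

theorem Lnk.s2 {a b c d : ℕ → V} (h : Lnk G K a b c d) : Lnk G K c d a b := by
  obtain ⟨L, L', m1, m2, m3, m4, h1, h2, h3, h4, h5⟩ := h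
  exact ⟨L', L, m3, m4, m1, m2, h2, h1, h4, h3, h5.symm⟩

/-- A geodesic of length `n`. -/
def Geo (G : SimpleGraph V) (p : ℕ → V) (n : ℕ) : Prop :=
  ∀ a b, a ≤ b → b ≤ n → G.dist (p a) (p b) = b - a

/-- Every thin set linking the ends of a geodesic comes close to each of its points. -/
def Slim (G : SimpleGraph V) (A δ : ℕ) : Prop :=
  ∀ (p : ℕ → V) (n : ℕ) (R : Set V), Geo G p n → R.Finite → (∀ x, Thin G A x R) →
    Lk G R (p 0) (p n) → ∀ i, i ≤ n → ∃ z ∈ R, G.dist (p i) z ≤ δ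

variable [Fact G.Connected]

theorem lnk_of_adj {o : V} {a b c d : ℕ → V} (ha : IsR G a) (hb : IsR G b) (h1 : Div G a c)
    (h2 : Div G a d) (h3 : Div G b c) (h4 : Div G b d) (h5 : AdjI G o ∅ c d)
    (h6 : AdjI G o {c, d} a b) : Lnk G K a b c d := by
  obtain ⟨m3, m4, l⟩ := h5 0
  obtain ⟨L', q1, -, q3, q4⟩ := l.fin
  obtain ⟨t, t1, t2⟩ := ((far_of_bound (G := G) (o := o) q1 K).and (eventually_ge_atTop K)).exists
  obtain ⟨N, hN⟩ := eventually_atTop.1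
    ((tail_safe o ha (O := {c, d}) (Set.toFinite _) (by simp [h1, h2]) t).and
      (tail_safe o hb (O := {c, d}) (Set.toFinite _) (by simp [h3, h4]) t))
  obtain ⟨s, ⟨s1, s2⟩, s3⟩ := (((ha.idx o N).and (hb.idx o N)).and (eventually_ge_atTop t)).exists
  obtain ⟨m1, m2, l'⟩ := h6 s
  obtain ⟨L, p1, p2, p3, p4⟩ := l'.fin
  refine ⟨L, L', m1, m2, m3, m4, p1, q1, p4 _ p3, q4 _ q3,
    Far.mono (S := Safe G o t {c, d}) (((t1 _).symm.union' ?_).union' ?_) ?_ le_rfl⟩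
  · rintro x hx _ ⟨k, -, rfl⟩
    exact t2.trans (hx.2 c (by simp) k)
  · rintro x hx _ ⟨k, -, rfl⟩
    exact t2.trans (hx.2 d (by simp) k)
  · rintro x ((hx | ⟨k, hk, rfl⟩) | ⟨k, hk, rfl⟩)
    · exact Safe.mono s3 le_rfl (p2 hx)
    · exact (hN k ((s1 _ l'.left.1).trans hk)).1
    · exact (hN k ((s2 _ l'.right.1).trans hk)).2

theorem Lnk.ev {ρ : Fin 4 → ℕ → V} (hρ : ∀ a, IsR G (ρ a)) {a b c d : Fin 4} (e1 : a ≠ c)
    (e2 : a ≠ d) (e3 : b ≠ c) (e4 : b ≠ d) (h : Lnk G K (ρ a) (ρ b) (ρ c) (ρ d)) :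
    ∃ Z : Set V, Z.Finite ∧ ∀ Z', Z ⊆ Z' → ∀ᶠ N in atTop, Pair G K (fun a => ρ a N)
      (fun a => Z' ∪ ⋃ b ∈ {b | b ≠ a}, ρ b '' Set.Iic N) a b c d := by
  obtain ⟨L, L', m1, m2, m3, m4, h1, h2, h3, h4, h5⟩ := h
  refine ⟨L ∪ L', h1.union h2, fun Z' hZ => ?_⟩
  have hlk : ∀ {x y : Fin 4} {X : Set V} {m m' N : ℕ}, Lk G X (ρ x m) (ρ y m') →
      m ≤ N → m' ≤ N → Lk G (X ∪ ρ x '' Set.Icc m N ∪ ρ y '' Set.Icc m' N) (ρ x N) (ρ y N) :=
    fun h k1 k2 => (((hρ _).lk fun k l1 l2 => Or.inl (Or.inr ⟨k, ⟨by omega, by omega⟩, rfl⟩)).trans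
      (h.mono fun z hz => Or.inl (Or.inl hz))).trans
      ((hρ _).lk fun k l1 l2 => Or.inr ⟨k, ⟨by omega, by omega⟩, rfl⟩)
  have hs1 : ∀ {x y : Fin 4} {X : Set V} {m m' N : ℕ},
      X ∪ ρ x '' Set.Icc m N ∪ ρ y '' Set.Icc m' N ⊆ X ∪ ρ x '' Set.Ici m ∪ ρ y '' Set.Ici m' := by
    intro x y X m m' N
    exact Set.union_subset_union (Set.union_subset_union le_rfl
      (Set.image_mono Set.Icc_subset_Ici_self)) (Set.image_mono Set.Icc_subset_Ici_self)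
  have hs2 : ∀ {x y z : Fin 4} {X : Set V} {m m' N : ℕ}, X ⊆ Z' → x ≠ z → y ≠ z →
      X ∪ ρ x '' Set.Icc m N ∪ ρ y '' Set.Icc m' N ⊆
        Z' ∪ ⋃ b ∈ {b | b ≠ z}, ρ b '' Set.Iic N := by
    rintro x y z X m m' N k1 k2 k3 w ((hw | ⟨k, hk, rfl⟩) | ⟨k, hk, rfl⟩)
    · exact Or.inl (k1 hw)
    · exact Or.inr (Set.mem_biUnion (x := x) k2 ⟨k, hk.2, rfl⟩)
    · exact Or.inr (Set.mem_biUnion (x := y) k3 ⟨k, hk.2, rfl⟩)
  have z1 : L ⊆ Z' := Set.subset_union_left.trans hZ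
  have z2 : L' ⊆ Z' := Set.subset_union_right.trans hZ
  filter_upwards [eventually_ge_atTop (m1 + m2 + m3 + m4)] with N hN
  exact ⟨_, _, hlk h3 (by omega) (by omega), hlk h4 (by omega) (by omega), h5.mono hs1 hs1,
    hs2 z1 e1 e3, hs2 z1 e2 e4, hs2 z2 e1.symm e2.symm, hs2 z2 e3.symm e4.symm⟩

theorem switch_of_rays {ρ : Fin 4 → ℕ → V} (hρ : ∀ a, IsR G (ρ a))
    (hd : ∀ a b, a ≠ b → Div G (ρ a) (ρ b)) (h1 : Lnk G K (ρ 0) (ρ 1) (ρ 2) (ρ 3))
    (h2 : Lnk G K (ρ 0) (ρ 2) (ρ 1) (ρ 3)) (h3 : Lnk G K (ρ 0) (ρ 3) (ρ 1) (ρ 2)) :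
    Switch G K := by
  obtain ⟨Z1, f1, k1⟩ := h1.ev hρ (by decide) (by decide) (by decide) (by decide)
  obtain ⟨Z2, f2, k2⟩ := h2.ev hρ (by decide) (by decide) (by decide) (by decide)
  obtain ⟨Z3, f3, k3⟩ := h3.ev hρ (by decide) (by decide) (by decide) (by decide)
  obtain ⟨Z, hZ⟩ := ((f1.union f2).union f3).exists_finset_coe
  obtain ⟨B, hB⟩ := thin_rays (G := G) (Set.finite_range ρ) (by rintro _ ⟨a, rfl⟩; exact hρ a)
  refine ⟨1 + B, fun T => ?_⟩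
  have e1 : ∀ᶠ N in atTop, ∀ a, ∀ z ∈ Z, T + Z.card ≤ G.dist z (ρ a N) :=
    eventually_all.2 fun a => (eventually_all_finset Z).2 fun z _ => (hρ a).proper z _
  have e2 : ∀ᶠ N in atTop, ∀ a b, a ≠ b → ∀ m, T ≤ G.dist (ρ a N) (ρ b m) :=
    eventually_all.2 fun a => eventually_all.2 fun b => by
      by_cases h : a = b
      · exact Eventually.of_forall fun _ h' => absurd h h'
      · exact (hd a b h T).mono fun _ h' _ => h'
  obtain ⟨N, ⟨n1, n2⟩, n3, n4, n5⟩ := ((e1.and e2).and ((k1 Z (by rw [hZ]; intro; simp; tauto)).and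
    ((k2 Z (by rw [hZ]; intro; simp; tauto)).and (k3 Z (by rw [hZ]; intro; simp; tauto))))).exists
  refine ⟨_, _, fun a => ⟨Z.finite_toSet.union ((Set.toFinite _).biUnion fun b _ =>
    (Set.finite_Iic N).image _), (thin_far fun z hz => ?_).union ((hB _).mono ?_ le_rfl), ?_⟩,
    n3, n4, n5⟩
  · have := n1 a z hz
    rw [dcomm]
    omega
  · intro w hw
    simp only [Set.mem_iUnion] at hw
    obtain ⟨b, -, k, -, rfl⟩ := hw
    exact Set.mem_biUnion (Set.mem_range_self b) ⟨k, rfl⟩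
  · rintro z (hz | hz)
    · have := n1 a z hz
      rw [dcomm]
      omega
    · simp only [Set.mem_iUnion] at hz
      obtain ⟨b, hb, k, -, rfl⟩ := hz
      exact n2 a b (Ne.symm hb) k

theorem Geo.thin {p : ℕ → V} {n : ℕ} (h : Geo G p n) (x : V) : Thin G 5 x (p '' Set.Iic n) := by
  refine thin_param (a := 1) p (fun n => (n : ℤ)) _ Nat.cast_injective (fun i hi j hj => ?_) x
  rcases le_total i j with hij | hij
  · rw [h i j hij hj]
    omega
  · rw [dcomm, h j i hij hi]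
    omega

theorem Geo.lk {p : ℕ → V} {n : ℕ} (h : Geo G p n) {S : Set V} {i j : ℕ} (hij : i ≤ j) (hj : j ≤ n)
    (hS : ∀ k, i ≤ k → k ≤ j → p k ∈ S) : Lk G S (p i) (p j) := by
  obtain ⟨d, rfl⟩ := Nat.exists_eq_add_of_le hij
  exact Lk.seq (g := fun k => p (i + k)) (hS _ (by omega) (by omega)) fun k hk =>
    Lk.near (by rw [h _ _ (by omega) (by omega)]; omega) (hS _ (by omega) (by omega))
      (hS _ (by omega) (by omega))

theorem exists_seg (x y : V) : ∃ W : Set V, W.Finite ∧ (∀ z, Thin G 5 z W) ∧ Lk G W x y ∧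
    ∀ w ∈ W, G.dist x w + G.dist w y = G.dist x y := by
  obtain ⟨q, q0, q1, q2⟩ := exists_geo' (G := G) x y
  refine ⟨q '' Set.Iic (G.dist x y), (Set.finite_Iic _).image _, Geo.thin q2, ?_, ?_⟩
  · have := Geo.lk q2 (S := q '' Set.Iic (G.dist x y)) (Nat.zero_le _) le_rfl
      fun k _ hk => ⟨k, hk, rfl⟩
    rwa [q0, q1] at this
  · rintro _ ⟨k, hk, rfl⟩
    have e1 := q2 0 k (Nat.zero_le _) hk
    have e2 := q2 k _ hk le_rfl
    rw [q0] at e1
    rw [q1] at e2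
    have : k ≤ G.dist x y := hk
    omega

theorem IsLine.seg {l : ℤ → V} (h : IsLine G l) {a b : ℤ} (hab : a ≤ b) :
    Lk G (l '' Set.Icc a b) (l a) (l b) := by
  have := Lk.seq (G := G) (S := l '' Set.Icc a b) (g := fun m : ℕ => l (a + m)) (n := (b - a).toNat)
    ⟨_, ⟨by simp, by simpa using hab⟩, rfl⟩ fun i hi => Lk.adj
      (dist_eq_one_iff_adj.1 (by rw [h]; omega)) ⟨_, ⟨by omega, by omega⟩, rfl⟩
      ⟨_, ⟨by omega, by omega⟩, rfl⟩
  simp only [Nat.cast_zero, add_zero] at this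
  rwa [show a + ((b - a).toNat : ℤ) = b by omega] at this

variable [G.LocallyFinite]

theorem switch_of_pre {Δ : ℕ} (hΔ : ∀ v, G.degree v ≤ Δ) (hna : ¬ Amenable G) {A : ℕ}
    (h : ∀ τ, ∃ (c : Fin 4 → V) (S : Set V), S.Finite ∧ (∀ x, Thin G A x S) ∧
      Pair G τ c (fun _ => S) 0 1 2 3 ∧ Pair G τ c (fun _ => S) 0 2 1 3 ∧
      Pair G τ c (fun _ => S) 0 3 1 2) : Switch G K := by
  classical
  refine ⟨A + 4 * 5, fun T => ?_⟩
  obtain ⟨R, hR⟩ := exists_whisker hΔ hna A T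
  obtain ⟨c, S, h1, h2, h3, h4, h5⟩ := h (K + T + 2 * R)
  choose y y1 y2 using fun a => hR (c a) S (h2 _)
  choose W w1 w2 w3 w4 using fun a => exists_seg (G := G) (c a) (y a)
  have w5 : ∀ a, ∀ w ∈ W a, G.dist (c a) w ≤ R := fun a w hw => by
    have := w4 a w hw
    have := y1 a
    omega
  have hP := all_pairs (P := Pair G _ c fun _ => S) Pair.s1 Pair.s2 h3 h4 h5
  have key : ∀ {a b a' b' : Fin 4}, a ≠ a' → a ≠ b' → b ≠ a' → b ≠ b' →
      Pair G (K + T + 2 * R) c (fun _ => S) a b a' b' →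
      Pair G K y (fun a => S ∪ ⋃ b ∈ {b | b ≠ a}, W b) a b a' b' := by
    rintro a b a' b' e1 e2 e3 e4 ⟨L, L', l1, l2, l3, l4, -, l5, -⟩
    have hlk : ∀ {x z : Fin 4} {X : Set V}, Lk G X (c x) (c z) →
        Lk G (X ∪ W x ∪ W z) (y x) (y z) := fun h =>
      (((w3 _).symm.mono fun _ h => Or.inl (Or.inr h)).trans
        (h.mono fun _ h => Or.inl (Or.inl h))).trans ((w3 _).mono Set.subset_union_right)
    have hnear : ∀ {x z : Fin 4} {X : Set V}, Lk G X (c x) (c z) →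
        ∀ w ∈ X ∪ W x ∪ W z, ∃ v ∈ X, G.dist v w ≤ R := by
      rintro x z X h w ((hw | hw) | hw)
      exacts [⟨w, hw, by simp⟩, ⟨_, h.left, w5 _ w hw⟩, ⟨_, h.right, w5 _ w hw⟩]
    have hs : ∀ {x z u : Fin 4} {X : Set V}, X ⊆ S → x ≠ u → z ≠ u →
        X ∪ W x ∪ W z ⊆ S ∪ ⋃ b ∈ {b | b ≠ u}, W b := by
      rintro x z u X k1 k2 k3 w ((hw | hw) | hw)
      exacts [Or.inl (k1 hw), Or.inr (Set.mem_biUnion (x := x) k2 hw),
        Or.inr (Set.mem_biUnion (x := z) k3 hw)]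
    refine ⟨_, _, hlk l1, hlk l2, fun w hw w' hw' => ?_, hs l4 e1 e3, hs l4 e2 e4,
      hs l5 e1.symm e2.symm, hs l5 e3.symm e4.symm⟩
    obtain ⟨v, v1, v2⟩ := hnear l1 w hw
    obtain ⟨v', v3, v4⟩ := hnear l2 w' hw'
    have k1 := l3 v v1 v' v3
    have k2 := tri (G := G) v w v'
    have k3 := tri (G := G) w w' v'
    rw [dcomm] at v4
    omega
  refine ⟨y, _, fun a => ⟨h1.union ((Set.toFinite _).biUnion fun b _ => w1 b),
    (h2 _).union ((thin_biUnion Finset.univ fun b _ => w2 b (y a)).mono ?_ (by simp)), ?_⟩,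
    key (by decide) (by decide) (by decide) (by decide) h3,
    key (by decide) (by decide) (by decide) (by decide) h4,
    key (by decide) (by decide) (by decide) (by decide) h5⟩
  · intro w hw
    simp only [Set.mem_iUnion] at hw ⊢
    obtain ⟨b, -, hb⟩ := hw
    exact ⟨b, by simp, hb⟩
  · rintro z (hz | hz)
    · exact (y2 a z hz).le
    · simp only [Set.mem_iUnion] at hz
      obtain ⟨b, hb, hz⟩ := hz
      obtain ⟨u, v, k⟩ := (by decide : ∀ a b : Fin 4, b ≠ a →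
        ∃ u v, a ≠ u ∧ a ≠ v ∧ u ≠ b ∧ u ≠ v ∧ b ≠ v) a b hb
      obtain ⟨L, L', l1, l2, l3, -⟩ := hP a u b v k.1 (Ne.symm hb) k.2.1 k.2.2.1 k.2.2.2.1 k.2.2.2.2
      have k1 := l3 _ l1.left _ l2.left
      have k2 := y1 a
      have k3 := w5 b z hz
      have k4 := tri (G := G) (c a) (y a) (c b)
      have k5 := tri (G := G) (y a) z (c b)
      rw [dcomm] at k3
      omega

theorem switch_of_detour {Δ : ℕ} (hΔ : ∀ v, G.degree v ≤ Δ) (hna : ¬ Amenable G) {l : ℤ → V}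
    (hl : IsLine G l) {A : ℕ} (h : ∀ ρ : ℕ, ∃ R : Set V, R.Finite ∧ (∀ x, Thin G A x R) ∧
      Lk G R (l (-ρ)) (l ρ) ∧ ∀ z ∈ R, ρ ≤ G.dist (l 0) z) : Switch G K := by
  refine switch_of_pre hΔ hna (A := 5 + A + A + 5 + 5) fun τ => ?_
  wlog hτ : 1 ≤ τ generalizing τ
  · obtain ⟨c, S, h1, h2, h3⟩ := this 1 le_rfl
    have : ∀ {a b a' b'}, Pair G 1 c (fun _ => S) a b a' b' → Pair G τ c (fun _ => S) a b a' b' :=
      fun ⟨L, L', l1, l2, _, l4⟩ => ⟨L, L', l1, l2, fun _ _ _ _ => by omega, l4⟩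
    exact ⟨c, S, h1, h2, this h3.1, this h3.2.1, this h3.2.2⟩
  obtain ⟨R1, a1, a2, a3, a4⟩ := h (10 * τ)
  obtain ⟨y, ⟨v, ⟨q, hq0, hq⟩, hvy⟩, y1⟩ := a3.symm.exit
    (T := {z | ∃ i : ℤ, 0 ≤ i ∧ G.dist z (l i) < 4 * τ})
    ⟨_, Int.natCast_nonneg _, by rw [SimpleGraph.dist_self]; omega⟩
    (by rintro ⟨i, h1, h2⟩; rw [hl] at h2; omega)
  have hU : ∀ z ∈ R1 \ {z | ∃ i : ℤ, 0 ≤ i ∧ G.dist z (l i) < 4 * τ}, ∀ i : ℤ, 0 ≤ i →
      4 * τ ≤ G.dist z (l i) := fun z hz i hi => not_lt.1 fun h => hz.2 ⟨i, hi, h⟩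
  have y2 : G.dist (l q) y = 4 * τ := by
    have e1 := hU y y1.left q hq0
    have e2 := tri (G := G) y v (l q)
    rw [dist_adj hvy.symm] at e2
    rw [dcomm]
    omega
  have hq6 : 6 * (τ : ℤ) ≤ q := by
    have e1 := a4 y y1.left.1
    have e2 := tri (G := G) (l 0) (l q) y
    rw [hl] at e2
    omega
  obtain ⟨β, b0, b1, b2⟩ := exists_geo' (G := G) (l q) y
  rw [y2] at b1 b2
  have b3 : G.dist (l q) (β (2 * τ)) = 2 * τ := by rw [← b0, b2 _ _ (by omega) (by omega)]; omega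
  have b4 : G.dist (β (2 * τ)) y = 2 * τ := by rw [← b1, b2 _ _ (by omega) (by omega)]; omega
  obtain ⟨W1, c1, c2, c3, c4⟩ := exists_seg (G := G) (l q) (β (2 * τ))
  obtain ⟨W2, d1, d2, d3, d4⟩ := exists_seg (G := G) (β (2 * τ)) y
  obtain ⟨ρ, hρ⟩ : ∃ ρ : ℕ, (ρ : ℤ) = q + 8 * τ := ⟨(q + 8 * τ).toNat, by omega⟩
  obtain ⟨R2, f1, f2, f3, f4⟩ := h ρ
  have hthin : ∀ x, Thin G 5 x (l '' Set.Icc (-ρ) ρ) := fun x =>
    thin_param (a := 1) l id _ Function.injective_id (fun i _ j _ => by rw [hl]; simp) x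
  have hsub : ∀ {a b : ℤ}, -ρ ≤ a → b ≤ ρ →
      l '' Set.Icc a b ⊆ l '' Set.Icc (-ρ) ρ ∪ R1 ∪ R2 ∪ W1 ∪ W2 := fun h1 h2 _ hz =>
    Or.inl (Or.inl (Or.inl (Or.inl (Set.image_mono (Set.Icc_subset_Icc h1 h2) hz))))
  have s1 : W1 ⊆ l '' Set.Icc (-ρ) ρ ∪ R1 ∪ R2 ∪ W1 ∪ W2 := fun _ h => Or.inl (Or.inr h)
  have s2 : W2 ⊆ l '' Set.Icc (-ρ) ρ ∪ R1 ∪ R2 ∪ W1 ∪ W2 := fun _ h => Or.inr h
  have s3 : R2 ⊆ l '' Set.Icc (-ρ) ρ ∪ R1 ∪ R2 ∪ W1 ∪ W2 := fun _ h => Or.inl (Or.inl (Or.inr h))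
  have s4 : R1 \ {z | ∃ i : ℤ, 0 ≤ i ∧ G.dist z (l i) < 4 * τ} ⊆
      l '' Set.Icc (-ρ) ρ ∪ R1 ∪ R2 ∪ W1 ∪ W2 := fun _ h => Or.inl (Or.inl (Or.inl (Or.inr h.1)))
  have ll : ∀ {a b a' b' : ℤ}, b + τ ≤ a' →
      Far G τ (l '' Set.Icc a b) (l '' Set.Icc a' b') := by
    rintro a b a' b' h _ ⟨i, hi, rfl⟩ _ ⟨j, hj, rfl⟩
    have := hi.2
    have := hj.1
    rw [hl]
    omega
  have lw : ∀ {a b : ℤ}, b + 3 * τ ≤ q → Far G τ (l '' Set.Icc a b) W1 := by
    rintro a b h _ ⟨i, hi, rfl⟩ w hw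
    have e1 := c4 w hw
    have e2 := tri (G := G) (l i) w (l q)
    have := hi.2
    rw [hl, dcomm w] at e2
    omega
  have m1 := Set.union_subset (hsub (a := q) (b := q + 2 * τ) (by omega) (by omega)) s1
  have m2 := Set.union_subset (Set.union_subset (hsub (a := -ρ) (b := -τ) (by omega) (by omega)) s3)
    (hsub (a := q + 2 * τ) (b := ρ) (by omega) (by omega))
  have m3 := Set.union_subset (hsub (a := τ) (b := q) (by omega) (by omega)) s1
  have m4 := Set.union_subset (Set.union_subset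
    (hsub (a := -(10 * τ : ℕ)) (b := -τ) (by omega) (by omega)) s4) s2
  have m5 := hsub (a := -τ) (b := τ) (by omega) (by omega)
  have m6 := hsub (a := τ) (b := q + 2 * τ) (by omega) (by omega)
  refine ⟨![l (-τ), l τ, l (q + 2 * τ), β (2 * τ)], l '' Set.Icc (-ρ) ρ ∪ R1 ∪ R2 ∪ W1 ∪ W2,
    (((((Set.finite_Icc _ _).image _).union a1).union f1).union c1).union d1,
    fun x => ((((hthin x).union (a2 x)).union (f2 x)).union (c2 x)).union (d2 x),
    ⟨_, _, hl.seg (by omega), ?_, (ll (by omega)).union' (lw (by omega)), m5, m5, m1, m1⟩,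
    ⟨_, _, ?_, ?_, ?_, m2, m2, m3, m3⟩, ⟨_, _, ?_, hl.seg (by omega), ?_, m4, m4, m6, m6⟩⟩
  · exact ((hl.seg (by omega)).symm.mono Set.subset_union_left).trans
      (c3.mono Set.subset_union_right)
  · exact (((hl.seg (by omega)).symm.mono fun _ h => Or.inl (Or.inl h)).trans
      (f3.mono fun _ h => Or.inl (Or.inr h))).trans
      ((hl.seg (by omega)).symm.mono Set.subset_union_right)
  · exact ((hl.seg (by omega)).mono Set.subset_union_left).trans (c3.mono Set.subset_union_right)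
  · refine (((ll (by omega)).union' (lw (by omega))).union (Far.union' ?_ ?_)).union
      ((ll (by omega)).symm.union' ?_)
    · rintro z hz _ ⟨i, hi, rfl⟩
      have e1 := f4 z hz
      have e2 := tri (G := G) (l 0) (l i) z
      have := hi.1
      have := hi.2
      rw [hl, dcomm (l i)] at e2
      omega
    · rintro z hz w hw
      have e1 := f4 z hz
      have e2 := tri (G := G) (l 0) (l q) z
      have e3 := tri (G := G) (l q) w z
      have e4 := c4 w hw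
      rw [hl] at e2
      rw [dcomm w] at e3
      omega
    · rintro _ ⟨i, hi, rfl⟩ w hw
      have := hi.1
      have e1 := c4 w hw
      have e2 := tri (G := G) (l i) w (l q)
      have e3 := hU y y1.left i (by omega)
      have e4 := tri (G := G) y w (l i)
      have e5 := tri (G := G) w (β (2 * τ)) y
      rw [hl, dcomm w] at e2
      rw [dcomm y w, dcomm w (l i)] at e4
      omega
  · exact (((hl.seg (by omega)).symm.mono fun _ h => Or.inl (Or.inl h)).trans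
      (y1.symm.mono fun _ h => Or.inl (Or.inr h))).trans (d3.symm.mono Set.subset_union_right)
  · refine ((ll (by omega)).union ?_).union ?_
    · rintro z hz _ ⟨i, hi, rfl⟩
      have := hi.1
      have := hU z hz i (by omega)
      omega
    · rintro w hw _ ⟨i, hi, rfl⟩
      have := hi.1
      have e1 := d4 w hw
      have e3 := hU y y1.left i (by omega)
      have e4 := tri (G := G) y w (l i)
      rw [dcomm y w] at e4
      omega

theorem exists_slim (hna : ¬ Amenable G) (ht : VT G) (hS : ¬ Switch G K) (A : ℕ) :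
    ∃ δ, Slim G A δ := by
  by_contra hcon
  unfold Slim at hcon
  push Not at hcon
  obtain ⟨o⟩ := (Fact.out : G.Connected).nonempty
  choose p n R h1 h2 h3 h4 i h5 h6 using hcon
  choose φ hφ using fun M => ht (p M (i M)) o
  have k1 : ∀ M, M < i M := fun M => by
    have := h6 M _ (h4 M).left
    rw [dcomm, h1 M _ _ (Nat.zero_le _) (h5 M)] at this
    omega
  have k2 : ∀ M, M + i M < n M := fun M => by
    have := h6 M _ (h4 M).right
    rw [h1 M _ _ (h5 M) le_rfl] at this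
    omega
  obtain ⟨L, hL, hL'⟩ := limit_line (G := G) o (fun M k => φ M (p M (i M + k).toNat))
    (fun M => by simpa using hφ M) fun M a b ha hb => by
      have := k1 M
      have := k2 M
      rw [dist_iso]
      rcases le_total a b with h | h
      · rw [h1 M _ _ (by omega) (by omega)]
        omega
      · rw [dcomm, h1 M _ _ (by omega) (by omega)]
        omega
  refine hS (switch_of_detour (fun v => (degree_eq ht v o).le) hna hL (A := 5 + A) fun ρ => ?_)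
  obtain ⟨M, ⟨e1, e2⟩, e3, e4⟩ := (((hL' (-ρ)).and (hL' ρ)).and ((hL' 0).and
    (Nat.hyperfilter_le_atTop (eventually_ge_atTop ρ)))).exists
  have e5 : ρ ≤ M := e4
  have := k1 M
  have := k2 M
  rw [← e1, ← e2, ← e3, show ((i M : ℤ) + -ρ).toNat = i M - ρ by omega,
    show ((i M : ℤ) + ρ).toNat = i M + ρ by omega, show ((i M : ℤ) + 0).toNat = i M by omega]
  refine ⟨φ M '' (p M '' {k | k + ρ ≤ i M ∨ (i M + ρ ≤ k ∧ k ≤ n M)} ∪ R M),
    ((((Set.finite_Iic (n M)).subset ?_).image _).union (h2 M)).image _, fun x => ?_, Lk.map ?_ _,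
    ?_⟩
  · rintro k (hk | hk)
    · show k ≤ _
      omega
    · exact hk.2
  · obtain ⟨x, rfl⟩ := (φ M).surjective x
    refine ((((h1 M).thin x).mono (Set.image_mono ?_) le_rfl).union (h3 M x)).map _
    rintro k (hk | hk)
    · show k ≤ _
      omega
    · exact hk.2
  · exact (((h1 M).lk (Nat.zero_le _) (by omega) fun k _ hk =>
      Or.inl ⟨k, Or.inl (by omega), rfl⟩).symm.trans ((h4 M).mono Set.subset_union_right)).trans
      ((h1 M).lk (by omega) le_rfl fun k l1 l2 => Or.inl ⟨k, Or.inr ⟨l1, l2⟩, rfl⟩).symm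
  · rintro _ ⟨z, ⟨k, hk | hk, rfl⟩ | hz, rfl⟩ <;> rw [dist_iso]
    · rw [dcomm, h1 M _ _ (by omega) (h5 M)]
      omega
    · rw [h1 M _ _ (by omega) hk.2]
      omega
    · have := h6 M z hz
      omega

end Pool.Agent.MP_77f003_co.H49
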