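import Pool.Agent.MP_77f003_co.H49.Cuts

/-!
The nodes and bags of the tree of a nested system of cuts.
-/

namespace Pool.Agent.MP_77f003_co.H49

open SimpleGraph Filter

variable {V : Type} {G : SimpleGraph V} {N : Set (Set V)} {m : ℕ}

/-- A consistent orientation of the cuts pointing to a node. -/
structure IsNode (N O : Set (Set V)) : Prop where
  sub : O ⊆ N
  tot : ∀ A ∈ N, A ∈ O ∨ Aᶜ ∈ O
  con : ∀ A ∈ O, ∀ B ∈ O, ¬ A ⊆ Bᶜ
  fin : ∀ x, {A | A ∈ O ∧ x ∉ A}.Finite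

/-- The points next to all sides of an orientation. -/
def Bag (G : SimpleGraph V) (O : Set (Set V)) : Set V := {x | ∀ A ∈ O, ∃ y ∈ A, G.dist x y ≤ 1}

/-- The orientation towards a vertex. -/
def nodeAt (N : Set (Set V)) (x : V) : Set (Set V) := {A | A ∈ N ∧ x ∈ A}

/-- The image of an orientation under the inverse of an automorphism. -/
def nmap (φ : G ≃g G) (O : Set (Set V)) : Set (Set V) := (fun A => φ ⁻¹' A) '' O

/-- Reversing one side. -/
def nflip (O : Set (Set V)) (B : Set V) : Set (Set V) := insert Bᶜ (O \ {B})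

theorem IsNode.not_compl {O : Set (Set V)} (h : IsNode N O) {A : Set V} (hA : A ∈ O) : Aᶜ ∉ O :=
  fun h' => h.con A hA _ h' (by simp)

theorem IsNode.up {O : Set (Set V)} (h : IsNode N O) {A C : Set V} (hA : A ∈ O) (hC : C ∈ N)
    (hAC : A ⊆ C) : C ∈ O := (h.tot C hC).resolve_right fun h' => h.con A hA _ h' (by simpa)

theorem IsNode.eq {O O' : Set (Set V)} (h : IsNode N O) (h' : IsNode N O') (e : O ⊆ O') :
    O = O' :=
  e.antisymm fun A hA => (h.tot A (h'.sub hA)).resolve_right fun k => h'.not_compl hA (e k)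

theorem IsNode.exists_min {O O' : Set (Set V)} (h : IsNode N O) (h' : IsNode N O')
    (hf : (O \ O').Finite) (hne : (O \ O').Nonempty) :
    ∃ B, B ∈ O \ O' ∧ Minimal (· ∈ O) B := by
  obtain ⟨B, hB⟩ := hf.exists_minimal hne
  exact ⟨B, hB.1, hB.1.1, fun D hD e =>
    hB.2 ⟨hD, fun k => hB.1.2 (h'.up k (h.sub hB.1.1) e)⟩ e⟩

theorem CutSys.nodeAt (c : CutSys G N m) (x : V) : IsNode N (nodeAt N x) where
  sub := fun _ h => h.1
  tot := fun A hA => (em (x ∈ A)).imp (fun h => ⟨hA, h⟩) fun h => ⟨c.compl A hA, h⟩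
  con := fun _ hA _ hB e => e hA.2 hB.2
  fin := fun y => (c.fin x y).subset fun _ h => ⟨h.1.1, h.1.2, h.2⟩

theorem mem_bag_nodeAt (x : V) : x ∈ Bag G (nodeAt N x) := fun _ h => ⟨x, h.2, by simp⟩

theorem IsNode.fin_diff {O : Set (Set V)} (h : IsNode N O) (x : V) : (O \ nodeAt N x).Finite :=
  (h.fin x).subset fun _ k => ⟨k.1, fun e => k.2 ⟨h.sub k.1, e⟩⟩

theorem CutSys.side (c : CutSys G N m) {O : Set (Set V)} (h : IsNode N O) {B C : Set V}
    (hB : Minimal (· ∈ O) B) (hC : C ∈ O) : B ⊆ C ∨ Bᶜ ⊆ C := by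
  rcases c.nest B (h.sub hB.1) C (h.sub hC) with e | e | e | e
  exacts [Or.inl e, absurd e (h.con B hB.1 C hC), Or.inr e,
    Or.inl (hB.2 hC (Set.compl_subset_compl.1 e))]

theorem CutSys.ep_bag (c : CutSys G N m) {O : Set (Set V)} (h : IsNode N O) {B : Set V}
    (hB : Minimal (· ∈ O) B) {a : V} (ha : Ep G B a) : a ∈ Bag G O := fun C hC =>
  (c.side h hB hC).elim (fun e => ha.1.imp fun _ k => ⟨e k.1, k.2⟩)
    fun e => ha.2.imp fun _ k => ⟨e k.1, k.2⟩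

theorem CutSys.flip (c : CutSys G N m) {O : Set (Set V)} (h : IsNode N O) {B : Set V}
    (hB : Minimal (· ∈ O) B) : IsNode N (nflip O B) ∧ Minimal (· ∈ nflip O B) Bᶜ := by
  have k : ∀ A ∈ O \ {B}, ¬ A ⊆ B := fun A hA e => hA.2 (e.antisymm (hB.2 hA.1 e))
  refine ⟨⟨Set.insert_subset (c.compl B (h.sub hB.1)) fun A hA => h.sub hA.1, fun A hA => ?_, ?_,
    fun x => ((h.fin x).insert Bᶜ).subset fun A hA => hA.1.imp id fun e => ⟨e.1, hA.2⟩⟩,
    Or.inl rfl, ?_⟩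
  · by_cases e1 : A = B
    · exact Or.inr (Or.inl (e1 ▸ rfl))
    by_cases e2 : A = Bᶜ
    · exact Or.inl (Or.inl e2)
    exact (h.tot A hA).imp (fun e => Or.inr ⟨e, e1⟩)
      fun e => Or.inr ⟨e, fun e' => e2 (by rw [← show Aᶜ = B from e', compl_compl])⟩
  · rintro A (rfl | hA) C (rfl | hC) e
    · obtain ⟨x, hx⟩ := c.ne _ (c.compl B (h.sub hB.1))
      exact e hx hx
    · exact k C hC (Set.compl_subset_compl.1 e)
    · exact k A hA (by simpa using e)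
    · exact h.con A hA.1 C hC.1 e
  · rintro D (rfl | hD) e
    · exact e
    · exact absurd e (h.con D hD.1 B hB.1)

theorem flip_flip {O : Set (Set V)} (h : IsNode N O) {B : Set V} (hB : B ∈ O) :
    nflip (nflip O B) Bᶜ = O := by
  ext A
  simp only [nflip, compl_compl, Set.mem_insert_iff, Set.mem_sdiff, Set.mem_singleton_iff]
  constructor
  · rintro (rfl | ⟨rfl | e, e'⟩)
    exacts [hB, absurd rfl e', e.1]
  · intro e
    by_cases e1 : A = B
    exacts [Or.inl e1, Or.inr ⟨Or.inr ⟨e, e1⟩, fun e2 => h.not_compl hB (e2 ▸ e)⟩]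

theorem flip_diff {O O' : Set (Set V)} (h' : IsNode N O') {B : Set V} (hN : B ∈ N) (hB : B ∉ O') :
    nflip O B \ O' = (O \ O') \ {B} := by
  ext A
  simp only [nflip, Set.mem_insert_iff, Set.mem_sdiff, Set.mem_singleton_iff]
  constructor
  · rintro ⟨rfl | e, e'⟩
    exacts [absurd ((h'.tot B hN).resolve_left hB) e', ⟨⟨e.1, e'⟩, e.2⟩]
  · exact fun e => ⟨Or.inr ⟨e.1.1, e.2⟩, e.1.2⟩

theorem CutSys.min_eq (c : CutSys G N m) {O : Set (Set V)} (h : IsNode N O) {B C : Set V}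
    (hB : Minimal (· ∈ O) B) (hC : Minimal (· ∈ O) C) {o : V} (h1 : o ∉ B) (h2 : o ∉ C) : B = C := by
  rcases c.side h hB hC.1 with e | e
  · exact e.antisymm (hC.2 hB.1 e)
  · exact absurd (e h1) h2

theorem pre_symm (φ : G ≃g G) (A : Set V) : φ ⁻¹' (φ.symm ⁻¹' A) = A := by
  ext x
  simp

theorem symm_pre (φ : G ≃g G) (A : Set V) : φ.symm ⁻¹' (φ ⁻¹' A) = A := pre_symm φ.symm A

theorem mem_nmap {φ : G ≃g G} {O : Set (Set V)} {A : Set V} :
    A ∈ nmap φ O ↔ φ.symm ⁻¹' A ∈ O :=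
  ⟨by rintro ⟨B, h, rfl⟩; rwa [symm_pre], fun h => ⟨_, h, pre_symm φ A⟩⟩

theorem nmap_symm (φ : G ≃g G) (O : Set (Set V)) : nmap φ.symm (nmap φ O) = O := by
  ext A
  rw [mem_nmap, mem_nmap]
  exact Iff.of_eq (congrArg (· ∈ O) (symm_pre φ A))

theorem nmap_trans (φ ψ : G ≃g G) (O : Set (Set V)) :
    nmap (φ.trans ψ) O = nmap φ (nmap ψ O) := by
  simp only [nmap, Set.image_image]
  rfl

theorem CutSys.map (c : CutSys G N m) {O : Set (Set V)} (h : IsNode N O) (φ : G ≃g G) :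
    IsNode N (nmap φ O) where
  sub := by
    rintro _ ⟨A, hA, rfl⟩
    exact c.inv A (h.sub hA) φ
  tot := fun A hA => by
    simp only [mem_nmap]
    exact h.tot _ (c.inv A hA _)
  con := fun A hA B hB e => h.con _ (mem_nmap.1 hA) _ (mem_nmap.1 hB) fun _ hx => e hx
  fin := fun x => ((h.fin (φ x)).image fun A => φ ⁻¹' A).subset (by
    rintro _ ⟨⟨A, hA, rfl⟩, e⟩
    exact ⟨A, ⟨hA, e⟩, rfl⟩)

variable [Fact G.Connected]

theorem bag_nmap {φ : G ≃g G} {O : Set (Set V)} {x : V} :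
    x ∈ Bag G (nmap φ O) ↔ φ x ∈ Bag G O := by
  constructor
  · intro h A hA
    obtain ⟨y, y1, y2⟩ := h _ ⟨A, hA, rfl⟩
    exact ⟨φ y, y1, by rwa [dist_iso]⟩
  · rintro h _ ⟨A, hA, rfl⟩
    obtain ⟨y, y1, y2⟩ := h A hA
    exact ⟨φ.symm y, by simpa using y1, by rwa [← dist_iso φ, RelIso.apply_symm_apply]⟩

theorem Ep.pre {A : Set V} {a : V} (φ : G ≃g G) (h : Ep G A (φ a)) : Ep G (φ ⁻¹' A) a := by
  obtain ⟨⟨y, y1, y2⟩, z, z1, z2⟩ := h
  exact ⟨⟨φ.symm y, by simpa using y1, by rwa [← dist_iso φ, RelIso.apply_symm_apply]⟩,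
    φ.symm z, by simpa using z1, by rwa [← dist_iso φ, RelIso.apply_symm_apply]⟩

theorem CutSys.exists_ep (c : CutSys G N m) {B : Set V} (hB : B ∈ N) : ∃ a, Ep G B a := by
  obtain ⟨x, hx⟩ := c.ne B hB
  obtain ⟨y, hy⟩ := c.ne _ (c.compl B hB)
  obtain ⟨p, h, -⟩ := cross_geo (G := G) hx hy
  exact ⟨_, cb.ep h⟩

theorem CutSys.bag_ne (c : CutSys G N m) {O : Set (Set V)} (h : IsNode N O) :
    (Bag G O).Nonempty := by
  obtain ⟨o⟩ := (Fact.out : G.Connected).nonempty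
  rcases (O \ H49.nodeAt N o).eq_empty_or_nonempty with e | e
  · exact ⟨o, h.eq (c.nodeAt o) (Set.sdiff_eq_empty.1 e) ▸ mem_bag_nodeAt o⟩
  · obtain ⟨B, -, hB⟩ := h.exists_min (c.nodeAt o) (h.fin_diff o) e
    exact (c.exists_ep (h.sub hB.1)).imp fun a => c.ep_bag h hB

/-- A walk between points of a bag is followed by a chain of points of the bag. -/
theorem CutSys.follow (c : CutSys G N m) {O : Set (Set V)} (h : IsNode N O) {y : V}
    (hy : y ∈ Bag G O) {T : V → ℕ → Set V → Prop} (h0 : T y 0 {y})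
    (h1 : ∀ a b n S, a ∈ Bag G O → G.dist a b ≤ m + 1 → T b n S → T a (n + 1) (insert a S))
    (h2 : ∀ a n S z, T a n S → T a (n + 1) (insert z S)) :
    ∀ x ∈ Bag G O, ∀ p : G.Walk x y, T x p.length {z | z ∈ p.support} := by
  have key : ∀ {x} (p : G.Walk x y), ∃ a ∈ Bag G O, T a p.length {z | z ∈ p.support} ∧
      (a = x ∨ ∃ B, Minimal (· ∈ O) B ∧ x ∉ B ∧ Ep G B a ∧ x ∉ Bag G O) := by
    intro x p
    induction p with
    | nil => exact ⟨_, hy, by simpa using h0, Or.inl rfl⟩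
    | @cons x z y hxz q ih =>
      obtain ⟨a, a1, a2, a3⟩ := ih hy h0
      have e0 : {w | w ∈ (Walk.cons hxz q).support} = insert x {w | w ∈ q.support} := by
        ext w
        simp
      have e1 := dist_adj hxz
      rw [e0, Walk.length_cons]
      by_cases hx : x ∈ Bag G O
      · refine ⟨x, hx, h1 x a _ _ hx ?_ a2, Or.inl rfl⟩
        rcases a3 with rfl | ⟨B, b1, b2, b3, -⟩
        · omega
        · exact (c.diam B (h.sub b1.1) x a ⟨hx B b1.1, z, b2, e1.le⟩ b3).trans (by omega)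
      refine ⟨a, a1, h2 _ _ _ _ a2, Or.inr ?_⟩
      rcases a3 with rfl | ⟨B, b1, b2, b3, -⟩
      · obtain ⟨B, b0, b1⟩ := h.exists_min (c.nodeAt x) (h.fin_diff x) (by
          by_contra e
          rw [Set.not_nonempty_iff_eq_empty, Set.sdiff_eq_empty] at e
          exact hx (h.eq (c.nodeAt x) e ▸ mem_bag_nodeAt x))
        have b2 : x ∉ B := fun e => b0.2 ⟨h.sub b1.1, e⟩
        exact ⟨B, b1, b2, ⟨a1 B b1.1, x, b2, by rw [dcomm, e1]⟩, hx⟩
      · exact ⟨B, b1, fun e => hx (c.ep_bag h b1 ⟨⟨x, e, by simp⟩, z, b2, e1.le⟩), b3, hx⟩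
  intro x hx p
  obtain ⟨a, -, a2, rfl | ⟨_, -, -, -, a3⟩⟩ := key p
  exacts [a2, absurd hx a3]

variable [G.LocallyFinite]

theorem CutSys.fin_near (c : CutSys G N m) (x : V) (R : ℕ) :
    {B | B ∈ N ∧ ∃ z, Ep G B z ∧ G.dist x z ≤ R}.Finite := by
  refine ((finite_ball (G := G) x (R + 1)).biUnion fun y _ =>
    (finite_ball (G := G) x (R + 1)).biUnion fun w _ => c.fin y w).subset ?_
  rintro B ⟨hB, z, ⟨⟨y, y1, y2⟩, w, w1, w2⟩, hz⟩
  exact Set.mem_biUnion (x := y) ((tri x z y).trans (Nat.add_le_add hz y2))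
    (Set.mem_biUnion (x := w) ((tri x z w).trans (Nat.add_le_add hz w2)) ⟨hB, y1, w1⟩)

theorem CutSys.cnt (c : CutSys G N m) (ht : VT G) (R : ℕ) :
    ∃ n, ∀ x, {B | B ∈ N ∧ ∃ z, Ep G B z ∧ G.dist x z ≤ R}.ncard ≤ n := by
  obtain ⟨o⟩ := (Fact.out : G.Connected).nonempty
  refine ⟨{B | B ∈ N ∧ ∃ z, Ep G B z ∧ G.dist o z ≤ R}.ncard, fun x => ?_⟩
  obtain ⟨φ, rfl⟩ := ht o x
  refine Set.ncard_le_ncard_of_injOn (fun B => φ ⁻¹' B) ?_
    (φ.surjective.preimage_injective.injOn) (c.fin_near o R)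
  rintro B ⟨hB, z, z1, z2⟩
  exact ⟨c.inv B hB φ, φ.symm z, Ep.pre φ (by simpa using z1),
    by rwa [← dist_iso φ, RelIso.apply_symm_apply]⟩

theorem CutSys.fin_nodes (c : CutSys G N m) (x : V) :
    {O | IsNode N O ∧ x ∈ Bag G O}.Finite := by
  refine Set.Finite.of_finite_image (f := fun O => O \ H49.nodeAt N x)
    ((c.fin_near x 0).finite_subsets.subset ?_) ?_
  · rintro _ ⟨O, ⟨h1, h2⟩, rfl⟩ B hB
    exact ⟨h1.sub hB.1, x, ⟨h2 B hB.1, x, fun e => hB.2 ⟨h1.sub hB.1, e⟩, by simp⟩, by simp⟩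
  · rintro O ⟨h1, -⟩ O' ⟨h2, -⟩ e
    refine h1.eq h2 fun A hA => (h2.tot A (h1.sub hA)).resolve_right fun k => ?_
    by_cases hx : x ∈ A
    · exact h1.not_compl hA (Set.Subset.trans (Eq.subset e.symm) Set.sdiff_subset
        ⟨k, fun e' => e'.2 hx⟩)
    · exact h2.not_compl (Set.Subset.trans (Eq.subset e) Set.sdiff_subset
        ⟨hA, fun e' => hx e'.2⟩) k

theorem CutSys.cocompact (c : CutSys G N m) (ht : VT G) {O : Set (Set V)} (h : IsNode N O) :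
    ∃ y ∈ Bag G O, ∃ r, ∀ x ∈ Bag G O, ∃ φ : G ≃g G, nmap φ O = O ∧ G.dist x (φ y) ≤ r := by
  obtain ⟨y, hy⟩ := c.bag_ne h
  have : ∀ O', ∃ ψ : G ≃g G, (∃ ψ : G ≃g G, nmap ψ O = O') → nmap ψ O = O' := fun O' => by
    by_cases e : ∃ ψ : G ≃g G, nmap ψ O = O'
    exacts [e.imp fun _ e _ => e, ⟨1, fun e' => absurd e' e⟩]
  choose ψ hψ using this
  obtain ⟨r, hr⟩ := ((c.fin_nodes y).image fun O' => G.dist (ψ O' y) y).bddAbove
  refine ⟨y, hy, r, fun x hx => ?_⟩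
  obtain ⟨φ, rfl⟩ := ht y x
  refine ⟨(ψ (nmap φ O)).symm.trans φ, ?_, ?_⟩
  · rw [nmap_trans, ← hψ _ ⟨φ, rfl⟩, hψ _ ⟨φ, rfl⟩]
    exact (congrArg _ (hψ _ ⟨φ, rfl⟩).symm).trans (nmap_symm _ _)
  · have := hr ⟨_, ⟨c.map h φ, bag_nmap.2 hx⟩, rfl⟩
    rwa [RelIso.trans_apply, dist_iso, ← dist_iso (ψ (nmap φ O)), RelIso.apply_symm_apply]

end Pool.Agent.MP_77f003_co.H49
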