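import Pool.Agent.MP_77f003_co.H49.Fib
import Pool.Agent.MP_77f003_co.H49.Grid

/-!
Graphs that fibre over `ℤ` with a finite or two-ended fibre are quasi-isometric to the line or to
the square grid.
-/

namespace Pool.Agent.MP_77f003_co.H49

open SimpleGraph

section Line

variable {L : Type} {P : SimpleGraph L} {N : Type} [Group N] [MulAction N L]

/-- Elements that move every vertex a bounded distance. -/
def Bd (P : SimpleGraph L) (g : N) : Prop := ∃ C, ∀ x, P.dist x (g • x) ≤ C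

theorem sign_dichotomy {α β : L → ℤ} {E : ℕ} (b : L)
    (h : ∀ x y, (α x - α y).natAbs ≤ (β x - β y).natAbs + E ∧
      (β x - β y).natAbs ≤ (α x - α y).natAbs + E) :
    (∀ x, ((β x - β b) - (α x - α b)).natAbs ≤ 4 * E) ∨
      ∀ x, ((β x - β b) + (α x - α b)).natAbs ≤ 4 * E := by
  by_contra hcon
  push Not at hcon
  obtain ⟨⟨x, hx⟩, y, hy⟩ := hcon
  have e1 := h x b
  have e2 := h y b
  have e3 := h x y
  omega

variable [Fact P.Connected] [P.LocallyFinite]

theorem line_tau (h : Acts N P) {l : ℤ → L} (hl : IsLine P l) {R : ℕ}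
    (hR : ∀ x, ∃ i, P.dist x (l i) ≤ R) (b : L) :
    ∃ τ : N → ℤ, (∀ g g', Bd P g → Bd P g' → τ (g * g') = τ g + τ g') ∧
      (∀ r, ∃ C, ∀ g, Bd P g → P.dist b (g • b) ≤ r → (τ g).natAbs ≤ C) ∧
      (∃ C, ∀ g, Bd P g → τ g = 0 → P.dist b (g • b) ≤ C) ∧
      ∃ C, ∀ g : N, ∃ g' : N, Bd P g' ∧ P.dist (g • b) (g' • b) ≤ C := by
  classical
  choose idx hidx using hR
  have hd : ∀ x y, P.dist x y ≤ (idx x - idx y).natAbs + 2 * R ∧
      (idx x - idx y).natAbs ≤ P.dist x y + 2 * R := by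
    intro x y
    have e1 := hidx x
    have e2 := hidx y
    have e3 := hl (idx x) (idx y)
    have e4 := tri (G := P) x (l (idx x)) y
    have e5 := tri (G := P) (l (idx x)) (l (idx y)) y
    have e6 := tri (G := P) (l (idx x)) x (l (idx y))
    have e7 := tri (G := P) x y (l (idx y))
    have e8 := dcomm (G := P) x (l (idx x))
    have e9 := dcomm (G := P) y (l (idx y))
    omega
  have hi : ∀ i, (idx (l i) - i).natAbs ≤ R := fun i => by
    have e1 := hidx (l i)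
    rw [hl] at e1
    omega
  have dich : ∀ g : N, (∀ x, ((idx (g • x) - idx (g • b)) - (idx x - idx b)).natAbs ≤ 4 * (4 * R)) ∨
      ∀ x, ((idx (g • x) - idx (g • b)) + (idx x - idx b)).natAbs ≤ 4 * (4 * R) := fun g =>
    sign_dichotomy (α := idx) (β := fun x => idx (g • x)) b fun x y => by
      have e1 := hd x y
      have e2 := hd (g • x) (g • y)
      rw [h.dist] at e2
      omega
  have pos : ∀ g : N, Bd P g →
      ∀ x, ((idx (g • x) - idx (g • b)) - (idx x - idx b)).natAbs ≤ 4 * (4 * R) := by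
    rintro g ⟨C, hC⟩
    refine (dich g).resolve_right fun hn => ?_
    set i : ℤ := (idx (g • b)).natAbs + (idx b).natAbs + C + 20 * R + 1 with hi'
    have e1 := hn (l i)
    have e2 := hi i
    have e3 := hd (l i) (g • l i)
    have e4 := hC (l i)
    omega
  set F : N → L → ℤ := fun g x =>
    (if 0 ≤ idx (g • x) then 1 else 0) - (if 0 ≤ idx x then 1 else 0) with hF
  have hsupp : ∀ g, Bd P g → ∀ r, P.dist b (g • b) ≤ r →
      Function.support (F g) ⊆ ball P (l 0) (r + 21 * R) := by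
    intro g hg r hr x hx
    have e1 := pos g hg x
    have e2 := hd b (g • b)
    have e3 := hd (l 0) x
    have e4 := hi 0
    rw [Finset.mem_coe, mem_ball]
    simp only [hF, Function.mem_support] at hx
    split_ifs at hx <;> omega
  have hfin : ∀ g, Bd P g → (Function.support (F g)).Finite := fun g hg =>
    (Finset.finite_toSet _).subset (hsupp g hg _ le_rfl)
  refine ⟨fun g => ∑ᶠ x, F g x, fun g g' hg hg' => ?_, fun r => ⟨(ball P (l 0) (r + 21 * R)).card,
    fun g hg hr => ?_⟩, ⟨20 * R + 1, fun g hg h0 => ?_⟩, ?_⟩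
  · have e1 : ∑ᶠ x, F g (g' • x) = ∑ᶠ x, F g x :=
      finsum_comp (g := F g) (fun x => g' • x) (MulAction.bijective g')
    have e2 : (Function.support fun x => F g (g' • x)).Finite :=
      (hfin g hg).preimage (MulAction.injective g').injOn
    show ∑ᶠ x, F (g * g') x = ∑ᶠ x, F g x + ∑ᶠ x, F g' x
    rw [← e1, ← finsum_add_distrib e2 (hfin g' hg')]
    refine finsum_congr fun x => ?_
    simp only [hF, mul_smul]
    ring
  · show (∑ᶠ x, F g x).natAbs ≤ _
    rw [finsum_eq_sum_of_support_subset _ (hsupp g hg r hr)]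
    have := (Finset.abs_sum_le_sum_abs (F g) (ball P (l 0) (r + 21 * R))).trans
      (Finset.sum_le_card_nsmul _ _ 1 fun x _ => by
        simp only [hF]
        split_ifs <;> simp)
    rw [nsmul_eq_mul, mul_one, Int.abs_eq_natAbs] at this
    exact_mod_cast this
  · by_contra hcon
    have e1 := hd b (g • b)
    change ∑ᶠ x, F g x = 0 at h0
    rcases le_total (idx b) (idx (g • b)) with hc | hc
    · have := single_le_finsum (l (-R - 1)) (hfin g hg) fun x => by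
        have := pos g hg x
        simp only [hF]
        split_ifs <;> omega
      have e2 := pos g hg (l (-R - 1))
      have e3 := hi (-R - 1)
      rw [h0] at this
      simp only [hF] at this
      split_ifs at this <;> omega
    · have := single_le_finsum (f := fun x => -F g x) (l R)
        ((hfin g hg).subset fun x hx => by simpa using hx) fun x => by
        have := pos g hg x
        simp only [hF]
        split_ifs <;> omega
      have e2 := pos g hg (l R)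
      have e3 := hi R
      rw [finsum_neg_distrib, h0] at this
      simp only [hF] at this
      split_ifs at this <;> omega
  · have neg : ∀ g : N, ¬ Bd P g →
        ∀ x, ((idx (g • x) - idx (g • b)) + (idx x - idx b)).natAbs ≤ 4 * (4 * R) := by
      intro g hg
      refine (dich g).resolve_left fun hp => hg ⟨(idx (g • b) - idx b).natAbs + 18 * R, fun x => ?_⟩
      have e1 := hp x
      have e2 := hd x (g • x)
      omega
    by_cases hall : ∀ g : N, Bd P g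
    · exact ⟨0, fun g => ⟨g, hall g, by simp⟩⟩
    push Not at hall
    obtain ⟨g₀, hg₀⟩ := hall
    refine ⟨P.dist b (g₀ • b), fun g => ?_⟩
    by_cases hg : Bd P g
    · exact ⟨g, hg, by simp⟩
    refine ⟨g * g₀, ⟨(idx (g • b) - idx (g₀ • b)).natAbs + 34 * R, fun x => ?_⟩,
      by rw [mul_smul, h.dist]⟩
    have e1 := neg g hg (g₀ • x)
    have e2 := neg g₀ hg₀ x
    have e3 := hd x (g • g₀ • x)
    rw [mul_smul]
    omega

end Line

variable {V : Type} {G : SimpleGraph V} {Γ : Type} [Group Γ] [MulAction Γ V]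
variable [Fact G.Connected] [G.LocallyFinite] {o : V} {χ : Γ → ℤ} {t : Γ} {c : ℕ}

theorem Fib.grid_of_tau (H : Fib G o χ t c) (M : Subgroup Γ) (hM : ∀ g ∈ M, χ g = 0)
    (hMt : ∀ (k : ℤ), ∀ g ∈ M, (t ^ k)⁻¹ * g * t ^ k ∈ M) (τ : Γ → ℤ)
    (hadd : ∀ g ∈ M, ∀ g' ∈ M, τ (g * g') = τ g + τ g')
    (p1 : ∀ r, ∃ C, ∀ g ∈ M, len G o g ≤ r → (τ g).natAbs ≤ C)
    (p2 : ∃ C, ∀ g ∈ M, τ g = 0 → len G o g ≤ C)
    (p3 : ∃ C, ∀ g, χ g = 0 → ∃ g' ∈ M, G.dist (g • o) (g' • o) ≤ C)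
    (p4 : ∃ g ∈ M, τ g ≠ 0) : QuasiIsometric G grid := by
  obtain ⟨C₂, p2⟩ := p2
  obtain ⟨C₃, p3⟩ := p3
  have t1 : τ 1 = 0 := by
    have := hadd 1 M.one_mem 1 M.one_mem
    rw [mul_one] at this
    omega
  have tinv : ∀ g ∈ M, τ g⁻¹ = -τ g := fun g hg => by
    have := hadd g hg g⁻¹ (M.inv_mem hg)
    rw [mul_inv_cancel, t1] at this
    omega
  have tz : ∀ g ∈ M, ∀ k : ℤ, τ (g ^ k) = k * τ g := fun g hg k => by
    induction k using Int.induction_on with
    | zero => simp [t1]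
    | succ n ih => rw [zpow_add_one, hadd _ (M.zpow_mem hg _) _ hg, ih]; ring
    | pred n ih => rw [zpow_sub_one, hadd _ (M.zpow_mem hg _) _ (M.inv_mem hg), ih, tinv g hg]; ring
  -- the kernel is invariant under conjugation
  have hker : ∀ (k : ℤ), ∀ g ∈ M, τ g = 0 → τ ((t ^ k)⁻¹ * g * t ^ k) = 0 := by
    intro k g hg h0
    obtain ⟨C, hC⟩ := p1 (C₂ + 2 * len G o (t ^ k))
    have e1 := hC (((t ^ k)⁻¹ * g * t ^ k) ^ ((C : ℤ) + 1)) (M.zpow_mem (hMt k g hg) _) (by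
      have e : ((t ^ k)⁻¹ * g * t ^ k) ^ ((C : ℤ) + 1) = (t ^ k)⁻¹ * g ^ ((C : ℤ) + 1) * t ^ k := by
        have := conj_zpow (i := (C : ℤ) + 1) (a := (t ^ k)⁻¹) (b := g)
        rwa [inv_inv] at this
      have f1 := H.acts.len_mul o ((t ^ k)⁻¹ * g ^ ((C : ℤ) + 1)) (t ^ k)
      have f2 := H.acts.len_mul o (t ^ k)⁻¹ (g ^ ((C : ℤ) + 1))
      have f3 := p2 _ (M.zpow_mem hg ((C : ℤ) + 1)) (by rw [tz g hg, h0, mul_zero])
      rw [H.acts.len_inv] at f2
      rw [e]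
      omega)
    rw [tz _ (hMt k g hg), Int.natAbs_mul] at e1
    by_contra hne
    have : ((C : ℤ) + 1).natAbs * 1 ≤ ((C : ℤ) + 1).natAbs * (τ ((t ^ k)⁻¹ * g * t ^ k)).natAbs :=
      Nat.mul_le_mul_left _ (by omega)
    omega
  -- a generator of the image
  obtain ⟨n, hn, hn0, hgen⟩ : ∃ n ∈ M, τ n ≠ 0 ∧ ∀ g ∈ M, ∃ a, τ g = a * τ n := by
    classical
    have hex : ∃ m : ℕ, ∃ g ∈ M, τ g ≠ 0 ∧ (τ g).natAbs = m := by
      obtain ⟨g, hg, h0⟩ := p4
      exact ⟨_, g, hg, h0, rfl⟩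
    obtain ⟨n, hn, hn0, hmin⟩ := Nat.find_spec hex
    refine ⟨n, hn, hn0, fun g hg => ⟨τ g / τ n, ?_⟩⟩
    by_contra hne
    have e1 : τ (g * (n ^ (τ g / τ n))⁻¹) = τ g % τ n := by
      rw [hadd g hg _ (M.inv_mem (M.zpow_mem hn _)), tinv _ (M.zpow_mem hn _), tz n hn, Int.emod_def]
      ring
    have e2 := Nat.find_min' hex ⟨_, M.mul_mem hg (M.inv_mem (M.zpow_mem hn (τ g / τ n))),
      by rw [e1, Int.emod_def]; intro h; exact hne (by linarith), rfl⟩
    have e3 := Int.emod_nonneg (τ g) hn0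
    have e4 := Int.emod_lt_abs (τ g) hn0
    rw [Int.abs_eq_natAbs] at e4
    rw [e1] at e2
    omega
  have hθ : ∀ (k : ℤ), ∀ g ∈ M, ∀ a, τ g = a * τ n →
      τ ((t ^ k)⁻¹ * g * t ^ k) = a * τ ((t ^ k)⁻¹ * n * t ^ k) := by
    intro k g hg a ha
    have e1 := hker k _ (M.mul_mem hg (M.inv_mem (M.zpow_mem hn a))) (by
      rw [hadd g hg _ (M.inv_mem (M.zpow_mem hn _)), tinv _ (M.zpow_mem hn _), tz n hn, ha]
      ring)
    have e : (t ^ k)⁻¹ * (g * (n ^ a)⁻¹) * t ^ k =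
        ((t ^ k)⁻¹ * g * t ^ k) * (((t ^ k)⁻¹ * n * t ^ k) ^ a)⁻¹ := by
      have := conj_zpow (i := a) (a := (t ^ k)⁻¹) (b := n)
      rw [inv_inv] at this
      rw [this]
      group
    rw [e, hadd _ (hMt k g hg) _ (M.inv_mem (M.zpow_mem (hMt k n hn) _)),
      tinv _ (M.zpow_mem (hMt k n hn) _), tz _ (hMt k n hn)] at e1
    omega
  have habs : ∀ (k : ℤ), ∀ g ∈ M, (τ ((t ^ k)⁻¹ * g * t ^ k)).natAbs = (τ g).natAbs := by
    intro k g hg
    obtain ⟨a, ha⟩ := hgen _ (hMt k n hn)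
    obtain ⟨a', ha'⟩ := hgen _ (hMt (-k) n hn)
    have e1 := hθ (-k) _ (hMt k n hn) a ha
    have e : (t ^ (-k))⁻¹ * ((t ^ k)⁻¹ * n * t ^ k) * t ^ (-k) = n := by group
    rw [e, ha', ← mul_assoc] at e1
    have e2 : a * a' = 1 := by
      have : (a * a' - 1) * τ n = 0 := by linarith
      rcases mul_eq_zero.1 this with h | h
      · linarith
      · exact absurd h hn0
    obtain ⟨a'', ha''⟩ := hgen g hg
    rw [hθ k g hg a'' ha'', ha, ha'', Int.natAbs_mul, Int.natAbs_mul, Int.natAbs_mul,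
      Int.isUnit_iff_natAbs_eq.1 (IsUnit.of_mul_eq_one a' e2), one_mul]
  have hlen : ∀ g ∈ M, (τ g).natAbs = (τ n).natAbs → len G o g ≤ len G o n + C₂ := by
    intro g hg he
    rcases Int.natAbs_eq_natAbs_iff.1 he with e | e
    · have f1 := p2 _ (M.mul_mem (M.inv_mem hn) hg) (by
        rw [hadd _ (M.inv_mem hn) _ hg, tinv n hn, e]; ring)
      have f2 := H.acts.len_mul o n (n⁻¹ * g)
      rw [mul_inv_cancel_left] at f2
      omega
    · have f1 := p2 _ (M.mul_mem hn hg) (by rw [hadd _ hn _ hg, e]; ring)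
      have f2 := H.acts.len_mul o n⁻¹ (n * g)
      rw [inv_mul_cancel_left, H.acts.len_inv] at f2
      omega
  obtain ⟨Λ, hΛ⟩ := H.chi_lip
  have : Fact grid.Connected := ⟨grid_connected⟩
  have hχ : ∀ a b : ℤ, χ (n ^ a * t ^ b) = b := fun a b => by
    rw [H.add, H.chi_zpow, H.chi_zpow, hM n hn, H.one]; ring
  have hdist : ∀ a b a' b' : ℤ, G.dist ((n ^ a * t ^ b) • o) ((n ^ a' * t ^ b') • o) =
      len G o ((t ^ b)⁻¹ * n ^ (a' - a) * t ^ b * t ^ (b' - b)) := fun a b a' b' => by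
    rw [H.acts.dist_eq_len]
    congr 1
    group
  refine qi_of_coarse (fun v : ℤ × ℤ => (n ^ v.1 * t ^ v.2) • o)
    (len G o n + len G o t + c + C₂ + C₃) ?_ (fun r => ?_) fun x => ?_
  · rintro ⟨a, b⟩ ⟨a', b'⟩ hv
    change (a - a').natAbs + (b - b').natAbs = 1 at hv
    dsimp only
    rw [hdist]
    by_cases hb : b' = b
    · have := hlen _ (hMt b _ (M.zpow_mem hn (a' - a))) (by
        rw [habs b _ (M.zpow_mem hn _), tz n hn, Int.natAbs_mul, show (a' - a).natAbs = 1 by omega,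
          one_mul])
      rw [hb, sub_self, zpow_zero, mul_one]
      omega
    · have := H.acts.len_zpow o t (b' - b)
      rw [show (b' - b).natAbs = 1 by omega] at this
      rw [show a' - a = 0 by omega, zpow_zero, mul_one, inv_mul_cancel, one_mul]
      omega
  · obtain ⟨C, hC⟩ := p1 (r + Λ * (r + 1) * len G o t)
    refine ⟨C + Λ * (r + 1), ?_⟩
    rintro ⟨a, b⟩ ⟨a', b'⟩ hv
    dsimp only at hv
    have e1 := (hΛ (n ^ a * t ^ b) (n ^ a' * t ^ b')).trans
      (Nat.mul_le_mul_left Λ (Nat.add_le_add_right hv 1))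
    rw [hχ, hχ] at e1
    rw [hdist] at hv
    have e2 := hC _ (hMt b _ (M.zpow_mem hn (a' - a))) (by
      have f1 := H.acts.len_mul o ((t ^ b)⁻¹ * n ^ (a' - a) * t ^ b * t ^ (b' - b)) (t ^ (b' - b))⁻¹
      have f2 := (H.acts.len_zpow o t (b' - b)).trans
        (Nat.mul_le_mul_right _ (show (b' - b).natAbs ≤ Λ * (r + 1) by omega))
      rw [mul_inv_cancel_right, H.acts.len_inv] at f1
      omega)
    rw [habs b _ (M.zpow_mem hn _), tz n hn, Int.natAbs_mul] at e2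
    have e3 : (a' - a).natAbs * 1 ≤ (a' - a).natAbs * (τ n).natAbs :=
      Nat.mul_le_mul_left _ (by omega)
    have e4 := grid_dist (a, b) (a', b')
    simp only at e4
    omega
  · obtain ⟨γ, hγ⟩ := H.cob x
    obtain ⟨g, hg, hg'⟩ := p3 ((t ^ χ γ)⁻¹ * γ) (by rw [H.add, H.chi_inv, H.chi_zpow, H.one]; ring)
    obtain ⟨a, ha⟩ := hgen _ (hMt (-χ γ) g hg)
    have hm := M.mul_mem (M.inv_mem (M.zpow_mem hn a)) (hMt (-χ γ) g hg)
    have e1 := p2 _ (hMt (χ γ) _ hm) (hker (χ γ) _ hm (by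
      rw [hadd _ (M.inv_mem (M.zpow_mem hn a)) _ (hMt (-χ γ) g hg), tinv _ (M.zpow_mem hn a),
        tz n hn, ha]
      ring))
    refine ⟨(a, χ γ), ?_⟩
    have e2 : G.dist ((n ^ a * t ^ χ γ) • o) ((t ^ χ γ * g) • o) ≤ C₂ := by
      rw [H.acts.dist_eq_len]
      refine le_trans (le_of_eq ?_) e1
      congr 1
      group
    rw [← H.acts.dist (t ^ χ γ), smul_smul, smul_smul, mul_inv_cancel_left] at hg'
    have e3 := tri (G := G) x (γ • o) ((n ^ a * t ^ χ γ) • o)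
    have e4 := tri (G := G) (γ • o) ((t ^ χ γ * g) • o) ((n ^ a * t ^ χ γ) • o)
    rw [dcomm] at e2
    simp only
    omega

theorem Fib.qi_line (H : Fib G o χ t c) [Finite (MulAction.orbit H.N o)] :
    QuasiIsometric G lineG := by
  obtain ⟨C, hC⟩ := (Set.finite_range fun y : MulAction.orbit H.N o => G.dist o y).bddAbove
  obtain ⟨Λ, hΛ⟩ := H.chi_lip
  have : Fact lineG.Connected := ⟨line_connected⟩
  refine qi_of_coarse (fun b : ℤ => t ^ b • o) (len G o t + c + C) (fun b b' hv => ?_)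
    (fun r => ⟨Λ * (r + 1), fun b b' hv => ?_⟩) fun x => ?_
  · change (b - b').natAbs + ((0 : ℤ) - 0).natAbs = 1 at hv
    have := H.acts.len_zpow o t (-b + b')
    rw [show (-b + b').natAbs = 1 by omega] at this
    rw [H.acts.dist_eq_len, ← zpow_neg, ← zpow_add]
    omega
  · have e1 := (hΛ (t ^ b) (t ^ b')).trans (Nat.mul_le_mul_left Λ (Nat.add_le_add_right hv 1))
    rw [H.chi_zpow, H.chi_zpow, H.one, mul_one, mul_one] at e1
    exact (line_dist b b').trans e1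
  · obtain ⟨γ, hγ⟩ := H.cob x
    have hm : (t ^ χ γ)⁻¹ * γ ∈ H.N :=
      show χ _ = 0 by rw [H.add, H.chi_inv, H.chi_zpow, H.one]; ring
    have e1 : G.dist o (((t ^ χ γ)⁻¹ * γ) • o) ≤ C := hC ⟨(⟨_, hm⟩ : H.N) • H.base, rfl⟩
    rw [← H.acts.dist (t ^ χ γ), smul_smul, mul_inv_cancel_left, dcomm] at e1
    have e3 := tri (G := G) x (γ • o) (t ^ χ γ • o)
    exact ⟨χ γ, by omega⟩

theorem Fib.qi_grid (H : Fib G o χ t c) {D : ℕ} [Fact (H.LG D).Connected]
    {l : ℤ → MulAction.orbit H.N o} (hl : IsLine (H.LG D) l) {R : ℕ}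
    (hR : ∀ x, ∃ i, (H.LG D).dist x (l i) ≤ R) : QuasiIsometric G grid := by
  classical
  obtain ⟨τ, hadd, p1, ⟨C₂, p2⟩, C₃, p3⟩ := line_tau (H.LG_acts D) hl hR H.base
  let M : Subgroup Γ :=
    { carrier := {g | χ g = 0 ∧ ∃ C, ∀ n, χ n = 0 → len G o (n⁻¹ * g * n) ≤ C}
      one_mem' := ⟨H.chi_one, 0, fun n _ => by simp [len]⟩
      mul_mem' := by
        rintro a b ⟨ha, C, hC⟩ ⟨hb, C', hC'⟩
        refine ⟨by rw [H.add, ha, hb]; rfl, C + C', fun n hn => ?_⟩
        have e1 := H.acts.len_mul o (n⁻¹ * a * n) (n⁻¹ * b * n)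
        have e2 := hC n hn
        have e3 := hC' n hn
        rw [show n⁻¹ * (a * b) * n = n⁻¹ * a * n * (n⁻¹ * b * n) by group]
        omega
      inv_mem' := by
        rintro a ⟨ha, C, hC⟩
        refine ⟨by rw [H.chi_inv, ha]; rfl, C, fun n hn => ?_⟩
        rw [show n⁻¹ * a⁻¹ * n = (n⁻¹ * a * n)⁻¹ by group, H.acts.len_inv]
        exact hC n hn }
  have hBd : ∀ g : H.N, Bd (H.LG D) g ↔ (g : Γ) ∈ M := by
    intro g
    have key : ∀ n : H.N, G.dist (n • H.base : MulAction.orbit H.N o)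
        (g • n • H.base : MulAction.orbit H.N o) = len G o ((n : Γ)⁻¹ * g * n) := fun n => by
      rw [mul_assoc, ← H.acts.dist_eq_len, mul_smul]
      rfl
    constructor
    · rintro ⟨C, hC⟩
      refine ⟨g.2, D * C, fun n hn => ?_⟩
      rw [← key ⟨n, hn⟩]
      exact (H.dist_le _ _).trans (Nat.mul_le_mul_left D (hC _))
    · rintro ⟨-, C, hC⟩
      obtain ⟨C', hC'⟩ := H.proper (D := D) C
      refine ⟨C', fun x => ?_⟩
      obtain ⟨n, rfl⟩ := MulAction.exists_smul_eq H.N H.base x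
      exact hC' _ _ ((key n).trans_le (hC n n.2))
  have hp3 : ∀ g, χ g = 0 → ∃ g' ∈ M, G.dist (g • o) (g' • o) ≤ D * C₃ := by
    intro g hg
    obtain ⟨g', h1, h2⟩ := p3 ⟨g, hg⟩
    exact ⟨g', (hBd g').1 h1, (H.dist_le _ _).trans (Nat.mul_le_mul_left D h2)⟩
  refine H.grid_of_tau M (fun g hg => hg.1) ?_ (fun g => if h : g ∈ H.N then τ ⟨g, h⟩ else 0)
    (fun g hg g' hg' => ?_) (fun r => ?_) ⟨D * C₂, fun g hg h0 => ?_⟩ ⟨_, hp3⟩ ?_
  · rintro k g ⟨hg, C, hC⟩
    refine ⟨by rw [H.add, H.add, H.chi_inv, hg]; ring, C + 2 * len G o (t ^ k), fun n hn => ?_⟩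
    have e1 := hC (t ^ k * n * (t ^ k)⁻¹) (by rw [H.add, H.add, H.chi_inv, hn]; ring)
    set u := (t ^ k * n * (t ^ k)⁻¹)⁻¹ * g * (t ^ k * n * (t ^ k)⁻¹) with hu
    have f1 := H.acts.len_mul o ((t ^ k)⁻¹ * u) (t ^ k)
    have f2 := H.acts.len_mul o (t ^ k)⁻¹ u
    rw [H.acts.len_inv] at f2
    rw [show n⁻¹ * ((t ^ k)⁻¹ * g * t ^ k) * n = (t ^ k)⁻¹ * u * t ^ k by rw [hu]; group]
    omega
  · have h1 : g ∈ H.N := hg.1
    have h2 : g' ∈ H.N := hg'.1
    simp only [dif_pos h1, dif_pos h2, dif_pos (H.N.mul_mem h1 h2)]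
    exact hadd ⟨g, h1⟩ ⟨g', h2⟩ ((hBd _).2 hg) ((hBd _).2 hg')
  · obtain ⟨C', hC'⟩ := H.proper (D := D) r
    obtain ⟨C, hC⟩ := p1 C'
    refine ⟨C, fun g hg hr => ?_⟩
    have h1 : g ∈ H.N := hg.1
    simp only [dif_pos h1]
    exact hC ⟨g, h1⟩ ((hBd _).2 hg) (hC' _ _ hr)
  · have h1 : g ∈ H.N := hg.1
    simp only [dif_pos h1] at h0
    exact (H.dist_le H.base ((⟨g, h1⟩ : H.N) • H.base)).trans
      (Nat.mul_le_mul_left D (p2 ⟨g, h1⟩ ((hBd _).2 hg) h0))
  · by_contra hcon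
    push Not at hcon
    have key : ∀ x, (H.LG D).dist H.base x ≤ C₂ + C₃ := by
      intro x
      obtain ⟨n, rfl⟩ := MulAction.exists_smul_eq H.N H.base x
      obtain ⟨g', h1, h2⟩ := p3 n
      have e1 := hcon g' ((hBd g').1 h1)
      simp only [dif_pos g'.2] at e1
      have e2 := p2 g' h1 e1
      have e3 := tri (G := H.LG D) H.base (g' • H.base) (n • H.base)
      rw [dcomm] at h2
      omega
    have e1 := key (l 0)
    have e2 := key (l (2 * (C₂ + C₃ : ℕ) + 1))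
    have e3 := tri (G := H.LG D) (l 0) H.base (l (2 * (C₂ + C₃ : ℕ) + 1))
    rw [hl] at e3
    rw [dcomm] at e1
    omega

end Pool.Agent.MP_77f003_co.H49
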