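import Pool.Agent.MP_77f003_co.H49.Acc

/-!
Definitions and the list of statements used to treat unimodular graphs that are not accessible.
Each `...Spec` is proved in its own file.
-/

namespace Pool.Agent.MP_77f003_co.H49

open SimpleGraph Filter

variable {V : Type}

/-- Unimodularity: a bijection matching the pairs `(o, y)` with the pairs `(z, o)` orbit by orbit. -/
def UM (G : SimpleGraph V) : Prop :=
  ∀ o, ∃ σ : V ≃ V, ∀ y, ∃ φ : G ≃g G, φ o = σ y ∧ φ y = o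

/-- All orbits are finite. -/
def FinOrb {G : SimpleGraph V} (W : Subgroup (G ≃g G)) : Prop :=
  ∀ x : V, (MulAction.orbit W x).Finite

/-- Every element has finite orbits. -/
def Ell {G : SimpleGraph V} (W : Subgroup (G ≃g G)) : Prop :=
  ∀ φ ∈ W, ∀ x : V, (Set.range fun n : ℕ => (φ ^ n) x).Finite

/-- All orbits have at least `n` points. -/
def Large {G : SimpleGraph V} (W : Subgroup (G ≃g G)) (n : ℕ) : Prop :=
  ∀ x : V, n ≤ (MulAction.orbit W x).ncard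

/-- The stabiliser of a set. -/
def stab {G : SimpleGraph V} (A : Set V) : Subgroup (G ≃g G) where
  carrier := {φ | ∀ x, φ x ∈ A ↔ x ∈ A}
  one_mem' := fun _ => Iff.rfl
  mul_mem' := fun h h' x => (h _).trans (h' x)
  inv_mem' := fun {φ} h x => by simpa using (h (φ⁻¹ x)).symm

/-- The subgroup generated by the elements of `W` moving `S` to within `ρ` of itself. -/
def Cl (G : SimpleGraph V) (W : Subgroup (G ≃g G)) (ρ : ℕ) (S : Set V) : Subgroup (G ≃g G) :=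
  Subgroup.closure {w | w ∈ W ∧ ∃ x ∈ S, ∃ y ∈ S, G.dist x (w y) ≤ ρ}

/-- `C` has at least `T` cosets in `W`. -/
def Many {Γ : Type} [Group Γ] (W C : Subgroup Γ) (T : ℕ) : Prop :=
  C.relIndex W = 0 ∨ T ≤ C.relIndex W

/-- Every orbit has at least `T` clusters at scale `ρ`. -/
def Big (G : SimpleGraph V) (W : Subgroup (G ≃g G)) (ρ T : ℕ) : Prop :=
  ∀ y, Many W (Cl G W ρ {y}) T

/-- A connected set. -/
def Conn (G : SimpleGraph V) (S : Set V) : Prop := ∀ x ∈ S, ∀ y ∈ S, Lk G S x y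

/-- A smallest cut between two proper sequences. -/
def Eff (G : SimpleGraph V) (A : Set V) : Prop :=
  ∃ α β, QR G α ∧ QR G β ∧ Sp G α β A ∧ ∀ B, Sp G α β B → (cb G 1 A).ncard ≤ (cb G 1 B).ncard

/-- An invariant nested family of sets. -/
structure NFam (G : SimpleGraph V) (N : Set (Set V)) : Prop where
  compl : ∀ A ∈ N, Aᶜ ∈ N
  nest : ∀ A ∈ N, ∀ B ∈ N, A ⊆ B ∨ A ⊆ Bᶜ ∨ Aᶜ ⊆ B ∨ Aᶜ ⊆ Bᶜ
  inv : ∀ A ∈ N, ∀ φ : G ≃g G, φ ⁻¹' A ∈ N

/-- The pairs leaving `B` reached from `e` through triangles of diameter at most `L`. -/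
def trk (G : SimpleGraph V) (L : ℕ) (B : Set V) (e : V × V) : Set (V × V) :=
  {q | Relation.ReflTransGen (fun p q : V × V => p ∈ cb G L B ∧ q ∈ cb G L B ∧
    (p.1 = q.1 ∧ G.dist p.2 q.2 ≤ L ∨ p.2 = q.2 ∧ G.dist p.1 q.1 ≤ L)) e q}

instance dartAction (G : SimpleGraph V) : MulAction (G ≃g G) G.Dart where
  smul φ d := ⟨(φ d.fst, φ d.snd), φ.map_adj_iff.2 d.adj⟩
  one_smul _ := rfl
  mul_smul _ _ _ := rfl

open Classical in
/-- The signed indicator of a set of pairs on darts. -/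
noncomputable def sg (G : SimpleGraph V) (τ : Set (V × V)) (d : G.Dart) : ℝ :=
  (if d.toProd ∈ τ then 1 else 0) - if d.toProd.swap ∈ τ then 1 else 0

/-! ### Sets with an action and matrices -/

/-- Finite nonempty equivariant supports, each point lying in finitely many of them. -/
structure GS (Γ : Type) [Group Γ] [MulAction Γ V] {X : Type} [MulAction Γ X] (s : X → Set V) :
    Prop where
  fin : ∀ x, (s x).Finite
  ne : ∀ x, (s x).Nonempty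
  eqv : ∀ (g : Γ) x, ∀ v ∈ s x, g • v ∈ s (g • x)
  lf : ∀ v, {x | v ∈ s x}.Finite

/-- The mass of `φ` received by `o` when each `x` spreads its mass over its support. -/
noncomputable def wsum {X : Type} (s : X → Set V) (o : V) (φ : X → ℝ) : ℝ :=
  ∑ᶠ x ∈ {x | o ∈ s x}, φ x / (s x).ncard

/-- Bounded entries and boundedly many nonzero entries in each row and column. -/
def Mat {X Y : Type} (t : Y → X → ℝ) : Prop :=
  ∃ b : ℕ, (∀ y x, |t y x| ≤ b) ∧ (∀ y, {x | t y x ≠ 0}.encard ≤ b) ∧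
    ∀ x, {y | t y x ≠ 0}.encard ≤ b

/-- An invariant matrix. -/
def Inv (Γ : Type) [Group Γ] {X Y : Type} [MulAction Γ X] [MulAction Γ Y] (t : Y → X → ℝ) : Prop :=
  ∀ (g : Γ) y x, t (g • y) (g • x) = t y x

/-- The matrix applied to a function. -/
noncomputable def app {X Y : Type} (t : Y → X → ℝ) (c : X → ℝ) (y : Y) : ℝ := ∑ᶠ x, t y x * c x

/-- Square summable functions. -/
def L2 {X : Type} (c : X → ℝ) : Prop := Summable fun x => c x ^ 2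

/-- The square summable kernel. -/
def Ker {X Y : Type} (t : Y → X → ℝ) : Set (X → ℝ) := {c | L2 c ∧ ∀ y, app t c y = 0}

/-- A transitive action with the unimodularity bijection at `o`. -/
def TU (Γ : Type) [Group Γ] [MulAction Γ V] (o : V) : Prop :=
  (∀ x y : V, ∃ g : Γ, g • x = y) ∧ ∃ σ : V ≃ V, ∀ y, ∃ g : Γ, g • o = σ y ∧ g • y = o

/-- Equal orbit counts for a transitive group give unimodularity. -/
def UMSpec : Prop := ∀ {V : Type} (G : SimpleGraph V) [Fact G.Connected] [G.LocallyFinite]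
  (Γ : Subgroup (G ≃g G)), (∀ u v, ∃ φ ∈ Γ, φ u = v) →
  (∀ x y, {z | ∃ φ ∈ Γ, φ x = x ∧ φ y = z}.ncard = {z | ∃ φ ∈ Γ, φ y = y ∧ φ x = z}.ncard) → UM G

/-- Bounded matrices preserve square summability. -/
def MatSpec : Prop := ∀ {X Y : Type} (t : Y → X → ℝ) (c : X → ℝ), Mat t → L2 c → L2 (app t c)

/-- Mass transport along an equivariant map with finite fibres. -/
def FibSpec : Prop := ∀ {V Γ X Y : Type} [Group Γ] [MulAction Γ V] [MulAction Γ X] [MulAction Γ Y]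
  (o : V) (s : X → Set V) (s' : Y → Set V) (π : X → Y) (φ : X → ℝ), TU Γ o → GS Γ s → GS Γ s' →
  (∀ (g : Γ) x, π (g • x) = g • π x) → (∀ y, {x | π x = y}.Finite) →
  (∀ (g : Γ) x, φ (g • x) = φ x) →
  wsum s o φ = wsum s' o fun y => ∑ᶠ x ∈ {x | π x = y}, φ x

/-- The von Neumann dimension of kernels: nonnegative, monotone, faithful and additive. -/
def DimSpec : Prop := ∀ {V Γ E : Type} [Group Γ] [MulAction Γ V] [MulAction Γ E] (o : V)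
  (s : E → Set V), TU Γ o → GS Γ s → ∃ kd : Set (E → ℝ) → ℝ, (∀ A, 0 ≤ kd A) ∧
  (∀ {X X' : Type} [MulAction Γ X] [MulAction Γ X'] (t : X → E → ℝ) (t' : X' → E → ℝ),
    Mat t → Mat t' → Inv Γ t → Inv Γ t' → Ker t ⊆ Ker t' →
    kd (Ker t) ≤ kd (Ker t') ∧ (kd (Ker t') ≤ kd (Ker t) → Ker t' ⊆ Ker t)) ∧
  ∀ {X R : Type} [MulAction Γ X] [MulAction Γ R] (sX : X → Set V) (sR : R → Set V)
    (t : X → E → ℝ) (D : X → R → ℝ), GS Γ sX → GS Γ sR → Mat t → Mat D → Inv Γ t → Inv Γ D →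
    (∀ b ∈ Ker D, b = 0) →
    (∀ c, c ∈ Ker (fun e x => t x e) ↔ ∃ b, L2 b ∧ c = app D b) →
    kd (Ker t) = wsum s o 1 - wsum sX o 1 + wsum sR o 1

/-! ### Cuts -/

/-- An infinite chain of nested smallest cuts through an edge. -/
structure Lim (G : SimpleGraph V) (N : Set (Set V)) (u v : V) (A : ℕ → Set V) : Prop where
  fam : NFam G N
  eff : ∀ B ∈ N, Eff G B ∧ Tight G B
  adj : G.Adj u v
  mono : StrictMono A
  mem : ∀ j, A j ∈ N ∧ u ∈ A j ∧ v ∉ A j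

/-- Any two ends are separated by a bounded number of vertices. -/
def Acc (G : SimpleGraph V) : Prop := ∃ k : ℕ, ∀ s ∈ G.end, ∀ t ∈ G.end, s ≠ t →
  ∃ X : Finset V, X.card ≤ k ∧ s (Opposite.op X) ≠ t (Opposite.op X)

/-- A graph that is not accessible has an infinite chain of nested smallest cuts through an edge. -/
def ChainSpec : Prop := ∀ {V : Type} (G : SimpleGraph V) [Fact G.Connected] [G.LocallyFinite],
  VT G → ¬ Acc G → ∃ N u v A, Lim G N u v A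

/-- In a unimodular graph the stabiliser of the union of the chain has an infinite orbit. -/
def UNcSpec : Prop := ∀ {V : Type} (G : SimpleGraph V) [Fact G.Connected] [G.LocallyFinite],
  VT G → UM G → ∀ N u v A, Lim G N u v A → ¬ FinOrb (stab (⋃ j, A j) : Subgroup (G ≃g G))

/-- Some chain has a union whose stabiliser has an infinite orbit. -/
def NcSpec : Prop := ∀ {V : Type} (G : SimpleGraph V) [Fact G.Connected] [G.LocallyFinite],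
  VT G → ¬ Acc G →
  ∃ N u v A, Lim G N u v A ∧ ¬ FinOrb (stab (⋃ j, A j) : Subgroup (G ≃g G))

/-- In a unimodular graph the orbits of an open group have comparable sizes. -/
def LargeSpec : Prop := ∀ {V : Type} (G : SimpleGraph V) [Fact G.Connected] [G.LocallyFinite]
  (W : Subgroup (G ≃g G)) (u v : V), VT G → UM G → G.Adj u v → FinOrb W →
  (∀ φ : G ≃g G, φ u = u → φ v = v → φ ∈ W) →
  ∀ y : V, (MulAction.orbit W u).ncard ≤ G.degree u * (MulAction.orbit W y).ncard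

/-- The tracks of a nested family of finite cuts have bounded size. -/
def ScatterSpec : Prop := ∀ {V : Type} (G : SimpleGraph V) [Fact G.Connected] [G.LocallyFinite]
  (N : Set (Set V)), VT G → NFam G N → (∀ B ∈ N, (cb G 1 B).Finite) →
  ∀ L, ∃ s : ℕ, ∀ B ∈ N, ∀ e ∈ cb G L B, (trk G L B e).encard ≤ s

/-- The exact sequence of tracks and regions, and the arithmetic of its dimensions. -/
def TrackSpec : Prop := ∀ {V : Type} (G : SimpleGraph V) [Fact G.Connected] [G.LocallyFinite]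
  (M : Set (Set V)) (P : Subgroup (G ≃g G)) (o u v : V), VT G → UM G → NFam G M → FinOrb P →
  (∀ φ : G ≃g G, φ u = u → φ v = v → φ ∈ P) →
  (∀ B ∈ M, ∃ g : G ≃g G, ∀ φ ∈ stab B, g⁻¹ * φ * g ∈ P) →
  ∃ m : ℝ, 0 < m ∧ ∀ L s : ℕ, 1 ≤ L → (∀ B ∈ M, ∀ e ∈ cb G L B, (trk G L B e).encard ≤ s) →
    ∃ (X R : Type) (_ : MulAction (G ≃g G) X) (_ : MulAction (G ≃g G) R) (sX : X → Set V)
      (sR : R → Set V) (t : X → G.Dart → ℝ) (D : X → R → ℝ),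
      GS (G ≃g G) sX ∧ GS (G ≃g G) sR ∧ Mat t ∧ Mat D ∧ Inv (G ≃g G) t ∧ Inv (G ≃g G) D ∧
      (∀ b ∈ Ker D, b = 0) ∧ (∀ c, c ∈ Ker (fun e x => t x e) ↔ ∃ b, L2 b ∧ c = app D b) ∧
      Set.range t = {z | ∃ B ∈ M, ∃ e ∈ cb G L B, z = sg G (trk G L B e)} ∧
      ∃ (p : ℕ) (q : Fin p → ℝ), (∀ i, q i = 1 / 2 ∨ ∃ k : ℕ, 3 ≤ k ∧ q i = 1 / 2 - 1 / k) ∧
        wsum sX o 1 - wsum sR o 1 = m * ∑ i, q i

/-- A smallest cut contains a deep connected set with boundedly many translates. -/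
def DeepSpec : Prop := ∀ {V : Type} (G : SimpleGraph V) [Fact G.Connected] [G.LocallyFinite]
  (Δ R : ℕ) (A : Set V), (∀ x, G.degree x ≤ Δ) → Eff G A →
  ∃ D : Set V, D.Nonempty ∧ Conn G D ∧ (∀ x ∈ D, ∀ y ∉ A, R < G.dist x y) ∧
    {D' | ∃ φ ∈ (stab A : Subgroup (G ≃g G)), D' = φ '' D}.encard ≤ ((Δ + 1) ^ (R + 2) : ℕ)

/-- A model of the complete graph on `h` vertices. -/
def ClMinor {ι : Type} (H : SimpleGraph ι) (h : ℕ) : Prop :=
  ∃ B : Fin h → Set ι, (∀ a, (B a).Nonempty ∧ Conn H (B a)) ∧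
    ∀ a b, a ≠ b → Disjoint (B a) (B b) ∧ ∃ x ∈ B a, ∃ y ∈ B b, H.Adj x y

/-- Dense finite graphs have complete minors. -/
def MaderSpec : Prop := ∀ (h : ℕ) {ι : Type} [Finite ι] [Nonempty ι] (H : SimpleGraph ι),
  2 ^ h * Nat.card ι ≤ H.edgeSet.ncard → ClMinor H h

/-- Either a fat clique or a large group fixing many far hubs. -/
def HubSpec : Prop := ∀ Δ K h s R n : ℕ, ∃ n' : ℕ, ∀ {V : Type} (G : SimpleGraph V)
  [Fact G.Connected] [G.LocallyFinite] (P : Subgroup (G ≃g G)) (A : Set V),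
  (∀ x, G.degree x ≤ Δ) → Eff G A → (∀ φ ∈ P, φ ∈ stab A ∨ Disjoint (φ '' A) A) →
  (∀ F : Finset (G ≃g G), (∀ φ ∈ F, φ ∈ P) →
    ∃ Q, FinOrb Q ∧ Q ≤ P ∧ P ⊓ stab A ≤ Q ∧ ∀ φ ∈ F, φ ∈ Q) →
  {B | ∃ φ ∈ P, B = φ '' A}.Infinite → Large (P ⊓ stab A) n' →
  FatCl G K h ∨ ∃ (W Q : Subgroup (G ≃g G)) (Z : Set V) (g : ℕ → G ≃g G), W ≤ Q ∧ Q ≤ P ∧
    FinOrb Q ∧ Large W n ∧ Z.Finite ∧ Z.Nonempty ∧ Conn G Z ∧
    (∀ i < s, g i ∈ Q ∧ W ≤ stab (g i '' Z)) ∧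
    ∀ i < s, ∀ j < s, i ≠ j → Far G R (g i '' Z) (g j '' Z)

/-! ### Elliptic groups -/

/-- A group of elliptic elements has only one direction to infinity. -/
def OmegaSpec : Prop := ∀ {V : Type} (G : SimpleGraph V) [Fact G.Connected]
  (P : Subgroup (G ≃g G)) (o : V) (r : ℕ), Ell P → ∀ φ ∈ P, ∀ ψ ∈ P, 2 * r + 2 ≤ G.dist o (φ o) →
  2 * r + 2 ≤ G.dist o (ψ o) → Lk G {z | r < G.dist o z} (φ o) (ψ o)

/-- Having an infinite orbit is an open condition. -/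
def WillisSpec : Prop := ∀ {V : Type} (G : SimpleGraph V) [Fact G.Connected] [G.LocallyFinite]
  (g : G ≃g G) (y : V), (Set.range fun n : ℕ => (g ^ n) y).Infinite →
  ∃ k, ∀ g' : G ≃g G, (∀ i < k, g' ((g ^ i) y) = (g ^ (i + 1)) y) →
    (Set.range fun n : ℕ => (g' ^ n) y).Infinite

/-- An infinite graph with a transitive group of elliptic elements has all fat cliques. -/
def EllSpec : Prop := ∀ {V : Type} [Infinite V] (G : SimpleGraph V) [Fact G.Connected]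
  [G.LocallyFinite] (P : Subgroup (G ≃g G)), Ell P → (∀ x y, ∃ φ ∈ P, φ x = y) →
  ∀ K h, FatCl G K h

/-- Clusters of finite orbits have bounded size. -/
def ClusterSpec : Prop := ∀ {V : Type} (G : SimpleGraph V) [Fact G.Connected] [G.LocallyFinite]
  (K h ρ : ℕ), VT G → ¬ FatCl G K h → ∃ n : ℕ, ∀ (W : Subgroup (G ≃g G)) (y : V), FinOrb W →
  (MulAction.orbit (Cl G W ρ {y}) y).ncard ≤ n

/-! ### Tokens, combs and legs -/

/-- Far tokens running along the translates of a chain of segments. -/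
def TokenSpec : Prop := ∀ K h : ℕ, ∃ P ω : ℕ, ∀ {V : Type} (G : SimpleGraph V) [Fact G.Connected]
  (W : Subgroup (G ≃g G)) (S : ℕ → Set V) (m : ℕ),
  (∀ t ≤ m, (S t).Nonempty ∧ Conn G (S t)) → (∀ t < m, (S t ∩ S (t + 1)).Nonempty) →
  (∀ a b, a + 2 ≤ b → b ≤ m → ∀ w ∈ W, ∀ x ∈ S a, ∀ y ∈ S b, 2 * P ≤ G.dist x (w y)) →
  (∀ a ≤ m, Many W (Cl G W P (⋃ t ∈ {t | a ≤ t ∧ t ≤ a + ω ∧ t ≤ m}, S t)) (h * h)) →
  ∃ (T : Fin h → Set V) (w : Fin h → ℕ → G ≃g G) (r : ℕ → ℕ), (∀ a, Conn G (T a)) ∧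
    (∀ a, ∀ t ≤ m, w a t ∈ W ∧ ∀ x ∈ S t, w a t x ∈ T a) ∧
    (∀ a b, a ≠ b → Far G K (T a) (T b)) ∧
    ∀ t ≤ m, r t ≤ P ∧ ∀ b, ∀ z ∈ T b,
      (∃ t' ≤ m, t' ≠ t ∧ ∃ g ∈ W, ∃ y ∈ S t', G.dist z (g y) ≤ P) ∨
      (∃ g ∈ W, ∃ y ∈ S t, G.dist z (g y) ≤ r t) ∧
        ∀ a, a ≠ b → ∀ x ∈ S t, 3 * r t + 3 * K ≤ G.dist z (w a t x)

/-- A spine with many hubs attached along it. -/
structure Comb (G : SimpleGraph V) (W : Subgroup (G ≃g G)) (K k c ω P T s : ℕ) (S : ℕ → Set V)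
    (m : ℕ) (t : ℕ → ℕ) (γ : ℕ → ℕ → V) (H : ℕ → Set V) (C : ℕ → Subgroup (G ≃g G)) : Prop where
  conn : ∀ a ≤ m, (S a).Nonempty ∧ Conn G (S a)
  meet : ∀ a < m, (S a ∩ S (a + 1)).Nonempty
  far : ∀ a b, a ≤ b → b ≤ m → ∀ w ∈ W, ∀ x ∈ S a, ∀ y ∈ S b,
    min c ((b - a) / 3) ≤ G.dist x (w y) + 1
  many : ∀ a ≤ m, Many W (Cl G W P (⋃ b ∈ {b | a ≤ b ∧ b ≤ a + ω ∧ b ≤ m}, S b)) T
  att : ∀ i < s, t i ≤ m ∧ γ i 0 ∈ S (t i)
  step : ∀ i < s, ∀ l < c, G.dist (γ i l) (γ i (l + 1)) ≤ 1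
  away : ∀ i < s, ∀ l ≤ c, ∀ a ≤ m, ∀ w ∈ W, ∀ x ∈ S a, l ≤ 2 * G.dist (γ i l) (w x)
  idx : ∀ i < s, C i ≤ W ∧ (C i).relIndex W ≠ 0 ∧ (C i).relIndex W ≤ k
  hub : ∀ i < s, Conn G (H i) ∧ ∀ g ∈ C i, g (γ i c) ∈ H i
  off : ∀ i < s, ∀ z ∈ H i, ∀ a ≤ m, ∀ w ∈ W, ∀ x ∈ S a, c ≤ 2 * G.dist z (w x)
  sep : ∀ i < s, ∀ j < s, i ≠ j → ∀ w ∈ W, ∀ x ∈ H i ∪ γ i '' Set.Iic c,
    ∀ y ∈ H j ∪ γ j '' Set.Iic c, K ≤ G.dist x (w y)

/-- A comb gives a fat clique. -/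
def CombSpec : Prop := ∀ K h k : ℕ, ∃ c ω P T s : ℕ, ∀ {V : Type} (G : SimpleGraph V)
  [Fact G.Connected] (W : Subgroup (G ≃g G)) S m t γ H C, Comb G W K k c ω P T s S m t γ H C →
  FatCl G K h

/-- The elimination process for points moving in a metric space. -/
def KillSpec : Prop := ∀ (n D : ℕ) (δ : ℕ → ℕ → ℕ → ℕ), (∀ i j t, δ i j t = δ j i t) →
  (∃ I : Finset ℕ, (∀ i ∈ I, i < n * 2 ^ n) ∧ n ≤ I.card ∧
    ∀ i ∈ I, ∀ j ∈ I, i ≠ j → ∀ t, D < δ i j t) ∨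
  ∃ i < n * 2 ^ n, ∃ (J : Finset ℕ) (τ r : ℕ → ℕ), i ∉ J ∧ n ≤ J.card ∧
    (∀ j ∈ J, j < n * 2 ^ n ∧ D ≤ r j ∧ r j ≤ D * 10 ^ (n * 2 ^ n) ∧ δ i j (τ j) ≤ r j ∧
      ∀ t < τ j, D < δ i j t) ∧
    ∀ j ∈ J, ∀ l ∈ J, j ≠ l → (∀ t < τ j, t < τ l → D < δ j l t) ∧
      (τ j < τ l → 10 * r j < δ i l (τ j))

/-- Rays leaving far invariant hubs, with a common invariant level, linked at high levels. -/
structure Legs (G : SimpleGraph V) (W : Subgroup (G ≃g G)) (f : V → ℕ) (N R : ℕ) (Z : ℕ → Set V)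
    (lam : ℕ → ℕ → V) : Prop where
  inv : ∀ w ∈ W, ∀ x, f (w x) = f x
  lip : ∀ x y, f x ≤ f y + G.dist x y
  zinv : ∀ i < N, W ≤ stab (Z i)
  zconn : ∀ i < N, Conn G (Z i)
  zlev : ∀ i < N, ∀ x ∈ Z i, f x = 0
  zfar : ∀ i < N, ∀ j < N, i ≠ j → Far G R (Z i) (Z j)
  start : ∀ i < N, lam i 0 ∈ Z i
  step : ∀ i < N, ∀ t, G.Adj (lam i t) (lam i (t + 1))
  lev : ∀ i < N, ∀ t, f (lam i t) = t
  link : ∀ i < N, ∀ j < N, ∀ r t, r < t → Lk G {z | r < f z} (lam i t) (lam j t)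

/-- Legs exist. -/
def LegSpec : Prop := ∀ {V : Type} (G : SimpleGraph V) [Fact G.Connected] [G.LocallyFinite]
  (P Q W : Subgroup (G ≃g G)) (Z : Set V) (g : ℕ → G ≃g G) (s R : ℕ), Ell P → ¬ FinOrb P →
  W ≤ Q → Q ≤ P → FinOrb Q → Z.Finite → Z.Nonempty → Conn G Z →
  (∀ i < s, g i ∈ Q ∧ W ≤ stab (g i '' Z)) →
  (∀ i < s, ∀ j < s, i ≠ j → Far G R (g i '' Z) (g j '' Z)) →
  ∃ f lam, Legs G W f s R (fun i => g i '' Z) lam

/-- Many legs running into one leg give a fat clique. -/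
def TeethSpec : Prop := ∀ K h : ℕ, ∃ n D₀ : ℕ, ∀ D, D₀ ≤ D → ∀ M, ∃ R ρ T : ℕ, ∀ {V : Type}
  (G : SimpleGraph V) [Fact G.Connected] (W : Subgroup (G ≃g G)) f N Z lam, Big G W ρ T →
  Legs G W f N R Z lam → ∀ i < N, ∀ (J : Finset ℕ) (τ r : ℕ → ℕ), i ∉ J → n ≤ J.card →
  (∀ j ∈ J, j < N ∧ D ≤ r j ∧ r j ≤ M ∧ (∃ w ∈ W, G.dist (lam i (τ j)) (w (lam j (τ j))) ≤ r j) ∧
    ∀ t < τ j, ∀ w ∈ W, D < G.dist (lam i t) (w (lam j t))) →
  (∀ j ∈ J, ∀ l ∈ J, j ≠ l →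
    (∀ t < τ j, t < τ l → ∀ w ∈ W, D < G.dist (lam j t) (w (lam l t))) ∧
    (τ j < τ l → ∀ w ∈ W, 10 * r j < G.dist (lam i (τ j)) (w (lam l (τ j))))) → FatCl G K h

/-- Many legs that stay far from each other give a fat clique. -/
def SurvSpec : Prop := ∀ K h : ℕ, ∃ n D ρ T : ℕ, ∀ {V : Type} (G : SimpleGraph V)
  [Fact G.Connected] (W : Subgroup (G ≃g G)) f N Z lam, Big G W ρ T → Legs G W f N D Z lam →
  ∀ I : Finset ℕ, (∀ i ∈ I, i < N) → n ≤ I.card →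
  (∀ i ∈ I, ∀ j ∈ I, i ≠ j → ∀ t, ∀ w ∈ W, D < G.dist (lam i t) (w (lam j t))) → FatCl G K h

end Pool.Agent.MP_77f003_co.H49
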